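import Pool.Agent.Lib.MP_968cc4_an.COMP1

/-! Module COMP2: Aoki-Rolewicz, completion, and the passage from `V` to an atomic space.
Independent of all other modules. -/

set_option autoImplicit false

namespace Pool.Agent.Atomic

open Finset

/-- The completion of a vector space with an additive norm which is homogeneous of degree `1/2`. -/
theorem exists_completion {V : Type} [AddCommGroup V] [Module ℝ V] (N : V → ℝ)
    (hN0 : ∀ x, 0 ≤ N x) (hNadd : ∀ x y, N (x + y) ≤ N x + N y)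
    (hNsmul : ∀ (c : ℝ) x, N (c • x) = Real.sqrt |c| * N x) (hNz : ∀ x, N x = 0 → x = 0) :
    ∃ (E : Type) (_ : NormedAddCommGroup E) (_ : Module ℝ E) (_ : CompleteSpace E) (ι : V →ₗ[ℝ] E),
      (∀ (c : ℝ) (x : E), ‖c • x‖ = Real.sqrt |c| * ‖x‖) ∧ (∀ x, ‖ι x‖ = N x) ∧ DenseRange ι := by
  let f : AddGroupNorm V :=
    { toFun := N
      map_zero' := by
        have := hNsmul 0 0
        simpa using this
      add_le' := hNadd
      neg' := fun x => by
        have := hNsmul (-1) x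
        simpa using this
      eq_zero_of_map_eq_zero' := hNz }
  let _ : NormedAddCommGroup V := f.toNormedAddCommGroup
  have hnorm : ∀ x : V, ‖x‖ = N x := fun x => rfl
  have : UniformContinuousConstSMul ℝ V := ⟨fun c => by
    refine AddMonoidHomClass.uniformContinuous_of_bound (DistribSMul.toAddMonoidHom V c)
      (Real.sqrt |c|) fun x => ?_
    exact (hNsmul c x).le⟩
  refine ⟨UniformSpace.Completion V, inferInstance, inferInstance, inferInstance,
    { toFun := fun x => (x : UniformSpace.Completion V)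
      map_add' := fun x y => UniformSpace.Completion.coe_add x y
      map_smul' := fun c x => UniformSpace.Completion.coe_smul c x }, ?_, ?_, ?_⟩
  · intro c x
    induction x using UniformSpace.Completion.induction_on with
    | hp =>
      exact isClosed_eq ((continuous_const_smul c).norm) (continuous_const.mul continuous_norm)
    | ih a =>
      rw [← UniformSpace.Completion.coe_smul, UniformSpace.Completion.norm_coe,
        UniformSpace.Completion.norm_coe]
      exact hNsmul c a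
  · intro x
    exact UniformSpace.Completion.norm_coe x
  · exact UniformSpace.Completion.denseRange_coe

section Riesz

variable {E : Type} [NormedAddCommGroup E] [Module ℝ E]

theorem continuousSMul_of (hs : ∀ (c : ℝ) (x : E), ‖c • x‖ = Real.sqrt |c| * ‖x‖) :
    ContinuousSMul ℝ E := by
  refine ⟨?_⟩
  rw [continuous_iff_continuousAt]
  rintro ⟨c₀, x₀⟩
  rw [ContinuousAt, tendsto_iff_norm_sub_tendsto_zero]
  have h1 : Filter.Tendsto (fun p : ℝ × E => Real.sqrt |p.1| * ‖p.2 - x₀‖ +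
      Real.sqrt |p.1 - c₀| * ‖x₀‖) (nhds (c₀, x₀)) (nhds 0) := by
    have hc : Continuous fun p : ℝ × E => Real.sqrt |p.1| * ‖p.2 - x₀‖ +
      Real.sqrt |p.1 - c₀| * ‖x₀‖ := by fun_prop
    have := hc.tendsto (c₀, x₀)
    simpa using this
  refine squeeze_zero (fun _ => norm_nonneg _) (fun p => ?_) h1
  have h2 : p.1 • p.2 - c₀ • x₀ = p.1 • (p.2 - x₀) + (p.1 - c₀) • x₀ := by
    rw [smul_sub, sub_smul]
    abel
  change ‖p.1 • p.2 - c₀ • x₀‖ ≤ _
  rw [h2]
  refine (norm_add_le _ _).trans ?_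
  rw [hs, hs]

/-- A vector of a subspace far from a finite dimensional subspace. -/
theorem exists_far (hs : ∀ (c : ℝ) (x : E), ‖c • x‖ = Real.sqrt |c| * ‖x‖)
    (S F : Submodule ℝ E) [FiniteDimensional ℝ F] (hFS : F ≤ S) (hS : ¬ FiniteDimensional ℝ S) :
    ∃ z ∈ S, ‖z‖ = 9 / 20 ∧ ∀ g ∈ F, 2 / 5 ≤ ‖g - z‖ := by
  have := continuousSMul_of hs
  have hcl : IsClosed (F : Set E) := F.closed_of_finiteDimensional
  obtain ⟨x, hxS, hxF⟩ : ∃ x ∈ S, x ∉ F := by
    by_contra hcon
    push Not at hcon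
    have : S = F := le_antisymm hcon hFS
    rw [this] at hS
    exact hS inferInstance
  have hne : (F : Set E).Nonempty := ⟨0, F.zero_mem⟩
  have hd : 0 < Metric.infDist x F := (hcl.notMem_iff_infDist_pos hne).mp hxF
  set d := Metric.infDist x (F : Set E) with hdd
  obtain ⟨f, hf, hfd⟩ := (Metric.infDist_lt_iff hne).mp (show Metric.infDist x (F : Set E) < 9 / 8 * d by
    linarith)
  rw [dist_eq_norm] at hfd
  have hdle : ∀ g ∈ F, d ≤ ‖x - g‖ := by
    intro g hg
    rw [← dist_eq_norm]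
    exact Metric.infDist_le_dist_of_mem hg
  have hn : 0 < ‖x - f‖ := hd.trans_le (hdle f hf)
  set c : ℝ := (9 / 20 / ‖x - f‖) ^ 2 with hc
  have hc0 : 0 < c := by positivity
  have hsc : Real.sqrt |c| = 9 / 20 / ‖x - f‖ := by
    rw [abs_of_pos hc0, hc, Real.sqrt_sq (by positivity)]
  refine ⟨c • (x - f), S.smul_mem _ (S.sub_mem hxS (hFS hf)), ?_, fun g hg => ?_⟩
  · rw [hs, hsc]
    field_simp
  · have h1 : g - c • (x - f) = (-c) • (x - (f + c⁻¹ • g)) := by
      rw [neg_smul, smul_sub, smul_sub, smul_add, smul_smul, mul_inv_cancel₀ hc0.ne', one_smul]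
      abel
    rw [h1, hs, abs_neg, hsc]
    have h2 := hdle (f + c⁻¹ • g) (F.add_mem hf (F.smul_mem _ hg))
    have h3 : 9 / 20 / ‖x - f‖ * d ≤ 9 / 20 / ‖x - f‖ * ‖x - (f + c⁻¹ • g)‖ :=
      mul_le_mul_of_nonneg_left h2 (by positivity)
    refine le_trans ?_ h3
    rw [div_mul_eq_mul_div, le_div_iff₀ hn]
    linarith

theorem exists_riesz_seq (hs : ∀ (c : ℝ) (x : E), ‖c • x‖ = Real.sqrt |c| * ‖x‖)
    (S : Submodule ℝ E) (hS : ¬ FiniteDimensional ℝ S) :
    ∃ z : ℕ → E, (∀ n, z n ∈ S ∧ ‖z n‖ = 9 / 20) ∧ ∀ m n, m ≠ n → 2 / 5 ≤ ‖z m - z n‖ := by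
  obtain ⟨f, hf, hf'⟩ := exists_seq_of_forall_finset_exists
    (fun x : E => x ∈ S ∧ ‖x‖ = 9 / 20) (fun x y => 2 / 5 ≤ ‖x - y‖) (by
      intro s hs'
      have hle : Submodule.span ℝ (s : Set E) ≤ S :=
        Submodule.span_le.mpr fun x hx => (hs' x hx).1
      obtain ⟨z, h1, h2, h3⟩ := exists_far hs S (Submodule.span ℝ (s : Set E)) hle hS
      exact ⟨z, ⟨h1, h2⟩, fun x hx => h3 x (Submodule.subset_span hx)⟩)
  refine ⟨f, hf, fun m n hmn => ?_⟩
  rcases lt_or_gt_of_ne hmn with h | h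
  · exact hf' m n h
  · rw [norm_sub_rev]
    exact hf' n m h

end Riesz

theorem atomic_of_main (q : (ℕ →₀ ℝ) → ℝ)
    (h0 : ∀ x, q x = 0 → x = 0)
    (hadd : ∀ x y, q (x + y) ≤ (1 + 1 / 1024) * (q x + q y))
    (hsmul : ∀ (c : ℝ) x, q (c • x) = |c| * q x)
    (hmain : ∀ z : ℕ → (ℕ →₀ ℝ), (∀ α, q (z α) ≤ 1) → (∀ α β, α ≠ β → 1 / 64 ≤ q (z α - z β)) →
      ∀ (k : ℕ) (η : ℝ), 0 < η → ∃ c : ℕ →₀ ℝ, ∑ α ∈ c.support, |c α| ≤ 1 ∧
        q (c.sum (fun α t => t • z α) - Finsupp.single k 1) ≤ η) :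
    ∃ (E : Type) (_ : AddCommGroup E) (_ : Module ℝ E) (Q : E → ℝ),
      (∀ x : E, Q x = 0 → x = 0) ∧
      (∀ x y : E, Q (x + y) ≤ 2 * (Q x + Q y)) ∧
      (∀ (c : ℝ) (x : E), Q (c • x) = |c| * Q x) ∧
      (∀ u : ℕ → E, (∀ ε : ℝ, 0 < ε → ∃ N : ℕ, ∀ m ≥ N, ∀ n ≥ N, Q (u m - u n) < ε) →
        ∃ x : E, ∀ ε : ℝ, 0 < ε → ∃ N : ℕ, ∀ n ≥ N, Q (u n - x) < ε) ∧
      ¬ FiniteDimensional ℝ E ∧
      ∀ S : Submodule ℝ E, ¬ FiniteDimensional ℝ S →
        (∀ (u : ℕ → E) (x : E), (∀ n, u n ∈ S) →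
          (∀ ε : ℝ, 0 < ε → ∃ N : ℕ, ∀ n ≥ N, Q (u n - x) < ε) → x ∈ S) → S = ⊤ := by
  obtain ⟨N, hN0, hNadd, hNsmul, hNq, hqN⟩ := aoki q hadd hsmul
  have hNz : ∀ x, N x = 0 → x = 0 := by
    intro x hx
    have h1 := hqN x
    have h2 := hNq x
    rw [hx] at h1 h2
    exact h0 x (by linarith)
  obtain ⟨E, iE, iM, iC, ι, hs, hι, hdense⟩ := exists_completion N hN0 hNadd hNsmul hNz
  have hιinj : Function.Injective ι := by
    rw [injective_iff_map_eq_zero]
    intro x hx
    apply hNz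
    rw [← hι, hx, norm_zero]
  have hsq : ∀ (x : E) (ε : ℝ), 0 < ε → (‖x‖ ^ 2 < ε ↔ ‖x‖ < Real.sqrt ε) := by
    intro x ε _
    rw [Real.lt_sqrt (norm_nonneg x)]
  refine ⟨E, inferInstance, inferInstance, fun x => ‖x‖ ^ 2, ?_, ?_, ?_, ?_, ?_, ?_⟩
  · intro x hx
    exact norm_eq_zero.mp (pow_eq_zero_iff two_ne_zero |>.mp hx)
  · intro x y
    have h1 := norm_add_le x y
    have h2 : ‖x + y‖ ^ 2 ≤ (‖x‖ + ‖y‖) ^ 2 := pow_le_pow_left₀ (norm_nonneg _) h1 2
    change ‖x + y‖ ^ 2 ≤ 2 * (‖x‖ ^ 2 + ‖y‖ ^ 2)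
    nlinarith [sq_nonneg (‖x‖ - ‖y‖)]
  · intro c x
    change ‖c • x‖ ^ 2 = |c| * ‖x‖ ^ 2
    rw [hs, mul_pow, Real.sq_sqrt (abs_nonneg c)]
  · intro u hu
    have hcau : CauchySeq u := by
      rw [Metric.cauchySeq_iff]
      intro ε hε
      obtain ⟨n₀, hn₀⟩ := hu (ε ^ 2) (by positivity)
      refine ⟨n₀, fun m hm n hn => ?_⟩
      rw [dist_eq_norm]
      exact lt_of_pow_lt_pow_left₀ 2 hε.le (hn₀ m hm n hn)
    obtain ⟨x, hx⟩ := cauchySeq_tendsto_of_complete hcau
    refine ⟨x, fun ε hε => ?_⟩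
    rw [Metric.tendsto_atTop] at hx
    obtain ⟨n₀, hn₀⟩ := hx (Real.sqrt ε) (Real.sqrt_pos.mpr hε)
    refine ⟨n₀, fun n hn => ?_⟩
    have := hn₀ n hn
    rw [dist_eq_norm] at this
    exact (hsq _ ε hε).mpr this
  · intro hfin
    have : FiniteDimensional ℝ E := hfin
    have : FiniteDimensional ℝ (ℕ →₀ ℝ) := FiniteDimensional.of_injective ι hιinj
    have h1 := Module.Finite.finite_basis (Finsupp.basisSingleOne (R := ℝ) (ι := ℕ))
    exact not_finite ℕ
  · intro S hS hcl
    -- sequential closedness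
    have hcl' : ∀ x : E, (∀ ε : ℝ, 0 < ε → ∃ y ∈ S, ‖y - x‖ < ε) → x ∈ S := by
      intro x hx
      choose y hyS hy using fun n : ℕ => hx (1 / ((n : ℝ) + 1)) (by positivity)
      refine hcl y x hyS fun ε hε => ?_
      obtain ⟨n₀, hn₀⟩ := exists_nat_one_div_lt (Real.sqrt_pos.mpr hε)
      refine ⟨n₀, fun n hn => ?_⟩
      refine (hsq _ ε hε).mpr ((hy n).trans (lt_of_le_of_lt ?_ hn₀))
      have : (n₀ : ℝ) ≤ n := by exact_mod_cast hn
      gcongr
    obtain ⟨zh, hzh, hzsep⟩ := exists_riesz_seq hs S hS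
    have key : ∀ k : ℕ, ι (Finsupp.single k 1) ∈ S := by
      intro k
      refine hcl' _ fun ε hε => ?_
      set δ : ℝ := min (ε / 8) (1 / 20) with hδ
      have hδ0 : 0 < δ := by positivity
      have hδ1 : δ ≤ ε / 8 := min_le_left _ _
      have hδ2 : δ ≤ 1 / 20 := min_le_right _ _
      have happ : ∀ α : ℕ, ∃ z : ℕ →₀ ℝ, ‖ι z - zh α‖ < δ * (1 / 2) ^ α := by
        intro α
        obtain ⟨z, hz⟩ := hdense.exists_dist_lt (zh α) (show 0 < δ * (1 / 2 : ℝ) ^ α by positivity)
        refine ⟨z, ?_⟩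
        rw [← dist_eq_norm, dist_comm]
        exact hz
      choose z hz using happ
      have hz' : ∀ α, ‖ι (z α) - zh α‖ ≤ δ := by
        intro α
        refine (hz α).le.trans ?_
        have : (1 / 2 : ℝ) ^ α ≤ 1 := pow_le_one₀ (by norm_num) (by norm_num)
        nlinarith
      have hq1 : ∀ α, q (z α) ≤ 1 := by
        intro α
        have h1 : N (z α) ≤ 1 / 2 := by
          rw [← hι]
          have h2 : ι (z α) = (ι (z α) - zh α) + zh α := by abel
          rw [h2]
          refine (norm_add_le _ _).trans ?_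
          rw [(hzh α).2]
          have := hz' α
          linarith
        have h2 := hqN (z α)
        have h3 := hN0 (z α)
        nlinarith
      have hq2 : ∀ α β, α ≠ β → 1 / 64 ≤ q (z α - z β) := by
        intro α β hαβ
        have h1 : 3 / 10 ≤ N (z α - z β) := by
          rw [← hι, map_sub]
          have h2 : zh α - zh β = (ι (z α) - ι (z β)) - (ι (z α) - zh α) + (ι (z β) - zh β) := by
            abel
          have h3 := hzsep α β hαβ
          rw [h2] at h3
          have h4 := norm_add_le ((ι (z α) - ι (z β)) - (ι (z α) - zh α)) (ι (z β) - zh β)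
          have h5 := norm_sub_le (ι (z α) - ι (z β)) (ι (z α) - zh α)
          have h6 := hz' α
          have h7 := hz' β
          linarith
        have h2 := hNq (z α - z β)
        nlinarith
      obtain ⟨c, hc1, hc2⟩ := hmain z hq1 hq2 k ((ε / 4) ^ 2) (by positivity)
      refine ⟨c.sum (fun α t => t • zh α), ?_, ?_⟩
      · exact S.sum_mem fun α _ => S.smul_mem _ (hzh α).1
      · have h1 : ‖ι (c.sum (fun α t => t • z α)) - ι (Finsupp.single k 1)‖ ≤ ε / 4 := by
          rw [← map_sub, hι]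
          have h2 := hNq (c.sum (fun α t => t • z α) - Finsupp.single k 1)
          exact (sq_le_sq₀ (hN0 _) (by positivity : (0 : ℝ) ≤ ε / 4)).mp (h2.trans hc2)
        have h3 : ι (c.sum (fun α t => t • z α)) = c.sum (fun α t => t • ι (z α)) := by
          rw [Finsupp.sum, map_sum]
          exact Finset.sum_congr rfl fun α _ => map_smul _ _ _
        have h4 : ‖c.sum (fun α t => t • zh α) - ι (c.sum (fun α t => t • z α))‖ ≤ 2 * δ := by
          rw [h3, Finsupp.sum, Finsupp.sum, ← Finset.sum_sub_distrib]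
          refine (norm_sum_le _ _).trans ?_
          have h5 : ∀ α ∈ c.support, ‖c α • zh α - c α • ι (z α)‖ ≤ δ * (1 / 2) ^ α := by
            intro α hα
            rw [← smul_sub, hs]
            have h6 : |c α| ≤ 1 :=
              (Finset.single_le_sum (f := fun α => |c α|) (fun _ _ => abs_nonneg _) hα).trans hc1
            have h7 : Real.sqrt |c α| ≤ 1 := Real.sqrt_le_one.mpr h6
            rw [norm_sub_rev]
            have h8 := (hz α).le
            have h9 := norm_nonneg (ι (z α) - zh α)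
            calc Real.sqrt |c α| * ‖ι (z α) - zh α‖ ≤ 1 * ‖ι (z α) - zh α‖ :=
                  mul_le_mul_of_nonneg_right h7 h9
              _ ≤ δ * (1 / 2) ^ α := by rw [one_mul]; exact h8
          refine (Finset.sum_le_sum h5).trans ?_
          rw [← Finset.mul_sum, mul_comm 2 δ]
          refine mul_le_mul_of_nonneg_left ?_ hδ0.le
          have h10 := (summable_geometric_two).sum_le_tsum c.support (fun i _ => by positivity)
          rw [tsum_geometric_two] at h10
          exact h10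
        have h5 : c.sum (fun α t => t • zh α) - ι (Finsupp.single k 1) =
            (c.sum (fun α t => t • zh α) - ι (c.sum (fun α t => t • z α))) +
            (ι (c.sum (fun α t => t • z α)) - ι (Finsupp.single k 1)) := by abel
        rw [h5]
        refine (norm_add_le _ _).trans_lt ?_
        linarith
    have hall : ∀ x : ℕ →₀ ℝ, ι x ∈ S := by
      intro x
      induction x using Finsupp.induction_linear with
      | zero => rw [map_zero]; exact S.zero_mem
      | add f g hf hg => rw [map_add]; exact S.add_mem hf hg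
      | single a b =>
        have : (Finsupp.single a b : ℕ →₀ ℝ) = b • Finsupp.single a 1 := by simp
        rw [this, map_smul]
        exact S.smul_mem _ (key a)
    rw [eq_top_iff]
    intro x _
    refine hcl' x fun ε hε => ?_
    obtain ⟨y, hy⟩ := hdense.exists_dist_lt x hε
    refine ⟨ι y, hall y, ?_⟩
    rw [← dist_eq_norm, dist_comm]
    exact hy

end Pool.Agent.Atomic
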