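import Pool.Agent.Lib.MP_968cc4_an.FIN
import Pool.Agent.Lib.MP_968cc4_an.COMP

/-! Assembly: the statement of S05470 -/

set_option autoImplicit false

namespace Pool.Agent.Atomic

theorem not_main :
    ¬ (∀ (𝕜 : Type) [RCLike 𝕜] (E : Type) [AddCommGroup E] [Module 𝕜 E] (q : E → ℝ) (C : ℝ),
    1 ≤ C →
    (∀ x : E, q x = 0 → x = 0) →
    (∀ x y : E, q (x + y) ≤ C * (q x + q y)) →
    (∀ (c : 𝕜) (x : E), q (c • x) = ‖c‖ * q x) →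
    (∀ u : ℕ → E, (∀ ε : ℝ, 0 < ε → ∃ N : ℕ, ∀ m ≥ N, ∀ n ≥ N, q (u m - u n) < ε) →
        ∃ x : E, ∀ ε : ℝ, 0 < ε → ∃ N : ℕ, ∀ n ≥ N, q (u n - x) < ε) →
    ¬ FiniteDimensional 𝕜 E →
    ∃ S : Submodule 𝕜 E, S ≠ ⊤ ∧ ¬ FiniteDimensional 𝕜 ↥S ∧
      ∀ (u : ℕ → E) (x : E), (∀ n, u n ∈ S) →
        (∀ ε : ℝ, 0 < ε → ∃ N : ℕ, ∀ n ≥ N, q (u n - x) < ε) → x ∈ S) := by
  intro h
  obtain ⟨E, i1, i2, Q, hQ0, hQadd, hQsmul, hcompl, hinf, hatom⟩ :=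
    atomic_of_main q (fun x hx => q_eq_zero hx) q_add_le q_smul
      (fun z h1 h2 k η hη => main_V z ⟨h1, h2⟩ k η hη)
  obtain ⟨S, hS1, hS2, hS3⟩ := h ℝ E Q 2 (by norm_num) hQ0 hQadd
    (fun c x => by rw [hQsmul, Real.norm_eq_abs]) hcompl hinf
  exact hS1 (hatom S hS2 hS3)

end Pool.Agent.Atomic
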