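import Pool.Agent.Lib.MP_968cc4_an.Par

/-! Module BAS: `n1`, `pr`, `lg`, `ent`, `prt`, elementary facts on `𝒦_k` -/

set_option autoImplicit false

namespace Pool.Agent.Atomic

open Finset

/-! ### `n1` -/

theorem n1_eq_sum (y : V) (s : Finset ℕ) (h : y.support ⊆ s) : n1 y = ∑ j ∈ s, |y j| := by
  unfold n1
  apply Finset.sum_subset h
  intro x _ hx
  rw [Finsupp.notMem_support_iff.1 hx, abs_zero]

theorem n1_nonneg (y : V) : 0 ≤ n1 y := by
  unfold n1
  exact Finset.sum_nonneg (fun _ _ => abs_nonneg _)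

theorem n1_zero : n1 (0 : V) = 0 := by
  simp [n1]

theorem n1_eq_zero {y : V} (h : n1 y = 0) : y = 0 := by
  unfold n1 at h
  rw [Finset.sum_eq_zero_iff_of_nonneg (fun _ _ => abs_nonneg _)] at h
  ext a
  by_cases ha : a ∈ y.support
  · have := h a ha
    simpa using abs_eq_zero.1 this
  · simpa using Finsupp.notMem_support_iff.1 ha

theorem abs_le_n1 (y : V) (a : ℕ) : |y a| ≤ n1 y := by
  by_cases ha : a ∈ y.support
  · exact Finset.single_le_sum (f := fun j => |y j|) (fun _ _ => abs_nonneg _) ha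
  · rw [Finsupp.notMem_support_iff.1 ha, abs_zero]
    exact n1_nonneg y

theorem n1_smul (c : ℝ) (y : V) : n1 (c • y) = |c| * n1 y := by
  rw [n1_eq_sum (c • y) y.support Finsupp.support_smul, n1, Finset.mul_sum]
  apply Finset.sum_congr rfl
  intro x _
  rw [Finsupp.smul_apply, smul_eq_mul, abs_mul]

theorem n1_neg (y : V) : n1 (-y) = n1 y := by
  have h := n1_smul (-1) y
  rw [neg_smul, one_smul] at h
  rw [h]; simp

theorem n1_add_le (x y : V) : n1 (x + y) ≤ n1 x + n1 y := by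
  classical
  rw [n1_eq_sum (x + y) (x.support ∪ y.support) Finsupp.support_add,
    n1_eq_sum x (x.support ∪ y.support) Finset.subset_union_left,
    n1_eq_sum y (x.support ∪ y.support) Finset.subset_union_right, ← Finset.sum_add_distrib]
  apply Finset.sum_le_sum
  intro a _
  rw [Finsupp.add_apply]
  exact abs_add_le _ _

theorem n1_sub_le (x y : V) : n1 (x - y) ≤ n1 x + n1 y := by
  rw [sub_eq_add_neg]
  refine (n1_add_le x (-y)).trans ?_
  rw [n1_neg]

theorem n1_sum_le (n : ℕ) (y : ℕ → V) : n1 (∑ s ∈ range n, y s) ≤ ∑ s ∈ range n, n1 (y s) := by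
  induction n with
  | zero => simp [n1_zero]
  | succ n ih =>
    rw [Finset.sum_range_succ, Finset.sum_range_succ]
    have := n1_add_le (∑ s ∈ range n, y s) (y n)
    linarith

/-- additivity for nonnegative functions -/
theorem n1_add_of_nonneg {x y : V} (hx : ∀ a, 0 ≤ x a) (hy : ∀ a, 0 ≤ y a) :
    n1 (x + y) = n1 x + n1 y := by
  classical
  rw [n1_eq_sum (x + y) (x.support ∪ y.support) Finsupp.support_add,
    n1_eq_sum x (x.support ∪ y.support) Finset.subset_union_left,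
    n1_eq_sum y (x.support ∪ y.support) Finset.subset_union_right, ← Finset.sum_add_distrib]
  apply Finset.sum_congr rfl
  intro a _
  rw [Finsupp.add_apply, abs_of_nonneg (hx a), abs_of_nonneg (hy a),
    abs_of_nonneg (add_nonneg (hx a) (hy a))]

theorem n1_sum_of_nonneg (n : ℕ) (y : ℕ → V) (hy : ∀ s, s < n → ∀ a, 0 ≤ y s a) :
    n1 (∑ s ∈ range n, y s) = ∑ s ∈ range n, n1 (y s) := by
  induction n with
  | zero => simp [n1_zero]
  | succ n ih =>
    rw [Finset.sum_range_succ, Finset.sum_range_succ, n1_add_of_nonneg, ih]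
    · intro s hs; exact hy s (by omega)
    · intro a
      rw [Finsupp.finsetSum_apply]
      apply Finset.sum_nonneg
      intro s hs
      exact hy s (by have := mem_range.1 hs; omega) a
    · intro a; exact hy n (by omega) a

/-- at each point at most one member of a successive family is nonzero -/
theorem Succs.sum_eq {n : ℕ} {ψ : ℕ → ℕ → ℝ} (h : Succs n ψ) {r : ℕ} (hr : r < n) {a : ℕ}
    (ha : ψ r a ≠ 0) : ∑ r' ∈ range n, ψ r' a = ψ r a := by
  rw [Finset.sum_eq_single r]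
  · intro b hb hbr
    by_contra hne
    rcases lt_or_gt_of_ne hbr with h1 | h1
    · exact lt_irrefl _ (h b r h1 hr a a hne ha)
    · exact lt_irrefl _ (h r b h1 (mem_range.1 hb) a a ha hne)
  · intro hr'
    exact absurd (mem_range.2 hr) hr'

/-- a general form: any function vanishing at zero is additive over a successive family -/
theorem Succs.map_sum {n : ℕ} {ψ : ℕ → ℕ → ℝ} (h : Succs n ψ) (f : ℝ → ℝ) (hf : f 0 = 0) (a : ℕ) :
    f (∑ r ∈ range n, ψ r a) = ∑ r ∈ range n, f (ψ r a) := by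
  by_cases hex : ∃ r, r < n ∧ ψ r a ≠ 0
  · obtain ⟨r, hr, hra⟩ := hex
    rw [h.sum_eq hr hra, Finset.sum_eq_single r]
    · intro b hb hbr
      have : ψ b a = 0 := by
        by_contra hne
        rcases lt_or_gt_of_ne hbr with h1 | h1
        · exact lt_irrefl _ (h b r h1 hr a a hne hra)
        · exact lt_irrefl _ (h r b h1 (mem_range.1 hb) a a hra hne)
      rw [this, hf]
    · intro hr'
      exact absurd (mem_range.2 hr) hr'
  · push Not at hex
    rw [Finset.sum_eq_zero (fun r hr => hex r (mem_range.1 hr)), hf]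
    symm
    apply Finset.sum_eq_zero
    intro r hr
    rw [hex r (mem_range.1 hr), hf]

/-- additivity for successive functions -/
theorem n1_sum_of_succs (n : ℕ) (y : ℕ → V) (hy : Succs n (fun s => ⇑(y s))) :
    n1 (∑ s ∈ range n, y s) = ∑ s ∈ range n, n1 (y s) := by
  classical
  set A : Finset ℕ := (range n).biUnion (fun s => (y s).support) with hA
  have h1 : (∑ s ∈ range n, y s).support ⊆ A := by
    intro a ha
    rw [Finsupp.mem_support_iff, Finsupp.finsetSum_apply] at ha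
    obtain ⟨s, hs, hne⟩ := Finset.exists_ne_zero_of_sum_ne_zero ha
    rw [hA, Finset.mem_biUnion]
    exact ⟨s, hs, Finsupp.mem_support_iff.2 hne⟩
  rw [n1_eq_sum _ A h1]
  have h2 : ∀ s ∈ range n, n1 (y s) = ∑ a ∈ A, |y s a| := by
    intro s hs
    exact n1_eq_sum _ A (Finset.subset_biUnion_of_mem (fun s => (y s).support) hs)
  rw [Finset.sum_congr rfl h2, Finset.sum_comm]
  apply Finset.sum_congr rfl
  intro a _
  rw [Finsupp.finsetSum_apply]
  exact hy.map_sum (fun x => |x|) abs_zero a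

theorem n1_filter_le (P : ℕ → Prop) [DecidablePred P] (y : V) : n1 (y.filter P) ≤ n1 y := by
  rw [n1_eq_sum (y.filter P) y.support (by
    intro a ha
    rw [Finsupp.mem_support_iff] at ha ⊢
    intro h0
    apply ha
    rw [Finsupp.filter_apply]
    split_ifs <;> simp [h0]), n1]
  apply Finset.sum_le_sum
  intro a _
  rw [Finsupp.filter_apply]
  split_ifs
  · exact le_rfl
  · rw [abs_zero]; exact abs_nonneg _

/-- a coordinatewise bound by a geometric sequence -/
theorem n1_le_geom (y : V) (c : ℝ) (hc : 0 ≤ c) (h : ∀ a, |y a| ≤ c / 4 ^ a) : n1 y ≤ 2 * c := by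
  unfold n1
  have h1 : ∑ j ∈ y.support, |y j| ≤ ∑ j ∈ y.support, c * (1 / 2) ^ j := by
    apply Finset.sum_le_sum
    intro j _
    refine (h j).trans ?_
    rw [div_eq_mul_inv]
    apply mul_le_mul_of_nonneg_left _ hc
    rw [one_div, ← inv_pow]
    apply pow_le_pow_left₀ (by norm_num)
    norm_num
  have h2 : ∑ j ∈ y.support, (1 / 2 : ℝ) ^ j ≤ ∑' n : ℕ, (1 / 2 : ℝ) ^ n :=
    summable_geometric_two.sum_le_tsum _ (fun i _ => by positivity)
  rw [tsum_geometric_two] at h2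
  rw [← Finset.mul_sum] at h1
  nlinarith

/-! ### `pr` -/

theorem pr_eq_sum (f : V) (ξ : ℕ → ℝ) (s : Finset ℕ) (h : f.support ⊆ s) :
    pr f ξ = ∑ j ∈ s, f j * ξ j := by
  unfold pr
  apply Finset.sum_subset h
  intro x _ hx
  rw [Finsupp.notMem_support_iff.1 hx, zero_mul]

theorem pr_add (f g : V) (ξ : ℕ → ℝ) : pr (f + g) ξ = pr f ξ + pr g ξ := by
  classical
  rw [pr_eq_sum (f + g) ξ (f.support ∪ g.support) Finsupp.support_add,
    pr_eq_sum f ξ (f.support ∪ g.support) Finset.subset_union_left,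
    pr_eq_sum g ξ (f.support ∪ g.support) Finset.subset_union_right, ← Finset.sum_add_distrib]
  apply Finset.sum_congr rfl
  intro a _
  rw [Finsupp.add_apply, add_mul]

theorem pr_smul (c : ℝ) (f : V) (ξ : ℕ → ℝ) : pr (c • f) ξ = c * pr f ξ := by
  rw [pr_eq_sum (c • f) ξ f.support Finsupp.support_smul, pr, Finset.mul_sum]
  apply Finset.sum_congr rfl
  intro x _
  rw [Finsupp.smul_apply, smul_eq_mul, mul_assoc]

theorem pr_sum (n : ℕ) (f : ℕ → V) (ξ : ℕ → ℝ) :
    pr (∑ s ∈ range n, f s) ξ = ∑ s ∈ range n, pr (f s) ξ := by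
  induction n with
  | zero => simp [pr]
  | succ n ih => rw [Finset.sum_range_succ, Finset.sum_range_succ, pr_add, ih]

theorem pr_av (f : V) (c : ℝ) (n : ℕ) (ψ : ℕ → ℕ → ℝ) :
    pr f (av c n ψ) = c * ∑ r ∈ range n, pr f (ψ r) := by
  unfold pr av
  rw [Finset.sum_comm, Finset.mul_sum]
  apply Finset.sum_congr rfl
  intro a _
  rw [Finset.mul_sum, Finset.mul_sum, Finset.mul_sum]
  apply Finset.sum_congr rfl
  intro r _
  ring

theorem pr_nonneg {f : V} {ξ : ℕ → ℝ} (hf : ∀ a, 0 ≤ f a) (hξ : ∀ a, 0 ≤ ξ a) : 0 ≤ pr f ξ := by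
  unfold pr
  exact Finset.sum_nonneg (fun a _ => mul_nonneg (hf a) (hξ a))

theorem pr_mono {f : V} {ξ ζ : ℕ → ℝ} (hf : ∀ a, 0 ≤ f a) (h : ∀ a, ξ a ≤ ζ a) :
    pr f ξ ≤ pr f ζ := by
  unfold pr
  exact Finset.sum_le_sum (fun a _ => mul_le_mul_of_nonneg_left (h a) (hf a))

theorem pr_le_n1_mul {f : V} {ξ : ℕ → ℝ} {c : ℝ} (hf : ∀ a, 0 ≤ f a) (h : ∀ a, ξ a ≤ c) :
    pr f ξ ≤ n1 f * c := by
  unfold pr n1
  rw [Finset.sum_mul]
  apply Finset.sum_le_sum
  intro a _
  rw [abs_of_nonneg (hf a)]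
  exact mul_le_mul_of_nonneg_left (h a) (hf a)

/-- if the supports are disjoint, the pairing vanishes -/
theorem pr_eq_zero {f : V} {ξ : ℕ → ℝ} (h : ∀ a, f a ≠ 0 → ξ a = 0) : pr f ξ = 0 := by
  unfold pr
  apply Finset.sum_eq_zero
  intro a ha
  rw [h a (Finsupp.mem_support_iff.1 ha), mul_zero]

/-! ### `lg` and `ent` -/

theorem lg_eq_pr (f : V) (ξ : ℕ → ℝ) : lg f ξ = pr f (fun a => Real.log (ξ a)) := rfl

theorem lg_eq_sum (f : V) (ξ : ℕ → ℝ) (s : Finset ℕ) (h : f.support ⊆ s) :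
    lg f ξ = ∑ j ∈ s, f j * Real.log (ξ j) := by
  rw [lg_eq_pr]
  exact pr_eq_sum f _ s h

theorem lg_add (f g : V) (ξ : ℕ → ℝ) : lg (f + g) ξ = lg f ξ + lg g ξ := by
  rw [lg_eq_pr, lg_eq_pr, lg_eq_pr]
  exact pr_add f g _

theorem lg_smul (c : ℝ) (f : V) (ξ : ℕ → ℝ) : lg (c • f) ξ = c * lg f ξ := by
  rw [lg_eq_pr, lg_eq_pr]
  exact pr_smul c f _

theorem lg_sum (n : ℕ) (f : ℕ → V) (ξ : ℕ → ℝ) :
    lg (∑ s ∈ range n, f s) ξ = ∑ s ∈ range n, lg (f s) ξ := by
  rw [lg_eq_pr, pr_sum]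
  rfl

theorem lg_mono {f : V} {ξ ζ : ℕ → ℝ} (hf : ∀ a, 0 ≤ f a)
    (hξ : ∀ a, f a ≠ 0 → 0 < ξ a) (h : ∀ a, f a ≠ 0 → ξ a ≤ ζ a) : lg f ξ ≤ lg f ζ := by
  unfold lg
  apply Finset.sum_le_sum
  intro a ha
  have ha' := Finsupp.mem_support_iff.1 ha
  exact mul_le_mul_of_nonneg_left (Real.log_le_log (hξ a ha') (h a ha')) (hf a)

theorem lg_congr {f : V} {ξ ζ : ℕ → ℝ} (h : ∀ a, f a ≠ 0 → ξ a = ζ a) : lg f ξ = lg f ζ := by
  unfold lg
  apply Finset.sum_congr rfl
  intro a ha
  rw [h a (Finsupp.mem_support_iff.1 ha)]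

/-- scaling of the dual function -/
theorem lg_const_mul {f : V} {ξ : ℕ → ℝ} {c : ℝ} (hf : ∀ a, 0 ≤ f a) (hc : 0 < c)
    (hξ : ∀ a, f a ≠ 0 → 0 < ξ a) : lg f (fun a => c * ξ a) = lg f ξ + n1 f * Real.log c := by
  unfold lg n1
  rw [Finset.sum_mul, ← Finset.sum_add_distrib]
  apply Finset.sum_congr rfl
  intro a ha
  rw [abs_of_nonneg (hf a), Real.log_mul hc.ne' (hξ a (Finsupp.mem_support_iff.1 ha)).ne']
  ring

/-! ### `prt` -/

theorem prt_apply (s : Bool) (f : V) (a : ℕ) : prt s f a = max (if s then f a else -(f a)) 0 := by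
  unfold prt
  rw [Finsupp.mapRange_apply]

theorem prt_nonneg (s : Bool) (f : V) (a : ℕ) : 0 ≤ prt s f a := by
  rw [prt_apply]
  exact le_max_right _ _

theorem prt_sub_prt (f : V) : prt true f - prt false f = f := by
  ext a
  rw [Finsupp.sub_apply, prt_apply, prt_apply]
  simp only [if_true, Bool.false_eq_true, if_false]
  rcases le_total 0 (f a) with h | h
  · rw [max_eq_left h, max_eq_right (by linarith), sub_zero]
  · rw [max_eq_right h, max_eq_left (by linarith)]; ring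

theorem prt_neg (s : Bool) (f : V) : prt s (-f) = prt (!s) f := by
  ext a
  rw [prt_apply, prt_apply, Finsupp.neg_apply]
  cases s <;> simp

theorem prt_smul (s : Bool) (c : ℝ) (hc : 0 ≤ c) (f : V) : prt s (c • f) = c • prt s f := by
  ext a
  rw [prt_apply, Finsupp.smul_apply, Finsupp.smul_apply, prt_apply, smul_eq_mul, smul_eq_mul,
    mul_max_of_nonneg _ _ hc, mul_zero]
  cases s <;> simp

theorem prt_ne_zero {s : Bool} {f : V} {a : ℕ} (h : prt s f a ≠ 0) : f a ≠ 0 := by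
  intro h0
  apply h
  rw [prt_apply, h0]
  cases s <;> simp

/-- the positive and the negative part have disjoint supports -/
theorem prt_disj {f : V} {a : ℕ} (h : prt true f a ≠ 0) : prt false f a = 0 := by
  rw [prt_apply] at h ⊢
  simp only [if_true, Bool.false_eq_true, if_false] at h ⊢
  have h1 : 0 < f a := by
    by_contra hcon
    apply h
    exact max_eq_right (not_lt.1 hcon)
  exact max_eq_right (by linarith)

theorem prt_support (s : Bool) (f : V) : (prt s f).support ⊆ f.support := by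
  intro a ha
  rw [Finsupp.mem_support_iff] at ha ⊢
  exact prt_ne_zero ha

theorem n1_prt_add (f : V) : n1 (prt true f) + n1 (prt false f) = n1 f := by
  rw [n1_eq_sum (prt true f) f.support (prt_support _ _),
    n1_eq_sum (prt false f) f.support (prt_support _ _), n1, ← Finset.sum_add_distrib]
  apply Finset.sum_congr rfl
  intro a _
  rw [abs_of_nonneg (prt_nonneg _ _ _), abs_of_nonneg (prt_nonneg _ _ _), prt_apply, prt_apply]
  simp only [if_true, Bool.false_eq_true, if_false]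
  rcases le_total 0 (f a) with h | h
  · rw [max_eq_left h, max_eq_right (by linarith), abs_of_nonneg h, add_zero]
  · rw [max_eq_right h, max_eq_left (by linarith), abs_of_nonpos h, zero_add]

theorem prt_sum_of_succs (s : Bool) (n : ℕ) (y : ℕ → V) (hy : Succs n (fun r => ⇑(y r))) :
    prt s (∑ r ∈ range n, y r) = ∑ r ∈ range n, prt s (y r) := by
  ext a
  rw [prt_apply, Finsupp.finsetSum_apply, Finsupp.finsetSum_apply]
  have h := hy.map_sum (fun x => max (if s then x else -x) 0) (by cases s <;> simp) a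
  refine h.trans ?_
  apply Finset.sum_congr rfl
  intro r _
  rw [prt_apply]

theorem prt_zero (s : Bool) : prt s (0 : V) = 0 := by
  ext a
  rw [prt_apply]
  cases s <;> simp

/-! ### `Succs` -/

/-- shrinking supports keeps families successive -/
theorem Succs.mono {n : ℕ} {ψ φ : ℕ → ℕ → ℝ} (h : Succs n ψ)
    (hs : ∀ r, r < n → ∀ a, φ r a ≠ 0 → ψ r a ≠ 0) : Succs n φ := by
  intro r s hrs hsn a b ha hb
  exact h r s hrs hsn a b (hs r (hrs.trans hsn) a ha) (hs s hsn b hb)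

theorem Succs.of_le {n n' : ℕ} {ψ : ℕ → ℕ → ℝ} (h : Succs n ψ) (hn : n' ≤ n) : Succs n' ψ := by
  intro r s hrs hsn a b ha hb
  exact h r s hrs (hsn.trans_le hn) a b ha hb

/-! ### `𝒦_k` -/

/-- values of an average of weight `c ≥ 0` of successive functions with values in `[0,1]` -/
theorem av_le_aux {n : ℕ} {c : ℝ} {ψ : ℕ → ℕ → ℝ} (hc : 0 ≤ c)
    (h : ∀ r, r < n → ∀ a, ψ r a ≤ 1) (hs : Succs n ψ) (a : ℕ) : av c n ψ a ≤ c := by
  unfold av
  by_cases hex : ∃ r, r < n ∧ ψ r a ≠ 0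
  · obtain ⟨r, hr, hra⟩ := hex
    rw [hs.sum_eq hr hra]
    have := h r hr a
    nlinarith
  · push Not at hex
    rw [Finset.sum_eq_zero (fun r hr => hex r (mem_range.1 hr)), mul_zero]
    exact hc

theorem av_nonneg_aux {n : ℕ} {c : ℝ} {ψ : ℕ → ℕ → ℝ} (hc : 0 ≤ c)
    (h : ∀ r, r < n → ∀ a, 0 ≤ ψ r a) (a : ℕ) : 0 ≤ av c n ψ a := by
  unfold av
  exact mul_nonneg hc (Finset.sum_nonneg (fun r hr => h r (mem_range.1 hr) a))

theorem KK.nonneg {k : ℕ} {ξ : ℕ → ℝ} (h : KK k ξ) (a : ℕ) : 0 ≤ ξ a := by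
  induction h generalizing a with
  | unit j =>
    show (0 : ℝ) ≤ if a = j then 1 else 0
    split_ifs <;> norm_num
  | conv ξ ζ t ht0 ht1 _ _ ih1 ih2 =>
    exact add_nonneg (mul_nonneg ht0 (ih1 a)) (mul_nonneg (by linarith) (ih2 a))
  | solid ξ ζ _ h0 _ _ => exact h0 a
  | avg i n ψ _ _ _ ih => exact av_nonneg_aux (by positivity) (fun r hr a => ih r hr a) a
  | spec i n S p N ψ _ _ _ _ _ _ _ _ ih =>
    exact av_nonneg_aux (by positivity)
      (fun l hl a => av_nonneg_aux (by positivity) (fun r hr a => ih l hl r hr a) a) a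

theorem Uinv_le_one (i : ℕ) : (U i : ℝ)⁻¹ ≤ 1 := by
  have h : (16 : ℝ) ≤ (U i : ℝ) := by exact_mod_cast U_ge i
  rw [inv_le_one₀ (by linarith)]
  linarith

theorem Winv_le_one (i : ℕ) : (W i : ℝ)⁻¹ ≤ 1 := by
  have h : (256 : ℝ) ≤ (W i : ℝ) := by exact_mod_cast W_ge i
  rw [inv_le_one₀ (by linarith)]
  linarith

theorem KK.le_one {k : ℕ} {ξ : ℕ → ℝ} (h : KK k ξ) (a : ℕ) : ξ a ≤ 1 := by
  induction h generalizing a with
  | unit j =>
    show (if a = j then (1 : ℝ) else 0) ≤ 1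
    split_ifs <;> norm_num
  | conv ξ ζ t ht0 ht1 _ _ ih1 ih2 =>
    show t * ξ a + (1 - t) * ζ a ≤ 1
    have h1 := ih1 a
    have h2 := ih2 a
    nlinarith
  | solid ξ ζ _ _ h1 ih => exact (h1 a).trans (ih a)
  | avg i n ψ _ _ hs ih =>
    exact (av_le_aux (by positivity) (fun r hr a => ih r hr a) hs a).trans (Winv_le_one i)
  | spec i n S p N ψ _ _ _ _ _ hs _ hs2 ih =>
    refine (av_le_aux (by positivity) ?_ hs2 a).trans (Uinv_le_one i)
    intro l hl b
    exact (av_le_aux (by positivity) (fun r hr a => ih l hl r hr a) (hs l hl) b).trans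
      (Winv_le_one _)

theorem KK.zero (k : ℕ) : KK k (fun _ => 0) := by
  refine KK.solid _ _ (KK.unit 0) (fun _ => le_rfl) (fun a => ?_)
  split_ifs <;> norm_num

/-- multiplication by a scalar in `[0,1]` -/
theorem KK.scale {k : ℕ} {ξ : ℕ → ℝ} (h : KK k ξ) {t : ℝ} (h0 : 0 ≤ t) (h1 : t ≤ 1) :
    KK k (fun a => t * ξ a) := by
  refine KK.solid _ _ h (fun a => mul_nonneg h0 (h.nonneg a)) (fun a => ?_)
  have := h.nonneg a
  nlinarith

theorem KK.congr {k : ℕ} {ξ ζ : ℕ → ℝ} (h : KK k ξ) (he : ∀ a, ζ a = ξ a) : KK k ζ := by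
  have : ζ = ξ := funext he
  rw [this]; exact h

/-- finite convex combinations -/
theorem KK.convex_sum {k : ℕ} (s : Finset ℕ) (t : ℕ → ℝ) (ξ : ℕ → ℕ → ℝ)
    (ht : ∀ r ∈ s, 0 ≤ t r) (hsum : ∑ r ∈ s, t r ≤ 1) (hξ : ∀ r ∈ s, KK k (ξ r)) :
    KK k (fun a => ∑ r ∈ s, t r * ξ r a) := by
  classical
  induction s using Finset.induction_on generalizing t with
  | empty =>
    exact (KK.zero k).congr (fun a => by simp)
  | insert b s hb ih =>
    have htb : 0 ≤ t b := ht b (Finset.mem_insert_self b s)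
    have hts : ∀ r ∈ s, 0 ≤ t r := fun r hr => ht r (Finset.mem_insert_of_mem hr)
    have hks : ∀ r ∈ s, KK k (ξ r) := fun r hr => hξ r (Finset.mem_insert_of_mem hr)
    rw [Finset.sum_insert hb] at hsum
    have hs0 : 0 ≤ ∑ r ∈ s, t r := Finset.sum_nonneg hts
    have htb1 : t b ≤ 1 := by linarith
    rcases eq_or_lt_of_le htb1 with h1 | h1
    · -- `t b = 1`, all the others vanish
      have hz : ∑ r ∈ s, t r = 0 := by linarith
      rw [Finset.sum_eq_zero_iff_of_nonneg hts] at hz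
      refine (hξ b (Finset.mem_insert_self b s)).congr (fun a => ?_)
      rw [Finset.sum_insert hb, h1, one_mul, Finset.sum_eq_zero, add_zero]
      intro r hr
      rw [hz r hr, zero_mul]
    · have h2 : 0 < 1 - t b := by linarith
      have h3 := ih (fun r => t r / (1 - t b)) (fun r hr => div_nonneg (hts r hr) h2.le)
        (by rw [← Finset.sum_div, div_le_one h2]; linarith) hks
      refine (KK.conv _ _ (t b) htb htb1 (hξ b (Finset.mem_insert_self b s)) h3).congr
        (fun a => ?_)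
      rw [Finset.sum_insert hb, Finset.mul_sum]
      congr 1
      apply Finset.sum_congr rfl
      intro r _
      field_simp

/-- sub-probability vectors belong to `𝒦_k` -/
theorem KK.of_sum_le_one {k : ℕ} (s : Finset ℕ) (t : ℕ → ℝ) (ht : ∀ r ∈ s, 0 ≤ t r)
    (hsum : ∑ r ∈ s, t r ≤ 1) : KK k (fun a => if a ∈ s then t a else 0) := by
  refine (KK.convex_sum s t (fun r a => if a = r then 1 else 0) ht hsum
    (fun r _ => KK.unit r)).congr (fun a => ?_)
  simp [Finset.sum_ite_eq]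

/-- restriction to a set -/
theorem KK.restrict {k : ℕ} {ξ : ℕ → ℝ} (h : KK k ξ) (A : Finset ℕ) :
    KK k (fun a => if a ∈ A then ξ a else 0) := by
  refine KK.solid ξ _ h (fun a => ?_) (fun a => ?_)
  · split_ifs
    · exact h.nonneg a
    · exact le_rfl
  · split_ifs
    · exact le_rfl
    · exact h.nonneg a

/-- values of an average of weight `c ≥ 0` of successive members of `𝒦_k` are at most `c` -/
theorem av_le {k n : ℕ} {c : ℝ} {ψ : ℕ → ℕ → ℝ} (hc : 0 ≤ c) (h : ∀ r, r < n → KK k (ψ r))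
    (hs : Succs n ψ) (a : ℕ) : av c n ψ a ≤ c :=
  av_le_aux hc (fun r hr a => (h r hr).le_one a) hs a

theorem av_nonneg {k n : ℕ} {c : ℝ} {ψ : ℕ → ℕ → ℝ} (hc : 0 ≤ c) (h : ∀ r, r < n → KK k (ψ r))
    (a : ℕ) : 0 ≤ av c n ψ a :=
  av_nonneg_aux hc (fun r hr a => (h r hr).nonneg a) a

end Pool.Agent.Atomic
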