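import Pool.Agent.Lib.MP_968cc4_an.TB

/-! Module CMB: the combination lemma, the quasi-norm `q` -/

set_option autoImplicit false

namespace Pool.Agent.Atomic

open Finset

/-! auxiliary facts -/

private theorem m_one_le (k : ℕ) : (1 : ℝ) ≤ m k := by
  have h : 2 ^ 64 ≤ m k := m_ge k
  have h1 : 1 ≤ m k := le_trans (by norm_num) h
  exact_mod_cast h1

private theorem eps_le (k : ℕ) : eps k ≤ (1 / 2 ^ 100 : ℝ) / 4 ^ k := by
  refine le_trans ?_ (eps_m_le k)
  have := mul_le_mul_of_nonneg_left (m_one_le k) (eps_pos k).le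
  simpa using this

private theorem sum_smul_apply (M : ℕ) (a : ℕ → ℝ) (v : ℕ → V) (k : ℕ) :
    (∑ s ∈ range M, a s • v s) k = ∑ s ∈ range M, a s * v s k := by
  rw [Finsupp.finsetSum_apply]
  refine Finset.sum_congr rfl fun s _ => ?_
  simp

/-- the exact error formula -/
theorem comb_error (M : ℕ) (a : ℕ → ℝ) (v : ℕ → V) (k : ℕ) :
    T (∑ s ∈ range M, a s • v s) k - ∑ s ∈ range M, a s * T (v s) k
      = -(eps k * (F k (tail k (T (∑ s ∈ range M, a s • v s)))
          - ∑ s ∈ range M, a s * F k (tail k (T (v s))))) := by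
  have h1 : ∑ s ∈ range M, a s * T (v s) k
      = ∑ s ∈ range M, a s * v s k - eps k * ∑ s ∈ range M, a s * F k (tail k (T (v s))) := by
    rw [Finset.mul_sum, ← Finset.sum_sub_distrib]
    refine Finset.sum_congr rfl fun s _ => ?_
    rw [T_apply]
    ring
  rw [h1, T_apply, sum_smul_apply]
  ring

/-- the combination lemma -/
theorem comb (M : ℕ) (a : ℕ → ℝ) (v : ℕ → V) (J : ℕ) (hM : M ≤ m J) (k : ℕ) (hk : J ≤ k) :
    |T (∑ s ∈ range M, a s • v s) k - ∑ s ∈ range M, a s * T (v s) k|
      ≤ eps k * (2 * Real.log ((M : ℝ) + 2) + 1)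
        * ∑ s ∈ range M, |a s| * n1 ((T (v s)).filter (fun j => J ≤ j)) := by
  set x : V := ∑ s ∈ range M, a s • v s with hx
  set A : ℝ := ∑ s ∈ range M, |a s| * n1 ((T (v s)).filter (fun j => J ≤ j)) with hA
  set L : ℝ := Real.log ((M : ℝ) + 2) with hL
  have hA0 : 0 ≤ A := Finset.sum_nonneg fun s _ => mul_nonneg (abs_nonneg _) (n1_nonneg _)
  have hL0 : 0 ≤ L := Real.log_nonneg (by
    have : (0 : ℝ) ≤ M := Nat.cast_nonneg M
    linarith)
  set e : V := T x - ∑ s ∈ range M, a s • T (v s) with he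
  have hek : ∀ k, e k = T x k - ∑ s ∈ range M, a s * T (v s) k := by
    intro k
    rw [he, Finsupp.sub_apply, sum_smul_apply]
  -- `e` vanishes far out
  obtain ⟨N, hN⟩ : ∃ N, ∀ k, N ≤ k → e k = 0 := by
    refine ⟨e.support.sup id + 1, fun k hk => ?_⟩
    by_contra h
    have h1 : k ∈ e.support := Finsupp.mem_support_iff.2 h
    have h2 : id k ≤ e.support.sup id := Finset.le_sup (f := id) h1
    simp only [id] at h2
    omega
  have key : ∀ d k, J ≤ k → N ≤ k + d → |e k| ≤ eps k * (2 * L + 1) * A := by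
    intro d
    induction d with
    | zero =>
      intro k _ hNk
      rw [hN k (by simpa using hNk), abs_zero]
      exact mul_nonneg (mul_nonneg (eps_pos k).le (by linarith)) hA0
    | succ d ih =>
      intro k hJk hNk
      have hbig : ∀ j, k < j → |e j| ≤ eps j * (2 * L + 1) * A := fun j hj =>
        ih j (by omega) (by omega)
      -- geometric bound of the tail of `e`
      have hgeo : ∀ j, |tail k e j| ≤ (A / 2 ^ 100) / 4 ^ j := by
        intro j
        rw [tail_apply]
        split_ifs with hj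
        · refine le_trans (hbig j hj) ?_
          have hMj : M ≤ m j := le_trans hM (m_strictMono.monotone (by omega))
          have h1 := CM_le j M hMj
          have h2 : eps j * (2 * L + 1) ≤ eps j * m j := by
            refine mul_le_mul_of_nonneg_left ?_ (eps_pos j).le
            have h3 : (0 : ℝ) ≤ m j := Nat.cast_nonneg _
            linarith
          have h3 : eps j * (2 * L + 1) ≤ (1 / 2 ^ 100 : ℝ) / 4 ^ j := le_trans h2 (eps_m_le j)
          calc eps j * (2 * L + 1) * A ≤ ((1 / 2 ^ 100 : ℝ) / 4 ^ j) * A :=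
                mul_le_mul_of_nonneg_right h3 hA0
            _ = (A / 2 ^ 100) / 4 ^ j := by ring
        · rw [abs_zero]
          positivity
      have hAn : 0 ≤ A / 2 ^ 100 := by positivity
      have hn1e : n1 (tail k e) ≤ 2 * (A / 2 ^ 100) := n1_le_geom _ _ hAn hgeo
      have hFe : |F k (tail k e)| ≤ 2 * (A / 2 ^ 100) := F_bound_geom k _ _ hAn hgeo
      have htail : tail k (T x) = ∑ s ∈ range M, a s • tail k (T (v s)) + tail k e := by
        ext j
        rw [Finsupp.add_apply, sum_smul_apply]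
        simp only [tail_apply]
        split_ifs with hj
        · rw [hek]
          ring
        · simp
      have hF := F_comb k M a (fun s => tail k (T (v s))) (tail k e)
      rw [← htail] at hF
      have hsum : ∑ s ∈ range M, |a s| * n1 (tail k (T (v s))) ≤ A := by
        refine Finset.sum_le_sum fun s _ => mul_le_mul_of_nonneg_left ?_ (abs_nonneg _)
        have : tail k (T (v s)) = ((T (v s)).filter (fun j => J ≤ j)).filter (fun j => k < j) := by
          ext j
          rw [tail_apply, Finsupp.filter_apply]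
          split_ifs with hj
          · rw [Finsupp.filter_apply_pos _ _ (by omega)]
          · rfl
        rw [this]
        exact n1_filter_le _ _
      rw [hek k, hx, comb_error, abs_neg, abs_mul, abs_of_pos (eps_pos k), mul_assoc]
      rw [← hx]
      refine mul_le_mul_of_nonneg_left ?_ (eps_pos k).le
      have h1 : |F k (tail k (T x)) - ∑ s ∈ range M, a s * F k (tail k (T (v s)))|
          ≤ L * (∑ s ∈ range M, |a s| * n1 (tail k (T (v s))) + n1 (tail k e))
            + |F k (tail k e)| := by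
        have h2 : F k (tail k (T x)) - ∑ s ∈ range M, a s * F k (tail k (T (v s)))
            = (F k (tail k (T x)) - ∑ s ∈ range M, a s * F k (tail k (T (v s)))
              - F k (tail k e)) + F k (tail k e) := by ring
        rw [h2]
        exact le_trans (abs_add_le _ _) (add_le_add hF le_rfl)
      refine le_trans h1 ?_
      have h3 : L * (∑ s ∈ range M, |a s| * n1 (tail k (T (v s))) + n1 (tail k e))
          ≤ L * (A + 2 * (A / 2 ^ 100)) :=
        mul_le_mul_of_nonneg_left (add_le_add hsum hn1e) hL0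
      have h4 : 2 * (A / 2 ^ 100) ≤ A := by
        have : (2 : ℝ) * (A / 2 ^ 100) = A * (2 / 2 ^ 100) := by ring
        rw [this]
        calc A * (2 / 2 ^ 100) ≤ A * 1 := mul_le_mul_of_nonneg_left (by norm_num) hA0
          _ = A := mul_one A
      have h5 : L * (A + 2 * (A / 2 ^ 100)) ≤ L * (A + A) :=
        mul_le_mul_of_nonneg_left (by linarith) hL0
      calc L * (∑ s ∈ range M, |a s| * n1 (tail k (T (v s))) + n1 (tail k e))
            + |F k (tail k e)| ≤ L * (A + A) + A := by linarith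
        _ = (2 * L + 1) * A := by ring
  have := key N k hk (by omega)
  rw [hek] at this
  exact this

/-- the combination lemma for vectors with models -/
theorem comb_model (M : ℕ) (a : ℕ → ℝ) (v b : ℕ → V) (J : ℕ) (θ : ℕ → ℝ) (hM : M ≤ m J)
    (ha : ∑ s ∈ range M, |a s| ≤ 1) (hb : ∀ s, s < M → n1 (b s) ≤ 1)
    (hθ : ∀ k, 0 ≤ θ k ∧ θ k ≤ (1 / 2 ^ 20 : ℝ) / 4 ^ k)
    (hmod : ∀ s, s < M → ∀ k, J ≤ k → |T (v s) k - b s k| ≤ θ k) (k : ℕ) (hk : J ≤ k) :
    |T (∑ s ∈ range M, a s • v s) k - (∑ s ∈ range M, a s • b s) k| ≤ θ k + eps k * m k / 8 := by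
  have hn : ∀ s, s < M → n1 ((T (v s)).filter (fun j => J ≤ j)) ≤ 2 := by
    intro s hs
    have h1 : (T (v s)).filter (fun j => J ≤ j)
        = (b s).filter (fun j => J ≤ j) + (T (v s) - b s).filter (fun j => J ≤ j) := by
      ext j
      rw [Finsupp.add_apply]
      simp only [Finsupp.filter_apply]
      split_ifs with hj
      · rw [Finsupp.sub_apply]
        ring
      · ring
    rw [h1]
    have h2 : n1 ((T (v s) - b s).filter (fun j => J ≤ j)) ≤ 2 * (1 / 2 ^ 20) := by
      refine n1_le_geom _ _ (by norm_num) fun j => ?_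
      rw [Finsupp.filter_apply]
      split_ifs with hj
      · rw [Finsupp.sub_apply]
        exact le_trans (hmod s hs j hj) (hθ j).2
      · rw [abs_zero]
        positivity
    have h3 : n1 ((b s).filter (fun j => J ≤ j)) ≤ 1 := le_trans (n1_filter_le _ _) (hb s hs)
    refine le_trans (n1_add_le _ _) ?_
    norm_num at h2 ⊢
    linarith
  have hA : ∑ s ∈ range M, |a s| * n1 ((T (v s)).filter (fun j => J ≤ j)) ≤ 2 := by
    calc ∑ s ∈ range M, |a s| * n1 ((T (v s)).filter (fun j => J ≤ j))
        ≤ ∑ s ∈ range M, |a s| * 2 :=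
          Finset.sum_le_sum fun s hs =>
            mul_le_mul_of_nonneg_left (hn s (Finset.mem_range.1 hs)) (abs_nonneg _)
      _ = (∑ s ∈ range M, |a s|) * 2 := by rw [Finset.sum_mul]
      _ ≤ 1 * 2 := mul_le_mul_of_nonneg_right ha (by norm_num)
      _ = 2 := by norm_num
  have h1 := comb M a v J hM k hk
  have hMk : M ≤ m k := le_trans hM (m_strictMono.monotone hk)
  have hL0 : 0 ≤ Real.log ((M : ℝ) + 2) := Real.log_nonneg (by
    have : (0 : ℝ) ≤ M := Nat.cast_nonneg M
    linarith)
  have h2 : eps k * (2 * Real.log ((M : ℝ) + 2) + 1)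
        * ∑ s ∈ range M, |a s| * n1 ((T (v s)).filter (fun j => J ≤ j))
      ≤ eps k * m k / 8 := by
    calc eps k * (2 * Real.log ((M : ℝ) + 2) + 1)
        * ∑ s ∈ range M, |a s| * n1 ((T (v s)).filter (fun j => J ≤ j))
        ≤ eps k * (2 * Real.log ((M : ℝ) + 2) + 1) * 2 :=
          mul_le_mul_of_nonneg_left hA (mul_nonneg (eps_pos k).le (by linarith))
      _ = eps k * (4 * Real.log ((M : ℝ) + 2) + 2) := by ring
      _ ≤ eps k * ((m k : ℝ) / 8) := mul_le_mul_of_nonneg_left (CM_le k M hMk) (eps_pos k).le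
      _ = eps k * m k / 8 := by ring
  have h3 : |∑ s ∈ range M, a s * T (v s) k - (∑ s ∈ range M, a s • b s) k| ≤ θ k := by
    rw [sum_smul_apply, ← Finset.sum_sub_distrib]
    calc |∑ s ∈ range M, (a s * T (v s) k - a s * b s k)|
        ≤ ∑ s ∈ range M, |a s * T (v s) k - a s * b s k| := Finset.abs_sum_le_sum_abs _ _
      _ ≤ ∑ s ∈ range M, |a s| * θ k := by
          refine Finset.sum_le_sum fun s hs => ?_
          rw [← mul_sub, abs_mul]
          exact mul_le_mul_of_nonneg_left (hmod s (Finset.mem_range.1 hs) k hk) (abs_nonneg _)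
      _ = (∑ s ∈ range M, |a s|) * θ k := by rw [Finset.sum_mul]
      _ ≤ 1 * θ k := mul_le_mul_of_nonneg_right ha (hθ k).1
      _ = θ k := one_mul _
  have h4 : T (∑ s ∈ range M, a s • v s) k - (∑ s ∈ range M, a s • b s) k
      = (T (∑ s ∈ range M, a s • v s) k - ∑ s ∈ range M, a s * T (v s) k)
        + (∑ s ∈ range M, a s * T (v s) k - (∑ s ∈ range M, a s • b s) k) := by ring
  rw [h4]
  refine le_trans (abs_add_le _ _) ?_
  linarith

private theorem log_four_le : 2 * Real.log (((2 : ℕ) : ℝ) + 2) + 1 ≤ 4 := by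
  have h : (((2 : ℕ) : ℝ) + 2) = 2 ^ 2 := by norm_num
  rw [h, Real.log_pow]
  have := Real.log_two_lt_d9
  push_cast
  norm_num at this ⊢
  linarith

/-- two terms: difference and sum -/
theorem comb_two (c c' : ℝ) (x x' : V) (k : ℕ) :
    |T (c • x + c' • x') k - (c * T x k + c' * T x' k)|
      ≤ 4 * eps k * (|c| * q x + |c'| * q x') := by
  have h := comb 2 (fun s => if s = 0 then c else c') (fun s => if s = 0 then x else x') 0
    (le_trans (by norm_num) (m_ge 0)) k (Nat.zero_le _)
  have hf : ∀ y : V, y.filter (fun j => 0 ≤ j) = y := by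
    intro y
    ext j
    rw [Finsupp.filter_apply, if_pos (Nat.zero_le j)]
  simp only [Finset.sum_range_succ, Finset.sum_range_zero, zero_add, if_true, one_ne_zero,
    if_false, hf] at h
  refine le_trans ?_ (le_trans h ?_)
  · exact le_rfl
  · have h0 : (0 : ℝ) ≤ |c| * q x + |c'| * q x' :=
      add_nonneg (mul_nonneg (abs_nonneg _) (n1_nonneg _)) (mul_nonneg (abs_nonneg _) (n1_nonneg _))
    calc eps k * (2 * Real.log (((2 : ℕ) : ℝ) + 2) + 1) * (|c| * n1 (T x) + |c'| * n1 (T x'))
        ≤ eps k * 4 * (|c| * n1 (T x) + |c'| * n1 (T x')) :=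
          mul_le_mul_of_nonneg_right
            (mul_le_mul_of_nonneg_left log_four_le (eps_pos k).le) h0
      _ = 4 * eps k * (|c| * q x + |c'| * q x') := by
          unfold q
          ring

theorem q_nonneg (x : V) : 0 ≤ q x := n1_nonneg _

theorem q_eq_zero {x : V} (h : q x = 0) : x = 0 := by
  have h1 : T x = 0 := n1_eq_zero h
  have h2 : Smap (T x) = x := Smap_T x
  have h3 : Smap (T 0) = 0 := Smap_T 0
  rw [T_zero] at h3
  rw [h1, h3] at h2
  exact h2.symm

theorem q_smul (c : ℝ) (x : V) : q (c • x) = |c| * q x := by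
  unfold q
  rw [T_smul, n1_smul]

theorem q_add_le (x y : V) : q (x + y) ≤ (1 + 1 / 1024) * (q x + q y) := by
  have h0 : (0 : ℝ) ≤ q x + q y := add_nonneg (q_nonneg x) (q_nonneg y)
  have hc := fun k => comb_two 1 1 x y k
  simp only [one_smul, one_mul, abs_one] at hc
  have h1 : T (x + y) = (T x + T y) + (T (x + y) - (T x + T y)) := by abel
  have h2 : n1 (T (x + y) - (T x + T y)) ≤ 2 * (4 * (q x + q y) / 2 ^ 100) := by
    refine n1_le_geom _ _ (by positivity) fun a => ?_
    rw [Finsupp.sub_apply, Finsupp.add_apply]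
    refine le_trans (hc a) ?_
    calc 4 * eps a * (q x + q y) ≤ 4 * ((1 / 2 ^ 100 : ℝ) / 4 ^ a) * (q x + q y) :=
          mul_le_mul_of_nonneg_right
            (mul_le_mul_of_nonneg_left (eps_le a) (by norm_num)) h0
      _ = (4 * (q x + q y) / 2 ^ 100) / 4 ^ a := by ring
  have h3 : q (x + y) ≤ (q x + q y) + 2 * (4 * (q x + q y) / 2 ^ 100) := by
    calc q (x + y) = n1 ((T x + T y) + (T (x + y) - (T x + T y))) := by
          unfold q
          rw [← h1]
      _ ≤ n1 (T x + T y) + n1 (T (x + y) - (T x + T y)) := n1_add_le _ _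
      _ ≤ (n1 (T x) + n1 (T y)) + 2 * (4 * (q x + q y) / 2 ^ 100) :=
          add_le_add (n1_add_le _ _) h2
      _ = (q x + q y) + 2 * (4 * (q x + q y) / 2 ^ 100) := rfl
  refine le_trans h3 ?_
  have h4 : 2 * (4 * (q x + q y) / 2 ^ 100) = (8 / 2 ^ 100) * (q x + q y) := by ring
  rw [h4]
  have h5 : (8 / 2 ^ 100 : ℝ) * (q x + q y) ≤ (1 / 1024) * (q x + q y) :=
    mul_le_mul_of_nonneg_right (by norm_num) h0
  linarith

/-- crude bound for combinations of many vectors -/
theorem q_sum_crude (M : ℕ) (a : ℕ → ℝ) (v : ℕ → V) :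
    q (∑ s ∈ range M, a s • v s) ≤ 2 ^ M * ∑ s ∈ range M, |a s| * q (v s) := by
  induction M with
  | zero =>
    simp only [Finset.range_zero, Finset.sum_empty, mul_zero]
    unfold q
    rw [T_zero, n1_zero]
  | succ M ih =>
    rw [Finset.sum_range_succ, Finset.sum_range_succ]
    have h1 := q_add_le (∑ s ∈ range M, a s • v s) (a M • v M)
    rw [q_smul] at h1
    have h2 : 0 ≤ |a M| * q (v M) := mul_nonneg (abs_nonneg _) (q_nonneg _)
    have h3 : 0 ≤ q (∑ s ∈ range M, a s • v s) := q_nonneg _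
    have h4 : (1 : ℝ) ≤ 2 ^ M := one_le_pow₀ (by norm_num)
    calc q (∑ s ∈ range M, a s • v s + a M • v M)
        ≤ (1 + 1 / 1024) * (q (∑ s ∈ range M, a s • v s) + |a M| * q (v M)) := h1
      _ ≤ 2 * (q (∑ s ∈ range M, a s • v s) + |a M| * q (v M)) :=
          mul_le_mul_of_nonneg_right (by norm_num) (by linarith)
      _ ≤ 2 * (2 ^ M * ∑ s ∈ range M, |a s| * q (v s) + 2 ^ M * (|a M| * q (v M))) := by
          have h5 : |a M| * q (v M) ≤ 2 ^ M * (|a M| * q (v M)) := le_mul_of_one_le_left h2 h4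
          linarith
      _ = 2 ^ (M + 1) * (∑ s ∈ range M, |a s| * q (v s) + |a M| * q (v M)) := by ring

end Pool.Agent.Atomic
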