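import Pool.Agent.Lib.MP_968cc4_an.TYP

/-! Module COD: coded sequences -/

set_option autoImplicit false

namespace Pool.Agent.Atomic

open Finset

/-- a coded sequence above `q0` -/
def Coded (z : ℕ → V) (q0 : ℕ) (S : ℕ → Finset ℕ) (p : ℕ → ℕ) (v b : ℕ → V) : Prop :=
  (∀ l, q0 < scl S p l) ∧ (∀ l, TypeVec z q0 (scl S p l) (v l) (b l)) ∧
  (∀ l l', l < l' → ∀ a a', b l a ≠ 0 → b l' a' ≠ 0 → a < a') ∧
  (∀ l a, b l a ≠ 0 → q0 < a) ∧ ∀ l, S l = (prt true (b l)).support

/-- the finite stages of the construction -/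
private structure St where
  S : ℕ → Finset ℕ
  p : ℕ → ℕ
  v : ℕ → V
  b : ℕ → V

private def Good (z : ℕ → V) (q0 l : ℕ) (x : St) : Prop :=
  (∀ i, i < l → q0 < scl x.S x.p i) ∧
  (∀ i, i < l → TypeVec z q0 (scl x.S x.p i) (x.v i) (x.b i)) ∧
  (∀ i j, i < j → j < l → ∀ a a', x.b i a ≠ 0 → x.b j a' ≠ 0 → a < a') ∧
  (∀ i, i < l → ∀ a, x.b i a ≠ 0 → q0 < a) ∧ ∀ i, i < l → x.S i = (prt true (x.b i)).support

private def Agree (l : ℕ) (x y : St) : Prop :=
  ∀ i, i < l → x.S i = y.S i ∧ x.p i = y.p i ∧ x.v i = y.v i ∧ x.b i = y.b i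

private theorem extend (z : ℕ → V) (hz : Sep z) (q0 l : ℕ) (x : St) (hx : Good z q0 l x) :
    ∃ y : St, Good z q0 (l + 1) y ∧ Agree l x y := by
  obtain ⟨c, hc⟩ := exists_label x.S x.p l q0
  set p' : ℕ → ℕ := Function.update x.p l c with hp'
  set N : ℕ := max q0 ((range l).sup fun i => (x.b i).support.sup id) with hN
  obtain ⟨v', b', hT, hb'⟩ := type_vector z hz q0 (scl x.S p' l) N (fun j => scl_not_isQ _ _ _ j) hc
  obtain ⟨h1, h2, h3, h4, h5⟩ := hx
  set S' : ℕ → Finset ℕ := Function.update x.S l (prt true b').support with hS'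
  have hscl : ∀ i, i < l → scl S' p' i = scl x.S x.p i := by
    intro i hi
    refine scl_congr (fun r hr => ?_) (fun r hr => ?_)
    · rw [hS', Function.update_of_ne (by omega)]
    · rw [hp', Function.update_of_ne (by omega)]
  have hscl' : scl S' p' l = scl x.S p' l := by
    refine scl_congr (fun r hr => ?_) (fun r hr => rfl)
    rw [hS', Function.update_of_ne (by omega)]
  refine ⟨⟨S', p', Function.update x.v l v', Function.update x.b l b'⟩,
    ⟨?_, ?_, ?_, ?_, ?_⟩, ?_⟩
  · intro i hi
    rcases Nat.lt_succ_iff_lt_or_eq.1 hi with h | h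
    · simp only [hscl i h]
      exact h1 i h
    · subst h
      simp only [hscl']
      exact hc
  · intro i hi
    rcases Nat.lt_succ_iff_lt_or_eq.1 hi with h | h
    · simp only [hscl i h, Function.update_of_ne h.ne]
      exact h2 i h
    · subst h
      simp only [hscl', Function.update_self]
      exact hT
  · intro i j hij hj a a' ha ha'
    have hi : i ≠ l := by omega
    simp only [Function.update_of_ne hi] at ha
    rcases Nat.lt_succ_iff_lt_or_eq.1 hj with h | h
    · simp only [Function.update_of_ne h.ne] at ha'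
      exact h3 i j hij h a a' ha ha'
    · subst h
      simp only [Function.update_self] at ha'
      refine lt_of_le_of_lt ?_ (hb' a' ha')
      have e1 : a ≤ (x.b i).support.sup id :=
        Finset.le_sup (f := id) (Finsupp.mem_support_iff.2 ha)
      have e2 : (x.b i).support.sup id ≤ (range j).sup fun i => (x.b i).support.sup id :=
        Finset.le_sup (f := fun i => (x.b i).support.sup id) (mem_range.2 hij)
      exact e1.trans (e2.trans (le_max_right _ _))
  · intro i hi a ha
    rcases Nat.lt_succ_iff_lt_or_eq.1 hi with h | h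
    · simp only [Function.update_of_ne h.ne] at ha
      exact h4 i h a ha
    · subst h
      simp only [Function.update_self] at ha
      exact lt_of_le_of_lt (le_max_left _ _) (hb' a ha)
  · intro i hi
    rcases Nat.lt_succ_iff_lt_or_eq.1 hi with h | h
    · simp only [hS', Function.update_of_ne h.ne]
      exact h5 i h
    · subst h
      simp only [hS', Function.update_self]
  · intro i hi
    simp only [hS', hp', Function.update_of_ne hi.ne]
    exact ⟨trivial, trivial, trivial, trivial⟩

theorem coded_sequence (z : ℕ → V) (hz : Sep z) (q0 : ℕ) :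
    ∃ S p v b, Coded z q0 S p v b := by
  have ext := extend z hz q0
  choose! f hf using ext
  let st : ℕ → St := fun l => Nat.rec ⟨fun _ => ∅, fun _ => 0, fun _ => 0, fun _ => 0⟩
    (fun l x => f l x) l
  have hst : ∀ l, Good z q0 l (st l) := by
    intro l
    induction l with
    | zero =>
      refine ⟨?_, ?_, ?_, ?_, ?_⟩
      · intro i hi; exact absurd hi (Nat.not_lt_zero _)
      · intro i hi; exact absurd hi (Nat.not_lt_zero _)
      · intro i j _ hj; exact absurd hj (Nat.not_lt_zero _)
      · intro i hi; exact absurd hi (Nat.not_lt_zero _)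
      · intro i hi; exact absurd hi (Nat.not_lt_zero _)
    | succ l ih => exact (hf l (st l) ih).1
  have hag : ∀ l, Agree l (st l) (st (l + 1)) := fun l => (hf l (st l) (hst l)).2
  have hag' : ∀ l d, Agree l (st l) (st (l + d)) := by
    intro l d
    induction d with
    | zero => intro i _; exact ⟨rfl, rfl, rfl, rfl⟩
    | succ d ih =>
      intro i hi
      obtain ⟨a1, a2, a3, a4⟩ := ih i hi
      obtain ⟨b1, b2, b3, b4⟩ := hag (l + d) i (by omega)
      exact ⟨a1.trans b1, a2.trans b2, a3.trans b3, a4.trans b4⟩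
  have hall : ∀ r l, r ≤ l → (st (r + 1)).S r = (st (l + 1)).S r ∧
      (st (r + 1)).p r = (st (l + 1)).p r ∧ (st (r + 1)).v r = (st (l + 1)).v r ∧
      (st (r + 1)).b r = (st (l + 1)).b r := by
    intro r l hrl
    obtain ⟨d, rfl⟩ := Nat.exists_eq_add_of_le hrl
    have h := hag' (r + 1) d r (by omega)
    rw [show r + 1 + d = r + d + 1 by omega] at h
    exact h
  set S : ℕ → Finset ℕ := fun l => (st (l + 1)).S l with hS
  set p : ℕ → ℕ := fun l => (st (l + 1)).p l with hp
  have hscl : ∀ l, scl S p l = scl (st (l + 1)).S (st (l + 1)).p l := fun l =>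
    scl_congr (fun r hr => (hall r l hr.le).1) (fun r hr => (hall r l hr).2.1)
  refine ⟨S, p, fun l => (st (l + 1)).v l, fun l => (st (l + 1)).b l, ?_, ?_, ?_, ?_, ?_⟩
  · intro l
    rw [hscl]
    exact (hst (l + 1)).1 l (by omega)
  · intro l
    rw [hscl]
    exact (hst (l + 1)).2.1 l (by omega)
  · intro l l' hll a a' ha ha'
    have e : (st (l + 1)).b l = (st (l' + 1)).b l := (hall l l' hll.le).2.2.2
    simp only [e] at ha
    exact (hst (l' + 1)).2.2.1 l l' hll (by omega) a a' ha ha'
  · intro l a ha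
    exact (hst (l + 1)).2.2.2.1 l (by omega) a ha
  · intro l
    exact (hst (l + 1)).2.2.2.2 l (by omega)

end Pool.Agent.Atomic
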