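import Mathlib

/-! Module COMP1: Aoki-Rolewicz for `q` (exponent one half). Independent of all other modules. -/

set_option autoImplicit false

namespace Pool.Agent.Atomic

open Finset

/-- Splitting a list at the first partial sum which reaches the level `c`. -/
theorem split_at_level {V : Type*} (H : V → ℝ) (hH0 : ∀ x, 0 ≤ H x) :
    ∀ (l : List V), l ≠ [] → ∀ c : ℝ, 0 ≤ c → c ≤ (l.map H).sum →
      ∃ (l₁ : List V) (x : V) (l₂ : List V), l = l₁ ++ x :: l₂ ∧ (l₁.map H).sum ≤ c ∧
        c ≤ (l₁.map H).sum + H x := by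
  intro l
  induction l with
  | nil => intro h; exact absurd rfl h
  | cons x l ih =>
    intro _ c hc0 hc
    by_cases h1 : c ≤ H x
    · exact ⟨[], x, l, rfl, by simpa using hc0, by simpa using h1⟩
    · have h1' : H x < c := not_le.mp h1
      have hl : l ≠ [] := by
        rintro rfl
        simp only [List.map_cons, List.map_nil, List.sum_cons, List.sum_nil, add_zero] at hc
        linarith
      rw [List.map_cons, List.sum_cons] at hc
      obtain ⟨l₁, y, l₂, h2, h3, h4⟩ := ih hl (c - H x) (by linarith) (by linarith)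
      refine ⟨x :: l₁, y, l₂, ?_, ?_, ?_⟩
      · rw [h2]
        rfl
      · rw [List.map_cons, List.sum_cons]
        linarith
      · rw [List.map_cons, List.sum_cons]
        linarith

/-- Frink's chain lemma -/
theorem chain_le {V : Type*} [AddCommGroup V] (H : V → ℝ) (hH0 : ∀ x, 0 ≤ H x) (hHz : H 0 = 0)
    (h3 : ∀ x y z, H (x + y + z) ≤ 2 * max (H x) (max (H y) (H z))) (l : List V) :
    H l.sum ≤ 2 * (l.map H).sum := by
  obtain ⟨n, hn⟩ : ∃ n, l.length = n := ⟨_, rfl⟩
  induction n using Nat.strong_induction_on generalizing l with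
  | _ n ih =>
    by_cases hl : l = []
    · subst hl
      simp [hHz]
    · have hnn : ∀ l : List V, 0 ≤ (l.map H).sum := by
        intro l
        refine List.sum_nonneg ?_
        intro a ha
        obtain ⟨b, -, rfl⟩ := List.mem_map.mp ha
        exact hH0 b
      have hA := hnn l
      obtain ⟨l₁, x, l₂, h1, h2, h4⟩ :=
        split_at_level H hH0 l hl ((l.map H).sum / 2) (by linarith) (by linarith)
      have hsum : (l.map H).sum = (l₁.map H).sum + (H x + (l₂.map H).sum) := by
        rw [h1]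
        simp
      have hlen : l.length = l₁.length + (l₂.length + 1) := by
        rw [h1]
        simp
      have hx := hH0 x
      have hn1 := hnn l₁
      have hn2 := hnn l₂
      have e1 : H l₁.sum ≤ (l.map H).sum := by
        have := ih l₁.length (by omega) l₁ rfl
        linarith
      have e2 : H l₂.sum ≤ (l.map H).sum := by
        have := ih l₂.length (by omega) l₂ rfl
        linarith
      have e3 : H x ≤ (l.map H).sum := by linarith
      have hs : l.sum = l₁.sum + x + l₂.sum := by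
        rw [h1]
        simp [add_assoc]
      rw [hs]
      refine (h3 _ _ _).trans ?_
      have := max_le e1 (max_le e3 e2)
      linarith

theorem aoki (q : (ℕ →₀ ℝ) → ℝ)
    (hadd : ∀ x y, q (x + y) ≤ (1 + 1 / 1024) * (q x + q y))
    (hsmul : ∀ (c : ℝ) x, q (c • x) = |c| * q x) :
    ∃ N : (ℕ →₀ ℝ) → ℝ, (∀ x, 0 ≤ N x) ∧ (∀ x y, N (x + y) ≤ N x + N y) ∧
      (∀ (c : ℝ) x, N (c • x) = Real.sqrt |c| * N x) ∧
      (∀ x, N x ^ 2 ≤ q x) ∧ (∀ x, q x ≤ 4 * N x ^ 2) := by
  have q0 : q 0 = 0 := by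
    have := hsmul 0 0
    simpa using this
  have qnn : ∀ x, 0 ≤ q x := by
    intro x
    have h1 := hadd x ((-1 : ℝ) • x)
    rw [hsmul] at h1
    have h2 : x + (-1 : ℝ) • x = 0 := by simp
    rw [h2, q0] at h1
    norm_num at h1
    linarith
  set H : (ℕ →₀ ℝ) → ℝ := fun x => Real.sqrt (q x) with hH
  have hH0 : ∀ x, 0 ≤ H x := fun x => Real.sqrt_nonneg _
  have hHz : H 0 = 0 := by
    change Real.sqrt (q 0) = 0
    rw [q0, Real.sqrt_zero]
  have hHsq : ∀ x, H x ^ 2 = q x := fun x => Real.sq_sqrt (qnn x)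
  have h3 : ∀ x y z, H (x + y + z) ≤ 2 * max (H x) (max (H y) (H z)) := by
    intro x y z
    set μ := max (H x) (max (H y) (H z)) with hμ
    have hμ0 : 0 ≤ μ := (hH0 x).trans (le_max_left _ _)
    have hx : q x ≤ μ ^ 2 := by
      rw [← hHsq]
      exact pow_le_pow_left₀ (hH0 x) (le_max_left _ _) 2
    have hy : q y ≤ μ ^ 2 := by
      rw [← hHsq]
      exact pow_le_pow_left₀ (hH0 y) ((le_max_left _ _).trans (le_max_right _ _)) 2
    have hz : q z ≤ μ ^ 2 := by
      rw [← hHsq]
      exact pow_le_pow_left₀ (hH0 z) ((le_max_right _ _).trans (le_max_right _ _)) 2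
    have h1 := hadd (x + y) z
    have h2 := hadd x y
    have h4 : q (x + y + z) ≤ (2 * μ) ^ 2 := by nlinarith [sq_nonneg μ]
    calc H (x + y + z) = Real.sqrt (q (x + y + z)) := rfl
      _ ≤ Real.sqrt ((2 * μ) ^ 2) := Real.sqrt_le_sqrt h4
      _ = 2 * μ := Real.sqrt_sq (by positivity)
  have hHsmul : ∀ (c : ℝ) x, H (c • x) = Real.sqrt |c| * H x := by
    intro c x
    change Real.sqrt (q (c • x)) = Real.sqrt |c| * Real.sqrt (q x)
    rw [hsmul, Real.sqrt_mul (abs_nonneg c)]
  have hnn : ∀ l : List (ℕ →₀ ℝ), 0 ≤ (l.map H).sum := by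
    intro l
    refine List.sum_nonneg ?_
    intro a ha
    obtain ⟨b, -, rfl⟩ := List.mem_map.mp ha
    exact hH0 b
  let A : (ℕ →₀ ℝ) → Set ℝ := fun x => {s | ∃ l : List (ℕ →₀ ℝ), l.sum = x ∧ s = (l.map H).sum}
  have hbdd : ∀ x, BddBelow (A x) := by
    intro x
    refine ⟨0, ?_⟩
    rintro s ⟨l, -, rfl⟩
    exact hnn l
  have hne : ∀ x, (A x).Nonempty := fun x => ⟨_, [x], by simp, rfl⟩
  have hNH : ∀ x, sInf (A x) ≤ H x := by
    intro x
    refine csInf_le (hbdd x) ⟨[x], by simp, by simp⟩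
  have hN0 : ∀ x, 0 ≤ sInf (A x) := by
    intro x
    refine le_csInf (hne x) ?_
    rintro s ⟨l, -, rfl⟩
    exact hnn l
  have hHN : ∀ x, H x ≤ 2 * sInf (A x) := by
    intro x
    have : H x / 2 ≤ sInf (A x) := by
      refine le_csInf (hne x) ?_
      rintro s ⟨l, hl, rfl⟩
      have := chain_le H hH0 hHz h3 l
      rw [hl] at this
      linarith
    linarith
  have hsub : ∀ x y, sInf (A (x + y)) ≤ sInf (A x) + sInf (A y) := by
    intro x y
    refine le_of_forall_pos_le_add fun ε hε => ?_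
    obtain ⟨s, ⟨l, hl, rfl⟩, h1⟩ := exists_lt_of_csInf_lt (hne x) (lt_add_of_pos_right (sInf (A x)) (half_pos hε))
    obtain ⟨t, ⟨l', hl', rfl⟩, h2⟩ := exists_lt_of_csInf_lt (hne y) (lt_add_of_pos_right (sInf (A y)) (half_pos hε))
    have h4 : sInf (A (x + y)) ≤ ((l ++ l').map H).sum :=
      csInf_le (hbdd _) ⟨l ++ l', by rw [List.sum_append, hl, hl'], rfl⟩
    rw [List.map_append, List.sum_append] at h4
    linarith
  have hle : ∀ (c : ℝ) x, sInf (A (c • x)) ≤ Real.sqrt |c| * sInf (A x) := by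
    intro c x
    refine le_of_forall_pos_le_add fun ε hε => ?_
    have hc : 0 < Real.sqrt |c| + 1 := by positivity
    obtain ⟨s, ⟨l, hl, rfl⟩, h1⟩ := exists_lt_of_csInf_lt (hne x)
      (lt_add_of_pos_right (sInf (A x)) (div_pos hε hc))
    have h4 : sInf (A (c • x)) ≤ ((l.map (fun y => c • y)).map H).sum := by
      refine csInf_le (hbdd _) ⟨l.map (fun y => c • y), ?_, rfl⟩
      rw [← hl]
      exact List.sum_hom l (DistribSMul.toAddMonoidHom (ℕ →₀ ℝ) c)
    have h5 : ((l.map (fun y => c • y)).map H).sum = Real.sqrt |c| * (l.map H).sum := by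
      rw [List.map_map, ← List.sum_map_mul_left]
      congr 1
      refine List.map_congr_left fun y _ => ?_
      exact hHsmul c y
    rw [h5] at h4
    have h6 : Real.sqrt |c| * (l.map H).sum ≤ Real.sqrt |c| * (sInf (A x) + ε / (Real.sqrt |c| + 1)) :=
      mul_le_mul_of_nonneg_left h1.le (Real.sqrt_nonneg _)
    have h7 : Real.sqrt |c| * (ε / (Real.sqrt |c| + 1)) ≤ ε := by
      rw [mul_div_assoc', div_le_iff₀ hc]
      nlinarith [Real.sqrt_nonneg |c|]
    linarith
  refine ⟨fun x => sInf (A x), hN0, hsub, ?_, ?_, ?_⟩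
  · intro c x
    refine le_antisymm (hle c x) ?_
    by_cases hc : c = 0
    · subst hc
      rw [abs_zero, Real.sqrt_zero, zero_mul]
      exact hN0 _
    · have h1 := hle c⁻¹ (c • x)
      rw [smul_smul, inv_mul_cancel₀ hc, one_smul, abs_inv, Real.sqrt_inv] at h1
      have hpos : 0 < Real.sqrt |c| := Real.sqrt_pos.mpr (abs_pos.mpr hc)
      change Real.sqrt |c| * sInf (A x) ≤ sInf (A (c • x))
      rw [← div_eq_inv_mul, le_div_iff₀ hpos] at h1
      linarith
  · intro x
    rw [← hHsq x]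
    exact pow_le_pow_left₀ (hN0 x) (hNH x) 2
  · intro x
    rw [← hHsq x]
    have := pow_le_pow_left₀ (hH0 x) (hHN x) 2
    calc H x ^ 2 ≤ (2 * sInf (A x)) ^ 2 := this
      _ = 4 * sInf (A x) ^ 2 := by ring

end Pool.Agent.Atomic
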