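import Mathlib

/-!
# MP_968cc4_an (atomic space problem): definitions

All objects live on `V = ℕ →₀ ℝ`.  See `Blueprint.md` in this folder.
-/

set_option autoImplicit false

namespace Pool.Agent.Atomic

open Finset

/-- finitely supported real sequences -/
abbrev V := ℕ →₀ ℝ

/-! ## Parameters -/

/-- the light weights `U i` -/
def U : ℕ → ℕ
  | 0 => 16
  | i + 1 => (U i) ^ 8

/-- the heavy weights `W i = U i ^ 2` -/
def W (i : ℕ) : ℕ := U i ^ 2

/-- the lengths `m i` -/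
def m : ℕ → ℕ
  | 0 => 2 ^ 64
  | i + 1 => (2 * m i + 10) ^ (2 * W (i + 1) + 4)

/-- `w i = log (W i)`; the logarithm of the light weight `U i` is `w i / 2` -/
noncomputable def w (i : ℕ) : ℝ := Real.log (W i)

/-- the coupling constants -/
noncomputable def eps (k : ℕ) : ℝ := ((2 : ℝ) ^ 40 * 4 ^ k * (m k : ℝ) ^ 4)⁻¹

/-! ## Scales and codes -/

/-- scale `i` belongs to `Q_k` -/
def isQ (k i : ℕ) : Prop := (Nat.unpair i).1 = k + 1

/-- the code of a finite history; its values are scales in `R = {i | (unpair i).1 = 0}` -/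
def code (p0 : ℕ) (L : List (Finset ℕ × ℕ)) : ℕ := Nat.pair 0 (Encodable.encode (p0, L))

/-- the scale prescribed for the `l`-th piece by the history `(S r, p (r+1))_{r<l}` and `p 0` -/
def scl (S : ℕ → Finset ℕ) (p : ℕ → ℕ) (l : ℕ) : ℕ :=
  code (p 0) ((List.range l).map fun r => (S r, p (r + 1)))

/-! ## Successive families, the norming families `𝒦_k` -/

/-- the functions `ψ 0, …, ψ (n-1)` are successive: the support of an earlier one lies strictly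
to the left of the support of a later one (empty supports are allowed) -/
def Succs (n : ℕ) (ψ : ℕ → ℕ → ℝ) : Prop :=
  ∀ r s, r < s → s < n → ∀ a b, ψ r a ≠ 0 → ψ s b ≠ 0 → a < b

/-- the average of weight `c` of the first `n` functions -/
noncomputable def av (c : ℝ) (n : ℕ) (ψ : ℕ → ℕ → ℝ) : ℕ → ℝ :=
  fun a => c * ∑ r ∈ range n, ψ r a

/-- the family `𝒦_k` -/
inductive KK (k : ℕ) : (ℕ → ℝ) → Prop
  | unit (j : ℕ) : KK k (fun a => if a = j then 1 else 0)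
  | conv (ξ ζ : ℕ → ℝ) (t : ℝ) : 0 ≤ t → t ≤ 1 → KK k ξ → KK k ζ →
      KK k (fun a => t * ξ a + (1 - t) * ζ a)
  | solid (ξ ζ : ℕ → ℝ) : KK k ξ → (∀ a, 0 ≤ ζ a) → (∀ a, ζ a ≤ ξ a) → KK k ζ
  | avg (i n : ℕ) (ψ : ℕ → ℕ → ℝ) : n ≤ m i → (∀ r, r < n → KK k (ψ r)) → Succs n ψ →
      KK k (av (W i : ℝ)⁻¹ n ψ)
  | spec (i n : ℕ) (S : ℕ → Finset ℕ) (p : ℕ → ℕ) (N : ℕ → ℕ) (ψ : ℕ → ℕ → ℕ → ℝ) :
      isQ k i → n ≤ m i →
      (∀ l, l < n → i < scl S p l) →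
      (∀ l, l < n → N l ≤ m (scl S p l)) →
      (∀ l, l < n → ∀ r, r < N l → KK k (ψ l r)) →
      (∀ l, l < n → Succs (N l) (ψ l)) →
      (∀ l, l < n → ∀ r, r < N l → ∀ a, ψ l r a ≠ 0 → a ∈ S l) →
      Succs n (fun l => av (W (scl S p l) : ℝ)⁻¹ (N l) (ψ l)) →
      KK k (av (U i : ℝ)⁻¹ n (fun l => av (W (scl S p l) : ℝ)⁻¹ (N l) (ψ l)))

/-! ## Pairings, norms, positive and negative parts -/

/-- the `ℓ₁` norm -/
noncomputable def n1 (y : V) : ℝ := ∑ j ∈ y.support, |y j|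

/-- the pairing `⟨f, ξ⟩` -/
noncomputable def pr (f : V) (ξ : ℕ → ℝ) : ℝ := ∑ j ∈ f.support, f j * ξ j

/-- the logarithmic pairing `⟨f, log ξ⟩` -/
noncomputable def lg (f : V) (ξ : ℕ → ℝ) : ℝ := ∑ j ∈ f.support, f j * Real.log (ξ j)

/-- `⟨f, log (f / G)⟩` -/
noncomputable def ent (f G : V) : ℝ := ∑ j ∈ f.support, f j * Real.log (f j / G j)

/-- positive part (`s = true`) or negative part (`s = false`) -/
noncomputable def prt (s : Bool) (f : V) : V :=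
  f.mapRange (fun x => max (if s then x else -x) 0) (by cases s <;> simp)

/-- `Φ_k(f)` for `f ≥ 0` -/
noncomputable def Phi (k : ℕ) (f : V) : ℝ :=
  sSup {x | ∃ ξ, KK k ξ ∧ (∀ j ∈ f.support, 0 < ξ j) ∧ x = lg f ξ}

/-- `F_k(y) = Φ_k(y⁺) - Φ_k(y⁻)` -/
noncomputable def F (k : ℕ) (y : V) : ℝ := Phi k (prt true y) - Phi k (prt false y)

/-- the coordinates `> k` of `y` -/
noncomputable def tail (k : ℕ) (y : V) : V := y.filter (fun j => k < j)

/-- the map `S`: `S(y)_k = y_k + ε_k F_k(P_{>k} y)` (finitely supported since `F_k(0) = 0`; the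
formula is imposed only below the top of the support of `y`, above it both sides vanish) -/
noncomputable def Smap (y : V) : V :=
  Finsupp.onFinset (range (y.support.sup id + 1))
    (fun k => if k ≤ y.support.sup id then y k + eps k * F k (tail k y) else 0)
    (by
      intro a ha
      by_contra h
      have h' : ¬ a ≤ y.support.sup id := by
        intro h2
        exact h (mem_range.2 (Nat.lt_succ_of_le h2))
      exact ha (if_neg h'))

/-- the inverse of `S` -/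
noncomputable def T : V → V := Function.invFun Smap

/-- the quasi-norm `q(x) = ‖T x‖₁` -/
noncomputable def q (x : V) : ℝ := n1 (T x)

/-! ## Derived notions used in the interfaces -/

/-- `f` is balanced: both parts have mass one half -/
def Bal (f : V) : Prop := n1 (prt true f) = 1 / 2 ∧ n1 (prt false f) = 1 / 2

/-- `‖h‖_j ≤ c` -/
def NB (j : ℕ) (h : V) (c : ℝ) : Prop := ∀ ξ, KK j ξ → pr h ξ ≤ c

/-- `H` is a flat average of `M` nonnegative successive pieces of norm `≤ 1` for `𝒦_j` -/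
def Flat (j M : ℕ) (H : V) : Prop :=
  ∃ h : ℕ → V, (∀ t, t < M → ∀ a, 0 ≤ h t a) ∧ Succs M (fun t => ⇑(h t)) ∧
    (∀ t, t < M → NB j (h t) 1) ∧ H = (M : ℝ)⁻¹ • ∑ t ∈ range M, h t

/-- `G` is a nonnegative function with the support of `f`, and `⟨f, log (f/G)⟩` approximates
`Φ_j(f)` up to `c` -/
def Rep (j : ℕ) (f G : V) (c : ℝ) : Prop :=
  (∀ a, 0 ≤ G a) ∧ (∀ a, G a ≠ 0 ↔ f a ≠ 0) ∧ |ent f G - Phi j f| ≤ c

/-- the norm estimates characterising (the dual side of) a vector of type `q` -/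
def TypeG (j q : ℕ) (G : V) : Prop :=
  NB j G 4 ∧
  (∀ i n, i < q → n ≤ m i → ∀ ψ : ℕ → ℕ → ℝ, (∀ r, r < n → KK j (ψ r)) → Succs n ψ →
    ∑ r ∈ range n, pr G (ψ r) ≤ 5) ∧
  (∀ i n, q < i → n ≤ m i → ∀ ψ : ℕ → ℕ → ℝ, (∀ r, r < n → KK j (ψ r)) → Succs n ψ →
    ∀ c : ℝ, 0 ≤ c → c ≤ (U i : ℝ)⁻¹ → KK j (av c n ψ) →
    pr G (av c n ψ) ≤ 2 / (W (i - 1) : ℝ) ^ 2 + (W q : ℝ) / (m q : ℝ))

/-- `v` is a linear combination of the `z α` with coefficient sum at most `C` -/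
def Cmb (z : ℕ → V) (C : ℝ) (v : V) : Prop :=
  ∃ c : V, n1 c ≤ C ∧ v = c.sum (fun α t => t • z α)

/-- the hypothesis on the sequence `z` -/
def Sep (z : ℕ → V) : Prop :=
  (∀ α, q (z α) ≤ 1) ∧ ∀ α β, α ≠ β → 1 / 64 ≤ q (z α - z β)

/-- `v` is a good average of scale `i` with model `b` -/
def GoodAvg (z : ℕ → V) (J0 i : ℕ) (v b : V) : Prop :=
  Cmb z 300 v ∧ Bal b ∧ (∀ k, |T v k - b k| ≤ eps k * m k / 2) ∧
  ∀ j, j ≤ J0 → ∀ s : Bool, ∃ H : V, Flat j (2 * m i) H ∧ Rep j (prt s b) H 2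

/-- `v` is a vector of type `q` with model `b` -/
def TypeVec (z : ℕ → V) (J0 q : ℕ) (v b : V) : Prop :=
  Cmb z 300 v ∧ Bal b ∧ (∀ k, |T v k - b k| ≤ eps k * m k) ∧
  (∀ j, j ≤ J0 → ∀ s : Bool, ∃ G : V, TypeG j q G ∧ Rep j (prt s b) G 5) ∧
  (∀ j, j ≤ J0 → ∃ n ψ, n ≤ m q ∧ (∀ r, r < n → KK j (ψ r)) ∧ Succs n ψ ∧
    (∀ r, r < n → ∀ a, ψ r a ≠ 0 → a ∈ (prt true b).support) ∧
    (∀ a ∈ (prt true b).support, 0 < av (W q : ℝ)⁻¹ n ψ a) ∧
    Phi j (prt true b) - 5 ≤ lg (prt true b) (av (W q : ℝ)⁻¹ n ψ))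

end Pool.Agent.Atomic
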