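import Pool.Agent.Lib.MP_968cc4_an.PhiB

/-! Module FF: the functionals `F_k` -/

set_option autoImplicit false

namespace Pool.Agent.Atomic

open Finset

theorem F_zero (k : ℕ) : F k 0 = 0 := by
  simp [F, prt_zero, Phi_zero]

theorem F_neg (k : ℕ) (y : V) : F k (-y) = -F k y := by
  unfold F
  rw [prt_neg, prt_neg]
  simp only [Bool.not_true, Bool.not_false]
  ring

theorem F_smul_nonneg (k : ℕ) (c : ℝ) (hc : 0 ≤ c) (y : V) : F k (c • y) = c * F k y := by
  unfold F
  rw [prt_smul _ _ hc, prt_smul _ _ hc, Phi_smul (fun a => prt_nonneg _ _ a) hc,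
    Phi_smul (fun a => prt_nonneg _ _ a) hc]
  ring

theorem F_smul (k : ℕ) (c : ℝ) (y : V) : F k (c • y) = c * F k y := by
  rcases le_total 0 c with hc | hc
  · exact F_smul_nonneg k c hc y
  · have h1 : c • y = -((-c) • y) := by rw [neg_smul, neg_neg]
    rw [h1, F_neg, F_smul_nonneg k (-c) (by linarith)]
    ring

/-- one half of quasi-additivity -/
theorem F_sum_le (k n : ℕ) (y : ℕ → V) :
    F k (∑ s ∈ range n, y s) - ∑ s ∈ range n, F k (y s)
      ≤ Real.log ((n : ℝ) + 1) * ∑ s ∈ range n, n1 (y s) := by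
  set Y : V := ∑ s ∈ range n, y s with hY
  -- the common sum
  have hz : prt true Y + ∑ s ∈ range n, prt false (y s)
      = prt false Y + ∑ s ∈ range n, prt true (y s) := by
    have h1 : prt true Y - prt false Y
        = ∑ s ∈ range n, prt true (y s) - ∑ s ∈ range n, prt false (y s) := by
      rw [prt_sub_prt, ← Finset.sum_sub_distrib, hY]
      exact Finset.sum_congr rfl (fun s _ => (prt_sub_prt (y s)).symm)
    rw [sub_eq_sub_iff_add_eq_add] at h1
    rw [h1, add_comm]
  have hn1a : n1 (prt true Y + ∑ s ∈ range n, prt false (y s))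
      = n1 (prt true Y) + ∑ s ∈ range n, n1 (prt false (y s)) := by
    rw [n1_add_of_nonneg (fun a => prt_nonneg _ _ a), n1_sum_of_nonneg]
    · exact fun s _ a => prt_nonneg _ _ a
    · intro a
      rw [Finsupp.finsetSum_apply]
      exact Finset.sum_nonneg (fun s _ => prt_nonneg _ _ a)
  have hn1b : n1 (prt false Y + ∑ s ∈ range n, prt true (y s))
      = n1 (prt false Y) + ∑ s ∈ range n, n1 (prt true (y s)) := by
    rw [n1_add_of_nonneg (fun a => prt_nonneg _ _ a), n1_sum_of_nonneg]
    · exact fun s _ a => prt_nonneg _ _ a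
    · intro a
      rw [Finsupp.finsetSum_apply]
      exact Finset.sum_nonneg (fun s _ => prt_nonneg _ _ a)
  have hmass : n1 (prt true Y) + ∑ s ∈ range n, n1 (prt false (y s)) ≤ ∑ s ∈ range n, n1 (y s) := by
    have h1 := n1_sum_le n y
    rw [← hY, ← n1_prt_add Y] at h1
    have h2 : ∑ s ∈ range n, n1 (y s)
        = ∑ s ∈ range n, n1 (prt true (y s)) + ∑ s ∈ range n, n1 (prt false (y s)) := by
      rw [← Finset.sum_add_distrib]
      exact Finset.sum_congr rfl (fun s _ => (n1_prt_add (y s)).symm)
    have h3 : n1 (prt true Y) + ∑ s ∈ range n, n1 (prt false (y s))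
        = n1 (prt false Y) + ∑ s ∈ range n, n1 (prt true (y s)) := by
      rw [← hn1a, ← hn1b, hz]
    linarith
  -- lower bound of `Φ(z)`
  have hlow : Phi k (prt true Y) + ∑ s ∈ range n, Phi k (prt false (y s))
      - Real.log ((n : ℝ) + 1) * (n1 (prt true Y) + ∑ s ∈ range n, n1 (prt false (y s)))
      ≤ Phi k (prt true Y + ∑ s ∈ range n, prt false (y s)) := by
    have h1 := Phi_sum_ge (k := k) (n + 1)
      (fun s => if s < n then prt false (y s) else prt true Y) (by
        intro s _ a
        by_cases hs : s < n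
        · simp only [hs, if_true]; exact prt_nonneg _ _ a
        · simp only [hs, if_false]; exact prt_nonneg _ _ a)
    have e1 : ∀ g : V → ℝ, ∑ s ∈ range (n + 1), g (if s < n then prt false (y s) else prt true Y)
        = g (prt true Y) + ∑ s ∈ range n, g (prt false (y s)) := by
      intro g
      rw [Finset.sum_range_succ, if_neg (lt_irrefl n), add_comm]
      congr 1
      exact Finset.sum_congr rfl (fun s hs => by rw [if_pos (mem_range.1 hs)])
    have e2 : ∑ s ∈ range (n + 1), (if s < n then prt false (y s) else prt true Y)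
        = prt true Y + ∑ s ∈ range n, prt false (y s) := by
      rw [Finset.sum_range_succ, if_neg (lt_irrefl n), add_comm]
      congr 1
      exact Finset.sum_congr rfl (fun s hs => by rw [if_pos (mem_range.1 hs)])
    simp only [e1 (Phi k), e1 n1, e2] at h1
    push_cast at h1
    exact h1
  have hup : Phi k (prt false Y + ∑ s ∈ range n, prt true (y s))
      ≤ Phi k (prt false Y) + ∑ s ∈ range n, Phi k (prt true (y s)) := by
    refine le_trans (Phi_add_le (fun a => prt_nonneg _ _ a) ?_) ?_
    · intro a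
      rw [Finsupp.finsetSum_apply]
      exact Finset.sum_nonneg (fun s _ => prt_nonneg _ _ a)
    · exact add_le_add le_rfl (Phi_sum_le n _ (fun s _ a => prt_nonneg _ _ a))
  rw [← hz] at hup
  have hlog : 0 ≤ Real.log ((n : ℝ) + 1) := Real.log_nonneg (by
    have : (0 : ℝ) ≤ n := Nat.cast_nonneg n
    linarith)
  have h4 := mul_le_mul_of_nonneg_left hmass hlog
  unfold F
  rw [Finset.sum_sub_distrib]
  linarith

/-- quasi-additivity -/
theorem F_sum (k n : ℕ) (y : ℕ → V) :
    |F k (∑ s ∈ range n, y s) - ∑ s ∈ range n, F k (y s)|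
      ≤ Real.log ((n : ℝ) + 1) * ∑ s ∈ range n, n1 (y s) := by
  rw [abs_le]
  constructor
  · have h1 := F_sum_le k n (fun s => -(y s))
    simp only [Finset.sum_neg_distrib, F_neg, n1_neg] at h1
    linarith
  · exact F_sum_le k n y

theorem F_add (k : ℕ) (x y : V) :
    |F k (x + y) - F k x - F k y| ≤ Real.log 3 * (n1 x + n1 y) := by
  have h1 := F_sum k 2 (fun s => if s = 0 then x else y)
  rw [Finset.sum_range_succ, Finset.sum_range_succ, Finset.sum_range_zero,
    Finset.sum_range_succ, Finset.sum_range_succ, Finset.sum_range_zero,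
    Finset.sum_range_succ, Finset.sum_range_succ, Finset.sum_range_zero] at h1
  simp only [if_true, one_ne_zero, if_false, zero_add] at h1
  have e : ((2 : ℕ) : ℝ) + 1 = 3 := by norm_num
  rw [e] at h1
  have e2 : F k (x + y) - F k x - F k y = F k (x + y) - (F k x + F k y) := by ring
  rw [e2]
  exact h1

/-- weighted version: combinations `∑ a_s y_s + e` -/
theorem F_comb (k M : ℕ) (a : ℕ → ℝ) (y : ℕ → V) (e : V) :
    |F k (∑ s ∈ range M, a s • y s + e) - ∑ s ∈ range M, a s * F k (y s) - F k e|
      ≤ Real.log ((M : ℝ) + 2) * (∑ s ∈ range M, |a s| * n1 (y s) + n1 e) := by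
  have h1 := F_sum k (M + 1) (fun s => if s < M then a s • y s else e)
  have e1 : ∀ g : V → ℝ, ∑ s ∈ range (M + 1), g (if s < M then a s • y s else e)
      = ∑ s ∈ range M, g (a s • y s) + g e := by
    intro g
    rw [Finset.sum_range_succ, if_neg (lt_irrefl M)]
    congr 1
    exact Finset.sum_congr rfl (fun s hs => by rw [if_pos (mem_range.1 hs)])
  have e2 : ∑ s ∈ range (M + 1), (if s < M then a s • y s else e)
      = ∑ s ∈ range M, a s • y s + e := by
    rw [Finset.sum_range_succ, if_neg (lt_irrefl M)]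
    congr 1
    exact Finset.sum_congr rfl (fun s hs => by rw [if_pos (mem_range.1 hs)])
  simp only [e1 (F k), e1 n1, e2] at h1
  simp only [F_smul, n1_smul] at h1
  have e3 : ((M + 1 : ℕ) : ℝ) + 1 = (M : ℝ) + 2 := by push_cast; ring
  rw [e3] at h1
  have e4 : F k (∑ s ∈ range M, a s • y s + e) - ∑ s ∈ range M, a s * F k (y s) - F k e
      = F k (∑ s ∈ range M, a s • y s + e) - (∑ s ∈ range M, a s * F k (y s) + F k e) := by ring
  rw [e4]
  exact h1

/-- the weighted mass of the parts is at most that of the function -/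
theorem part_weight_le (s : Bool) (y : V) :
    ∑ j ∈ (prt s y).support, ((j : ℝ) + 1) * prt s y j
      ≤ ∑ j ∈ y.support, ((j : ℝ) + 1) * |y j| := by
  have hsub : (prt s y).support ⊆ y.support := fun a ha =>
    Finsupp.mem_support_iff.2 (prt_ne_zero (Finsupp.mem_support_iff.1 ha))
  calc ∑ j ∈ (prt s y).support, ((j : ℝ) + 1) * prt s y j
      ≤ ∑ j ∈ (prt s y).support, ((j : ℝ) + 1) * |y j| := by
        refine Finset.sum_le_sum (fun j _ => ?_)
        refine mul_le_mul_of_nonneg_left ?_ (by positivity)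
        rw [prt_apply]
        refine max_le ?_ (abs_nonneg _)
        cases s
        · simpa using neg_le_abs (y j)
        · simpa using le_abs_self (y j)
    _ ≤ ∑ j ∈ y.support, ((j : ℝ) + 1) * |y j| :=
        Finset.sum_le_sum_of_subset_of_nonneg hsub (fun j _ _ => by positivity)

/-- crude bound -/
theorem F_bound (k : ℕ) (y : V) :
    |F k y| ≤ Real.log 2 * ∑ j ∈ y.support, ((j : ℝ) + 1) * |y j| := by
  have h1 := Phi_lower (k := k) (f := prt true y) (fun a => prt_nonneg _ _ a)
  have h2 := Phi_lower (k := k) (f := prt false y) (fun a => prt_nonneg _ _ a)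
  have h3 := Phi_nonpos (k := k) (f := prt true y) (fun a => prt_nonneg _ _ a)
  have h4 := Phi_nonpos (k := k) (f := prt false y) (fun a => prt_nonneg _ _ a)
  have hlog : 0 ≤ Real.log 2 := Real.log_nonneg (by norm_num)
  have h5 := mul_le_mul_of_nonneg_left (part_weight_le true y) hlog
  have h6 := mul_le_mul_of_nonneg_left (part_weight_le false y) hlog
  unfold F
  rw [abs_le]
  constructor <;> linarith

/-- crude bound for geometrically small functions -/
theorem F_bound_geom (k : ℕ) (y : V) (c : ℝ) (hc : 0 ≤ c) (h : ∀ a, |y a| ≤ c / 4 ^ a) :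
    |F k y| ≤ 2 * c := by
  refine le_trans (F_bound k y) ?_
  have hlog0 : 0 ≤ Real.log 2 := Real.log_nonneg (by norm_num)
  have hlog : Real.log 2 ≤ 1 := by
    have := Real.log_two_lt_d9
    linarith
  have h1 : ∑ j ∈ y.support, ((j : ℝ) + 1) * |y j| ≤ 2 * c := by
    calc ∑ j ∈ y.support, ((j : ℝ) + 1) * |y j|
        ≤ ∑ j ∈ y.support, c * (1 / 2) ^ j := by
          refine Finset.sum_le_sum (fun j _ => ?_)
          have h2 : ((j : ℝ) + 1) ≤ 2 ^ j := by
            have := Nat.lt_two_pow_self (n := j)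
            have h3 : j + 1 ≤ 2 ^ j := this
            exact_mod_cast h3
          calc ((j : ℝ) + 1) * |y j| ≤ 2 ^ j * (c / 4 ^ j) :=
                mul_le_mul h2 (h j) (abs_nonneg _) (by positivity)
            _ = c * (1 / 2) ^ j := by
                rw [one_div, inv_pow, show (4 : ℝ) = 2 * 2 by norm_num, mul_pow]
                field_simp
      _ = c * ∑ j ∈ y.support, (1 / 2 : ℝ) ^ j := by rw [Finset.mul_sum]
      _ ≤ c * 2 := by
          refine mul_le_mul_of_nonneg_left ?_ hc
          calc ∑ j ∈ y.support, (1 / 2 : ℝ) ^ j ≤ ∑' j : ℕ, (1 / 2 : ℝ) ^ j :=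
                summable_geometric_two.sum_le_tsum _ (fun j _ => by positivity)
            _ = 2 := tsum_geometric_two
      _ = 2 * c := by ring
  have h0 : 0 ≤ ∑ j ∈ y.support, ((j : ℝ) + 1) * |y j| :=
    Finset.sum_nonneg (fun j _ => by positivity)
  calc Real.log 2 * ∑ j ∈ y.support, ((j : ℝ) + 1) * |y j|
      ≤ 1 * ∑ j ∈ y.support, ((j : ℝ) + 1) * |y j| := mul_le_mul_of_nonneg_right hlog h0
    _ ≤ 2 * c := by linarith

end Pool.Agent.Atomic
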