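import Pool.Agent.Lib.MP_968cc4_an.LOS
import Pool.Agent.Lib.MP_968cc4_an.H64.CmbTools

/-! Module FIN: the main theorem on `V` -/

set_option autoImplicit false

namespace Pool.Agent.Atomic

open Finset

theorem H64.avgV_eq (q0 : ℕ) (v : ℕ → V) :
    avgV q0 v = ∑ l ∈ range (m q0), ((m q0 : ℝ)⁻¹) • v l := by
  unfold avgV
  rw [Finset.smul_sum]

theorem H64.log_three_le : Real.log 3 ≤ 1.1 := by
  have h1 : (3 : ℝ) ≤ Real.exp 1.1 := by
    have e1 : Real.exp 1.1 = Real.exp 1 * Real.exp 0.1 := by
      rw [← Real.exp_add]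
      norm_num
    have e2 := Real.exp_one_gt_d9
    have e3 := Real.quadratic_le_exp_of_nonneg (x := (0.1 : ℝ)) (by norm_num)
    rw [e1]
    have e4 : (1.105 : ℝ) ≤ Real.exp 0.1 := by
      refine le_trans ?_ e3
      norm_num
    nlinarith
  calc Real.log 3 ≤ Real.log (Real.exp 1.1) := Real.log_le_log (by norm_num) h1
    _ = 1.1 := Real.log_exp _

/-- `F_i` of a small perturbation of a function of norm at most one -/
theorem H64.F_perturb (i : ℕ) (y b : V) (hb : n1 b ≤ 1)
    (h : ∀ a, |y a - b a| ≤ (1 / 2 ^ 99 : ℝ) / 4 ^ a) : |F i y - F i b| ≤ 1.2 := by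
  have h1 : y = b + (y - b) := by abel
  have h2 : ∀ a, |(y - b) a| ≤ (1 / 2 ^ 99 : ℝ) / 4 ^ a := by
    intro a
    rw [Finsupp.sub_apply]
    exact h a
  have h3 := n1_le_geom (y - b) (1 / 2 ^ 99) (by positivity) h2
  have h4 := F_bound_geom i (y - b) (1 / 2 ^ 99) (by positivity) h2
  have h5 := F_add i b (y - b)
  rw [← h1] at h5
  have h6 : Real.log 3 * (n1 b + n1 (y - b)) ≤ 1.1 * (1 + 2 * (1 / 2 ^ 99)) := by
    apply mul_le_mul H64.log_three_le (add_le_add hb h3)
    · exact add_nonneg (n1_nonneg _) (n1_nonneg _)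
    · norm_num
  have h7 : |F i y - F i b| ≤ |F i y - F i b - F i (y - b)| + |F i (y - b)| := by
    have := abs_add_le (F i y - F i b - F i (y - b)) (F i (y - b))
    simpa using this
  have h8 : (2 : ℝ) * (1 / 2 ^ 99) ≤ 1 / 2 ^ 90 := by norm_num
  have h9 : (1 : ℝ) / 2 ^ 90 ≤ 1 / 1000 := by norm_num
  linarith

/-- the average corrected at the coordinate `k` is bounded -/
theorem corrected_bound (k q0 : ℕ) (hk : k ≤ q0) (v b : ℕ → V)
    (hmod : ∀ l, l < m q0 → ∀ i, |T (v l) i - b l i| ≤ eps i * m i)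
    (hn : ∀ l, l < m q0 → n1 (b l) ≤ 1)
    (hsupp : ∀ l a, b l a ≠ 0 → q0 < a)
    (hLam : ∀ j, j ≤ q0 → j ≠ k → |Lam j q0 b| ≤ 8) :
    q (avgV q0 v + (eps k * Lam k q0 b) • Finsupp.single k 1) ≤ 2 := by
  set x' : V := avgV q0 v + (eps k * Lam k q0 b) • Finsupp.single k 1 with hx'
  set y' : V := T x' with hy'
  set xh : V := avgV q0 b with hxh
  set N : ℕ := m q0 with hN
  have hNpos : (0 : ℝ) < (N : ℝ) := by
    have := H64.le_m_real q0
    rw [← hN] at this
    linarith [show (0 : ℝ) < 2 ^ 64 by positivity]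
  have hNinv : (N : ℝ) * (N : ℝ)⁻¹ = 1 := mul_inv_cancel₀ hNpos.ne'
  have hem : ∀ i, eps i * m i ≤ (1 / 2 ^ 100 : ℝ) / 4 ^ i := eps_m_le
  have hem0 : ∀ i, 0 ≤ eps i * (m i : ℝ) := fun i => mul_nonneg (eps_pos i).le (Nat.cast_nonneg _)
  -- the value of averages
  have havg : ∀ (f : ℕ → V) (i : ℕ), avgV q0 f i = (N : ℝ)⁻¹ * ∑ l ∈ range N, f l i := by
    intro f i
    unfold avgV
    rw [Finsupp.smul_apply, Finsupp.finsetSum_apply, smul_eq_mul]
  -- norm of the model
  have hxh1 : n1 xh ≤ 1 := by
    rw [hxh]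
    unfold avgV
    rw [n1_smul, abs_of_nonneg (by positivity)]
    have h1 : n1 (∑ s ∈ range (m q0), b s) ≤ N := by
      refine (n1_sum_le (m q0) b).trans ?_
      calc ∑ s ∈ range (m q0), n1 (b s) ≤ ∑ s ∈ range (m q0), (1 : ℝ) :=
            Finset.sum_le_sum fun s hs => hn s (Finset.mem_range.1 hs)
        _ = N := by simp [hN]
    calc (N : ℝ)⁻¹ * n1 (∑ s ∈ range (m q0), b s) ≤ (N : ℝ)⁻¹ * N :=
          mul_le_mul_of_nonneg_left h1 (by positivity)
      _ = 1 := by rw [mul_comm]; exact hNinv
  -- coordinates `≤ q0` of the model vanish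
  have hb0 : ∀ l i, i ≤ q0 → b l i = 0 := by
    intro l i hi
    by_contra h
    have := hsupp l i h
    omega
  have hxh0 : ∀ i, i ≤ q0 → xh i = 0 := by
    intro i hi
    rw [hxh, havg b i]
    rw [Finset.sum_eq_zero fun l _ => hb0 l i hi, mul_zero]
  -- high coordinates
  have hhigh : ∀ i, q0 < i → |y' i - xh i| ≤ 2 * (eps i * m i) := by
    intro i hi
    have hcongr : tail q0 (T x') = tail q0 (T (avgV q0 v)) := by
      apply T_tail_congr
      intro j hj
      rw [hx', Finsupp.add_apply, Finsupp.smul_apply, Finsupp.single_apply, if_neg (by omega),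
        smul_zero, add_zero]
    have h1 : y' i = T (avgV q0 v) i := by
      have h2 := congrArg (fun f : V => f i) hcongr
      simp only [tail_apply, if_pos hi] at h2
      rw [hy']
      exact h2
    have h3 := comb_model N (fun _ => (N : ℝ)⁻¹) v b (q0 + 1) (fun j => eps j * m j)
      (by rw [hN]; exact m_strictMono.monotone (by omega))
      (by
        rw [Finset.sum_const, Finset.card_range, nsmul_eq_mul, abs_of_nonneg (by positivity), hNinv])
      (fun s hs => hn s hs)
      (fun j => ⟨hem0 j, (hem j).trans (by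
        apply div_le_div_of_nonneg_right _ (by positivity)
        norm_num)⟩)
      (fun s hs j _ => hmod s hs j) i (by omega)
    have e1 : ∑ s ∈ range N, (N : ℝ)⁻¹ • v s = avgV q0 v := (H64.avgV_eq q0 v).symm
    have e2 : ∑ s ∈ range N, (N : ℝ)⁻¹ • b s = xh := (H64.avgV_eq q0 b).symm
    rw [e1, e2] at h3
    rw [h1]
    have h4 := hem0 i
    have h5 : eps i * (m i : ℝ) / 8 ≤ eps i * m i := by linarith
    linarith
  -- all coordinates, downward induction
  have hall : ∀ d i, i + d = q0 + 1 → ∀ j, i ≤ j → |y' j - xh j| ≤ 2 * (eps j * m j) := by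
    intro d
    induction d with
    | zero =>
      intro i hi j hj
      exact hhigh j (by omega)
    | succ d ih =>
      intro i hi j hj
      rcases Nat.lt_or_ge i j with hij | hij
      · exact ih (i + 1) (by omega) j (by omega)
      · have hij' : j = i := by omega
        subst hij'
        have hjq : j ≤ q0 := by omega
        have hjs := ih (j + 1) (by omega)
        -- the recursion
        have r1 : y' j = x' j - eps j * F j (tail j y') := T_apply x' j
        have r2 : ∀ l, v l j = T (v l) j + eps j * F j (tail j (T (v l))) := by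
          intro l
          have := T_apply (v l) j
          linarith
        have r3 : x' j = (N : ℝ)⁻¹ * ∑ l ∈ range N, v l j
            + (if k = j then eps k * Lam k q0 b else 0) := by
          rw [hx', Finsupp.add_apply, havg v j, Finsupp.smul_apply, Finsupp.single_apply]
          congr 1
          split_ifs <;> simp
        -- perturbation of `F j`
        have p1 : |F j (tail j y') - F j xh| ≤ 1.2 := by
          apply H64.F_perturb j _ _ hxh1
          intro a
          rw [tail_apply]
          split_ifs with ha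
          · have h1 := hjs a (by omega)
            have h2 := hem a
            have h3 : 2 * ((1 / 2 ^ 100 : ℝ) / 4 ^ a) = (1 / 2 ^ 99 : ℝ) / 4 ^ a := by
              rw [← mul_div_assoc]
              norm_num
            linarith
          · rw [hxh0 a (by omega), sub_zero, abs_zero]
            positivity
        have p2 : ∀ l, l < N → |F j (tail j (T (v l))) - F j (b l)| ≤ 1.2 := by
          intro l hl
          apply H64.F_perturb j _ _ (hn l hl)
          intro a
          rw [tail_apply]
          split_ifs with ha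
          · have h1 := hmod l hl a
            have h2 := hem a
            have h3 : (1 / 2 ^ 100 : ℝ) / 4 ^ a ≤ (1 / 2 ^ 99 : ℝ) / 4 ^ a := by
              apply div_le_div_of_nonneg_right _ (by positivity)
              norm_num
            linarith
          · rw [hb0 l a (by omega), sub_zero, abs_zero]
            positivity
        -- averages
        have q1 : |(N : ℝ)⁻¹ * ∑ l ∈ range N, T (v l) j| ≤ eps j * m j := by
          rw [abs_mul, abs_of_nonneg (by positivity : (0 : ℝ) ≤ (N : ℝ)⁻¹)]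
          have h1 : |∑ l ∈ range N, T (v l) j| ≤ N * (eps j * m j) := by
            refine (Finset.abs_sum_le_sum_abs _ _).trans ?_
            calc ∑ l ∈ range N, |T (v l) j| ≤ ∑ l ∈ range N, eps j * m j := by
                  refine Finset.sum_le_sum fun l hl => ?_
                  have := hmod l (Finset.mem_range.1 hl) j
                  rw [hb0 l j hjq, sub_zero] at this
                  exact this
              _ = N * (eps j * m j) := by simp
          calc (N : ℝ)⁻¹ * |∑ l ∈ range N, T (v l) j| ≤ (N : ℝ)⁻¹ * (N * (eps j * m j)) :=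
                mul_le_mul_of_nonneg_left h1 (by positivity)
            _ = eps j * m j := by rw [← mul_assoc, inv_mul_cancel₀ hNpos.ne', one_mul]
        have q2 : |(N : ℝ)⁻¹ * ∑ l ∈ range N, (F j (tail j (T (v l))) - F j (b l))| ≤ 1.2 := by
          rw [abs_mul, abs_of_nonneg (by positivity : (0 : ℝ) ≤ (N : ℝ)⁻¹)]
          have h1 : |∑ l ∈ range N, (F j (tail j (T (v l))) - F j (b l))| ≤ N * 1.2 := by
            refine (Finset.abs_sum_le_sum_abs _ _).trans ?_
            calc ∑ l ∈ range N, |F j (tail j (T (v l))) - F j (b l)| ≤ ∑ l ∈ range N, (1.2 : ℝ) :=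
                  Finset.sum_le_sum fun l hl => p2 l (Finset.mem_range.1 hl)
              _ = N * 1.2 := by simp
          calc (N : ℝ)⁻¹ * |∑ l ∈ range N, (F j (tail j (T (v l))) - F j (b l))|
                ≤ (N : ℝ)⁻¹ * (N * 1.2) := mul_le_mul_of_nonneg_left h1 (by positivity)
            _ = 1.2 := by rw [← mul_assoc, inv_mul_cancel₀ hNpos.ne', one_mul]
        have q3 : (N : ℝ)⁻¹ * ∑ l ∈ range N, (F j (tail j (T (v l))) - F j (b l))
            = (N : ℝ)⁻¹ * ∑ l ∈ range N, F j (tail j (T (v l)))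
              - (N : ℝ)⁻¹ * ∑ l ∈ range N, F j (b l) := by
          rw [Finset.sum_sub_distrib, mul_sub]
        have q4 : (N : ℝ)⁻¹ * ∑ l ∈ range N, v l j
            = (N : ℝ)⁻¹ * ∑ l ∈ range N, T (v l) j
              + eps j * ((N : ℝ)⁻¹ * ∑ l ∈ range N, F j (tail j (T (v l)))) := by
          rw [Finset.sum_congr rfl fun l _ => r2 l, Finset.sum_add_distrib, ← Finset.mul_sum]
          ring
        have hL : Lam j q0 b = F j xh - (N : ℝ)⁻¹ * ∑ l ∈ range N, F j (b l) := rfl
        -- final formula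
        have key : y' j = (N : ℝ)⁻¹ * ∑ l ∈ range N, T (v l) j
            + ((if k = j then eps k * Lam k q0 b else 0) - eps j * Lam j q0 b)
            - eps j * ((F j (tail j y') - F j xh)
              - (N : ℝ)⁻¹ * ∑ l ∈ range N, (F j (tail j (T (v l))) - F j (b l))) := by
          rw [r1, r3, q4, q3, hL]
          ring
        have he := eps_pos j
        have c1 : |(if k = j then eps k * Lam k q0 b else 0) - eps j * Lam j q0 b| ≤ eps j * 8 := by
          split_ifs with hkj
          · subst hkj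
            rw [sub_self, abs_zero]
            positivity
          · rw [zero_sub, abs_neg, abs_mul, abs_of_pos he]
            exact mul_le_mul_of_nonneg_left (hLam j hjq (fun h => hkj h.symm)) he.le
        have c2 : |eps j * ((F j (tail j y') - F j xh)
              - (N : ℝ)⁻¹ * ∑ l ∈ range N, (F j (tail j (T (v l))) - F j (b l)))|
              ≤ eps j * 2.4 := by
          rw [abs_mul, abs_of_pos he]
          apply mul_le_mul_of_nonneg_left _ he.le
          have := abs_sub (F j (tail j y') - F j xh)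
            ((N : ℝ)⁻¹ * ∑ l ∈ range N, (F j (tail j (T (v l))) - F j (b l)))
          linarith
        have c3 : (10.4 : ℝ) * eps j ≤ eps j * m j := H64.mul_eps_le j (by norm_num)
        rw [hxh0 j hjq, sub_zero, key]
        generalize (N : ℝ)⁻¹ * ∑ l ∈ range N, T (v l) j = A at *
        generalize ((if k = j then eps k * Lam k q0 b else 0) - eps j * Lam j q0 b) = B at *
        generalize eps j * ((F j (tail j y') - F j xh)
              - (N : ℝ)⁻¹ * ∑ l ∈ range N, (F j (tail j (T (v l))) - F j (b l))) = C at *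
        have d1 : |A + B - C| ≤ |A| + |B| + |C| := by
          have e1 := abs_sub (A + B) C
          have e2 := abs_add_le A B
          linarith
        linarith
  have hfin : ∀ j, |y' j - xh j| ≤ 2 * (eps j * m j) := by
    intro j
    exact hall (q0 + 1) 0 (by omega) j (Nat.zero_le j)
  have hrem : n1 (y' - xh) ≤ 2 * (1 / 2 ^ 99) := by
    apply n1_le_geom _ _ (by positivity)
    intro a
    rw [Finsupp.sub_apply]
    have h1 := hfin a
    have h2 := hem a
    have h3 : 2 * ((1 / 2 ^ 100 : ℝ) / 4 ^ a) = (1 / 2 ^ 99 : ℝ) / 4 ^ a := by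
      rw [← mul_div_assoc]
      norm_num
    linarith
  have hy1 : n1 y' ≤ n1 xh + n1 (y' - xh) := by
    have h1 : y' = xh + (y' - xh) := by abel
    calc n1 y' = n1 (xh + (y' - xh)) := by rw [← h1]
      _ ≤ _ := n1_add_le _ _
  have : q x' = n1 y' := rfl
  rw [this]
  have h8 : (2 : ℝ) * (1 / 2 ^ 99) ≤ 1 := by norm_num
  linarith

theorem main_V (z : ℕ → V) (hz : Sep z) (k : ℕ) (η : ℝ) (hη : 0 < η) :
    ∃ c : V, n1 c ≤ 1 ∧ q (c.sum (fun α t => t • z α) - Finsupp.single k 1) ≤ η := by
  obtain ⟨q0, hQ, hkq, hq1, hw⟩ := exists_Q k (4 * (max 300 (2 / η) / eps k + 16))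
  obtain ⟨q1, rfl⟩ : ∃ q1, q0 = q1 + 1 := ⟨q0 - 1, by omega⟩
  obtain ⟨S, p, v, b, hc⟩ := coded_sequence z hz (q1 + 1)
  obtain ⟨hL1, hL2⟩ := losses z k q1 hQ S p v b hc
  obtain ⟨hc1, hc2, hc3, hc4, hc5⟩ := hc
  have hcmb : ∀ l, Cmb z 300 (v l) := fun l => (hc2 l).1
  have hbal : ∀ l, Bal (b l) := fun l => (hc2 l).2.1
  have hmod : ∀ l i, |T (v l) i - b l i| ≤ eps i * m i := fun l => (hc2 l).2.2.1
  have hbound := corrected_bound k (q1 + 1) hkq v b (fun l _ i => hmod l i)
    (fun l _ => (H64.bal_n1 (hbal l)).le) (fun l a h => hc4 l a h) hL1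
  have he := eps_pos k
  set μ : ℝ := eps k * Lam k (q1 + 1) b with hμ
  have hμ1 : max 300 (2 / η) ≤ μ := by
    have h1 : max 300 (2 / η) / eps k ≤ Lam k (q1 + 1) b := by linarith
    rw [div_le_iff₀ he] at h1
    rw [hμ, mul_comm]
    exact h1
  have hμ2 : 300 ≤ μ := (le_max_left _ _).trans hμ1
  have hμ3 : 2 / η ≤ μ := (le_max_right _ _).trans hμ1
  have hμ0 : 0 < μ := by linarith
  have hcavg : Cmb z 300 (avgV (q1 + 1) v) := H64.cmb_avg (by norm_num) fun s _ => hcmb s
  obtain ⟨c, hcn, hcv⟩ := H64.cmb_smul (-μ⁻¹) hcavg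
  refine ⟨c, ?_, ?_⟩
  · refine hcn.trans ?_
    rw [abs_neg, abs_of_pos (by positivity), inv_mul_le_iff₀ hμ0, mul_one]
    exact hμ2
  · rw [← hcv]
    have h1 : (-μ⁻¹) • avgV (q1 + 1) v - Finsupp.single k 1
        = (-μ⁻¹) • (avgV (q1 + 1) v + μ • Finsupp.single k 1) := by
      rw [smul_add, smul_smul, neg_mul, inv_mul_cancel₀ hμ0.ne', neg_smul (1 : ℝ), one_smul,
        sub_eq_add_neg]
    rw [h1, q_smul, abs_neg, abs_of_pos (by positivity)]
    have h2 : μ⁻¹ * q (avgV (q1 + 1) v + μ • Finsupp.single k 1) ≤ μ⁻¹ * 2 :=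
      mul_le_mul_of_nonneg_left hbound (by positivity)
    refine h2.trans ?_
    rw [inv_mul_le_iff₀ hμ0]
    rw [div_le_iff₀ hη] at hμ3
    exact hμ3

end Pool.Agent.Atomic
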