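import Pool.Agent.Lib.MP_968cc4_an.PhiB

/-! Module GAV1: block averages and the telescoping/pigeonhole argument for losses -/

set_option autoImplicit false

namespace Pool.Agent.Atomic

open Finset

/-- block averages `L^{-r} ∑_{a < L^r} b_{s L^r + a}` -/
noncomputable def blk (L r s : ℕ) (b : ℕ → V) : V :=
  ((L : ℝ) ^ r)⁻¹ • ∑ a ∈ range (L ^ r), b (s * L ^ r + a)

/-- sums over a product range, by blocks -/
theorem gav1_sum_block {E : Type} [AddCommMonoid E] (f : ℕ → E) (n L : ℕ) :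
    ∑ a ∈ range (n * L), f a = ∑ s ∈ range n, ∑ t ∈ range L, f (s * L + t) := by
  induction n with
  | zero => simp
  | succ n ih => rw [Nat.succ_mul, Finset.sum_range_add, ih, Finset.sum_range_succ]

/-- a block of level `r+1` is the average of its `L` blocks of level `r` -/
theorem blk_succ (L r s : ℕ) (hL : 0 < L) (b : ℕ → V) :
    blk L (r + 1) s b = (L : ℝ)⁻¹ • ∑ t ∈ range L, blk L r (s * L + t) b := by
  have _ := hL
  unfold blk
  rw [← Finset.smul_sum, smul_smul]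
  congr 1
  · rw [pow_succ, mul_inv, mul_comm]
  · rw [show L ^ (r + 1) = L * L ^ r from pow_succ' L r, gav1_sum_block]
    refine Finset.sum_congr rfl fun t _ => Finset.sum_congr rfl fun a _ => ?_
    congr 1
    ring

/-- shifted subfamilies of a successive family -/
theorem gav1_shift {b : ℕ → V} (hs : ∀ n, Succs n (fun a => ⇑(b a))) (c n : ℕ) :
    Succs n (fun a => ⇑(b (c + a))) := by
  intro r s hrs _ x y hx hy
  exact hs (c + s + 1) (c + r) (c + s) (by omega) (by omega) x y hx hy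

theorem gav1_of_blk_ne {L r s : ℕ} {b : ℕ → V} {x : ℕ} (h : blk L r s b x ≠ 0) :
    ∃ a, a < L ^ r ∧ b (s * L ^ r + a) x ≠ 0 := by
  by_contra hc
  push Not at hc
  apply h
  unfold blk
  rw [Finsupp.smul_apply, Finsupp.finsetSum_apply, Finset.sum_eq_zero, smul_zero]
  intro a ha
  exact hc a (mem_range.1 ha)

/-- block averages of one level are successive -/
theorem blk_succs (L r : ℕ) (hL : 0 < L) (b : ℕ → V) (hs : ∀ n, Succs n (fun a => ⇑(b a))) (n : ℕ) :
    Succs n (fun s => ⇑(blk L r s b)) := by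
  intro s s' hss' _ x y hx hy
  obtain ⟨a, ha, hxa⟩ := gav1_of_blk_ne hx
  obtain ⟨a', ha', hya⟩ := gav1_of_blk_ne hy
  have hlt : s * L ^ r + a < s' * L ^ r + a' := by
    have h1 : (s + 1) * L ^ r ≤ s' * L ^ r := Nat.mul_le_mul_right _ hss'
    have h2 : (s + 1) * L ^ r = s * L ^ r + L ^ r := by ring
    omega
  exact hs (s' * L ^ r + a' + 1) _ _ hlt (Nat.lt_succ_self _) x y hxa hya

/-- the parts of a block average -/
theorem prt_blk (L r s : ℕ) (σ : Bool) (b : ℕ → V) (hs : ∀ n, Succs n (fun a => ⇑(b a))) :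
    prt σ (blk L r s b) = ((L : ℝ) ^ r)⁻¹ • ∑ a ∈ range (L ^ r), prt σ (b (s * L ^ r + a)) := by
  unfold blk
  rw [prt_smul σ _ (by positivity), prt_sum_of_succs σ _ (fun a => b (s * L ^ r + a))
    (gav1_shift hs _ _)]

theorem n1_prt_blk (L r s : ℕ) (hL : 0 < L) (σ : Bool) (b : ℕ → V)
    (hb : ∀ a, n1 (prt σ (b a)) = 1 / 2)
    (hs : ∀ n, Succs n (fun a => ⇑(b a))) : n1 (prt σ (blk L r s b)) = 1 / 2 := by
  rw [prt_blk L r s σ b hs, n1_smul, n1_sum_of_nonneg _ _ (fun a _ x => prt_nonneg σ _ x)]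
  have hpos : (0 : ℝ) < (L : ℝ) ^ r := by positivity
  rw [Finset.sum_congr rfl (fun a _ => hb (s * L ^ r + a)), Finset.sum_const, card_range,
    nsmul_eq_mul, abs_of_pos (inv_pos.2 hpos), Nat.cast_pow]
  field_simp

/-- block averages of balanced successive vectors are balanced -/
theorem blk_bal (L r s : ℕ) (hL : 0 < L) (b : ℕ → V) (hb : ∀ a, Bal (b a))
    (hs : ∀ n, Succs n (fun a => ⇑(b a))) : Bal (blk L r s b) :=
  ⟨n1_prt_blk L r s hL true b (fun a => (hb a).1) hs,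
    n1_prt_blk L r s hL false b (fun a => (hb a).2) hs⟩

/-- the loss at one node is nonnegative -/
theorem gav1_loss_nonneg (L r s : ℕ) (hL : 0 < L) (j : ℕ) (σ : Bool) (b : ℕ → V)
    (hs : ∀ n, Succs n (fun a => ⇑(b a))) :
    Phi j (prt σ (blk L (r + 1) s b)) ≤
      (L : ℝ)⁻¹ * ∑ t ∈ range L, Phi j (prt σ (blk L r (s * L + t) b)) := by
  have h1 : prt σ (blk L (r + 1) s b) =
      (L : ℝ)⁻¹ • ∑ t ∈ range L, prt σ (blk L r (s * L + t) b) := by
    rw [blk_succ L r s hL b, prt_smul σ _ (by positivity),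
      prt_sum_of_succs σ _ (fun t => blk L r (s * L + t) b)]
    exact gav1_shift (b := fun s => blk L r s b) (blk_succs L r hL b hs) _ _
  rw [h1, Phi_smul _ (by positivity)]
  · refine mul_le_mul_of_nonneg_left ?_ (by positivity)
    exact Phi_sum_le _ _ fun t _ a => prt_nonneg σ _ a
  · intro a
    rw [Finsupp.finsetSum_apply]
    exact Finset.sum_nonneg fun t _ => prt_nonneg σ _ a

/-- the average of `Φ_j` over the blocks of level `r` -/
noncomputable def gav1_avA (L K j : ℕ) (σ : Bool) (b : ℕ → V) (r : ℕ) : ℝ :=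
  ((L : ℝ) ^ (K - r))⁻¹ * ∑ s ∈ range (L ^ (K - r)), Phi j (prt σ (blk L r s b))

/-- the loss at one node -/
noncomputable def gav1_loss (L j : ℕ) (σ : Bool) (b : ℕ → V) (r s : ℕ) : ℝ :=
  (L : ℝ)⁻¹ * ∑ t ∈ range L, Phi j (prt σ (blk L r (s * L + t) b)) -
    Phi j (prt σ (blk L (r + 1) s b))

theorem gav1_sum_loss (L K j : ℕ) (hL : 0 < L) (σ : Bool) (b : ℕ → V) (r : ℕ) (hr : r < K) :
    ((L : ℝ) ^ (K - r - 1))⁻¹ * ∑ s ∈ range (L ^ (K - r - 1)), gav1_loss L j σ b r s =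
      gav1_avA L K j σ b r - gav1_avA L K j σ b (r + 1) := by
  have hLr : (0 : ℝ) < L := Nat.cast_pos.2 hL
  unfold gav1_loss gav1_avA
  rw [Finset.sum_sub_distrib, mul_sub, ← Finset.mul_sum, ← gav1_sum_block
    (fun s => Phi j (prt σ (blk L r s b)))]
  have h1 : K - r = (K - r - 1) + 1 := by omega
  have h2 : K - (r + 1) = K - r - 1 := by omega
  rw [h2]
  congr 1
  rw [← mul_assoc, ← mul_inv, ← pow_succ, ← h1]
  congr 2
  rw [← pow_succ, ← h1]

theorem gav1_avA_diff (J0 i K : ℕ) (hJ : J0 ≤ i) (hm : m i ^ K ≤ m (i + 1)) (b : ℕ → V)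
    (hb : ∀ a, Bal (b a)) (hs : ∀ n, Succs n (fun a => ⇑(b a))) (j : ℕ) (σ : Bool) :
    gav1_avA (m i) K j σ b 0 - gav1_avA (m i) K j σ b K ≤ w (i + 1) / 2 := by
  have _ := hJ
  have hL : 0 < m i := lt_of_lt_of_le (by norm_num) (m_ge i)
  have hLr : (0 : ℝ) < (m i : ℝ) := Nat.cast_pos.2 hL
  have hpos : (0 : ℝ) < (m i : ℝ) ^ K := by positivity
  have hn1 : ∀ a, n1 (prt σ (b a)) = 1 / 2 := by
    intro a
    cases σ
    · exact (hb a).2
    · exact (hb a).1
  have h0 : ∀ s, blk (m i) 0 s b = b s := by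
    intro s
    unfold blk
    simp
  have hA0 : gav1_avA (m i) K j σ b 0 =
      ((m i : ℝ) ^ K)⁻¹ * ∑ a ∈ range (m i ^ K), Phi j (prt σ (b a)) := by
    unfold gav1_avA
    rw [Nat.sub_zero]
    congr 1
    exact Finset.sum_congr rfl fun a _ => by rw [h0]
  have hAK : gav1_avA (m i) K j σ b K =
      ((m i : ℝ) ^ K)⁻¹ * Phi j (∑ a ∈ range (m i ^ K), prt σ (b a)) := by
    unfold gav1_avA
    rw [Nat.sub_self, pow_zero, pow_zero, Finset.sum_range_one, inv_one, one_mul,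
      prt_blk _ _ _ _ _ hs, Phi_smul _ (by positivity)]
    · simp only [zero_mul, zero_add]
    · intro a
      rw [Finsupp.finsetSum_apply]
      exact Finset.sum_nonneg fun t _ => prt_nonneg σ _ a
  have h3 := Phi_sum_succs (k := j) (i + 1) (m i ^ K) hm (fun a => prt σ (b a))
    (fun s _ a => prt_nonneg σ _ a) (by
      refine (hs (m i ^ K)).mono fun r _ a ha => ?_
      exact prt_ne_zero ha)
  rw [Finset.sum_congr rfl (fun a _ => hn1 a), Finset.sum_const, card_range, nsmul_eq_mul,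
    Nat.cast_pow] at h3
  rw [hA0, hAK, ← mul_sub]
  have h4 : ∑ a ∈ range (m i ^ K), Phi j (prt σ (b a)) -
      Phi j (∑ a ∈ range (m i ^ K), prt σ (b a)) ≤ w (i + 1) * ((m i : ℝ) ^ K * (1 / 2)) := by
    linarith
  calc ((m i : ℝ) ^ K)⁻¹ * (∑ a ∈ range (m i ^ K), Phi j (prt σ (b a)) -
      Phi j (∑ a ∈ range (m i ^ K), prt σ (b a)))
      ≤ ((m i : ℝ) ^ K)⁻¹ * (w (i + 1) * ((m i : ℝ) ^ K * (1 / 2))) :=
        mul_le_mul_of_nonneg_left h4 (by positivity)
    _ = w (i + 1) / 2 := by field_simp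

/-- the telescoping/pigeonhole argument: among `m i ^ K` successive balanced vectors there is a
block average with small total loss -/
theorem exists_small_loss (J0 i K : ℕ) (hJ : J0 ≤ i) (hK : ((i : ℝ) + 1) * w (i + 1) ≤ K)
    (hK1 : 1 ≤ K) (hm : m i ^ K ≤ m (i + 1)) (b : ℕ → V) (hb : ∀ a, Bal (b a))
    (hs : ∀ n, Succs n (fun a => ⇑(b a))) :
    ∃ r s, r < K ∧ s < m i ^ (K - r - 1) ∧ ∀ j, j ≤ J0 → ∀ σ : Bool,
      (m i : ℝ)⁻¹ * ∑ t ∈ range (m i), Phi j (prt σ (blk (m i) r (s * m i + t) b))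
        ≤ Phi j (prt σ (blk (m i) (r + 1) s b)) + 1 := by
  have hL : 0 < m i := lt_of_lt_of_le (by norm_num) (m_ge i)
  have hLr : (0 : ℝ) < (m i : ℝ) := Nat.cast_pos.2 hL
  have hw : 0 < w (i + 1) := w_pos _
  let tot : ℕ → ℕ → ℝ := fun r s =>
    ∑ j ∈ range (J0 + 1), ∑ σ : Bool, gav1_loss (m i) j σ b r s
  have hlnn : ∀ j σ r s, 0 ≤ gav1_loss (m i) j σ b r s := fun j σ r s =>
    sub_nonneg.2 (gav1_loss_nonneg (m i) r s hL j σ b hs)
  -- the sum of the average total losses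
  have hsum : ∑ r ∈ range K, ((m i : ℝ) ^ (K - r - 1))⁻¹ *
      ∑ s ∈ range (m i ^ (K - r - 1)), tot r s ≤ ∑ r ∈ range K, (1 : ℝ) := by
    have h1 : ∀ r ∈ range K, ((m i : ℝ) ^ (K - r - 1))⁻¹ *
        ∑ s ∈ range (m i ^ (K - r - 1)), tot r s =
        ∑ j ∈ range (J0 + 1), ∑ σ : Bool,
          (gav1_avA (m i) K j σ b r - gav1_avA (m i) K j σ b (r + 1)) := by
      intro r hr
      have h2 : ∑ s ∈ range (m i ^ (K - r - 1)), tot r s =
          ∑ j ∈ range (J0 + 1), ∑ σ : Bool,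
            ∑ s ∈ range (m i ^ (K - r - 1)), gav1_loss (m i) j σ b r s := by
        rw [Finset.sum_comm]
        refine Finset.sum_congr rfl fun j _ => ?_
        rw [Finset.sum_comm]
      rw [h2, Finset.mul_sum]
      refine Finset.sum_congr rfl fun j _ => ?_
      rw [Finset.mul_sum]
      refine Finset.sum_congr rfl fun σ _ => ?_
      exact gav1_sum_loss (m i) K j hL σ b r (mem_range.1 hr)
    rw [Finset.sum_congr rfl h1, Finset.sum_comm]
    have h3 : ∀ j ∈ range (J0 + 1), ∑ r ∈ range K, ∑ σ : Bool,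
        (gav1_avA (m i) K j σ b r - gav1_avA (m i) K j σ b (r + 1)) ≤ w (i + 1) := by
      intro j _
      rw [Finset.sum_comm]
      have h4 : ∀ σ : Bool, ∑ r ∈ range K,
          (gav1_avA (m i) K j σ b r - gav1_avA (m i) K j σ b (r + 1)) ≤ w (i + 1) / 2 := by
        intro σ
        rw [Finset.sum_range_sub']
        exact gav1_avA_diff J0 i K hJ hm b hb hs j σ
      calc ∑ σ : Bool, ∑ r ∈ range K, (gav1_avA (m i) K j σ b r - gav1_avA (m i) K j σ b (r + 1))
          ≤ ∑ _σ : Bool, w (i + 1) / 2 := Finset.sum_le_sum fun σ _ => h4 σ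
        _ = w (i + 1) := by
            rw [Finset.sum_const, Finset.card_univ, Fintype.card_bool, nsmul_eq_mul]
            push_cast
            ring
    calc ∑ j ∈ range (J0 + 1), ∑ r ∈ range K, ∑ σ : Bool,
          (gav1_avA (m i) K j σ b r - gav1_avA (m i) K j σ b (r + 1))
        ≤ ∑ j ∈ range (J0 + 1), w (i + 1) := Finset.sum_le_sum h3
      _ = ((J0 : ℝ) + 1) * w (i + 1) := by
          rw [Finset.sum_const, card_range, nsmul_eq_mul]
          push_cast
          ring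
      _ ≤ ((i : ℝ) + 1) * w (i + 1) := by
          refine mul_le_mul_of_nonneg_right ?_ hw.le
          have : (J0 : ℝ) ≤ i := Nat.cast_le.2 hJ
          linarith
      _ ≤ K := hK
      _ = ∑ r ∈ range K, (1 : ℝ) := by simp
  obtain ⟨r, hr, hr1⟩ := Finset.exists_le_of_sum_le
    (Finset.nonempty_range_iff.2 (by omega : K ≠ 0)) hsum
  have hrK := mem_range.1 hr
  have hpos : (0 : ℝ) < (m i : ℝ) ^ (K - r - 1) := by positivity
  have hsum2 : ∑ s ∈ range (m i ^ (K - r - 1)), tot r s ≤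
      ∑ s ∈ range (m i ^ (K - r - 1)), (1 : ℝ) := by
    rw [Finset.sum_const, card_range, nsmul_eq_mul, mul_one, Nat.cast_pow]
    rw [inv_mul_le_iff₀ hpos, mul_one] at hr1
    exact hr1
  obtain ⟨s, hs1, hs2⟩ := Finset.exists_le_of_sum_le
    (Finset.nonempty_range_iff.2 (pow_pos hL _).ne') hsum2
  refine ⟨r, s, hrK, mem_range.1 hs1, fun j hj σ => ?_⟩
  have h5 : gav1_loss (m i) j σ b r s ≤ tot r s := by
    calc gav1_loss (m i) j σ b r s ≤ ∑ σ : Bool, gav1_loss (m i) j σ b r s :=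
          Finset.single_le_sum (fun σ _ => hlnn j σ r s) (Finset.mem_univ σ)
      _ ≤ tot r s :=
          Finset.single_le_sum (f := fun j => ∑ σ : Bool, gav1_loss (m i) j σ b r s)
            (fun j _ => Finset.sum_nonneg fun σ _ => hlnn j σ r s)
            (mem_range.2 (Nat.lt_succ_of_le hj))
  have h6 : gav1_loss (m i) j σ b r s ≤ 1 := h5.trans hs2
  unfold gav1_loss at h6
  linarith

end Pool.Agent.Atomic
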