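import Pool.Agent.Lib.MP_968cc4_an.PhiB

/-! Module KKT: near-optimal dual functions and the certificate -/

set_option autoImplicit false

namespace Pool.Agent.Atomic

open Finset

/-- `f / η` as a finitely supported function -/
noncomputable def quo (f : V) (η : ℕ → ℝ) : V :=
  Finsupp.onFinset f.support (fun a => f a / η a) (by
    intro a ha
    rw [Finsupp.mem_support_iff]
    intro h
    rw [h, zero_div] at ha
    exact ha rfl)

theorem quo_apply (f : V) (η : ℕ → ℝ) (a : ℕ) : quo f η a = f a / η a := rfl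

theorem quo_ne {f : V} {η : ℕ → ℝ} (hη : ∀ a, f a ≠ 0 → 0 < η a) (a : ℕ) :
    quo f η a ≠ 0 ↔ f a ≠ 0 := by
  rw [quo_apply]
  constructor
  · intro h h0; rw [h0, zero_div] at h; exact h rfl
  · intro h; exact div_ne_zero h (hη a h).ne'

theorem ent_quo {f : V} {η : ℕ → ℝ} (_hη : ∀ a, f a ≠ 0 → 0 < η a) :
    ent f (quo f η) = lg f η := by
  unfold ent lg
  refine sum_congr rfl (fun a ha => ?_)
  have ha' := Finsupp.mem_support_iff.mp ha
  rw [quo_apply, div_div_cancel₀ ha']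

theorem n1_eq_of_nonneg {f : V} (hf : ∀ a, 0 ≤ f a) : n1 f = ∑ a ∈ f.support, f a := by
  unfold n1
  exact sum_congr rfl (fun a _ => abs_of_nonneg (hf a))

/-- uniform lower bound on nearly optimal functions -/
theorem near_lower (j : ℕ) (f : V) (hf : ∀ a, 0 ≤ f a) :
    ∃ c : ℝ, 0 < c ∧ c ≤ 1 ∧ ∀ η : ℕ → ℝ, KK j η → (∀ a, f a ≠ 0 → 0 < η a) →
      Phi j f - 1 ≤ lg f η → ∀ a, f a ≠ 0 → c ≤ η a := by
  classical
  -- lower bounds at the points
  have hpt : ∀ η : ℕ → ℝ, KK j η → (∀ a, f a ≠ 0 → 0 < η a) → Phi j f - 1 ≤ lg f η →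
      ∀ a, f a ≠ 0 → Real.exp ((Phi j f - 1) / f a) ≤ η a := by
    intro η hη hpos hnear a ha
    have hfa : 0 < f a := lt_of_le_of_ne (hf a) (Ne.symm ha)
    have h1 : lg f η ≤ f a * Real.log (η a) := by
      unfold lg
      rw [← add_sum_erase _ _ (Finsupp.mem_support_iff.mpr ha)]
      have : ∑ b ∈ f.support.erase a, f b * Real.log (η b) ≤ 0 := by
        refine sum_nonpos (fun b hb => ?_)
        have hb' := Finsupp.mem_support_iff.mp (mem_of_mem_erase hb)
        exact mul_nonpos_of_nonneg_of_nonpos (hf b)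
          (Real.log_nonpos (hpos b hb').le (hη.le_one b))
      linarith
    have h2 : (Phi j f - 1) / f a ≤ Real.log (η a) := by
      rw [div_le_iff₀ hfa]
      linarith [mul_comm (f a) (Real.log (η a))]
    calc Real.exp ((Phi j f - 1) / f a) ≤ Real.exp (Real.log (η a)) := Real.exp_le_exp.mpr h2
      _ = η a := Real.exp_log (hpos a ha)
  rcases f.support.eq_empty_or_nonempty with h0 | hne
  · refine ⟨1, one_pos, le_rfl, fun η _ _ _ a ha => ?_⟩
    have := Finsupp.mem_support_iff.mpr ha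
    rw [h0] at this
    exact absurd this (notMem_empty a)
  · obtain ⟨b, hb, hmin⟩ := f.support.exists_min_image
      (fun a => Real.exp ((Phi j f - 1) / f a)) hne
    refine ⟨min 1 (Real.exp ((Phi j f - 1) / f b)), lt_min one_pos (Real.exp_pos _),
      min_le_left _ _, fun η hη hpos hnear a ha => ?_⟩
    exact (min_le_right _ _).trans
      ((hmin a (Finsupp.mem_support_iff.mpr ha)).trans (hpt η hη hpos hnear a ha))

theorem log_lower {x : ℝ} (h1 : -(1 / 4) ≤ x) : x - x ^ 2 ≤ Real.log (1 + x) := by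
  have hx : 0 < 1 + x := by linarith
  rcases le_total 0 x with h0 | h0
  · have h := Real.one_sub_inv_le_log_of_pos hx
    refine le_trans ?_ h
    have e : 1 - (1 + x)⁻¹ = x / (1 + x) := by field_simp; ring
    rw [e, le_div_iff₀ hx]
    nlinarith [pow_nonneg h0 3]
  · have hy : |-x| < 1 := by rw [abs_of_nonneg (by linarith)]; linarith
    have h := Real.abs_log_sub_add_sum_range_le hy 2
    rw [abs_of_nonneg (by linarith : 0 ≤ -x)] at h
    simp only [sum_range_succ, sum_range_zero] at h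
    norm_num at h
    have h2 := (abs_le.mp h).1
    have h3 : (-x) ^ 3 / (1 + x) ≤ x ^ 2 / 2 := by
      rw [div_le_iff₀ hx]
      nlinarith [mul_nonneg (sq_nonneg x) (by linarith : 0 ≤ 1 / 4 + x),
        mul_nonneg (sq_nonneg x) (by linarith : 0 ≤ -x)]
    linarith

/-- `h = f / η` for a near-optimal `η ∈ 𝒦_j` -/
theorem kkt (j : ℕ) (f : V) (hf : ∀ a, 0 ≤ f a) :
    ∃ h : V, (∀ a, 0 ≤ h a) ∧ (∀ a, h a ≠ 0 ↔ f a ≠ 0) ∧ NB j h (2 * n1 f) ∧
      Phi j f - n1 f ≤ ent f h ∧ ent f h ≤ Phi j f := by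
  obtain ⟨c, hc0, hc1, hc⟩ := near_lower j f hf
  by_cases hf0 : f = 0
  · subst hf0
    refine ⟨0, fun a => le_rfl, fun a => Iff.rfl, fun ξ _ => ?_, ?_, ?_⟩
    · simp [pr, n1]
    · simp [ent, n1, Phi_zero]
    · simp [ent, Phi_zero]
  have hν : 0 < n1 f :=
    lt_of_le_of_ne (n1_nonneg f) (fun h => hf0 (n1_eq_zero h.symm))
  set ν := n1 f with hνdef
  set t : ℝ := c ^ 2 / 4 with ht
  have ht0 : 0 < t := by positivity
  have htc : t ≤ c / 4 := by rw [ht]; nlinarith
  have ht1 : t ≤ 1 / 4 := by linarith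
  set δ : ℝ := min (min 1 ν) (t * ν / 2) with hδ
  have hδ0 : 0 < δ := lt_min (lt_min one_pos hν) (by positivity)
  have hδ1 : δ ≤ 1 := (min_le_left _ _).trans (min_le_left _ _)
  have hδν : δ ≤ ν := (min_le_left _ _).trans (min_le_right _ _)
  have hδt : δ ≤ t * ν / 2 := min_le_right _ _
  obtain ⟨η, hη, hpos, hsupp, hnear⟩ := exists_near (k := j) f hf δ hδ0
  have hηc : ∀ a, f a ≠ 0 → c ≤ η a := hc η hη hpos (by linarith)
  refine ⟨quo f η, fun a => ?_, quo_ne hpos, ?_, ?_, ?_⟩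
  · rw [quo_apply]; exact div_nonneg (hf a) (hη.nonneg a)
  · -- the norm bound
    intro ξ hξ
    have hζ : KK j (fun a => t * ξ a + (1 - t) * η a) :=
      KK.conv ξ η t ht0.le (by linarith) hξ hη
    have hζpos : ∀ a, f a ≠ 0 → 0 < t * ξ a + (1 - t) * η a := fun a ha => by
      have h1 := hpos a ha
      have h2 := hξ.nonneg a
      have : 0 < (1 - t) * η a := mul_pos (by linarith) h1
      have : 0 ≤ t * ξ a := mul_nonneg ht0.le h2
      linarith
    have h1 := le_Phi hf hζ hζpos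
    have h2 : lg f (fun a => t * ξ a + (1 - t) * η a) - lg f η ≤ δ := by linarith
    have h3 : ∀ a ∈ f.support, f a * (t * (ξ a / η a) - t) - f a * (t ^ 2 / c ^ 2) ≤
        f a * Real.log (t * ξ a + (1 - t) * η a) - f a * Real.log (η a) := by
      intro a ha
      have ha' := Finsupp.mem_support_iff.mp ha
      have hηa := hpos a ha'
      have hce := hηc a ha'
      have hξ0 := hξ.nonneg a
      have hξ1 := hξ.le_one a
      set x : ℝ := t * (ξ a / η a) - t with hx
      have e1 : t * ξ a + (1 - t) * η a = η a * (1 + x) := by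
        rw [hx]; field_simp; ring
      have hr0 : 0 ≤ ξ a / η a := div_nonneg hξ0 hηa.le
      have hr1 : ξ a / η a ≤ 1 / c := by
        rw [div_le_div_iff₀ hηa hc0]; nlinarith
      have hxl : -(1 / 4) ≤ x := by rw [hx]; nlinarith
      have hx2 : x ^ 2 ≤ t ^ 2 / c ^ 2 := by
        have h1c : 1 ≤ 1 / c := by rw [le_div_iff₀ hc0]; linarith
        have hb1 : -(1 / c) ≤ ξ a / η a - 1 := by linarith
        have hb2 : ξ a / η a - 1 ≤ 1 / c := by linarith
        have hsq : (ξ a / η a - 1) ^ 2 ≤ (1 / c) ^ 2 := sq_le_sq' hb1 hb2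
        have e2 : x ^ 2 = t ^ 2 * (ξ a / η a - 1) ^ 2 := by rw [hx]; ring
        have e3 : t ^ 2 / c ^ 2 = t ^ 2 * (1 / c) ^ 2 := by rw [one_div, inv_pow]; rfl
        rw [e2, e3]
        exact mul_le_mul_of_nonneg_left hsq (sq_nonneg t)
      have hx1 : 0 < 1 + x := by linarith
      rw [e1, Real.log_mul hηa.ne' hx1.ne']
      have hl := log_lower hxl
      have : x - t ^ 2 / c ^ 2 ≤ Real.log (1 + x) := by linarith
      have := mul_le_mul_of_nonneg_left this (hf a)
      nlinarith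
    have h4 := sum_le_sum h3
    have e4 : ∑ a ∈ f.support, (f a * Real.log (t * ξ a + (1 - t) * η a) -
        f a * Real.log (η a)) = lg f (fun a => t * ξ a + (1 - t) * η a) - lg f η := by
      unfold lg; rw [sum_sub_distrib]
    have e5 : ∑ a ∈ f.support, (f a * (t * (ξ a / η a) - t) - f a * (t ^ 2 / c ^ 2)) =
        t * pr (quo f η) ξ - t * ν - ν * (t ^ 2 / c ^ 2) := by
      have h5 : pr (quo f η) ξ = ∑ a ∈ f.support, f a * (ξ a / η a) := by
        have hsub : (quo f η).support ⊆ f.support := fun a ha => by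
          rw [Finsupp.mem_support_iff] at ha ⊢
          exact (quo_ne hpos a).mp ha
        rw [pr_eq_sum _ _ _ hsub]
        refine sum_congr rfl (fun a _ => ?_)
        rw [quo_apply]; ring
      rw [h5, hνdef, n1_eq_of_nonneg hf, mul_sum, mul_sum, sum_mul, ← sum_sub_distrib,
        ← sum_sub_distrib]
      refine sum_congr rfl (fun a _ => ?_)
      ring
    rw [e4, e5] at h4
    have h6 : t * pr (quo f η) ξ ≤ t * (2 * ν) := by
      have h7 : ν * (t ^ 2 / c ^ 2) = t * ν / 4 := by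
        rw [ht]; field_simp
      rw [h7] at h4
      nlinarith
    exact le_of_mul_le_mul_left h6 ht0
  · rw [ent_quo hpos]; linarith
  · rw [ent_quo hpos]; exact le_Phi hf hη hpos

/-- the certificate: an upper bound of `Φ_j(f)` from a bound of `G = f / η` -/
theorem cert (j : ℕ) (f G : V) (B : ℝ) (hf : ∀ a, 0 ≤ f a) (hne : 0 < n1 f)
    (hG : ∀ a, 0 ≤ G a) (hs : ∀ a, G a ≠ 0 ↔ f a ≠ 0) (hB : 0 < B) (hNB : NB j G B) :
    Phi j f ≤ ent f G + n1 f * Real.log (B / n1 f) := by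
  refine Phi_le (fun ξ hξ hpos => ?_)
  set ν := n1 f with hν
  have hc : 0 < B / ν := div_pos hB hne
  have h1 : ∀ a ∈ f.support, f a * Real.log (ξ a) ≤
      f a * Real.log (f a / G a) + (G a * ξ a * (ν / B) - f a + f a * Real.log (B / ν)) := by
    intro a ha
    have ha' := Finsupp.mem_support_iff.mp ha
    have hfa : 0 < f a := lt_of_le_of_ne (hf a) (Ne.symm ha')
    have hGa : 0 < G a := lt_of_le_of_ne (hG a) (Ne.symm ((hs a).mpr ha'))
    have hξa := hpos a ha'
    have hy : 0 < ξ a * G a / f a / (B / ν) := by positivity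
    have h2 := Real.log_le_sub_one_of_pos hy
    have h3 : Real.log (ξ a * G a / f a / (B / ν)) =
        Real.log (ξ a) - Real.log (f a / G a) - Real.log (B / ν) := by
      rw [Real.log_div (by positivity) hc.ne', Real.log_div (by positivity) hfa.ne',
        Real.log_mul hξa.ne' hGa.ne', Real.log_div hfa.ne' hGa.ne']
      ring
    rw [h3] at h2
    have h4 := mul_le_mul_of_nonneg_left h2 hfa.le
    have e5 : f a * (ξ a * G a / f a / (B / ν) - 1) = G a * ξ a * (ν / B) - f a := by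
      field_simp
    rw [e5] at h4
    nlinarith
  have h2 := sum_le_sum h1
  have e1 : ∑ a ∈ f.support, (f a * Real.log (f a / G a) +
      (G a * ξ a * (ν / B) - f a + f a * Real.log (B / ν))) =
      ent f G + (pr G ξ * (ν / B) - ν + ν * Real.log (B / ν)) := by
    have h3 : pr G ξ = ∑ a ∈ f.support, G a * ξ a :=
      pr_eq_sum _ _ _ (fun a ha => by
        rw [Finsupp.mem_support_iff] at ha ⊢
        exact (hs a).mp ha)
    rw [sum_add_distrib, sum_add_distrib, sum_sub_distrib, ← sum_mul, ← sum_mul, h3, hν,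
      n1_eq_of_nonneg hf]
    rfl
  rw [e1] at h2
  have h4 : pr G ξ * (ν / B) ≤ ν := by
    have := mul_le_mul_of_nonneg_right (hNB ξ hξ) (div_pos hne hB).le
    rwa [mul_div_cancel₀ _ hB.ne'] at this
  have : lg f ξ = ∑ a ∈ f.support, f a * Real.log (ξ a) := rfl
  rw [this]
  linarith

/-- assembling the pieces: if `f = (1/M) ∑ g_t` with `g_t ≥ 0` successive of mass `1/2` and small
loss, then the pieces given by `kkt` form a flat average representing `f` -/
theorem flat_of_loss (j M : ℕ) (hM : 0 < M) (g : ℕ → V) (hg : ∀ t, t < M → ∀ a, 0 ≤ g t a)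
    (hs : Succs M (fun t => ⇑(g t))) (hn : ∀ t, t < M → n1 (g t) = 1 / 2)
    (f : V) (hf : f = (M : ℝ)⁻¹ • ∑ t ∈ range M, g t)
    (hloss : (M : ℝ)⁻¹ * ∑ t ∈ range M, Phi j (g t) ≤ Phi j f + 2) :
    ∃ H : V, Flat j M H ∧ Rep j f H 2 := by
  classical
  have hM0 : (0 : ℝ) < M := by exact_mod_cast hM
  have hex : ∀ t, ∃ h : V, t < M → ((∀ a, 0 ≤ h a) ∧ (∀ a, h a ≠ 0 ↔ g t a ≠ 0) ∧
      NB j h (2 * n1 (g t)) ∧ Phi j (g t) - n1 (g t) ≤ ent (g t) h ∧
      ent (g t) h ≤ Phi j (g t)) := by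
    intro t
    by_cases ht : t < M
    · obtain ⟨h, hh⟩ := kkt j (g t) (hg t ht)
      exact ⟨h, fun _ => hh⟩
    · exact ⟨0, fun h => absurd h ht⟩
  choose h hh using hex
  set H : V := (M : ℝ)⁻¹ • ∑ t ∈ range M, h t with hH
  have hsh : Succs M (fun t => ⇑(h t)) :=
    hs.mono (fun r hr a ha => ((hh r hr).2.1 a).mp ha)
  -- values of `f` and `H`
  have hfa : ∀ a, f a = (M : ℝ)⁻¹ * ∑ t ∈ range M, g t a := fun a => by
    rw [hf, Finsupp.smul_apply, Finsupp.finsetSum_apply, smul_eq_mul]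
  have hHa : ∀ a, H a = (M : ℝ)⁻¹ * ∑ t ∈ range M, h t a := fun a => by
    rw [hH, Finsupp.smul_apply, Finsupp.finsetSum_apply, smul_eq_mul]
  have hfv : ∀ t, t < M → ∀ a, g t a ≠ 0 → f a = (M : ℝ)⁻¹ * g t a := fun t ht a ha => by
    rw [hfa, hs.sum_eq ht ha]
  have hHv : ∀ t, t < M → ∀ a, g t a ≠ 0 → H a = (M : ℝ)⁻¹ * h t a := fun t ht a ha => by
    rw [hHa, hsh.sum_eq ht (((hh t ht).2.1 a).mpr ha)]
  have hMi : (M : ℝ)⁻¹ ≠ 0 := (inv_pos.mpr hM0).ne'
  have hfpt : ∀ a, f a ≠ 0 → ∃ t, t < M ∧ g t a ≠ 0 := fun a ha => by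
    rw [hfa] at ha
    have h1 : ∑ t ∈ range M, g t a ≠ 0 := right_ne_zero_of_mul ha
    obtain ⟨t, ht, hta⟩ := exists_ne_zero_of_sum_ne_zero h1
    exact ⟨t, mem_range.mp ht, hta⟩
  have hHpt : ∀ a, H a ≠ 0 → ∃ t, t < M ∧ g t a ≠ 0 := fun a ha => by
    rw [hHa] at ha
    have h1 : ∑ t ∈ range M, h t a ≠ 0 := right_ne_zero_of_mul ha
    obtain ⟨t, ht, hta⟩ := exists_ne_zero_of_sum_ne_zero h1
    exact ⟨t, mem_range.mp ht, ((hh t (mem_range.mp ht)).2.1 a).mp hta⟩
  have hsupp : ∀ a, H a ≠ 0 ↔ f a ≠ 0 := by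
    intro a
    constructor
    · intro ha
      obtain ⟨t, ht, hta⟩ := hHpt a ha
      rw [hfv t ht a hta]
      exact mul_ne_zero hMi hta
    · intro ha
      obtain ⟨t, ht, hta⟩ := hfpt a ha
      rw [hHv t ht a hta]
      exact mul_ne_zero hMi (((hh t ht).2.1 a).mpr hta)
  have hfnn : ∀ a, 0 ≤ ∑ t ∈ range M, g t a := fun a =>
    sum_nonneg (fun t ht => hg t (mem_range.mp ht) a)
  -- the entropy
  have hent : ent f H = (M : ℝ)⁻¹ * ∑ t ∈ range M, ent (g t) (h t) := by
    have e1 : ∀ t ∈ range M, ent (g t) (h t) =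
        ∑ a ∈ f.support, g t a * Real.log (f a / H a) := by
      intro t ht
      have ht' := mem_range.mp ht
      have hsub : (g t).support ⊆ f.support := fun a ha => by
        have ha' := Finsupp.mem_support_iff.mp ha
        rw [Finsupp.mem_support_iff, hfv t ht' a ha']
        exact mul_ne_zero hMi ha'
      unfold ent
      rw [← sum_subset hsub (f := fun a => g t a * Real.log (f a / H a))]
      · refine sum_congr rfl (fun a ha => ?_)
        have ha' := Finsupp.mem_support_iff.mp ha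
        rw [hfv t ht' a ha', hHv t ht' a ha', mul_div_mul_left _ _ hMi]
      · intro a _ ha
        rw [Finsupp.notMem_support_iff.mp ha, zero_mul]
    rw [sum_congr rfl e1, sum_comm, mul_sum]
    unfold ent
    refine sum_congr rfl (fun a _ => ?_)
    rw [← sum_mul, ← mul_assoc, ← hfa]
  have hΦ : Phi j f = (M : ℝ)⁻¹ * Phi j (∑ t ∈ range M, g t) := by
    rw [hf]
    refine Phi_smul (fun a => ?_) (inv_pos.mpr hM0).le
    rw [Finsupp.finsetSum_apply]
    exact hfnn a
  have hΦle : Phi j f ≤ (M : ℝ)⁻¹ * ∑ t ∈ range M, Phi j (g t) := by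
    rw [hΦ]
    exact mul_le_mul_of_nonneg_left (Phi_sum_le M g hg) (inv_pos.mpr hM0).le
  refine ⟨H, ⟨h, fun t ht => (hh t ht).1, hsh, fun t ht => ?_, rfl⟩, ?_, hsupp, ?_⟩
  · have := (hh t ht).2.2.1
    rw [hn t ht] at this
    norm_num at this
    exact this
  · intro a
    rw [hHa]
    exact mul_nonneg (inv_pos.mpr hM0).le
      (sum_nonneg (fun t ht => (hh t (mem_range.mp ht)).1 a))
  · have hup : ent f H ≤ (M : ℝ)⁻¹ * ∑ t ∈ range M, Phi j (g t) := by
      rw [hent]
      refine mul_le_mul_of_nonneg_left (sum_le_sum (fun t ht => ?_)) (inv_pos.mpr hM0).le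
      exact (hh t (mem_range.mp ht)).2.2.2.2
    have hlo : (M : ℝ)⁻¹ * ∑ t ∈ range M, Phi j (g t) - 1 / 2 ≤ ent f H := by
      have h1 : (M : ℝ)⁻¹ * ∑ t ∈ range M, (Phi j (g t) - 1 / 2) ≤ ent f H := by
        rw [hent]
        refine mul_le_mul_of_nonneg_left (sum_le_sum (fun t ht => ?_)) (inv_pos.mpr hM0).le
        have := (hh t (mem_range.mp ht)).2.2.2.1
        rwa [hn t (mem_range.mp ht)] at this
      rw [sum_sub_distrib, sum_const, card_range, nsmul_eq_mul, mul_sub] at h1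
      have e : (M : ℝ)⁻¹ * (M * (1 / 2)) = 1 / 2 := by field_simp
      rw [e] at h1
      exact h1
    rw [abs_le]
    constructor <;> linarith

end Pool.Agent.Atomic
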