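import Pool.Agent.Lib.MP_968cc4_an.LV0
import Pool.Agent.Lib.MP_968cc4_an.KKT
import Pool.Agent.Lib.MP_968cc4_an.GAV1
import Pool.Agent.Lib.MP_968cc4_an.H64.CmbTools

/-! Module GAV2: good averages -/

set_option autoImplicit false

namespace Pool.Agent.Atomic

open Finset

/-- a sequence of successive level-0 vectors -/
theorem H64.level_zero_seq (z : ℕ → V) (hz : Sep z) (N : ℕ) :
    ∃ u b : ℕ → V, (∀ a, Cmb z 300 (u a)) ∧ (∀ a, Bal (b a)) ∧ (∀ a c, b a c ≠ 0 → N < c) ∧
      (∀ a k, |T (u a) k - b a k| ≤ 2 ^ 12 * eps k) ∧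
      (∀ a a', a < a' → ∀ c c', b a c ≠ 0 → b a' c' ≠ 0 → c < c') := by
  choose U B hU using level_zero z hz
  let Ns : ℕ → ℕ := fun n => Nat.rec N (fun _ M => max M ((B M).support.sup id)) n
  have hN0 : Ns 0 = N := rfl
  have hNs : ∀ n, Ns (n + 1) = max (Ns n) ((B (Ns n)).support.sup id) := fun n => rfl
  have hmono : Monotone Ns := monotone_nat_of_le_succ fun n => by
    rw [hNs]; exact le_max_left _ _
  refine ⟨fun a => U (Ns a), fun a => B (Ns a), fun a => (hU (Ns a)).1, fun a => (hU (Ns a)).2.1,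
    ?_, fun a => (hU (Ns a)).2.2.2, ?_⟩
  · intro a c hc
    have h1 := (hU (Ns a)).2.2.1 c hc
    have h2 : N ≤ Ns a := by
      rw [← hN0]; exact hmono (Nat.zero_le a)
    omega
  · intro a a' haa c c' hc hc'
    have h1 : c ≤ (B (Ns a)).support.sup id :=
      Finset.le_sup (f := id) (Finsupp.mem_support_iff.2 hc)
    have h2 : (B (Ns a)).support.sup id ≤ Ns (a + 1) := by
      rw [hNs]; exact le_max_right _ _
    have h3 : Ns (a + 1) ≤ Ns a' := hmono haa
    have h4 := (hU (Ns a')).2.2.1 c' hc'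
    omega

theorem H64.prt_sub_of_disj {x y : V} (h : ∀ a, x a ≠ 0 → y a = 0) (σ : Bool) :
    prt σ (x - y) = prt σ x + prt (!σ) y := by
  ext a
  rw [Finsupp.add_apply, prt_apply, prt_apply, prt_apply, Finsupp.sub_apply]
  by_cases hx : x a = 0
  · cases σ <;> simp [hx]
  · have hy := h a hx
    cases σ <;> simp [hy]

/-- the support of a block average -/
theorem H64.blk_supp {L r s : ℕ} {b : ℕ → V} {c : ℕ} (h : blk L r s b c ≠ 0) :
    ∃ n, s * L ^ r ≤ n ∧ n < (s + 1) * L ^ r ∧ b n c ≠ 0 := by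
  unfold blk at h
  rw [Finsupp.smul_apply, Finsupp.finsetSum_apply, smul_eq_mul] at h
  have h1 : ∑ a ∈ range (L ^ r), b (s * L ^ r + a) c ≠ 0 := right_ne_zero_of_mul h
  obtain ⟨a, ha, ha'⟩ := Finset.exists_ne_zero_of_sum_ne_zero h1
  rw [Finset.mem_range] at ha
  exact ⟨s * L ^ r + a, by omega, by rw [add_mul, one_mul]; omega, ha'⟩

/-- index bound for the nodes of the tree of depth `K` -/
theorem H64.idx_bound {L K r s : ℕ} (hr : r < K) (hs : s < L ^ (K - r - 1)) :
    (s + 1) * L ^ (r + 1) ≤ L ^ K := by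
  have h1 : L ^ K = L ^ (K - r - 1) * L ^ (r + 1) := by
    rw [← pow_add]
    congr 1
    omega
  rw [h1]
  exact Nat.mul_le_mul_right _ hs

theorem good_average (z : ℕ → V) (hz : Sep z) (J0 i N : ℕ) (hJ : J0 ≤ i) :
    ∃ v b : V, GoodAvg z J0 i v b ∧ ∀ a, b a ≠ 0 → N < a := by
  obtain ⟨u, b, hu, hb, hsN, hmod, hsucc⟩ := H64.level_zero_seq z hz (max N (i + 1))
  obtain ⟨K, hK, hK1, hm⟩ := exists_levels i
  have hLpos : 0 < m i := by
    have := m_ge i
    have h2 : 0 < 2 ^ 64 := by positivity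
    omega
  have hLR : (0 : ℝ) < (m i : ℝ) := by exact_mod_cast hLpos
  -- the shifted sequences
  let bc : ℕ → ℕ → V := fun c a => b (c * m i ^ K + a)
  let uc : ℕ → ℕ → V := fun c a => u (c * m i ^ K + a)
  have hbc : ∀ c a, Bal (bc c a) := fun c a => hb _
  have hbcs : ∀ c n, Succs n (fun a => ⇑(bc c a)) := by
    intro c n r s hrs _ x y hx hy
    exact hsucc _ _ (by omega) x y hx hy
  have hstep : ∀ c : ℕ, ∃ r s, r < K ∧ s < m i ^ (K - r - 1) ∧ ∀ j, j ≤ J0 → ∀ σ : Bool,
      (m i : ℝ)⁻¹ * ∑ t ∈ range (m i), Phi j (prt σ (blk (m i) r (s * m i + t) (bc c)))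
        ≤ Phi j (prt σ (blk (m i) (r + 1) s (bc c))) + 1 :=
    fun c => exists_small_loss J0 i K hJ hK hK1 hm (bc c) (hbc c) (hbcs c)
  choose r s hr hs hloss using hstep
  set V' : ℕ → V := fun c => blk (m i) (r c + 1) (s c) (uc c) with hV'
  set B' : ℕ → V := fun c => blk (m i) (r c + 1) (s c) (bc c) with hB'
  have hB'bal : ∀ c, Bal (B' c) := fun c => blk_bal _ _ _ hLpos _ (hbc c) (hbcs c)
  -- supports
  have hsuppblk : ∀ c ρ σ' x, (σ' + 1) * m i ^ ρ ≤ m i ^ K → blk (m i) ρ σ' (bc c) x ≠ 0 →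
      ∃ n, c * m i ^ K ≤ n ∧ n < (c + 1) * m i ^ K ∧ b n x ≠ 0 := by
    intro c ρ σ' x hle hx
    obtain ⟨n, hn1, hn2, hn3⟩ := H64.blk_supp hx
    refine ⟨c * m i ^ K + n, by omega, ?_, hn3⟩
    rw [add_mul, one_mul]
    omega
  have hB'supp : ∀ c x, B' c x ≠ 0 → ∃ n, c * m i ^ K ≤ n ∧ n < (c + 1) * m i ^ K ∧ b n x ≠ 0 := by
    intro c x hx
    exact hsuppblk c (r c + 1) (s c) x (H64.idx_bound (hr c) (hs c)) hx
  have hB'N : ∀ c x, B' c x ≠ 0 → max N (i + 1) < x := by
    intro c x hx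
    obtain ⟨n, _, _, hn3⟩ := hB'supp c x hx
    exact hsN n x hn3
  -- length of the blocks
  have hlen : ∀ c, m i ^ (r c + 1) ≤ m (i + 1) := by
    intro c
    refine le_trans ?_ hm
    exact Nat.pow_le_pow_right hLpos (hr c)
  -- models
  have hn1b : ∀ n, n1 (b n) ≤ 1 := fun n => (H64.bal_n1 (hb n)).le
  have hblkeq : ∀ (f : ℕ → ℕ → V) c, blk (m i) (r c + 1) (s c) (f c)
      = ∑ a ∈ range (m i ^ (r c + 1)), ((m i : ℝ) ^ (r c + 1))⁻¹ •
        f c (s c * m i ^ (r c + 1) + a) := by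
    intro f c
    unfold blk
    rw [Finset.smul_sum]
  have hsum1 : ∀ c, ∑ a ∈ range (m i ^ (r c + 1)), |((m i : ℝ) ^ (r c + 1))⁻¹| = 1 := by
    intro c
    rw [Finset.sum_const, Finset.card_range, nsmul_eq_mul, abs_of_nonneg (by positivity),
      Nat.cast_pow]
    exact mul_inv_cancel₀ (by positivity)
  have hmodel : ∀ c k, i + 1 ≤ k → |T (V' c) k - B' c k| ≤ eps k * m k / 4 := by
    intro c k hk
    have h3 := comb_model (m i ^ (r c + 1)) (fun _ => ((m i : ℝ) ^ (r c + 1))⁻¹)
      (fun a => uc c (s c * m i ^ (r c + 1) + a)) (fun a => bc c (s c * m i ^ (r c + 1) + a))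
      (i + 1) (fun k => 2 ^ 12 * eps k) (hlen c) (hsum1 c).le (fun a _ => hn1b _)
      (fun k => ⟨mul_nonneg (by positivity) (eps_pos k).le, by
        have h1 := H64.eps_le k
        have h2 : (2 : ℝ) ^ 12 * eps k ≤ 2 ^ 12 * ((1 / 2 ^ 164 : ℝ) / 4 ^ k) :=
          mul_le_mul_of_nonneg_left h1 (by positivity)
        refine h2.trans ?_
        rw [← mul_div_assoc]
        apply div_le_div_of_nonneg_right _ (by positivity)
        norm_num⟩)
      (fun a _ k _ => hmod _ k) k hk
    rw [← hblkeq uc c, ← hblkeq bc c] at h3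
    have h4 : (2 ^ 15 : ℝ) * eps k ≤ eps k * m k := H64.mul_eps_le k (by norm_num)
    have h5 : |T (V' c) k - B' c k| ≤ 2 ^ 12 * eps k + eps k * m k / 8 := h3
    have h6 : (2 ^ 15 : ℝ) = 8 * 2 ^ 12 := by norm_num
    rw [h6] at h4
    linarith
  -- crude bound of `q`
  have hqu : ∀ n, q (u n) ≤ 2 := by
    intro n
    have h1 : n1 (T (u n) - b n) ≤ 2 * (1 / 2 ^ 20) := by
      apply n1_le_geom _ _ (by positivity)
      intro a
      rw [Finsupp.sub_apply]
      refine (hmod n a).trans ?_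
      have h1 := H64.eps_le a
      have h2 : (2 : ℝ) ^ 12 * eps a ≤ 2 ^ 12 * ((1 / 2 ^ 164 : ℝ) / 4 ^ a) :=
        mul_le_mul_of_nonneg_left h1 (by positivity)
      refine h2.trans ?_
      rw [← mul_div_assoc]
      apply div_le_div_of_nonneg_right _ (by positivity)
      norm_num
    have h2 : n1 (T (u n)) ≤ n1 (b n) + n1 (T (u n) - b n) := by
      have h3 : T (u n) = b n + (T (u n) - b n) := by abel
      calc n1 (T (u n)) = n1 (b n + (T (u n) - b n)) := by rw [← h3]
        _ ≤ _ := n1_add_le _ _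
    have h3 : q (u n) = n1 (T (u n)) := rfl
    have h4 := hn1b n
    rw [h3]
    have h5 : (2 : ℝ) * (1 / 2 ^ 20) ≤ 1 := by norm_num
    linarith
  have hqV : ∀ c, q (V' c) ≤ 2 ^ (m i ^ K) * 2 := by
    intro c
    have h1 := q_sum_crude (m i ^ (r c + 1)) (fun _ => ((m i : ℝ) ^ (r c + 1))⁻¹)
      (fun a => uc c (s c * m i ^ (r c + 1) + a))
    rw [← hblkeq uc c] at h1
    have h2 : ∑ a ∈ range (m i ^ (r c + 1)), |((m i : ℝ) ^ (r c + 1))⁻¹|
        * q (uc c (s c * m i ^ (r c + 1) + a)) ≤ 2 := by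
      calc ∑ a ∈ range (m i ^ (r c + 1)), |((m i : ℝ) ^ (r c + 1))⁻¹|
            * q (uc c (s c * m i ^ (r c + 1) + a))
            ≤ ∑ a ∈ range (m i ^ (r c + 1)), |((m i : ℝ) ^ (r c + 1))⁻¹| * 2 :=
              Finset.sum_le_sum fun a _ => mul_le_mul_of_nonneg_left (hqu _) (abs_nonneg _)
        _ = 2 := by rw [← Finset.sum_mul, hsum1 c, one_mul]
    have h3 : (2 : ℝ) ^ (m i ^ (r c + 1)) ≤ 2 ^ (m i ^ K) := by
      apply pow_le_pow_right₀ (by norm_num)
      exact Nat.pow_le_pow_right hLpos (hr c)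
    calc q (V' c) ≤ _ := h1
      _ ≤ 2 ^ (m i ^ (r c + 1)) * 2 := mul_le_mul_of_nonneg_left h2 (by positivity)
      _ ≤ 2 ^ (m i ^ K) * 2 := mul_le_mul_of_nonneg_right h3 (by norm_num)
  -- reset
  obtain ⟨a, a', _, haa, hlow, hhigh⟩ := reset (i + 1) V' B' (fun k => eps k * m k / 4)
    (2 ^ (m i ^ K) * 2) hqV
    (fun k => ⟨by have := mul_nonneg (eps_pos k).le (Nat.cast_nonneg (α := ℝ) (m k)); linarith, by
      have h1 := eps_m_le k
      have h2 : (1 / 2 ^ 100 : ℝ) / 4 ^ k ≤ (1 / 2 ^ 20 : ℝ) / 4 ^ k := by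
        apply div_le_div_of_nonneg_right _ (by positivity)
        norm_num
      have h3 := mul_nonneg (eps_pos k).le (Nat.cast_nonneg (α := ℝ) (m k))
      linarith⟩)
    (fun c => (H64.bal_n1 (hB'bal c)).le)
    (fun c x hx => by
      have h1 := hB'N c x hx
      have h2 := le_max_right N (i + 1)
      omega)
    (fun c k hk => hmodel c k hk) 0
  have hdisj : ∀ x y, B' a x ≠ 0 → B' a' y ≠ 0 → x < y := by
    intro x y hx hy
    obtain ⟨n, hn1, hn2, hn3⟩ := hB'supp a x hx
    obtain ⟨n', hn1', hn2', hn3'⟩ := hB'supp a' y hy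
    refine hsucc n n' ?_ x y hn3 hn3'
    have h1 : (a + 1) * m i ^ K ≤ a' * m i ^ K := Nat.mul_le_mul_right _ haa
    omega
  have hdisj0 : ∀ x, B' a x ≠ 0 → B' a' x = 0 := by
    intro x hx
    by_contra h
    exact lt_irrefl _ (hdisj x x hx h)
  refine ⟨(1 / 2 : ℝ) • (V' a - V' a'), (1 / 2 : ℝ) • (B' a - B' a'), ⟨?_, ?_, ?_, ?_⟩, ?_⟩
  · -- combination
    have hcV : ∀ c, Cmb z 300 (V' c) := by
      intro c
      have h1 : V' c = _ := hblkeq uc c
      rw [h1]
      exact H64.cmb_comb (by norm_num) (fun t _ => hu _) (hsum1 c).le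
    exact H64.cmb_half_sub (hcV a) (hcV a')
  · -- balanced
    have hprt : ∀ σ, n1 (prt σ ((1 / 2 : ℝ) • (B' a - B' a'))) = 1 / 2 := by
      intro σ
      rw [prt_smul σ _ (by norm_num), H64.prt_sub_of_disj hdisj0, n1_smul,
        n1_add_of_nonneg (fun x => prt_nonneg _ _ x) (fun x => prt_nonneg _ _ x),
        H64.bal_prt (hB'bal a), H64.bal_prt (hB'bal a'), abs_of_pos (by norm_num)]
      norm_num
    exact ⟨hprt true, hprt false⟩
  · -- model
    intro k
    rcases Nat.lt_or_ge k (i + 1) with hk | hk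
    · have h1 := hlow k hk
      have h2 : ((1 / 2 : ℝ) • (B' a - B' a')) k = 0 := by
        have e1 : B' a k = 0 := by
          by_contra h
          have h1 := hB'N a k h
          have h2 := le_max_right N (i + 1)
          omega
        have e2 : B' a' k = 0 := by
          by_contra h
          have h1 := hB'N a' k h
          have h2 := le_max_right N (i + 1)
          omega
        rw [Finsupp.smul_apply, Finsupp.sub_apply, e1, e2]
        simp
      rw [h2, sub_zero]
      have h3 : (12 : ℝ) * eps k ≤ eps k * m k := H64.mul_eps_le k (by norm_num)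
      linarith
    · have h1 := hhigh k hk
      have h3 : (32 : ℝ) * eps k ≤ eps k * m k := H64.mul_eps_le k (by norm_num)
      have h4 : |T ((1 / 2 : ℝ) • (V' a - V' a')) k - ((1 / 2 : ℝ) • (B' a - B' a')) k|
          ≤ eps k * m k / 4 + 8 * eps k := h1
      linarith
  · -- flat averages
    intro j hj σ
    -- the pieces
    let ga : ℕ → V := fun t => blk (m i) (r a) (s a * m i + t) (bc a)
    let ga' : ℕ → V := fun t => blk (m i) (r a') (s a' * m i + t) (bc a')
    let g : ℕ → V := fun t => if t < m i then prt σ (ga t) else prt (!σ) (ga' (t - m i))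
    have hga : ∀ t, Bal (ga t) := fun t => blk_bal _ _ _ hLpos _ (hbc a) (hbcs a)
    have hga' : ∀ t, Bal (ga' t) := fun t => blk_bal _ _ _ hLpos _ (hbc a') (hbcs a')
    have hg0 : ∀ t, ∀ x, 0 ≤ g t x := by
      intro t x
      change 0 ≤ (if t < m i then prt σ (ga t) else prt (!σ) (ga' (t - m i))) x
      split_ifs
      · exact prt_nonneg _ _ _
      · exact prt_nonneg _ _ _
    have hgn : ∀ t, n1 (g t) = 1 / 2 := by
      intro t
      change n1 (if t < m i then prt σ (ga t) else prt (!σ) (ga' (t - m i))) = 1 / 2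
      split_ifs
      · exact H64.bal_prt (hga t) σ
      · exact H64.bal_prt (hga' _) _
    have hgas : ∀ t t', t < t' → ∀ x y, ga t x ≠ 0 → ga t' y ≠ 0 → x < y := by
      intro t t' ht x y hx hy
      exact blk_succs (m i) (r a) hLpos (bc a) (hbcs a) (s a * m i + t' + 1) (s a * m i + t)
        (s a * m i + t') (by omega) (by omega) x y hx hy
    have hgas' : ∀ t t', t < t' → ∀ x y, ga' t x ≠ 0 → ga' t' y ≠ 0 → x < y := by
      intro t t' ht x y hx hy
      exact blk_succs (m i) (r a') hLpos (bc a') (hbcs a') (s a' * m i + t' + 1) (s a' * m i + t)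
        (s a' * m i + t') (by omega) (by omega) x y hx hy
    have hidx : ∀ c t, t < m i → (s c * m i + t + 1) * m i ^ (r c) ≤ m i ^ K := by
      intro c t ht
      refine le_trans ?_ (H64.idx_bound (hr c) (hs c))
      rw [pow_succ', ← mul_assoc]
      apply Nat.mul_le_mul_right
      rw [add_mul, one_mul]
      omega
    have hcross : ∀ t t', t < m i → t' < m i → ∀ x y, ga t x ≠ 0 → ga' t' y ≠ 0 → x < y := by
      intro t t' ht ht' x y hx hy
      obtain ⟨n, hn1, hn2, hn3⟩ := hsuppblk a (r a) (s a * m i + t) x (hidx a t ht) hx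
      obtain ⟨n', hn1', hn2', hn3'⟩ := hsuppblk a' (r a') (s a' * m i + t') y (hidx a' t' ht') hy
      refine hsucc n n' ?_ x y hn3 hn3'
      have h1 : (a + 1) * m i ^ K ≤ a' * m i ^ K := Nat.mul_le_mul_right _ haa
      omega
    have hgs : Succs (2 * m i) (fun t => ⇑(g t)) := by
      intro t t' htt ht' x y hx hy
      change (if t < m i then prt σ (ga t) else prt (!σ) (ga' (t - m i))) x ≠ 0 at hx
      change (if t' < m i then prt σ (ga t') else prt (!σ) (ga' (t' - m i))) y ≠ 0 at hy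
      split_ifs at hx hy with h1 h2 h3
      · exact hgas t t' htt x y (prt_ne_zero hx) (prt_ne_zero hy)
      · exact hcross t (t' - m i) h1 (by omega) x y (prt_ne_zero hx) (prt_ne_zero hy)
      · omega
      · exact hgas' (t - m i) (t' - m i) (by omega) x y (prt_ne_zero hx) (prt_ne_zero hy)
    -- decomposition of the two halves
    have hsplit : ∀ (c : ℕ) (τ : Bool), prt τ (B' c) = (m i : ℝ)⁻¹ •
        ∑ t ∈ range (m i), prt τ (blk (m i) (r c) (s c * m i + t) (bc c)) := by
      intro c τ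
      have h1 : B' c = (m i : ℝ)⁻¹ • ∑ t ∈ range (m i), blk (m i) (r c) (s c * m i + t) (bc c) :=
        blk_succ (m i) (r c) (s c) hLpos (bc c)
      rw [h1, prt_smul τ _ (by positivity), prt_sum_of_succs]
      intro t t' htt _ x y hx hy
      exact blk_succs (m i) (r c) hLpos (bc c) (hbcs c) (s c * m i + t' + 1) (s c * m i + t)
        (s c * m i + t') (by omega) (by omega) x y hx hy
    have hprtb : prt σ ((1 / 2 : ℝ) • (B' a - B' a'))
        = (1 / 2 : ℝ) • prt σ (B' a) + (1 / 2 : ℝ) • prt (!σ) (B' a') := by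
      rw [prt_smul σ _ (by norm_num), H64.prt_sub_of_disj hdisj0, smul_add]
    have hgsum : ∀ (f : V → V) , ∑ t ∈ range (2 * m i), f (g t)
        = ∑ t ∈ range (m i), f (prt σ (ga t)) + ∑ t ∈ range (m i), f (prt (!σ) (ga' t)) := by
      intro f
      rw [two_mul, Finset.sum_range_add]
      congr 1
      · refine Finset.sum_congr rfl fun t ht => ?_
        have : g t = prt σ (ga t) := if_pos (Finset.mem_range.1 ht)
        rw [this]
      · refine Finset.sum_congr rfl fun t ht => ?_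
        have : g (m i + t) = prt (!σ) (ga' (m i + t - m i)) := if_neg (by omega)
        rw [this, Nat.add_sub_cancel_left]
    have hgsumR : ∀ (f : V → ℝ) , ∑ t ∈ range (2 * m i), f (g t)
        = ∑ t ∈ range (m i), f (prt σ (ga t)) + ∑ t ∈ range (m i), f (prt (!σ) (ga' t)) := by
      intro f
      rw [two_mul, Finset.sum_range_add]
      congr 1
      · refine Finset.sum_congr rfl fun t ht => ?_
        have : g t = prt σ (ga t) := if_pos (Finset.mem_range.1 ht)
        rw [this]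
      · refine Finset.sum_congr rfl fun t ht => ?_
        have : g (m i + t) = prt (!σ) (ga' (m i + t - m i)) := if_neg (by omega)
        rw [this, Nat.add_sub_cancel_left]
    have h2L : (((2 * m i : ℕ) : ℝ))⁻¹ = (1 / 2 : ℝ) * (m i : ℝ)⁻¹ := by
      rw [Nat.cast_mul, mul_inv, Nat.cast_ofNat, one_div]
    have hf : prt σ ((1 / 2 : ℝ) • (B' a - B' a'))
        = (((2 * m i : ℕ) : ℝ))⁻¹ • ∑ t ∈ range (2 * m i), g t := by
      have h1 := hgsum id
      simp only [id] at h1
      rw [hprtb, h1, h2L, hsplit a σ, hsplit a' (!σ), smul_add, smul_smul, smul_smul]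
    -- the loss
    have hΦ : (((2 * m i : ℕ) : ℝ))⁻¹ * ∑ t ∈ range (2 * m i), Phi j (g t)
        ≤ Phi j (prt σ ((1 / 2 : ℝ) • (B' a - B' a'))) + 2 := by
      have h1 := hloss a j hj σ
      have h2 := hloss a' j hj (!σ)
      have h3 := Phi_sum_ge (k := j) 2
        (fun t => if t = 0 then (1 / 2 : ℝ) • prt σ (B' a) else (1 / 2 : ℝ) • prt (!σ) (B' a'))
        (by
          intro t _ x
          split_ifs
          · rw [Finsupp.smul_apply, smul_eq_mul]
            exact mul_nonneg (by norm_num) (prt_nonneg _ _ _)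
          · rw [Finsupp.smul_apply, smul_eq_mul]
            exact mul_nonneg (by norm_num) (prt_nonneg _ _ _))
      simp only [Finset.sum_range_succ, Finset.sum_range_zero, zero_add, if_true,
        if_neg one_ne_zero, Nat.cast_ofNat] at h3
      rw [Phi_smul (fun x => prt_nonneg _ _ x) (by norm_num),
        Phi_smul (fun x => prt_nonneg _ _ x) (by norm_num), n1_smul, n1_smul,
        H64.bal_prt (hB'bal a), H64.bal_prt (hB'bal a'), ← hprtb,
        abs_of_pos (by norm_num : (0 : ℝ) < 1 / 2)] at h3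
      have h4 : Real.log 2 ≤ 1 := by
        have := Real.log_two_lt_d9
        linarith
      rw [h2L, hgsumR (Phi j)]
      have h5 : (m i : ℝ)⁻¹ * ∑ t ∈ range (m i), Phi j (prt σ (ga t)) ≤ Phi j (prt σ (B' a)) + 1 :=
        h1
      have h6 : (m i : ℝ)⁻¹ * ∑ t ∈ range (m i), Phi j (prt (!σ) (ga' t))
          ≤ Phi j (prt (!σ) (B' a')) + 1 := h2
      rw [mul_assoc, mul_add]
      linarith
    exact flat_of_loss j (2 * m i) (by omega) g (fun t _ => hg0 t) hgs (fun t _ => hgn t) _ hf hΦ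
  · -- support
    intro x hx
    rw [Finsupp.smul_apply, Finsupp.sub_apply, smul_eq_mul] at hx
    have h1 : B' a x - B' a' x ≠ 0 := right_ne_zero_of_mul hx
    have h2 := le_max_left N (i + 1)
    by_cases h3 : B' a x = 0
    · rw [h3, zero_sub, neg_ne_zero] at h1
      have := hB'N a' x h1
      omega
    · have := hB'N a x h3
      omega

end Pool.Agent.Atomic
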