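import Pool.Agent.Lib.MP_968cc4_an.OVL

/-! Module LA: Lemma A and the norm estimates of vectors of type `q` (`q = q1 + 1`) -/

set_option autoImplicit false

namespace Pool.Agent.Atomic

open Finset

/-- `(H s)_{s<n}` is a rapidly increasing sequence of flat averages for the scale `q` and the
family `𝒦_j` -/
def RIS (j q n : ℕ) (H : ℕ → V) (M : ℕ → ℕ) : Prop :=
  Succs n (fun s => ⇑(H s)) ∧ (∀ s, s < n → Flat j (M s) (H s)) ∧ (∀ s, s < n → m q ≤ M s) ∧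
  ∀ s s', s < s' → s' < n → ∀ i, (U i : ℝ) ≤ ((W q : ℝ) * n1 (H s)) ^ 2 → m i ≤ M s'

/-! ### auxiliary facts -/

theorem LA.flat_nonneg {j M : ℕ} {H : V} (h : Flat j M H) (a : ℕ) : 0 ≤ H a := by
  obtain ⟨g, hg, _, _, rfl⟩ := h
  rw [Finsupp.smul_apply, smul_eq_mul, Finsupp.finsetSum_apply]
  refine mul_nonneg (by positivity) (sum_nonneg fun t ht => hg t (mem_range.1 ht) a)

theorem LA.flat_nb {j M : ℕ} {H : V} (h : Flat j M H) (hM : 0 < M) : NB j H 1 := by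
  obtain ⟨g, hg, _, hn, rfl⟩ := h
  intro ξ hξ
  rw [pr_smul, pr_sum]
  have h1 : ∑ t ∈ range M, pr (g t) ξ ≤ ∑ t ∈ range M, (1 : ℝ) :=
    sum_le_sum (fun t ht => hn t (mem_range.1 ht) ξ hξ)
  rw [sum_const, card_range, nsmul_eq_mul, mul_one] at h1
  have hM' : (0 : ℝ) < M := by exact_mod_cast hM
  calc (M : ℝ)⁻¹ * ∑ t ∈ range M, pr (g t) ξ ≤ (M : ℝ)⁻¹ * M := by gcongr
    _ = 1 := by field_simp

theorem LA.m_pos (i : ℕ) : 0 < m i := lt_of_lt_of_le (by norm_num) (m_ge i)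

theorem LA.W_pos (i : ℕ) : 0 < W i := lt_of_lt_of_le (by norm_num) (W_ge i)

theorem LA.U_pos (i : ℕ) : 0 < U i := lt_of_lt_of_le (by norm_num) (U_ge i)

/-- the value of an average of small weight -/
theorem LA.pr_av_le {j M n : ℕ} {H : V} (hH : Flat j M H) (hM : 0 < M) (hn : n ≤ M)
    {ψ : ℕ → ℕ → ℝ} (hψ : ∀ r, r < n → KK j (ψ r)) (hs : Succs n ψ) {c : ℝ} (hc : 0 ≤ c) :
    pr H (av c n ψ) ≤ c * 2 := by
  rw [pr_av]
  have h1 := ovl j M n H hH hM ψ hψ hs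
  have h2 : (n : ℝ) / M ≤ 1 := by
    rw [div_le_one (by exact_mod_cast hM)]
    exact_mod_cast hn
  exact mul_le_mul_of_nonneg_left (by linarith) hc

/-- functionals of a scale above `q` -/
theorem LA.high (j q1 n : ℕ) (H : ℕ → V) (M : ℕ → ℕ) (hR : RIS j (q1 + 1) n H M)
    (i n' : ℕ) (hi : q1 + 1 < i) (hn' : n' ≤ m i) (ψ : ℕ → ℕ → ℝ)
    (hψ : ∀ r, r < n' → KK j (ψ r)) (hs : Succs n' ψ) (c : ℝ) (hc0 : 0 ≤ c)
    (hc : c ≤ (U i : ℝ)⁻¹) (hK : KK j (av c n' ψ)) :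
    ∃ s0, ∀ s, s < n → pr (H s) (av c n' ψ)
      ≤ (if s = s0 then 1 else 0) + 1 / ((W (q1 + 1) : ℝ) * (W (i - 1) : ℝ) ^ 2) := by
  obtain ⟨hSucc, hFlat, hMq, hRap⟩ := hR
  obtain ⟨i', rfl⟩ : ∃ i', i = i' + 1 := ⟨i - 1, by omega⟩
  rw [Nat.add_sub_cancel]
  have hMpos : ∀ s, s < n → 0 < M s := fun s hs => lt_of_lt_of_le (LA.m_pos _) (hMq s hs)
  have hWq : (256 : ℝ) ≤ W (q1 + 1) := by exact_mod_cast W_ge (q1 + 1)
  have hWi : (W (q1 + 1) : ℝ) ≤ W i' := by exact_mod_cast W_strictMono.monotone (by omega)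
  have hWi0 : (0 : ℝ) < W i' := by linarith
  have hWq0 : (0 : ℝ) < W (q1 + 1) := by linarith
  have hU : (U (i' + 1) : ℝ) = (W i' : ℝ) ^ 4 := by
    rw [U_eq_W_pow]; push_cast; rfl
  have hbd0 : (0 : ℝ) ≤ 1 / ((W (q1 + 1) : ℝ) * (W i' : ℝ) ^ 2) := by positivity
  -- the bound for large `M s`
  have hlarge : ∀ s, s < n → m (i' + 1) ≤ M s →
      pr (H s) (av c n' ψ) ≤ 1 / ((W (q1 + 1) : ℝ) * (W i' : ℝ) ^ 2) := by
    intro s hsn hms
    have h1 := LA.pr_av_le (hFlat s hsn) (hMpos s hsn) (hn'.trans hms) hψ hs hc0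
    have h2 : c * 2 ≤ 1 / ((W (q1 + 1) : ℝ) * (W i' : ℝ) ^ 2) := by
      rw [le_div_iff₀ (by positivity)]
      rw [hU] at hc
      calc c * 2 * ((W (q1 + 1) : ℝ) * (W i' : ℝ) ^ 2)
          ≤ ((W i' : ℝ) ^ 4)⁻¹ * 2 * ((W i' : ℝ) * (W i' : ℝ) ^ 2) := by gcongr
        _ = 2 / (W i' : ℝ) := by field_simp
        _ ≤ 1 := by rw [div_le_one hWi0]; linarith
    linarith
  by_cases hex : ∃ s, s < n ∧ M s < m (i' + 1)
  · -- the last index with `M s < m i`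
    obtain ⟨s0, hs0n, hs0, hmax⟩ : ∃ s0, s0 < n ∧ M s0 < m (i' + 1) ∧
        ∀ s, s < n → M s < m (i' + 1) → s ≤ s0 := by
      set D := (range n).filter (fun s => M s < m (i' + 1)) with hD
      have hne : D.Nonempty := by
        obtain ⟨s, h1, h2⟩ := hex
        exact ⟨s, by simp [hD, h1, h2]⟩
      have hmem := mem_filter.1 (D.max'_mem hne)
      refine ⟨_, mem_range.1 hmem.1, hmem.2, fun s h1 h2 => ?_⟩
      exact D.le_max' s (by simp [hD, h1, h2])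
    refine ⟨s0, fun s hsn => ?_⟩
    rcases lt_trichotomy s s0 with hlt | heq | hgt
    · rw [if_neg (by omega)]
      have hnot : ¬ ((U (i' + 1) : ℝ) ≤ ((W (q1 + 1) : ℝ) * n1 (H s)) ^ 2) := by
        intro hh
        have := hRap s s0 hlt hs0n (i' + 1) hh
        omega
      rw [not_le, hU] at hnot
      have hx0 : 0 ≤ (W (q1 + 1) : ℝ) * n1 (H s) := mul_nonneg hWq0.le (n1_nonneg _)
      have hx : (W (q1 + 1) : ℝ) * n1 (H s) ≤ (W i' : ℝ) ^ 2 := by
        apply le_of_lt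
        apply lt_of_pow_lt_pow_left₀ 2 (by positivity)
        calc _ < (W i' : ℝ) ^ 4 := hnot
          _ = _ := by ring
      have h1 : pr (H s) (av c n' ψ) ≤ n1 (H s) * c :=
        pr_le_n1_mul (LA.flat_nonneg (hFlat s hsn)) (fun a => av_le hc0 hψ hs a)
      have h2 : n1 (H s) * c ≤ 1 / ((W (q1 + 1) : ℝ) * (W i' : ℝ) ^ 2) := by
        rw [le_div_iff₀ (by positivity)]
        rw [hU] at hc
        calc n1 (H s) * c * ((W (q1 + 1) : ℝ) * (W i' : ℝ) ^ 2)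
            = ((W (q1 + 1) : ℝ) * n1 (H s)) * (c * (W i' : ℝ) ^ 2) := by ring
          _ ≤ (W i' : ℝ) ^ 2 * (((W i' : ℝ) ^ 4)⁻¹ * (W i' : ℝ) ^ 2) := by gcongr
          _ = 1 := by field_simp
      linarith
    · rw [if_pos heq]
      have h1 := LA.flat_nb (hFlat s hsn) (hMpos s hsn) _ hK
      linarith
    · rw [if_neg (by omega)]
      have h1 : m (i' + 1) ≤ M s := by
        by_contra hcon
        have := hmax s hsn (by omega)
        omega
      have := hlarge s hsn h1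
      linarith
  · push_neg at hex
    refine ⟨n, fun s hsn => ?_⟩
    rw [if_neg (by omega)]
    have := hlarge s hsn (hex s hsn)
    linarith

/-- summing the estimate `LA.high` -/
theorem LA.sum_high (n : ℕ) (x a : ℕ → ℝ) (A e : ℝ) (hA : 0 ≤ A) (he : 0 ≤ e) (s0 : ℕ)
    (ha : ∀ s, s < n → 0 ≤ a s ∧ a s ≤ A)
    (hx : ∀ s, s < n → x s ≤ (if s = s0 then 1 else 0) + e) :
    ∑ s ∈ range n, a s * x s ≤ A + e * ∑ s ∈ range n, a s := by
  calc ∑ s ∈ range n, a s * x s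
      ≤ ∑ s ∈ range n, ((if s = s0 then a s else 0) + e * a s) := by
        refine sum_le_sum fun s hs => ?_
        have hsn := mem_range.1 hs
        have h1 := mul_le_mul_of_nonneg_left (hx s hsn) (ha s hsn).1
        split_ifs with h
        · rw [if_pos h] at h1; linarith
        · rw [if_neg h] at h1; linarith
    _ = (∑ s ∈ range n, (if s = s0 then a s else 0)) + e * ∑ s ∈ range n, a s := by
        rw [sum_add_distrib, mul_sum]
    _ ≤ A + e * ∑ s ∈ range n, a s := by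
        gcongr
        rw [sum_ite_eq']
        split_ifs with h
        · exact (ha s0 (mem_range.1 h)).2
        · exact hA

theorem lemmaA (j q1 n : ℕ) (hq : ¬ isQ j (q1 + 1)) (H : ℕ → V) (M : ℕ → ℕ)
    (hR : RIS j (q1 + 1) n H M) :
    ∀ ξ, KK j ξ → ∀ (a : ℕ → ℝ) (A : ℝ), 0 ≤ A → (∀ s, s < n → 0 ≤ a s ∧ a s ≤ A) →
      ∑ s ∈ range n, a s * pr (H s) ξ
        ≤ 3 / (W (q1 + 1) : ℝ) * ∑ s ∈ range n, a s
          + (2 * (m q1 : ℝ) + 10) ^ (W (q1 + 1) + 1) * A := by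
  obtain ⟨hSucc, hFlat, hMq, hRap⟩ := id hR
  have hMpos : ∀ s, s < n → 0 < M s := fun s hs => lt_of_lt_of_le (LA.m_pos _) (hMq s hs)
  have hWq : (256 : ℝ) ≤ W (q1 + 1) := by exact_mod_cast W_ge (q1 + 1)
  have hWq0 : (0 : ℝ) < W (q1 + 1) := by linarith
  -- indices above `q`
  have key : ∀ i n', q1 + 1 < i → n' ≤ m i → ∀ ψ : ℕ → ℕ → ℝ, (∀ r, r < n' → KK j (ψ r)) →
      Succs n' ψ → ∀ c : ℝ, 0 ≤ c → c ≤ (U i : ℝ)⁻¹ → KK j (av c n' ψ) →
      ∀ (a : ℕ → ℝ) (A : ℝ), 0 ≤ A → (∀ s, s < n → 0 ≤ a s ∧ a s ≤ A) →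
      ∑ s ∈ range n, a s * pr (H s) (av c n' ψ) ≤ 3 / (W (q1 + 1) : ℝ) * ∑ s ∈ range n, a s + 2 * A := by
    intro i n' hi hn' ψ hψ hs c hc0 hc hK a A hA ha
    obtain ⟨s0, h0⟩ := LA.high j q1 n H M hR i n' hi hn' ψ hψ hs c hc0 hc hK
    have h1 := LA.sum_high n (fun s => pr (H s) (av c n' ψ)) a A
      (1 / ((W (q1 + 1) : ℝ) * (W (i - 1) : ℝ) ^ 2)) hA (by positivity) s0 ha h0
    have hWi : (1 : ℝ) ≤ (W (i - 1) : ℝ) ^ 2 := by
      have : (256 : ℝ) ≤ W (i - 1) := by exact_mod_cast W_ge (i - 1)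
      nlinarith
    have h2 : 1 / ((W (q1 + 1) : ℝ) * (W (i - 1) : ℝ) ^ 2) ≤ 3 / (W (q1 + 1) : ℝ) := by
      rw [div_le_div_iff₀ (by positivity) hWq0]
      nlinarith
    have hsum : 0 ≤ ∑ s ∈ range n, a s := sum_nonneg fun s hs => (ha s (mem_range.1 hs)).1
    have h3 := mul_le_mul_of_nonneg_right h2 hsum
    linarith
  refine tree j q1 n H 2 (3 / (W (q1 + 1) : ℝ)) (by norm_num) (by norm_num) ?_ ?_ hSucc ?_ ?_ ?_ ?_
  · -- `2 / 2 ^ W ≤ 3 / W`
    have hpow : (W (q1 + 1) : ℝ) ≤ 2 ^ (W (q1 + 1)) := by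
      exact_mod_cast (Nat.lt_two_pow_self).le
    rw [div_le_div_iff₀ (by positivity) hWq0]
    nlinarith
  · intro l hl a
    exact LA.flat_nonneg (hFlat l hl) a
  · intro l hl ξ hξ
    have := LA.flat_nb (hFlat l hl) (hMpos l hl) ξ hξ
    linarith
  · intro l hl i n' hi hn' ψ hψ hs
    have h1 := ovl j (M l) n' (H l) (hFlat l hl) (hMpos l hl) ψ hψ hs
    have h2 : (n' : ℝ) / M l ≤ 1 := by
      rw [div_le_one (by exact_mod_cast hMpos l hl)]
      have : m i ≤ m (q1 + 1) := m_strictMono.monotone (by omega)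
      exact_mod_cast (hn'.trans this).trans (hMq l hl)
    linarith
  · intro i n' ψ hi hn' hψ hs a A hA ha
    rcases Nat.lt_or_ge (q1 + 1) i with hi2 | hi2
    · refine key i n' hi2 hn' ψ hψ hs _ (by positivity) ?_ (KK.avg i n' ψ hn' hψ hs) a A hA ha
      have hUi : (U i : ℝ) ≤ W i := by
        have : U i ≤ W i := by
          unfold W
          have := U_ge i
          nlinarith
        exact_mod_cast this
      have hU0 : (0 : ℝ) < U i := by exact_mod_cast LA.U_pos i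
      gcongr
    · have hieq : i = q1 + 1 := by omega
      subst hieq
      have hsum : 0 ≤ ∑ s ∈ range n, a s := sum_nonneg fun s hs => (ha s (mem_range.1 hs)).1
      calc ∑ l ∈ range n, a l * pr (H l) (av (W (q1 + 1) : ℝ)⁻¹ n' ψ)
          ≤ ∑ l ∈ range n, a l * ((W (q1 + 1) : ℝ)⁻¹ * 2) := by
            refine sum_le_sum fun l hl => ?_
            have hln := mem_range.1 hl
            exact mul_le_mul_of_nonneg_left
              (LA.pr_av_le (hFlat l hln) (hMpos l hln) (hn'.trans (hMq l hln)) hψ hs (by positivity))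
              (ha l hln).1
        _ = (W (q1 + 1) : ℝ)⁻¹ * 2 * ∑ l ∈ range n, a l := by rw [← sum_mul]; ring
        _ ≤ 3 / (W (q1 + 1) : ℝ) * ∑ s ∈ range n, a s + 2 * A := by
            have : (W (q1 + 1) : ℝ)⁻¹ * 2 ≤ 3 / (W (q1 + 1) : ℝ) := by
              rw [div_eq_mul_inv, mul_comm]
              gcongr
              norm_num
            have h3 := mul_le_mul_of_nonneg_right this hsum
            linarith
  · intro i n' S p N ψ hi hQ hn' hlt hN hψ hsl hS hs a A hA ha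
    have hi2 : q1 + 1 < i := by
      rcases Nat.lt_or_ge (q1 + 1) i with h | h
      · exact h
      · exfalso
        have hieq : i = q1 + 1 := by omega
        subst hieq
        exact hq hQ
    refine key i n' hi2 hn' _ ?_ hs _ (by positivity) le_rfl
      (KK.spec i n' S p N ψ hQ hn' hlt hN hψ hsl hS hs) a A hA ha
    intro r hr
    exact KK.avg _ _ _ (hN r hr) (hψ r hr) (hsl r hr)

/-- the parameter inequality behind `typeG_of_RIS` -/
theorem LA.param (q1 : ℕ) :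
    (2 * (m q1 : ℝ) + 10) ^ (W (q1 + 1) + 2) * (W (q1 + 1) : ℝ) ≤ m (q1 + 1) := by
  have hX : (2 : ℝ) ≤ 2 * (m q1 : ℝ) + 10 := by
    have : (0 : ℝ) ≤ m q1 := by positivity
    linarith
  have hpow : (W (q1 + 1) : ℝ) ≤ 2 ^ (W (q1 + 1)) := by
    exact_mod_cast (Nat.lt_two_pow_self).le
  have hpow2 : (W (q1 + 1) : ℝ) ≤ (2 * (m q1 : ℝ) + 10) ^ (W (q1 + 1)) :=
    hpow.trans (pow_le_pow_left₀ (by norm_num) hX _)
  rw [m_succ]
  push_cast
  calc (2 * (m q1 : ℝ) + 10) ^ (W (q1 + 1) + 2) * (W (q1 + 1) : ℝ)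
      ≤ (2 * (m q1 : ℝ) + 10) ^ (W (q1 + 1) + 2) * (2 * (m q1 : ℝ) + 10) ^ (W (q1 + 1)) := by
        gcongr
    _ = (2 * (m q1 : ℝ) + 10) ^ (W (q1 + 1) + 2 + W (q1 + 1)) := by rw [← pow_add]
    _ ≤ (2 * (m q1 : ℝ) + 10) ^ (2 * W (q1 + 1) + 4) := by
        apply pow_le_pow_right₀ (by linarith)
        omega

/-- distribution of the members of a family among the members of another one, split members being
counted separately -/
theorem LA.split_whole (j n n' : ℕ) (H : ℕ → V) (ψ : ℕ → ℕ → ℝ) (τ K B A : ℝ)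
    (hB : 0 ≤ B) (hτ : 0 ≤ τ) (hA : 0 ≤ A)
    (hH : Succs n (fun s => ⇑(H s))) (hs : Succs n' ψ) (hψ : ∀ r, r < n' → KK j (ψ r))
    (hb : ∀ s, s < n → ∑ r ∈ range n', pr (H s) (ψ r) ≤ B)
    (hcl : ∀ ξ, KK j ξ → ∀ a : ℕ → ℝ, (∀ s, s < n → 0 ≤ a s ∧ a s ≤ A) →
      ∑ s ∈ range n, a s * pr (H s) ξ ≤ τ * ∑ s ∈ range n, a s + K * A) :
    ∑ s ∈ range n, A * ∑ r ∈ range n', pr (H s) (ψ r)
      ≤ τ * (n * A) + n' * (K * A) + n' * (A * B) := by
  classical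
  -- the split members
  set P : ℕ → Prop := fun s => ∃ r r' a a', r < r' ∧ r' < n' ∧
      H s a ≠ 0 ∧ ψ r a ≠ 0 ∧ H s a' ≠ 0 ∧ ψ r' a' ≠ 0 with hP
  set D := (range n).filter P with hD
  have hcard : D.card ≤ n' := by
    refine card_split n n' (fun s => ⇑(H s)) ψ hH hs D fun l hl => ?_
    have := mem_filter.1 hl
    exact ⟨mem_range.1 this.1, this.2⟩
  -- `s` meets `ψ r`
  set Mt : ℕ → ℕ → Prop := fun s r => ∃ a, H s a ≠ 0 ∧ ψ r a ≠ 0 with hMt
  set b : ℕ → ℕ → ℝ := fun r s => if ¬ P s ∧ Mt s r then A else 0 with hbdef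
  have hb1 : ∀ r s, 0 ≤ b r s ∧ b r s ≤ A := by
    intro r s
    simp only [hbdef]
    split_ifs
    · exact ⟨hA, le_rfl⟩
    · exact ⟨le_rfl, hA⟩
  have hone : ∀ s, s < n → ∑ r ∈ range n', b r s ≤ A := by
    intro s _
    by_cases hex : ∃ r, r < n' ∧ ¬ P s ∧ Mt s r
    · obtain ⟨r, hr, hnP, hM⟩ := hex
      have : ∑ r' ∈ range n', b r' s = b r s := by
        refine sum_eq_single_of_mem r (mem_range.2 hr) fun r' hr' hne => ?_
        simp only [hbdef]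
        rw [if_neg]
        rintro ⟨_, hM'⟩
        apply hnP
        obtain ⟨a, ha1, ha2⟩ := hM
        obtain ⟨a', ha1', ha2'⟩ := hM'
        rcases lt_or_gt_of_ne hne with h | h
        · exact ⟨r', r, a', a, h, hr, ha1', ha2', ha1, ha2⟩
        · exact ⟨r, r', a, a', h, mem_range.1 hr', ha1, ha2, ha1', ha2'⟩
      rw [this]
      exact (hb1 r s).2
    · have : ∑ r ∈ range n', b r s = 0 := by
        refine sum_eq_zero fun r hr => ?_
        simp only [hbdef]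
        rw [if_neg]
        rintro ⟨h1, h2⟩
        exact hex ⟨r, mem_range.1 hr, h1, h2⟩
      rw [this]
      exact hA
  -- decomposition
  have hdec : ∀ s ∈ range n, A * ∑ r ∈ range n', pr (H s) (ψ r)
      ≤ (∑ r ∈ range n', b r s * pr (H s) (ψ r)) + (if P s then A * B else 0) := by
    intro s hsn
    by_cases hPs : P s
    · rw [if_pos hPs]
      have h0 : ∑ r ∈ range n', b r s * pr (H s) (ψ r) = 0 := by
        refine sum_eq_zero fun r hr => ?_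
        simp only [hbdef]
        rw [if_neg (fun h => h.1 hPs), zero_mul]
      rw [h0, zero_add]
      exact mul_le_mul_of_nonneg_left (hb s (mem_range.1 hsn)) hA
    · rw [if_neg hPs, add_zero, mul_sum]
      refine sum_le_sum fun r hr => ?_
      simp only [hbdef]
      by_cases hM : Mt s r
      · rw [if_pos ⟨hPs, hM⟩]
      · rw [if_neg (fun h => hM h.2)]
        have : pr (H s) (ψ r) = 0 := by
          apply pr_eq_zero
          intro a ha
          by_contra hne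
          exact hM ⟨a, ha, hne⟩
        rw [this]
        simp
  calc ∑ s ∈ range n, A * ∑ r ∈ range n', pr (H s) (ψ r)
      ≤ ∑ s ∈ range n, ((∑ r ∈ range n', b r s * pr (H s) (ψ r)) + (if P s then A * B else 0)) :=
        sum_le_sum hdec
    _ = (∑ r ∈ range n', ∑ s ∈ range n, b r s * pr (H s) (ψ r))
          + ∑ s ∈ range n, (if P s then A * B else 0) := by
        rw [sum_add_distrib, sum_comm]
    _ ≤ (∑ r ∈ range n', (τ * ∑ s ∈ range n, b r s + K * A)) + n' * (A * B) := by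
        refine add_le_add (sum_le_sum fun r hr => ?_) ?_
        · exact hcl (ψ r) (hψ r (mem_range.1 hr)) (b r) (fun s _ => hb1 r s)
        · rw [← sum_filter, sum_const, nsmul_eq_mul]
          have : (D.card : ℝ) ≤ n' := by exact_mod_cast hcard
          exact mul_le_mul_of_nonneg_right this (mul_nonneg hA hB)
    _ = τ * (∑ s ∈ range n, ∑ r ∈ range n', b r s) + n' * (K * A) + n' * (A * B) := by
        rw [sum_add_distrib, ← mul_sum, sum_comm, sum_const, card_range, nsmul_eq_mul]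
    _ ≤ τ * (n * A) + n' * (K * A) + n' * (A * B) := by
        have h1 : ∑ s ∈ range n, ∑ r ∈ range n', b r s ≤ ∑ s ∈ range n, A :=
          sum_le_sum fun s hs => hone s (mem_range.1 hs)
        rw [sum_const, card_range, nsmul_eq_mul] at h1
        have h2 := mul_le_mul_of_nonneg_left h1 hτ
        linarith

theorem typeG_of_RIS (j q1 : ℕ) (hq : ¬ isQ j (q1 + 1)) (H : ℕ → V) (M : ℕ → ℕ)
    (hR : RIS j (q1 + 1) (m (q1 + 1)) H M) :
    TypeG j (q1 + 1)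
      (((W (q1 + 1) : ℝ) / (m (q1 + 1) : ℝ)) • ∑ s ∈ range (m (q1 + 1)), H s) := by
  obtain ⟨hSucc, hFlat, hMq, hRap⟩ := id hR
  have hMpos : ∀ s, s < m (q1 + 1) → 0 < M s :=
    fun s hs => lt_of_lt_of_le (LA.m_pos _) (hMq s hs)
  have hWq : (256 : ℝ) ≤ W (q1 + 1) := by exact_mod_cast W_ge (q1 + 1)
  have hWq0 : (0 : ℝ) < W (q1 + 1) := by linarith
  have hmq0 : (0 : ℝ) < m (q1 + 1) := by exact_mod_cast LA.m_pos (q1 + 1)
  have hm1 : (1 : ℝ) ≤ m q1 := by exact_mod_cast LA.m_pos q1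
  have hA0 : 0 ≤ (W (q1 + 1) : ℝ) / (m (q1 + 1) : ℝ) := by positivity
  have hX1 : (1 : ℝ) ≤ 2 * (m q1 : ℝ) + 10 := by linarith
  have hpar := LA.param q1
  have hpr : ∀ ξ, pr (((W (q1 + 1) : ℝ) / (m (q1 + 1) : ℝ)) • ∑ s ∈ range (m (q1 + 1)), H s) ξ
      = ∑ s ∈ range (m (q1 + 1)), (W (q1 + 1) : ℝ) / (m (q1 + 1) : ℝ) * pr (H s) ξ := by
    intro ξ
    rw [pr_smul, pr_sum, mul_sum]
  have hsumA : ∑ s ∈ range (m (q1 + 1)), (W (q1 + 1) : ℝ) / (m (q1 + 1) : ℝ) = W (q1 + 1) := by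
    rw [sum_const, card_range, nsmul_eq_mul]
    field_simp
  refine ⟨?_, ?_, ?_⟩
  · -- the norm
    intro ξ hξ
    rw [hpr]
    have h1 := lemmaA j q1 (m (q1 + 1)) hq H M hR ξ hξ
      (fun _ => (W (q1 + 1) : ℝ) / (m (q1 + 1) : ℝ)) _ hA0 (fun s _ => ⟨hA0, le_rfl⟩)
    rw [hsumA] at h1
    have h2 : 3 / (W (q1 + 1) : ℝ) * (W (q1 + 1) : ℝ) = 3 := by field_simp
    have h3 : (2 * (m q1 : ℝ) + 10) ^ (W (q1 + 1) + 1)
        * ((W (q1 + 1) : ℝ) / (m (q1 + 1) : ℝ)) ≤ 1 := by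
      rw [← mul_div_assoc, div_le_one hmq0]
      refine le_trans ?_ hpar
      gcongr
      norm_num
    rw [h2] at h1
    linarith
  · -- scales below `q`
    intro i n hi hn ψ hψ hs
    have hmi : m i ≤ m q1 := m_strictMono.monotone (by omega)
    have hmq : m q1 ≤ m (q1 + 1) := m_strictMono.monotone (by omega)
    have hnm : (n : ℝ) ≤ m q1 := by exact_mod_cast hn.trans hmi
    have h1 := LA.split_whole j (m (q1 + 1)) n H ψ (3 / (W (q1 + 1) : ℝ))
      ((2 * (m q1 : ℝ) + 10) ^ (W (q1 + 1) + 1)) 2 ((W (q1 + 1) : ℝ) / (m (q1 + 1) : ℝ))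
      (by norm_num) (by positivity) hA0 hSucc hs hψ
      (by
        intro s hs'
        have h1 := ovl j (M s) n (H s) (hFlat s hs') (hMpos s hs') ψ hψ hs
        have h2 : (n : ℝ) / M s ≤ 1 := by
          rw [div_le_one (by exact_mod_cast hMpos s hs')]
          exact_mod_cast ((hn.trans hmi).trans hmq).trans (hMq s hs')
        linarith)
      (fun ξ hξ a ha => lemmaA j q1 (m (q1 + 1)) hq H M hR ξ hξ a _ hA0 ha)
    have h2 : ∑ r ∈ range n, pr (((W (q1 + 1) : ℝ) / (m (q1 + 1) : ℝ))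
          • ∑ s ∈ range (m (q1 + 1)), H s) (ψ r)
        = ∑ s ∈ range (m (q1 + 1)), (W (q1 + 1) : ℝ) / (m (q1 + 1) : ℝ)
          * ∑ r ∈ range n, pr (H s) (ψ r) := by
      simp_rw [hpr, mul_sum]
      rw [sum_comm]
    rw [h2]
    refine h1.trans ?_
    have h3 : 3 / (W (q1 + 1) : ℝ) * ((m (q1 + 1) : ℕ) * ((W (q1 + 1) : ℝ) / (m (q1 + 1) : ℝ))) = 3 := by
      field_simp
    have h4 : (n : ℝ) * ((2 * (m q1 : ℝ) + 10) ^ (W (q1 + 1) + 1)
        * ((W (q1 + 1) : ℝ) / (m (q1 + 1) : ℝ))) ≤ 1 := by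
      have : (n : ℝ) * ((2 * (m q1 : ℝ) + 10) ^ (W (q1 + 1) + 1)
        * ((W (q1 + 1) : ℝ) / (m (q1 + 1) : ℝ)))
        = ((n : ℝ) * (2 * (m q1 : ℝ) + 10) ^ (W (q1 + 1) + 1) * (W (q1 + 1) : ℝ))
          / (m (q1 + 1) : ℝ) := by ring
      rw [this, div_le_one hmq0]
      calc (n : ℝ) * (2 * (m q1 : ℝ) + 10) ^ (W (q1 + 1) + 1) * (W (q1 + 1) : ℝ)
          ≤ (2 * (m q1 : ℝ) + 10) * (2 * (m q1 : ℝ) + 10) ^ (W (q1 + 1) + 1)
            * (W (q1 + 1) : ℝ) := by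
            gcongr
            linarith
        _ = (2 * (m q1 : ℝ) + 10) ^ (W (q1 + 1) + 2) * (W (q1 + 1) : ℝ) := by ring
        _ ≤ m (q1 + 1) := hpar
    have h5 : (n : ℝ) * ((W (q1 + 1) : ℝ) / (m (q1 + 1) : ℝ) * 2) ≤ 1 := by
      have : (n : ℝ) * ((W (q1 + 1) : ℝ) / (m (q1 + 1) : ℝ) * 2)
        = (2 * (n : ℝ) * (W (q1 + 1) : ℝ)) / (m (q1 + 1) : ℝ) := by ring
      rw [this, div_le_one hmq0]
      refine le_trans ?_ hpar
      gcongr
      calc 2 * (n : ℝ) ≤ (2 * (m q1 : ℝ) + 10) ^ 1 := by linarith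
        _ ≤ (2 * (m q1 : ℝ) + 10) ^ (W (q1 + 1) + 2) := by
            apply pow_le_pow_right₀ hX1
            omega
    linarith
  · -- scales above `q`
    intro i n hi hn ψ hψ hs c hc0 hc hK
    rw [hpr]
    obtain ⟨s0, h0⟩ := LA.high j q1 (m (q1 + 1)) H M hR i n hi hn ψ hψ hs c hc0 hc hK
    have h1 := LA.sum_high (m (q1 + 1)) (fun s => pr (H s) (av c n ψ))
      (fun _ => (W (q1 + 1) : ℝ) / (m (q1 + 1) : ℝ)) ((W (q1 + 1) : ℝ) / (m (q1 + 1) : ℝ))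
      (1 / ((W (q1 + 1) : ℝ) * (W (i - 1) : ℝ) ^ 2)) hA0 (by positivity) s0
      (fun s _ => ⟨hA0, le_rfl⟩) h0
    rw [hsumA] at h1
    have hWi : (0 : ℝ) < (W (i - 1) : ℝ) ^ 2 := by
      have : (0 : ℝ) < W (i - 1) := by exact_mod_cast LA.W_pos (i - 1)
      positivity
    have h2 : 1 / ((W (q1 + 1) : ℝ) * (W (i - 1) : ℝ) ^ 2) * (W (q1 + 1) : ℝ)
        = 1 / (W (i - 1) : ℝ) ^ 2 := by field_simp
    have h3 : 1 / (W (i - 1) : ℝ) ^ 2 ≤ 2 / (W (i - 1) : ℝ) ^ 2 :=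
      div_le_div_of_nonneg_right (by norm_num) hWi.le
    linarith

end Pool.Agent.Atomic
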