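import Pool.Agent.Lib.MP_968cc4_an.OVL

/-! Module LC: Lemma C (`q0 = q1 + 1`) -/

set_option autoImplicit false

namespace Pool.Agent.Atomic

open Finset

namespace LCaux

theorem geom_inj (F : Finset ℕ) (f : ℕ → ℕ) (hf : ∀ x ∈ F, ∀ y ∈ F, f x = f y → x = y) :
    ∑ x ∈ F, (1 / 2 : ℝ) ^ (f x) ≤ 2 := by
  have h1 : ∑ x ∈ F, (1 / 2 : ℝ) ^ (f x) = ∑ y ∈ F.image f, (1 / 2 : ℝ) ^ y := by
    rw [Finset.sum_image]
    intro x hx y hy h
    exact hf x hx y hy h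
  have h2 : ∑ y ∈ F.image f, (1 / 2 : ℝ) ^ y ≤ ∑' n : ℕ, (1 / 2 : ℝ) ^ n :=
    summable_geometric_two.sum_le_tsum _ (fun i _ => by positivity)
  rw [tsum_geometric_two] at h2
  rw [h1]
  exact h2

theorem sum_ite_le (n : ℕ) (P : ℕ → Prop) [DecidablePred P] (C : ℝ) (hC : 0 ≤ C)
    (h : ∀ l l', l < n → l' < n → P l → P l' → l = l') :
    ∑ l ∈ range n, (if P l then C else 0) ≤ C := by
  rw [← Finset.sum_filter, Finset.sum_const, nsmul_eq_mul]
  have h1 : ((range n).filter P).card ≤ 1 := by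
    rw [Finset.card_le_one]
    intro a ha b hb
    simp only [mem_filter, mem_range] at ha hb
    exact h a b ha.1 hb.1 ha.2 hb.2
  have h2 : (((range n).filter P).card : ℝ) ≤ 1 := by exact_mod_cast h1
  nlinarith

theorem gen_lt {j t : ℕ} {G : V} (hG : TypeG j t G) {i n : ℕ} (hit : i < t) (hn : n ≤ m i)
    {ψ : ℕ → ℕ → ℝ} (hψ : ∀ r, r < n → KK j (ψ r)) (hs : Succs n ψ) {c : ℝ} (hc : 0 ≤ c) :
    pr G (av c n ψ) ≤ 5 * c := by
  rw [pr_av]
  have h := hG.2.1 i n hit hn ψ hψ hs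
  nlinarith

theorem Wpos (i : ℕ) : (0 : ℝ) < (W i : ℝ) := by
  have h := W_ge i
  have : (256 : ℝ) ≤ (W i : ℝ) := by exact_mod_cast h
  linarith

theorem Wge (i : ℕ) : (256 : ℝ) ≤ (W i : ℝ) := by
  exact_mod_cast W_ge i

theorem Uge (i : ℕ) : (16 : ℝ) ≤ (U i : ℝ) := by
  exact_mod_cast U_ge i

theorem mpos (i : ℕ) : (0 : ℝ) < (m i : ℝ) := by
  have h := m_ge i
  have : 0 < m i := lt_of_lt_of_le (by positivity) h
  exact_mod_cast this

theorem Wmono {i k : ℕ} (h : i ≤ k) : (W i : ℝ) ≤ (W k : ℝ) := by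
  exact_mod_cast W_strictMono.monotone h

/-- `W t / m t ≤ 1 / W t` -/
theorem Wm (t : ℕ) : (W t : ℝ) / (m t : ℝ) ≤ 1 / (W t : ℝ) := by
  have h : ((W t : ℝ)) ^ 3 ≤ (m t : ℝ) := by exact_mod_cast W_le_m t
  have hW := Wge t
  have hW0 := Wpos t
  have hm0 := mpos t
  rw [div_le_div_iff₀ hm0 hW0]
  nlinarith [mul_pos hW0 hW0]

theorem mWm {q t : ℕ} (h : q < t) :
    (m q : ℝ) * ((W t : ℝ) / (m t : ℝ)) ≤ 1 / (W (q + 1) : ℝ) := by
  obtain ⟨i, rfl⟩ : ∃ i, t = i + 1 := ⟨t - 1, by omega⟩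
  have hqi : q ≤ i := by omega
  have h1 : ((m i : ℝ)) * (W (i + 1) : ℝ) ^ 4 ≤ (m (i + 1) : ℝ) := by exact_mod_cast m_mul_le i
  have h2 : (m q : ℝ) ≤ (m i : ℝ) := by exact_mod_cast m_strictMono.monotone hqi
  have hW0 := Wpos (i + 1)
  have hW := Wge (i + 1)
  have hm0 := mpos (i + 1)
  have hmi := mpos i
  have hWW : (W (q + 1) : ℝ) ≤ (W (i + 1) : ℝ) := Wmono (by omega)
  have hq0 := Wpos (q + 1)
  rw [← mul_div_assoc, div_le_div_iff₀ hm0 hq0]
  have h3 : (m q : ℝ) * (W (i + 1) : ℝ) * (W (q + 1) : ℝ)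
      ≤ (m i : ℝ) * (W (i + 1) : ℝ) * (W (i + 1) : ℝ) := by
    gcongr
  have h4 : (m i : ℝ) * (W (i + 1) : ℝ) * (W (i + 1) : ℝ) ≤ (m i : ℝ) * (W (i + 1) : ℝ) ^ 4 := by
    have : (W (i + 1) : ℝ) ^ 2 ≤ (W (i + 1) : ℝ) ^ 4 := by
      apply pow_le_pow_right₀ (by linarith) (by norm_num)
    nlinarith
  linarith

theorem inv_sq_le (i : ℕ) : 2 / (W i : ℝ) ^ 2 ≤ 2 / (W i : ℝ) := by
  have hW := Wge i
  have hW0 := Wpos i
  apply div_le_div_of_nonneg_left (by norm_num) hW0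
  nlinarith

/-- the third estimate in the form used for averages of large index -/
theorem gen_gt {j t : ℕ} {G : V} (hG : TypeG j t G) {i n q : ℕ} (hqt : q < t) (hit : t < i)
    (hn : n ≤ m i) {ψ : ℕ → ℕ → ℝ} (hψ : ∀ r, r < n → KK j (ψ r)) (hs : Succs n ψ) {c : ℝ}
    (hc : 0 ≤ c) (hcU : c ≤ (U i : ℝ)⁻¹) (hK : KK j (av c n ψ)) :
    pr G (av c n ψ) ≤ 5 / (W q : ℝ) := by
  have h := hG.2.2 i n hit hn ψ hψ hs c hc hcU hK
  have h1 := inv_sq_le (i - 1)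
  have h2 := Wm t
  have hq0 := Wpos q
  have h3 : 2 / (W (i - 1) : ℝ) ≤ 2 / (W q : ℝ) :=
    div_le_div_of_nonneg_left (by norm_num) hq0 (Wmono (by omega))
  have h4 : 1 / (W t : ℝ) ≤ 1 / (W q : ℝ) :=
    div_le_div_of_nonneg_left (by norm_num) hq0 (Wmono (by omega))
  have h5 : 5 / (W q : ℝ) = 2 / (W q : ℝ) + 1 / (W q : ℝ) + 2 / (W q : ℝ) := by ring
  have h6 : 0 < 2 / (W q : ℝ) := by positivity
  linarith

/-- the generic estimate for an element of index `i ≥ q` of weight `c` -/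
theorem gen_sum {j q n : ℕ} {ty : ℕ → ℕ} {G : ℕ → V} (hty : ∀ l, l < n → q < ty l)
    (hinj : ∀ l l', l < n → l' < n → ty l = ty l' → l = l')
    (hT : ∀ l, l < n → TypeG j (ty l) (G l))
    {i n' : ℕ} (hn : n' ≤ m i) {ψ : ℕ → ℕ → ℝ} (hψ : ∀ r, r < n' → KK j (ψ r))
    (hs : Succs n' ψ) {c : ℝ} (hc : 0 ≤ c) (hcU : c ≤ (U i : ℝ)⁻¹) (hcW : c ≤ 1 / (W q : ℝ))
    (hK : KK j (av c n' ψ)) (a : ℕ → ℝ) (A : ℝ) (hA : 0 ≤ A)
    (ha : ∀ l, l < n → 0 ≤ a l ∧ a l ≤ A) :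
    ∑ l ∈ range n, a l * pr (G l) (av c n' ψ) ≤ 5 / (W q : ℝ) * ∑ l ∈ range n, a l + 5 * A := by
  have hq0 := Wpos q
  have hκ : 0 < 5 / (W q : ℝ) := by positivity
  have key : ∀ l ∈ range n, a l * pr (G l) (av c n' ψ)
      ≤ 5 / (W q : ℝ) * a l + (if ty l = i then 4 * A else 0) := by
    intro l hl
    have hl' : l < n := mem_range.1 hl
    obtain ⟨ha0, haA⟩ := ha l hl'
    rcases lt_trichotomy i (ty l) with h | h | h
    · have h1 := gen_lt (hT l hl') h hn hψ hs hc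
      have h2 : pr (G l) (av c n' ψ) ≤ 5 / (W q : ℝ) := by
        have : 5 / (W q : ℝ) = 5 * (1 / (W q : ℝ)) := by ring
        rw [this]; linarith
      rw [if_neg (by omega)]
      nlinarith
    · have h1 := (hT l hl').1 _ hK
      rw [if_pos h.symm]
      nlinarith
    · have h1 := gen_gt (hT l hl') (hty l hl') h hn hψ hs hc hcU hK
      rw [if_neg (by omega)]
      nlinarith
  calc ∑ l ∈ range n, a l * pr (G l) (av c n' ψ)
      ≤ ∑ l ∈ range n, (5 / (W q : ℝ) * a l + (if ty l = i then 4 * A else 0)) :=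
        Finset.sum_le_sum key
    _ = 5 / (W q : ℝ) * ∑ l ∈ range n, a l + ∑ l ∈ range n, (if ty l = i then 4 * A else 0) := by
        rw [Finset.sum_add_distrib, Finset.mul_sum]
    _ ≤ 5 / (W q : ℝ) * ∑ l ∈ range n, a l + 5 * A := by
        have h1 := sum_ite_le n (fun l => ty l = i) (4 * A) (by linarith)
          (fun l l' hl hl' h h' => hinj l l' hl hl' (h.trans h'.symm))
        linarith

/-- the mismatched pairs -/
theorem mis_bound {j t : ℕ} {G : V} (hG : TypeG j t G) {i n q : ℕ} (hqt : q < t) (hqi : q < i)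
    (hit : i ≠ t) (hn : n ≤ m i) {ψ : ℕ → ℕ → ℝ} (hψ : ∀ r, r < n → KK j (ψ r))
    (hs : Succs n ψ) :
    pr G (av (W i : ℝ)⁻¹ n ψ)
      ≤ 9 / (W (q + 1) : ℝ) * (1 / 2) ^ (i - (q + 1)) + (W t : ℝ) / (m t : ℝ) := by
  have hWi := Wpos i
  have hWq := Wpos (q + 1)
  have hWt := Wpos t
  have hmt := mpos t
  have hr : 0 ≤ (W t : ℝ) / (m t : ℝ) := by positivity
  have hgeom : ∀ s, q + 1 ≤ s → 1 / (W s : ℝ) ≤ 1 / (W (q + 1) : ℝ) * (1 / 2) ^ (s - (q + 1)) := by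
    intro s hs
    have h1 : W (q + 1) * 2 ^ (s - (q + 1)) ≤ W (q + 1 + (s - (q + 1))) := W_geom (q + 1) _
    rw [Nat.add_sub_cancel' hs] at h1
    have h2 : (W (q + 1) : ℝ) * 2 ^ (s - (q + 1)) ≤ (W s : ℝ) := by exact_mod_cast h1
    have h3 : 1 / (W (q + 1) : ℝ) * (1 / 2) ^ (s - (q + 1))
        = 1 / ((W (q + 1) : ℝ) * 2 ^ (s - (q + 1))) := by
      rw [one_div_pow]
      field_simp
    rw [h3]
    exact div_le_div_of_nonneg_left (by norm_num) (by positivity) h2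
  rcases lt_or_gt_of_ne hit with h | h
  · have h1 := gen_lt hG h hn hψ hs (c := (W i : ℝ)⁻¹) (by positivity)
    have h2 := hgeom i (by omega)
    have h3 : 0 ≤ 1 / (W (q + 1) : ℝ) * (1 / 2) ^ (i - (q + 1)) := by positivity
    have h4 : 9 / (W (q + 1) : ℝ) * (1 / 2) ^ (i - (q + 1))
        = 9 * (1 / (W (q + 1) : ℝ) * (1 / 2) ^ (i - (q + 1))) := by ring
    rw [h4]
    rw [one_div] at h2
    linarith
  · have hcU : (W i : ℝ)⁻¹ ≤ (U i : ℝ)⁻¹ := by
      have hU := Uge i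
      apply inv_anti₀ (by linarith)
      have : (W i : ℝ) = (U i : ℝ) ^ 2 := by simp [W]
      rw [this]; nlinarith
    have h1 := hG.2.2 i n h hn ψ hψ hs (W i : ℝ)⁻¹ (by positivity) hcU
      (KK.avg i n ψ hn hψ hs)
    have h2 := hgeom (i - 1) (by omega)
    have h3 := inv_sq_le (i - 1)
    have h5 : i - (q + 1) = (i - 1 - (q + 1)) + 1 := by omega
    have h6 : 9 / (W (q + 1) : ℝ) * (1 / 2) ^ (i - (q + 1))
        = 9 / 2 * (1 / (W (q + 1) : ℝ) * (1 / 2) ^ (i - 1 - (q + 1))) := by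
      rw [h5, pow_succ]; ring
    have h7 : 2 / (W (i - 1) : ℝ) = 2 * (1 / (W (i - 1) : ℝ)) := by ring
    have h8 : 0 ≤ 1 / (W (q + 1) : ℝ) * (1 / 2) ^ (i - 1 - (q + 1)) := by positivity
    rw [h6]
    linarith

/-- the numerical estimate for the special elements -/
theorem num_spec (q : ℕ) : 19 / (W (q + 1) : ℝ) ≤ 5 / (U q : ℝ) := by
  have hU := Uge q
  have h1 : (W (q + 1) : ℝ) = (U q : ℝ) ^ 16 := by
    simp only [W, U_succ]
    push_cast
    ring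
  rw [h1, div_le_div_iff₀ (by positivity) (by linarith)]
  have h2 : (U q : ℝ) ^ 2 ≤ (U q : ℝ) ^ 16 := pow_le_pow_right₀ (by linarith) (by norm_num)
  nlinarith

/-- the special elements of index exactly `q` -/
theorem spec_sum {j q : ℕ} {ty : ℕ → ℕ} {G : ℕ → V} (hty : ∀ l, l < m q → q < ty l)
    (hT : ∀ l, l < m q → TypeG j (ty l) (G l))
    {S0 : ℕ → Finset ℕ} {p0 : ℕ → ℕ} (hty0 : ∀ l, l < m q → ty l = scl S0 p0 l)
    (hG0 : ∀ l l', l < m q → l' < m q → ∀ a ∈ S0 l', G l a = 0)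
    {n' : ℕ} {S : ℕ → Finset ℕ} {p : ℕ → ℕ} {N : ℕ → ℕ} {ψ : ℕ → ℕ → ℕ → ℝ}
    (hn : n' ≤ m q) (hscl : ∀ l, l < n' → q < scl S p l)
    (hN : ∀ l, l < n' → N l ≤ m (scl S p l))
    (hψ : ∀ l, l < n' → ∀ r, r < N l → KK j (ψ l r))
    (hs : ∀ l, l < n' → Succs (N l) (ψ l))
    (hsupp : ∀ l, l < n' → ∀ r, r < N l → ∀ a, ψ l r a ≠ 0 → a ∈ S l)
    (a : ℕ → ℝ) (A : ℝ) (hA : 0 ≤ A) (ha : ∀ l, l < m q → 0 ≤ a l ∧ a l ≤ A) :
    ∑ l ∈ range (m q), a l *
        pr (G l) (av (U q : ℝ)⁻¹ n' (fun l => av (W (scl S p l) : ℝ)⁻¹ (N l) (ψ l)))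
      ≤ 5 / (W q : ℝ) * ∑ l ∈ range (m q), a l + 5 * A := by
  classical
  set ζ : ℕ → ℕ → ℝ := fun l => av (W (scl S p l) : ℝ)⁻¹ (N l) (ψ l) with hζ
  set P : ℕ → Prop := fun l => l < n' ∧ scl S0 p0 l = scl S p l ∧
    ∀ l', l < l' → l' < n' → scl S0 p0 l' ≠ scl S p l' with hP
  have hU := Uge q
  have hW : (W q : ℝ) = (U q : ℝ) ^ 2 := by simp [W]
  have hq1 := Wpos (q + 1)
  -- a single pair
  have pair : ∀ l, l < m q → ∀ l', l' < n' → pr (G l) (ζ l')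
      ≤ 9 / (W (q + 1) : ℝ) * (1 / 2) ^ (scl S p l' - (q + 1)) + (W (ty l) : ℝ) / (m (ty l) : ℝ)
        + (if P l ∧ l' = l then 4 else 0) := by
    intro l hl l' hl'
    have hb1 : 0 ≤ 9 / (W (q + 1) : ℝ) * (1 / 2) ^ (scl S p l' - (q + 1)) := by positivity
    have hb2 : 0 ≤ (W (ty l) : ℝ) / (m (ty l) : ℝ) := by
      have := Wpos (ty l); have := mpos (ty l); positivity
    by_cases hm : scl S p l' = ty l
    · rw [hty0 l hl] at hm
      obtain ⟨hll, -⟩ := scl_inj hm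
      subst hll
      by_cases hPl : P l'
      · rw [if_pos ⟨hPl, rfl⟩]
        have h1 := (hT l' hl).1 (ζ l') (KK.avg _ _ _ (hN l' hl') (hψ l' hl') (hs l' hl'))
        linarith
      · rw [if_neg (fun h => hPl h.1)]
        have hex : ∃ l'', l' < l'' ∧ l'' < n' ∧ scl S0 p0 l'' = scl S p l'' := by
          by_contra hcon
          apply hPl
          refine ⟨hl', hm.symm, ?_⟩
          intro l'' h1 h2 h3
          exact hcon ⟨l'', h1, h2, h3⟩
        obtain ⟨l'', h1, h2, h3⟩ := hex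
        obtain ⟨-, hS⟩ := scl_inj h3
        have hSl := hS l' h1
        have h0 : pr (G l') (ζ l') = 0 := by
          apply pr_eq_zero
          intro b hb
          have hbS : b ∉ S0 l' := fun hbS => hb (hG0 l' l' hl hl b hbS)
          rw [hSl] at hbS
          simp only [hζ, av]
          have : ∑ r ∈ range (N l'), ψ l' r b = 0 := by
            apply Finset.sum_eq_zero
            intro r hr
            by_contra hne
            exact hbS (hsupp l' hl' r (mem_range.1 hr) b hne)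
          rw [this, mul_zero]
        rw [h0]
        linarith
    · have h1 := mis_bound (hT l hl) (hty l hl) (hscl l' hl') hm (hN l' hl') (hψ l' hl')
        (hs l' hl')
      have h2 : (0 : ℝ) ≤ (if P l ∧ l' = l then 4 else 0) := by split_ifs <;> norm_num
      simp only [hζ]
      linarith
  -- the sum over the pieces of the special element
  have row : ∀ l, l < m q → ∑ l' ∈ range n', pr (G l) (ζ l')
      ≤ 5 / (U q : ℝ) + (if P l then 4 else 0) := by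
    intro l hl
    have h1 : ∑ l' ∈ range n', pr (G l) (ζ l')
        ≤ ∑ l' ∈ range n', (9 / (W (q + 1) : ℝ) * (1 / 2) ^ (scl S p l' - (q + 1))
          + (W (ty l) : ℝ) / (m (ty l) : ℝ) + (if P l ∧ l' = l then 4 else 0)) :=
      Finset.sum_le_sum (fun l' hl' => pair l hl l' (mem_range.1 hl'))
    rw [Finset.sum_add_distrib, Finset.sum_add_distrib, ← Finset.mul_sum, Finset.sum_const,
      card_range, nsmul_eq_mul] at h1
    have h2 : ∑ l' ∈ range n', (1 / 2 : ℝ) ^ (scl S p l' - (q + 1)) ≤ 2 := by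
      apply geom_inj
      intro x hx y hy hxy
      have hx' := hscl x (mem_range.1 hx)
      have hy' := hscl y (mem_range.1 hy)
      have : scl S p x = scl S p y := by omega
      exact (scl_inj this).1
    have h3 : (n' : ℝ) * ((W (ty l) : ℝ) / (m (ty l) : ℝ)) ≤ 1 / (W (q + 1) : ℝ) := by
      refine le_trans ?_ (mWm (hty l hl))
      have : (n' : ℝ) ≤ (m q : ℝ) := by exact_mod_cast hn
      have hb2 : 0 ≤ (W (ty l) : ℝ) / (m (ty l) : ℝ) := by
        have := Wpos (ty l); have := mpos (ty l); positivity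
      exact mul_le_mul_of_nonneg_right this hb2
    have h4 : ∑ l' ∈ range n', (if P l ∧ l' = l then (4 : ℝ) else 0) ≤ if P l then 4 else 0 := by
      by_cases hPl : P l
      · rw [if_pos hPl]
        apply sum_ite_le n' (fun l' => P l ∧ l' = l) 4 (by norm_num)
        rintro x y - - ⟨-, hx⟩ ⟨-, hy⟩
        rw [hx, hy]
      · rw [if_neg hPl]
        apply le_of_eq
        apply Finset.sum_eq_zero
        intro x hx
        rw [if_neg (fun h => hPl h.1)]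
    have h5 : 9 / (W (q + 1) : ℝ) * ∑ l' ∈ range n', (1 / 2 : ℝ) ^ (scl S p l' - (q + 1))
        ≤ 18 / (W (q + 1) : ℝ) := by
      have h9 : 0 < 9 / (W (q + 1) : ℝ) := by positivity
      have h10 : 18 / (W (q + 1) : ℝ) = 9 / (W (q + 1) : ℝ) * 2 := by ring
      rw [h10]
      exact mul_le_mul_of_nonneg_left h2 h9.le
    have h6 := num_spec q
    have h7 : 19 / (W (q + 1) : ℝ) = 18 / (W (q + 1) : ℝ) + 1 / (W (q + 1) : ℝ) := by ring
    linarith
  have key : ∀ l ∈ range (m q), a l * pr (G l) (av (U q : ℝ)⁻¹ n' ζ)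
      ≤ 5 / (W q : ℝ) * a l + (if P l then 4 * A else 0) := by
    intro l hl
    have hl' : l < m q := mem_range.1 hl
    obtain ⟨ha0, haA⟩ := ha l hl'
    rw [pr_av]
    have h1 := row l hl'
    have hUi : 0 < (U q : ℝ)⁻¹ := by positivity
    have hUi1 : (U q : ℝ)⁻¹ ≤ 1 := by
      rw [inv_le_one₀ (by linarith)]; linarith
    have h2 : (U q : ℝ)⁻¹ * (5 / (U q : ℝ)) = 5 / (W q : ℝ) := by
      rw [hW]; field_simp
    have h3 : (U q : ℝ)⁻¹ * ∑ l' ∈ range n', pr (G l) (ζ l')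
        ≤ 5 / (W q : ℝ) + (if P l then 4 else 0) := by
      calc (U q : ℝ)⁻¹ * ∑ l' ∈ range n', pr (G l) (ζ l')
          ≤ (U q : ℝ)⁻¹ * (5 / (U q : ℝ) + (if P l then 4 else 0)) :=
            mul_le_mul_of_nonneg_left h1 hUi.le
        _ = 5 / (W q : ℝ) + (U q : ℝ)⁻¹ * (if P l then 4 else 0) := by rw [mul_add, h2]
        _ ≤ 5 / (W q : ℝ) + (if P l then 4 else 0) := by
            have h4 : (0 : ℝ) ≤ (if P l then 4 else 0) := by split_ifs <;> norm_num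
            nlinarith
    calc a l * ((U q : ℝ)⁻¹ * ∑ l' ∈ range n', pr (G l) (ζ l'))
        ≤ a l * (5 / (W q : ℝ) + (if P l then 4 else 0)) :=
          mul_le_mul_of_nonneg_left h3 ha0
      _ = 5 / (W q : ℝ) * a l + a l * (if P l then 4 else 0) := by ring
      _ ≤ 5 / (W q : ℝ) * a l + (if P l then 4 * A else 0) := by
          by_cases hPl : P l
          · rw [if_pos hPl, if_pos hPl]; linarith
          · rw [if_neg hPl, if_neg hPl]; linarith
  calc ∑ l ∈ range (m q), a l * pr (G l) (av (U q : ℝ)⁻¹ n' ζ)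
      ≤ ∑ l ∈ range (m q), (5 / (W q : ℝ) * a l + (if P l then 4 * A else 0)) :=
        Finset.sum_le_sum key
    _ = 5 / (W q : ℝ) * ∑ l ∈ range (m q), a l
        + ∑ l ∈ range (m q), (if P l then 4 * A else 0) := by
        rw [Finset.sum_add_distrib, Finset.mul_sum]
    _ ≤ 5 / (W q : ℝ) * ∑ l ∈ range (m q), a l + 5 * A := by
        have h1 := sum_ite_le (m q) P (4 * A) (by linarith) (by
          intro l l' _ _ hl hl'
          rcases lt_trichotomy l l' with h | h | h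
          · exact absurd hl'.2.1 (hl.2.2 l' h hl'.1)
          · exact h
          · exact absurd hl.2.1 (hl'.2.2 l h hl.1))
        linarith

end LCaux

open LCaux in
theorem lemmaC (j q1 : ℕ) (ty : ℕ → ℕ) (G : ℕ → V)
    (hty : ∀ l, l < m (q1 + 1) → q1 + 1 < ty l)
    (hinj : ∀ l l', l < m (q1 + 1) → l' < m (q1 + 1) → ty l = ty l' → l = l')
    (hG0 : ∀ l, l < m (q1 + 1) → ∀ a, 0 ≤ G l a)
    (hs : Succs (m (q1 + 1)) (fun l => ⇑(G l)))
    (hT : ∀ l, l < m (q1 + 1) → TypeG j (ty l) (G l))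
    (hcase : ¬ isQ j (q1 + 1) ∨ ∃ (S : ℕ → Finset ℕ) (p : ℕ → ℕ),
      (∀ l, l < m (q1 + 1) → ty l = scl S p l) ∧
      ∀ l l', l < m (q1 + 1) → l' < m (q1 + 1) → ∀ a ∈ S l', G l a = 0) :
    NB j ((m (q1 + 1) : ℝ)⁻¹ • ∑ l ∈ range (m (q1 + 1)), G l) (6 / (W (q1 + 1) : ℝ)) := by
  have hWq := Wpos (q1 + 1)
  have hWU : ∀ i, (W i : ℝ)⁻¹ ≤ (U i : ℝ)⁻¹ := by
    intro i
    have hU := Uge i
    apply inv_anti₀ (by linarith)
    have : (W i : ℝ) = (U i : ℝ) ^ 2 := by simp [W]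
    rw [this]; nlinarith
  have hUW : ∀ i, q1 + 1 < i → (U i : ℝ)⁻¹ ≤ 1 / (W (q1 + 1) : ℝ) := by
    intro i hi
    obtain ⟨i', rfl⟩ : ∃ i', i = i' + 1 := ⟨i - 1, by omega⟩
    have h1 : (U (i' + 1) : ℝ) = (W i' : ℝ) ^ 4 := by
      rw [U_eq_W_pow]; push_cast; ring
    have h2 : (W (q1 + 1) : ℝ) ≤ (W i' : ℝ) := Wmono (by omega)
    have h3 := Wge i'
    have h4 : (W i' : ℝ) ≤ (W i' : ℝ) ^ 4 := by
      have := pow_le_pow_right₀ (a := (W i' : ℝ)) (by linarith) (show 1 ≤ 4 by norm_num)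
      rwa [pow_one] at this
    rw [one_div, h1]
    exact inv_anti₀ hWq (h2.trans h4)
  have hWW : ∀ i, q1 < i → (W i : ℝ)⁻¹ ≤ 1 / (W (q1 + 1) : ℝ) := by
    intro i hi
    rw [one_div]
    exact inv_anti₀ hWq (Wmono (by omega))
  have main := tree j q1 (m (q1 + 1)) G 5 (5 / (W (q1 + 1) : ℝ)) (by norm_num) (by norm_num)
    (by
      apply div_le_div_of_nonneg_left (by norm_num) hWq
      have : W (q1 + 1) < 2 ^ W (q1 + 1) := Nat.lt_two_pow_self
      exact_mod_cast this.le)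
    hG0 hs
    (by
      intro l hl ξ hξ
      have := (hT l hl).1 ξ hξ
      linarith)
    (by
      intro l hl i n' hi hn' ψ hψ hss
      have := hty l hl
      exact (hT l hl).2.1 i n' (by omega) hn' ψ hψ hss)
    (by
      intro i n' ψ hi hn' hψ hss a A hA ha
      exact gen_sum hty hinj hT hn' hψ hss (by positivity) (hWU i) (hWW i hi)
        (KK.avg i n' ψ hn' hψ hss) a A hA ha)
    (by
      intro i n' S p N ψ hi hQ hn' hscl hN hψ hss hsupp hs2 a A hA ha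
      rcases Nat.lt_or_ge (q1 + 1) i with h | h
      · exact gen_sum hty hinj hT hn'
          (fun l hl => KK.avg _ _ _ (hN l hl) (hψ l hl) (hss l hl)) hs2 (by positivity) le_rfl
          (hUW i h) (KK.spec i n' S p N ψ hQ hn' hscl hN hψ hss hsupp hs2) a A hA ha
      · have hi' : i = q1 + 1 := by omega
        subst hi'
        rcases hcase with hc | ⟨S0, p0, hty0, hG00⟩
        · exact absurd hQ hc
        · exact spec_sum hty hT hty0 hG00 hn' hscl hN hψ hss hsupp a A hA ha)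
  intro ξ hξ
  have hm0 := mpos (q1 + 1)
  have h1 := main ξ hξ (fun _ => (m (q1 + 1) : ℝ)⁻¹) ((m (q1 + 1) : ℝ)⁻¹) (by positivity)
    (fun l _ => ⟨by positivity, le_rfl⟩)
  rw [pr_smul, pr_sum, Finset.mul_sum]
  refine h1.trans ?_
  rw [Finset.sum_const, card_range, nsmul_eq_mul, mul_inv_cancel₀ hm0.ne', mul_one]
  have hX : (2 * (m q1 : ℝ) + 10) ^ (W (q1 + 1) + 1) * (m (q1 + 1) : ℝ)⁻¹
      ≤ 1 / (W (q1 + 1) : ℝ) := by
    have hmq : (0 : ℝ) < (m q1 : ℝ) := mpos q1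
    set X : ℝ := 2 * (m q1 : ℝ) + 10 with hXdef
    have hX1 : (2 : ℝ) ≤ X := by rw [hXdef]; linarith
    have hm : (m (q1 + 1) : ℝ) = X ^ (W (q1 + 1) + 1) * X ^ (W (q1 + 1) + 3) := by
      rw [m_succ, ← pow_add]
      push_cast
      rw [show W (q1 + 1) + 1 + (W (q1 + 1) + 3) = 2 * W (q1 + 1) + 4 by ring]
    rw [hm, ← div_eq_mul_inv, div_le_div_iff₀ (by positivity) hWq]
    have h2 : (W (q1 + 1) : ℝ) ≤ X ^ (W (q1 + 1) + 3) := by
      have h3 : (W (q1 + 1) : ℝ) ≤ 2 ^ (W (q1 + 1)) := by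
        have : W (q1 + 1) < 2 ^ W (q1 + 1) := Nat.lt_two_pow_self
        exact_mod_cast this.le
      have h4 : (2 : ℝ) ^ (W (q1 + 1)) ≤ 2 ^ (W (q1 + 1) + 3) :=
        pow_le_pow_right₀ (by norm_num) (by omega)
      have h5 : (2 : ℝ) ^ (W (q1 + 1) + 3) ≤ X ^ (W (q1 + 1) + 3) :=
        pow_le_pow_left₀ (by norm_num) hX1 _
      linarith
    have h6 : 0 < X ^ (W (q1 + 1) + 1) := by positivity
    nlinarith
  have h8 : 6 / (W (q1 + 1) : ℝ) = 5 / (W (q1 + 1) : ℝ) + 1 / (W (q1 + 1) : ℝ) := by ring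
  linarith

end Pool.Agent.Atomic
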