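import Pool.Agent.Lib.MP_968cc4_an.COD
import Pool.Agent.Lib.MP_968cc4_an.LC

/-! Module LOS: the losses of a coded average -/

set_option autoImplicit false

namespace Pool.Agent.Atomic

open Finset

/-- the model of the average of the first `m q0` vectors -/
noncomputable def avgV (q0 : ℕ) (b : ℕ → V) : V := (m q0 : ℝ)⁻¹ • ∑ l ∈ range (m q0), b l

/-- `Λ_j = F_j(x̂) - (1/N) ∑ F_j(b_l)` -/
noncomputable def Lam (j q0 : ℕ) (b : ℕ → V) : ℝ :=
  F j (avgV q0 b) - (m q0 : ℝ)⁻¹ * ∑ l ∈ range (m q0), F j (b l)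

theorem los_ent_eq_sum (f G : V) (s : Finset ℕ) (h : f.support ⊆ s) :
    ent f G = ∑ j ∈ s, f j * Real.log (f j / G j) := by
  unfold ent
  apply Finset.sum_subset h
  intro a _ ha
  rw [Finsupp.notMem_support_iff.1 ha, zero_mul]

theorem los_ent (N : ℕ) (hN : 0 < N) (f G : ℕ → V) (hs : Succs N (fun l => ⇑(f l)))
    (hfG : ∀ l, l < N → ∀ a, G l a ≠ 0 ↔ f l a ≠ 0) :
    ent ((N : ℝ)⁻¹ • ∑ l ∈ range N, f l) ((N : ℝ)⁻¹ • ∑ l ∈ range N, G l)
      = (N : ℝ)⁻¹ * ∑ l ∈ range N, ent (f l) (G l) := by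
  have hN0 : (N : ℝ) ≠ 0 := Nat.cast_ne_zero.2 hN.ne'
  have hsG : Succs N (fun l => ⇑(G l)) := hs.mono (fun r hr a ha => (hfG r hr a).1 ha)
  have hsub : ∀ l, l < N → (f l).support ⊆ (range N).biUnion (fun l => (f l).support) := by
    intro l hl a ha
    exact Finset.mem_biUnion.2 ⟨l, mem_range.2 hl, ha⟩
  have hsub' : ((N : ℝ)⁻¹ • ∑ l ∈ range N, f l).support
      ⊆ (range N).biUnion (fun l => (f l).support) := by
    intro a ha
    rw [Finsupp.mem_support_iff, Finsupp.smul_apply, Finsupp.finsetSum_apply] at ha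
    have h2 : ∑ l ∈ range N, f l a ≠ 0 := by
      intro h3
      exact ha (by rw [h3, smul_zero])
    obtain ⟨l, hl, hl2⟩ := Finset.exists_ne_zero_of_sum_ne_zero h2
    exact Finset.mem_biUnion.2 ⟨l, hl, Finsupp.mem_support_iff.2 hl2⟩
  rw [los_ent_eq_sum _ _ _ hsub', Finset.mul_sum]
  have h1 : ∀ l ∈ range N, (N : ℝ)⁻¹ * ent (f l) (G l)
      = ∑ a ∈ (range N).biUnion (fun l => (f l).support),
        (N : ℝ)⁻¹ * (f l a * Real.log (f l a / G l a)) := by
    intro l hl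
    rw [los_ent_eq_sum (f l) (G l) _ (hsub l (mem_range.1 hl)), Finset.mul_sum]
  rw [Finset.sum_congr rfl h1, Finset.sum_comm]
  apply Finset.sum_congr rfl
  intro a _
  rw [Finsupp.smul_apply, Finsupp.finsetSum_apply, Finsupp.smul_apply, Finsupp.finsetSum_apply,
    smul_eq_mul, smul_eq_mul]
  rw [mul_assoc, Finset.sum_mul, Finset.mul_sum]
  apply Finset.sum_congr rfl
  intro l hl
  by_cases h0 : f l a = 0
  · rw [h0, zero_mul, zero_mul]
  · have hG0 : G l a ≠ 0 := (hfG l (mem_range.1 hl) a).2 h0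
    have e1 : ∑ l ∈ range N, f l a = f l a := hs.sum_eq (mem_range.1 hl) h0
    have e2 : ∑ l ∈ range N, G l a = G l a := hsG.sum_eq (mem_range.1 hl) hG0
    rw [e1, e2, mul_div_mul_left _ _ (inv_ne_zero hN0)]

theorem losses (z : ℕ → V) (k q1 : ℕ) (hq : isQ k (q1 + 1)) (S : ℕ → Finset ℕ) (p : ℕ → ℕ)
    (v b : ℕ → V) (h : Coded z (q1 + 1) S p v b) :
    (∀ j, j ≤ q1 + 1 → j ≠ k → |Lam j (q1 + 1) b| ≤ 8) ∧
      w (q1 + 1) / 4 - 16 ≤ Lam k (q1 + 1) b := by
  obtain ⟨hc1, hc2, hc3, hc4, hc5⟩ := h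
  set q0 := q1 + 1 with hq0
  set N := m q0 with hNdef
  have hNpos : 0 < N := lt_of_lt_of_le (by norm_num) (m_ge q0)
  have hN0 : (N : ℝ) ≠ 0 := Nat.cast_ne_zero.2 hNpos.ne'
  have hNinv : (0 : ℝ) ≤ (N : ℝ)⁻¹ := by positivity
  have hNpos' : (0 : ℝ) < (N : ℝ) := Nat.cast_pos.2 hNpos
  have hsb : Succs N (fun l => ⇑(b l)) := by
    intro r s hrs _ a a' ha ha'
    exact hc3 r s hrs a a' ha ha'
  have hsp : ∀ σ : Bool, Succs N (fun l => ⇑(prt σ (b l))) := by
    intro σ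
    exact hsb.mono (fun r _ a ha => prt_ne_zero ha)
  have hprt : ∀ σ : Bool, prt σ (avgV q0 b) = (N : ℝ)⁻¹ • ∑ l ∈ range N, prt σ (b l) := by
    intro σ
    unfold avgV
    rw [prt_smul σ _ hNinv, prt_sum_of_succs σ _ _ hsb]
  have hn1 : ∀ (σ : Bool) l, n1 (prt σ (b l)) = 1 / 2 := by
    intro σ l
    have h2 := (hc2 l).2.1
    cases σ
    · exact h2.2
    · exact h2.1
  have hnn : ∀ (σ : Bool) (l : ℕ) (a : ℕ), 0 ≤ prt σ (b l) a := fun σ l a => prt_nonneg σ (b l) a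
  have hsumn : ∀ σ : Bool, ∑ l ∈ range N, n1 (prt σ (b l)) = (N : ℝ) * (1 / 2) := by
    intro σ
    rw [Finset.sum_congr rfl (fun l _ => hn1 σ l), Finset.sum_const, card_range, nsmul_eq_mul]
  have hPhi : ∀ (j : ℕ) (σ : Bool), Phi j (prt σ (avgV q0 b))
      = (N : ℝ)⁻¹ * Phi j (∑ l ∈ range N, prt σ (b l)) := by
    intro j σ
    rw [hprt σ, Phi_smul _ hNinv]
    intro a
    rw [Finsupp.finsetSum_apply]
    exact Finset.sum_nonneg (fun l _ => hnn σ l a)
  -- upper bound of the losses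
  have hup : ∀ (j : ℕ) (σ : Bool),
      (N : ℝ)⁻¹ * ∑ l ∈ range N, Phi j (prt σ (b l)) - w q0 / 2 ≤ Phi j (prt σ (avgV q0 b)) := by
    intro j σ
    have h1 := Phi_sum_succs (k := j) q0 N le_rfl (fun l => prt σ (b l))
      (fun s _ a => hnn σ s a) (hsp σ)
    rw [hsumn σ] at h1
    rw [hPhi j σ]
    have h2 := mul_le_mul_of_nonneg_left h1 hNinv
    have h3 : (N : ℝ)⁻¹ * (∑ l ∈ range N, Phi j (prt σ (b l)) - w q0 * ((N : ℝ) * (1 / 2)))
        = (N : ℝ)⁻¹ * ∑ l ∈ range N, Phi j (prt σ (b l)) - w q0 / 2 := by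
      field_simp
    rw [h3] at h2
    exact h2
  have hlog12 : Real.log 12 ≤ 5 / 2 := by
    have h1 : Real.log 144 = 2 * Real.log 12 := by
      have : (144 : ℝ) = 12 ^ 2 := by norm_num
      rw [this, Real.log_pow]
      norm_num
    have h2 : Real.log 144 ≤ 5 := by
      rw [Real.log_le_iff_le_exp (by norm_num)]
      have h3 : Real.exp 5 = (Real.exp 1) ^ 5 := by
        rw [← Real.exp_nat_mul]
        norm_num
      rw [h3]
      have h4 : (2.7182818283 : ℝ) ^ 5 ≤ (Real.exp 1) ^ 5 :=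
        pow_le_pow_left₀ (by norm_num) Real.exp_one_gt_d9.le 5
      refine le_trans ?_ h4
      norm_num
    linarith
  have hWpos : (0 : ℝ) < (W q0 : ℝ) := by
    have := W_ge q0
    exact_mod_cast (by omega : 0 < W q0)
  -- lower bound of the losses
  have hlow : ∀ (j : ℕ) (σ : Bool), j ≤ q0 →
      (¬ isQ j q0 ∨ (σ = false)) →
      Phi j (prt σ (avgV q0 b))
        ≤ (N : ℝ)⁻¹ * ∑ l ∈ range N, Phi j (prt σ (b l)) + 25 / 4 - w q0 / 2 := by
    intro j σ hj hcase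
    have hG : ∀ l, ∃ G : V, TypeG j (scl S p l) G ∧ Rep j (prt σ (b l)) G 5 :=
      fun l => (hc2 l).2.2.2.1 j hj σ
    choose G hG1 hG2 using hG
    have hsG : Succs N (fun l => ⇑(G l)) :=
      (hsp σ).mono (fun r _ a ha => ((hG2 r).2.1 a).1 ha)
    have hNB : NB j ((N : ℝ)⁻¹ • ∑ l ∈ range N, G l) (6 / (W q0 : ℝ)) := by
      apply lemmaC j q1 (fun l => scl S p l) G (fun l _ => hc1 l)
        (fun l l' _ _ e => (scl_inj e).1) (fun l _ => (hG2 l).1) hsG (fun l _ => hG1 l)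
      rcases hcase with hcase | hcase
      · left
        exact hcase
      · right
        refine ⟨S, p, fun l _ => rfl, ?_⟩
        intro l l' hl hl' a ha
        by_contra hne
        have h1 : prt σ (b l) a ≠ 0 := ((hG2 l).2.1 a).1 hne
        rw [hcase] at h1
        rw [hc5 l', Finsupp.mem_support_iff] at ha
        have hba := prt_ne_zero h1
        have hba' := prt_ne_zero ha
        rcases lt_trichotomy l l' with hll | hll | hll
        · exact absurd (hc3 l l' hll a a hba hba') (lt_irrefl a)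
        · subst hll
          exact h1 (prt_disj ha)
        · exact absurd (hc3 l' l hll a a hba' hba) (lt_irrefl a)
    have hn : n1 ((N : ℝ)⁻¹ • ∑ l ∈ range N, prt σ (b l)) = 1 / 2 := by
      rw [n1_smul, n1_sum_of_nonneg _ _ (fun s _ a => hnn σ s a), hsumn σ, abs_of_nonneg hNinv]
      field_simp
    have hfnn : ∀ a, 0 ≤ ((N : ℝ)⁻¹ • ∑ l ∈ range N, prt σ (b l)) a := by
      intro a
      rw [Finsupp.smul_apply, Finsupp.finsetSum_apply, smul_eq_mul]
      exact mul_nonneg hNinv (Finset.sum_nonneg (fun l _ => hnn σ l a))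
    have hGnn : ∀ a, 0 ≤ ((N : ℝ)⁻¹ • ∑ l ∈ range N, G l) a := by
      intro a
      rw [Finsupp.smul_apply, Finsupp.finsetSum_apply, smul_eq_mul]
      exact mul_nonneg hNinv (Finset.sum_nonneg (fun l _ => (hG2 l).1 a))
    have hsupp : ∀ a, ((N : ℝ)⁻¹ • ∑ l ∈ range N, G l) a ≠ 0 ↔
        ((N : ℝ)⁻¹ • ∑ l ∈ range N, prt σ (b l)) a ≠ 0 := by
      intro a
      rw [Finsupp.smul_apply, Finsupp.finsetSum_apply, smul_eq_mul, Finsupp.smul_apply,
        Finsupp.finsetSum_apply, smul_eq_mul]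
      rw [mul_ne_zero_iff, mul_ne_zero_iff]
      have e1 : ∑ l ∈ range N, G l a ≠ 0 ↔ ∃ l ∈ range N, G l a ≠ 0 := by
        constructor
        · exact fun h => Finset.exists_ne_zero_of_sum_ne_zero h
        · rintro ⟨l, hl, hl2⟩
          rw [hsG.sum_eq (mem_range.1 hl) hl2]
          exact hl2
      have e2 : ∑ l ∈ range N, prt σ (b l) a ≠ 0 ↔ ∃ l ∈ range N, prt σ (b l) a ≠ 0 := by
        constructor
        · exact fun h => Finset.exists_ne_zero_of_sum_ne_zero h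
        · rintro ⟨l, hl, hl2⟩
          rw [(hsp σ).sum_eq (mem_range.1 hl) hl2]
          exact hl2
      rw [e1, e2]
      constructor
      · rintro ⟨h1, l, hl, h2⟩
        exact ⟨h1, l, hl, ((hG2 l).2.1 a).1 h2⟩
      · rintro ⟨h1, l, hl, h2⟩
        exact ⟨h1, l, hl, ((hG2 l).2.1 a).2 h2⟩
    have hcert := cert j ((N : ℝ)⁻¹ • ∑ l ∈ range N, prt σ (b l))
      ((N : ℝ)⁻¹ • ∑ l ∈ range N, G l) (6 / (W q0 : ℝ)) hfnn (by rw [hn]; norm_num) hGnn hsupp
      (by positivity) hNB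
    rw [los_ent N hNpos (fun l => prt σ (b l)) G (hsp σ) (fun l _ => (hG2 l).2.1), hn] at hcert
    rw [hprt σ]
    have hlog : Real.log (6 / (W q0 : ℝ) / (1 / 2)) = Real.log 12 - w q0 := by
      have : 6 / (W q0 : ℝ) / (1 / 2) = 12 / (W q0 : ℝ) := by
        field_simp
        norm_num
      rw [this, Real.log_div (by norm_num) hWpos.ne']
      rfl
    rw [hlog] at hcert
    have hent : (N : ℝ)⁻¹ * ∑ l ∈ range N, ent (prt σ (b l)) (G l)
        ≤ (N : ℝ)⁻¹ * ∑ l ∈ range N, Phi j (prt σ (b l)) + 5 := by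
      have h1 : ∑ l ∈ range N, ent (prt σ (b l)) (G l)
          ≤ ∑ l ∈ range N, (Phi j (prt σ (b l)) + 5) := by
        apply Finset.sum_le_sum
        intro l _
        have := (hG2 l).2.2
        rw [abs_le] at this
        linarith [this.2]
      rw [Finset.sum_add_distrib, Finset.sum_const, card_range, nsmul_eq_mul] at h1
      have h2 := mul_le_mul_of_nonneg_left h1 hNinv
      have h3 : (N : ℝ)⁻¹ * (∑ l ∈ range N, Phi j (prt σ (b l)) + (N : ℝ) * 5)
          = (N : ℝ)⁻¹ * ∑ l ∈ range N, Phi j (prt σ (b l)) + 5 := by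
        field_simp
      rw [h3] at h2
      exact h2
    linarith
  -- the special element
  have hkq : k ≤ q0 := by
    have h1 : (Nat.unpair q0).1 = k + 1 := hq
    have h2 := Nat.unpair_left_le q0
    omega
  have hspec : (N : ℝ)⁻¹ * ∑ l ∈ range N, Phi k (prt true (b l)) - 5 - w q0 / 4
      ≤ Phi k (prt true (avgV q0 b)) := by
    have hE : ∀ l, ∃ n ψ, n ≤ m (scl S p l) ∧ (∀ r, r < n → KK k (ψ r)) ∧ Succs n ψ ∧
        (∀ r, r < n → ∀ a, ψ r a ≠ 0 → a ∈ (prt true (b l)).support) ∧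
        (∀ a ∈ (prt true (b l)).support, 0 < av (W (scl S p l) : ℝ)⁻¹ n ψ a) ∧
        Phi k (prt true (b l)) - 5 ≤ lg (prt true (b l)) (av (W (scl S p l) : ℝ)⁻¹ n ψ) :=
      fun l => (hc2 l).2.2.2.2 k hkq
    choose n ψ h1 h2 h3 h4 h5 h6 using hE
    have hWl : ∀ l, (0 : ℝ) ≤ (W (scl S p l) : ℝ)⁻¹ := fun l => by positivity
    have havs : ∀ l a, av (W (scl S p l) : ℝ)⁻¹ (n l) (ψ l) a ≠ 0 → prt true (b l) a ≠ 0 := by
      intro l a ha
      have h7 : ∑ r ∈ range (n l), ψ l r a ≠ 0 := by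
        intro h8
        apply ha
        unfold av
        rw [h8, mul_zero]
      obtain ⟨r, hr, hr2⟩ := Finset.exists_ne_zero_of_sum_ne_zero h7
      exact Finsupp.mem_support_iff.1 (h4 l r (mem_range.1 hr) a hr2)
    have hsav : Succs N (fun l => av (W (scl S p l) : ℝ)⁻¹ (n l) (ψ l)) :=
      (hsp true).mono (fun r _ a ha => havs r a ha)
    have hKK : KK k (av (U q0 : ℝ)⁻¹ N (fun l => av (W (scl S p l) : ℝ)⁻¹ (n l) (ψ l))) := by
      apply KK.spec q0 N S p n ψ hq le_rfl (fun l _ => hc1 l) (fun l _ => h1 l)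
        (fun l _ r hr => h2 l r hr) (fun l _ => h3 l)
      · intro l _ r hr a ha
        rw [hc5 l]
        exact h4 l r hr a ha
      · exact hsav
    have hUpos : (0 : ℝ) < (U q0 : ℝ) := by
      have := U_ge q0
      exact_mod_cast (by omega : 0 < U q0)
    -- value on the support of the l-th piece
    have hval : ∀ l, l < N → ∀ a, prt true (b l) a ≠ 0 →
        av (U q0 : ℝ)⁻¹ N (fun l => av (W (scl S p l) : ℝ)⁻¹ (n l) (ψ l)) a
          = (U q0 : ℝ)⁻¹ * av (W (scl S p l) : ℝ)⁻¹ (n l) (ψ l) a := by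
      intro l hl a ha
      have h7 : 0 < av (W (scl S p l) : ℝ)⁻¹ (n l) (ψ l) a :=
        h5 l a (Finsupp.mem_support_iff.2 ha)
      have h8 := hsav.sum_eq hl (a := a) h7.ne'
      show (U q0 : ℝ)⁻¹ * ∑ r ∈ range N, av (W (scl S p r) : ℝ)⁻¹ (n r) (ψ r) a = _
      rw [h8]
    have hfnn : ∀ a, 0 ≤ prt true (avgV q0 b) a := fun a => prt_nonneg _ _ a
    have hle := le_Phi (k := k) hfnn hKK (by
      intro a ha
      rw [hprt true, Finsupp.smul_apply, Finsupp.finsetSum_apply] at ha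
      have h7 : ∑ l ∈ range N, prt true (b l) a ≠ 0 := by
        intro h8
        exact ha (by rw [h8, smul_zero])
      obtain ⟨l, hl, hl2⟩ := Finset.exists_ne_zero_of_sum_ne_zero h7
      rw [hval l (mem_range.1 hl) a hl2]
      exact mul_pos (inv_pos.2 hUpos) (h5 l a (Finsupp.mem_support_iff.2 hl2)))
    refine le_trans ?_ hle
    rw [hprt true, lg_smul, lg_sum]
    have h9 : ∀ l ∈ range N, Phi k (prt true (b l)) - 5 - w q0 / 4
        ≤ lg (prt true (b l))
          (av (U q0 : ℝ)⁻¹ N (fun l => av (W (scl S p l) : ℝ)⁻¹ (n l) (ψ l))) := by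
      intro l hl
      rw [lg_congr (ζ := fun a => (U q0 : ℝ)⁻¹ * av (W (scl S p l) : ℝ)⁻¹ (n l) (ψ l) a)
        (fun a ha => hval l (mem_range.1 hl) a ha)]
      rw [lg_const_mul (hnn true l) (inv_pos.2 hUpos)
        (fun a ha => h5 l a (Finsupp.mem_support_iff.2 ha)), Real.log_inv, log_U, hn1 true l]
      have := h6 l
      linarith
    have h10 := Finset.sum_le_sum h9
    rw [Finset.sum_sub_distrib, Finset.sum_sub_distrib, Finset.sum_const, Finset.sum_const,
      card_range, nsmul_eq_mul, nsmul_eq_mul] at h10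
    have h11 := mul_le_mul_of_nonneg_left h10 hNinv
    have h12 : (N : ℝ)⁻¹ * (∑ l ∈ range N, Phi k (prt true (b l)) - (N : ℝ) * 5
          - (N : ℝ) * (w q0 / 4))
        = (N : ℝ)⁻¹ * ∑ l ∈ range N, Phi k (prt true (b l)) - 5 - w q0 / 4 := by
      field_simp
    rw [h12] at h11
    exact h11
  have hLam : ∀ j, Lam j q0 b
      = ((N : ℝ)⁻¹ * ∑ l ∈ range N, Phi j (prt false (b l)) - Phi j (prt false (avgV q0 b)))
        - ((N : ℝ)⁻¹ * ∑ l ∈ range N, Phi j (prt true (b l)) - Phi j (prt true (avgV q0 b))) := by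
    intro j
    unfold Lam F
    rw [Finset.sum_sub_distrib]
    ring
  constructor
  · intro j hj hjk
    have hnq : ¬ isQ j q0 := by
      intro h1
      have h2 : (Nat.unpair q0).1 = j + 1 := h1
      have h3 : (Nat.unpair q0).1 = k + 1 := hq
      omega
    have a1 := hup j true
    have a2 := hup j false
    have a3 := hlow j true hj (Or.inl hnq)
    have a4 := hlow j false hj (Or.inl hnq)
    rw [hLam j, abs_le]
    constructor <;> linarith
  · have a2 := hlow k false hkq (Or.inr rfl)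
    rw [hLam k]
    linarith

end Pool.Agent.Atomic
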