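import Pool.Agent.Lib.MP_968cc4_an.RST

/-! Module LV0: level-0 vectors -/

set_option autoImplicit false

namespace Pool.Agent.Atomic

open Finset

theorem lv0_m_one_le (k : ℕ) : (1 : ℝ) ≤ (m k : ℝ) := by
  have h : 1 ≤ m k := le_trans (Nat.one_le_two_pow) (m_ge k)
  exact_mod_cast h

theorem lv0_eps_anti {k l : ℕ} (h : k ≤ l) : eps l ≤ eps k := by
  unfold eps
  have h1 : (m k : ℝ) ≤ m l := by exact_mod_cast m_strictMono.monotone h
  have h2 := lv0_m_one_le k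
  have h3 : (4 : ℝ) ^ k ≤ 4 ^ l := pow_le_pow_right₀ (by norm_num) h
  refine inv_anti₀ (by positivity) ?_
  have h4 : (m k : ℝ) ^ 4 ≤ (m l : ℝ) ^ 4 := pow_le_pow_left₀ (by positivity) h1 4
  calc (2 : ℝ) ^ 40 * 4 ^ k * (m k : ℝ) ^ 4 ≤ (2 : ℝ) ^ 40 * 4 ^ l * (m k : ℝ) ^ 4 := by
        gcongr
    _ ≤ (2 : ℝ) ^ 40 * 4 ^ l * (m l : ℝ) ^ 4 := by gcongr

theorem lv0_eps_le (k : ℕ) : eps k ≤ (1 / 2 ^ 100 : ℝ) / 4 ^ k := by
  refine le_trans ?_ (eps_m_le k)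
  exact le_mul_of_one_le_right (eps_pos k).le (lv0_m_one_le k)

/-- one separated difference, small on the coordinates `≤ N` -/
theorem lv0_stage (z : ℕ → V) (hz : Sep z) (N : ℕ) :
    ∃ α β, q (z α - z β) ≤ 2002 / 1000 ∧ 1 / 65 ≤ n1 (tail N (T (z α - z β))) ∧
      ∀ k, |T (z α - z β) k - tail N (T (z α - z β)) k| ≤ 9 * eps k := by
  obtain ⟨α, β, -, hαβ, hclose⟩ := pigeon (N + 1) (fun a k => T (z a) k) 1
    (fun a k _ => (abs_le_n1 _ k).trans (hz.1 a)) (eps N) (eps_pos N) 0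
  have hne : α ≠ β := hαβ.ne
  have hω : z α - z β = (1 : ℝ) • z α + (-1 : ℝ) • z β := by
    rw [one_smul, neg_smul, one_smul, sub_eq_add_neg]
  have hsmall : ∀ k, k ≤ N → |T (z α - z β) k| ≤ 9 * eps k := by
    intro k hk
    have h1 := comb_two 1 (-1) (z α) (z β) k
    rw [← hω] at h1
    have h2 : 4 * eps k * (|(1 : ℝ)| * q (z α) + |(-1 : ℝ)| * q (z β)) ≤ 8 * eps k := by
      have h3 := hz.1 α
      have h4 := hz.1 β
      have h5 := eps_pos k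
      rw [abs_neg, abs_one, one_mul, one_mul]
      nlinarith
    have h6 : |T (z α) k - T (z β) k| ≤ eps k :=
      (hclose k (Nat.lt_succ_of_le hk)).trans (lv0_eps_anti hk)
    have h7 : T (z α - z β) k = (T (z α - z β) k - (1 * T (z α) k + -1 * T (z β) k)) +
        (T (z α) k - T (z β) k) := by ring
    rw [h7]
    calc |(T (z α - z β) k - (1 * T (z α) k + -1 * T (z β) k)) + (T (z α) k - T (z β) k)|
        ≤ |T (z α - z β) k - (1 * T (z α) k + -1 * T (z β) k)| + |T (z α) k - T (z β) k| :=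
          abs_add_le _ _
      _ ≤ 8 * eps k + eps k := add_le_add (h1.trans h2) h6
      _ = 9 * eps k := by ring
  have hall : ∀ k, |T (z α - z β) k - tail N (T (z α - z β)) k| ≤ 9 * eps k := by
    intro k
    rw [tail_apply]
    split_ifs with hk
    · rw [sub_self, abs_zero]
      exact mul_nonneg (by norm_num) (eps_pos k).le
    · rw [sub_zero]
      exact hsmall k (not_lt.1 hk)
  refine ⟨α, β, ?_, ?_, hall⟩
  · have h1 := q_add_le (z α) ((-1 : ℝ) • z β)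
    rw [q_smul, abs_neg, abs_one, one_mul] at h1
    rw [hω, one_smul]
    have h3 := hz.1 α
    have h4 := hz.1 β
    have h5 : (1 + 1 / 1024 : ℝ) * (q (z α) + q (z β)) ≤ (1 + 1 / 1024) * 2 :=
      mul_le_mul_of_nonneg_left (by linarith) (by norm_num)
    linarith
  · have h1 : n1 (T (z α - z β) - tail N (T (z α - z β))) ≤ 2 * (9 * (1 / 2 ^ 100 : ℝ)) := by
      refine n1_le_geom _ _ (by positivity) fun a => ?_
      rw [Finsupp.sub_apply]
      refine (hall a).trans ?_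
      rw [mul_div_assoc]
      exact mul_le_mul_of_nonneg_left (lv0_eps_le a) (by norm_num)
    have h2 : n1 (T (z α - z β)) ≤ n1 (tail N (T (z α - z β))) +
        n1 (T (z α - z β) - tail N (T (z α - z β))) := by
      have h3 := n1_add_le (tail N (T (z α - z β)))
        (T (z α - z β) - tail N (T (z α - z β)))
      rwa [add_sub_cancel] at h3
    have h4 : 1 / 64 ≤ n1 (T (z α - z β)) := hz.2 α β hne
    have h5 : (2 : ℝ) * (9 * (1 / 2 ^ 100 : ℝ)) ≤ 1 / 64 - 1 / 65 := by norm_num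
    linarith

/-- the sum of the coordinates -/
noncomputable def lv0_S : V →ₗ[ℝ] ℝ := Finsupp.linearCombination ℝ (fun _ : ℕ => (1 : ℝ))

theorem lv0_S_eq (y : V) : lv0_S y = ∑ j ∈ y.support, y j := by
  unfold lv0_S
  rw [Finsupp.linearCombination_apply, Finsupp.sum]
  simp

theorem lv0_S_nonneg {y : V} (hy : ∀ a, 0 ≤ y a) : lv0_S y = n1 y := by
  rw [lv0_S_eq]
  unfold n1
  exact Finset.sum_congr rfl fun a _ => (abs_of_nonneg (hy a)).symm

theorem lv0_bal {b : V} (h0 : lv0_S b = 0) (h1 : n1 b = 1) : Bal b := by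
  have h2 : lv0_S b = n1 (prt true b) - n1 (prt false b) := by
    rw [← lv0_S_nonneg (prt_nonneg true b), ← lv0_S_nonneg (prt_nonneg false b), ← map_sub,
      prt_sub_prt]
  have h3 := n1_prt_add b
  constructor <;> linarith

theorem lv0_coef (s₁ s₂ : ℝ) : ∃ c₁ c₂ : ℝ, c₁ * s₁ + c₂ * s₂ = 0 ∧ |c₁| ≤ 1 ∧ |c₂| ≤ 1 ∧
    (|c₁| = 1 ∨ |c₂| = 1) := by
  by_cases h1 : |s₂| ≤ |s₁|
  · by_cases h2 : s₁ = 0
    · refine ⟨1, 0, ?_, by simp, by simp, Or.inl (by simp)⟩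
      rw [h2]; ring
    · refine ⟨-(s₂ / s₁), 1, by field_simp; ring, ?_, by simp, Or.inr (by simp)⟩
      rw [abs_neg, abs_div]
      exact div_le_one_of_le₀ h1 (abs_nonneg _)
  · have h2 : s₂ ≠ 0 := by
      rintro rfl
      rw [abs_zero] at h1
      exact h1 (abs_nonneg _)
    refine ⟨1, -(s₁ / s₂), by field_simp; ring, by simp, ?_, Or.inl (by simp)⟩
    rw [abs_neg, abs_div]
    exact div_le_one_of_le₀ (not_le.1 h1).le (abs_nonneg _)

theorem lv0_cmb_single (z : ℕ → V) (α : ℕ) : Cmb z 1 (z α) := by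
  refine ⟨Finsupp.single α 1, ?_, ?_⟩
  · unfold n1
    rw [Finsupp.support_single _ one_ne_zero]
    simp
  · simp

theorem lv0_cmb_smul {z : ℕ → V} {C : ℝ} {v : V} (h : Cmb z C v) (c : ℝ) :
    Cmb z (|c| * C) (c • v) := by
  obtain ⟨d, hd, rfl⟩ := h
  refine ⟨c • d, ?_, ?_⟩
  · rw [n1_smul]
    exact mul_le_mul_of_nonneg_left hd (abs_nonneg c)
  · rw [Finsupp.smul_sum, Finsupp.sum_smul_index (by simp)]
    refine Finset.sum_congr rfl fun a _ => ?_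
    change c • d a • z a = (c * d a) • z a
    rw [smul_smul]

theorem lv0_cmb_add {z : ℕ → V} {C C' : ℝ} {v v' : V} (h : Cmb z C v) (h' : Cmb z C' v') :
    Cmb z (C + C') (v + v') := by
  obtain ⟨d, hd, rfl⟩ := h
  obtain ⟨d', hd', rfl⟩ := h'
  refine ⟨d + d', (n1_add_le d d').trans (add_le_add hd hd'), ?_⟩
  rw [Finsupp.sum_add_index' (by simp) (by intros; rw [add_smul])]

theorem lv0_cmb_mono {z : ℕ → V} {C C' : ℝ} {v : V} (h : Cmb z C v) (hC : C ≤ C') :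
    Cmb z C' v := by
  obtain ⟨d, hd, hv⟩ := h
  exact ⟨d, hd.trans hC, hv⟩

theorem lv0_cmb_sub (z : ℕ → V) (α β : ℕ) : Cmb z 2 (z α - z β) := by
  have h := lv0_cmb_add (lv0_cmb_single z α) (lv0_cmb_smul (lv0_cmb_single z β) (-1))
  have h1 : z α + (-1 : ℝ) • z β = z α - z β := by
    rw [neg_smul, one_smul, sub_eq_add_neg]
  rw [h1] at h
  exact lv0_cmb_mono h (by rw [abs_neg, abs_one]; norm_num)

theorem level_zero (z : ℕ → V) (hz : Sep z) (N : ℕ) :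
    ∃ u b : V, Cmb z 300 u ∧ Bal b ∧ (∀ a, b a ≠ 0 → N < a) ∧
      ∀ k, |T u k - b k| ≤ 2 ^ 12 * eps k := by
  obtain ⟨α, β, hq₁, hn₁, he₁⟩ := lv0_stage z hz N
  obtain ⟨N₂, hN₂, hN₂'⟩ : ∃ N₂, N ≤ N₂ ∧ ∀ a, T (z α - z β) a ≠ 0 → a ≤ N₂ := by
    refine ⟨max N ((T (z α - z β)).support.sup id), le_max_left _ _, fun a ha => ?_⟩
    exact (Finset.le_sup (f := id) (Finsupp.mem_support_iff.2 ha)).trans (le_max_right _ _)
  obtain ⟨α', β', hq₂, hn₂, he₂⟩ := lv0_stage z hz N₂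
  set ω₁ := z α - z β with hω₁
  set ω₂ := z α' - z β' with hω₂
  set b₁ := tail N (T ω₁) with hb₁
  set b₂ := tail N₂ (T ω₂) with hb₂
  obtain ⟨c₁, c₂, hc, hc₁, hc₂, hc12⟩ := lv0_coef (lv0_S b₁) (lv0_S b₂)
  -- supports
  have hsupp₁ : ∀ a, b₁ a ≠ 0 → N < a ∧ a ≤ N₂ := by
    intro a ha
    rw [hb₁, tail_apply] at ha
    split_ifs at ha with h
    · exact ⟨h, hN₂' a ha⟩
    · exact absurd rfl ha
  have hsupp₂ : ∀ a, b₂ a ≠ 0 → N₂ < a := by
    intro a ha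
    rw [hb₂, tail_apply] at ha
    split_ifs at ha with h
    · exact h
    · exact absurd rfl ha
  set B := c₁ • b₁ + c₂ • b₂ with hB
  have hnB : n1 B = |c₁| * n1 b₁ + |c₂| * n1 b₂ := by
    have h1 := n1_sum_of_succs 2 (fun s => if s = 0 then c₁ • b₁ else c₂ • b₂) (by
      intro r s hrs hs a a' ha ha'
      have hr0 : r = 0 := by omega
      have hs1 : s ≠ 0 := by omega
      simp only [hr0, if_true, if_neg hs1, Finsupp.smul_apply, smul_eq_mul] at ha ha'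
      exact ((hsupp₁ a (right_ne_zero_of_mul ha)).2).trans_lt
        (hsupp₂ a' (right_ne_zero_of_mul ha')))
    rw [Finset.sum_range_succ, Finset.sum_range_succ, Finset.sum_range_zero,
      Finset.sum_range_succ, Finset.sum_range_succ, Finset.sum_range_zero] at h1
    simpa [n1_smul] using h1
  have hn1₁ := n1_nonneg b₁
  have hn1₂ := n1_nonneg b₂
  have hlam : 1 / 65 ≤ n1 B := by
    rw [hnB]
    rcases hc12 with h | h
    · rw [h, one_mul]
      have := mul_nonneg (abs_nonneg c₂) hn1₂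
      linarith
    · rw [h, one_mul]
      have := mul_nonneg (abs_nonneg c₁) hn1₁
      linarith
  have hlpos : 0 < n1 B := by linarith [show (0 : ℝ) < 1 / 65 by norm_num]
  have hlinv : (n1 B)⁻¹ ≤ 65 := by
    rw [inv_le_comm₀ hlpos (by norm_num)]
    linarith
  have hlinv0 : 0 < (n1 B)⁻¹ := inv_pos.2 hlpos
  have hd₁ : |(n1 B)⁻¹ * c₁| ≤ 65 := by
    rw [abs_mul, abs_of_pos hlinv0]
    calc (n1 B)⁻¹ * |c₁| ≤ (n1 B)⁻¹ * 1 := mul_le_mul_of_nonneg_left hc₁ hlinv0.le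
      _ ≤ 65 := by rw [mul_one]; exact hlinv
  have hd₂ : |(n1 B)⁻¹ * c₂| ≤ 65 := by
    rw [abs_mul, abs_of_pos hlinv0]
    calc (n1 B)⁻¹ * |c₂| ≤ (n1 B)⁻¹ * 1 := mul_le_mul_of_nonneg_left hc₂ hlinv0.le
      _ ≤ 65 := by rw [mul_one]; exact hlinv
  set d₁ := (n1 B)⁻¹ * c₁ with hd₁'
  set d₂ := (n1 B)⁻¹ * c₂ with hd₂'
  refine ⟨d₁ • ω₁ + d₂ • ω₂, (n1 B)⁻¹ • B, ?_, ?_, ?_, ?_⟩
  · have h1 := lv0_cmb_add (lv0_cmb_smul (lv0_cmb_sub z α β) d₁)
      (lv0_cmb_smul (lv0_cmb_sub z α' β') d₂)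
    exact lv0_cmb_mono h1 (by linarith)
  · refine lv0_bal ?_ ?_
    · rw [map_smul, hB, map_add, map_smul, map_smul, smul_eq_mul, smul_eq_mul, smul_eq_mul, hc,
        mul_zero]
    · rw [n1_smul, abs_of_pos hlinv0]
      exact inv_mul_cancel₀ hlpos.ne'
  · intro a ha
    rw [Finsupp.smul_apply, smul_eq_mul] at ha
    have ha2 := right_ne_zero_of_mul ha
    rw [hB, Finsupp.add_apply, Finsupp.smul_apply, Finsupp.smul_apply] at ha2
    by_cases h1 : b₁ a = 0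
    · have h2 : b₂ a ≠ 0 := by
        intro h3
        rw [h1, h3, smul_zero, smul_zero, add_zero] at ha2
        exact ha2 rfl
      exact lt_of_le_of_lt hN₂ (hsupp₂ a h2)
    · exact (hsupp₁ a h1).1
  · intro k
    have hε := eps_pos k
    have h1 := comb_two d₁ d₂ ω₁ ω₂ k
    have h2 : ((n1 B)⁻¹ • B) k = d₁ * b₁ k + d₂ * b₂ k := by
      rw [Finsupp.smul_apply, hB, Finsupp.add_apply, Finsupp.smul_apply, Finsupp.smul_apply,
        smul_eq_mul, smul_eq_mul, smul_eq_mul, hd₁', hd₂']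
      ring
    have h3 : T (d₁ • ω₁ + d₂ • ω₂) k - ((n1 B)⁻¹ • B) k =
        (T (d₁ • ω₁ + d₂ • ω₂) k - (d₁ * T ω₁ k + d₂ * T ω₂ k)) +
          (d₁ * (T ω₁ k - b₁ k) + d₂ * (T ω₂ k - b₂ k)) := by
      rw [h2]; ring
    have h4 : |d₁ * (T ω₁ k - b₁ k)| ≤ 65 * (9 * eps k) := by
      rw [abs_mul]
      exact mul_le_mul hd₁ (he₁ k) (abs_nonneg _) (by norm_num)
    have h5 : |d₂ * (T ω₂ k - b₂ k)| ≤ 65 * (9 * eps k) := by
      rw [abs_mul]
      exact mul_le_mul hd₂ (he₂ k) (abs_nonneg _) (by norm_num)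
    have h6 : |d₁| * q ω₁ ≤ 65 * (2002 / 1000) :=
      mul_le_mul hd₁ hq₁ (q_nonneg _) (by norm_num)
    have h7 : |d₂| * q ω₂ ≤ 65 * (2002 / 1000) :=
      mul_le_mul hd₂ hq₂ (q_nonneg _) (by norm_num)
    have h8 : 4 * eps k * (|d₁| * q ω₁ + |d₂| * q ω₂) ≤
        4 * eps k * (65 * (2002 / 1000) + 65 * (2002 / 1000)) :=
      mul_le_mul_of_nonneg_left (add_le_add h6 h7) (by positivity)
    rw [h3]
    calc |(T (d₁ • ω₁ + d₂ • ω₂) k - (d₁ * T ω₁ k + d₂ * T ω₂ k)) +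
          (d₁ * (T ω₁ k - b₁ k) + d₂ * (T ω₂ k - b₂ k))|
        ≤ |T (d₁ • ω₁ + d₂ • ω₂) k - (d₁ * T ω₁ k + d₂ * T ω₂ k)| +
          |d₁ * (T ω₁ k - b₁ k) + d₂ * (T ω₂ k - b₂ k)| := abs_add_le _ _
      _ ≤ 4 * eps k * (65 * (2002 / 1000) + 65 * (2002 / 1000)) +
          (65 * (9 * eps k) + 65 * (9 * eps k)) :=
          add_le_add (h1.trans h8) ((abs_add_le _ _).trans (add_le_add h4 h5))
      _ ≤ 2 ^ 12 * eps k := by nlinarith

end Pool.Agent.Atomic
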