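import Pool.Agent.Lib.MP_968cc4_an.Basic

/-! Module OVL: overlap of successive families, the abstract tree lemma -/

set_option autoImplicit false

namespace Pool.Agent.Atomic

open Finset

/-- a flat average against a successive family -/
theorem ovl (j M n : ℕ) (H : V) (hH : Flat j M H) (hM : 0 < M) (ψ : ℕ → ℕ → ℝ)
    (hψ : ∀ r, r < n → KK j (ψ r)) (hs : Succs n ψ) :
    ∑ r ∈ range n, pr H (ψ r) ≤ 1 + (n : ℝ) / M := by
  classical
  obtain ⟨h, h0, hsucc, hNB, rfl⟩ := hH
  have hM' : (0 : ℝ) < M := by exact_mod_cast hM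
  let P : Finset (ℕ × ℕ) := (range M ×ˢ range n).filter
    (fun x => ∃ a, h x.1 a ≠ 0 ∧ ψ x.2 a ≠ 0)
  have hinj : Set.InjOn (fun x : ℕ × ℕ => x.1 + x.2) (P : Set (ℕ × ℕ)) := by
    have key : ∀ t r t' r' : ℕ, (t, r) ∈ P → (t', r') ∈ P → t + r = t' + r' → ¬ t < t' := by
      intro t r t' r' hx hy hxy hlt
      simp only [P, mem_filter, mem_product, mem_range] at hx hy
      obtain ⟨⟨ht, hr⟩, a, ha, hb⟩ := hx
      obtain ⟨⟨ht', hr'⟩, a', ha', hb'⟩ := hy
      have e1 : a < a' := hsucc t t' hlt ht' a a' ha ha'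
      have e2 : a' < a := hs r' r (by omega) hr a' a hb' hb
      omega
    rintro ⟨t, r⟩ hx ⟨t', r'⟩ hy hxy
    have hxy' : t + r = t' + r' := hxy
    have k1 := key t r t' r' hx hy hxy'
    have k2 := key t' r' t r hy hx hxy'.symm
    have e : t = t' := by omega
    subst e
    have e : r = r' := by omega
    subst e
    rfl
  have hcard : P.card ≤ M + n := by
    have : P.card ≤ (range (M + n)).card := by
      refine Finset.card_le_card_of_injOn (fun x : ℕ × ℕ => x.1 + x.2) ?_ hinj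
      intro x hx
      have hx' : x ∈ P := hx
      simp only [P, mem_filter, mem_product, mem_range] at hx'
      simp only [coe_range, Set.mem_Iio]
      omega
    simpa using this
  have e1 : ∑ r ∈ range n, pr ((M : ℝ)⁻¹ • ∑ t ∈ range M, h t) (ψ r)
      = (M : ℝ)⁻¹ * ∑ x ∈ range M ×ˢ range n, pr (h x.1) (ψ x.2) := by
    rw [Finset.sum_product, Finset.sum_comm, Finset.mul_sum]
    refine Finset.sum_congr rfl fun r _ => ?_
    rw [pr_smul, pr_sum]
  have e2 : ∑ x ∈ range M ×ˢ range n, pr (h x.1) (ψ x.2) ≤ (P.card : ℝ) := by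
    have : ∑ x ∈ range M ×ˢ range n, pr (h x.1) (ψ x.2) = ∑ x ∈ P, pr (h x.1) (ψ x.2) := by
      symm
      apply Finset.sum_subset (Finset.filter_subset _ _)
      intro x hx hxP
      apply pr_eq_zero
      intro a ha
      by_contra hb
      exact hxP (mem_filter.2 ⟨hx, a, ha, hb⟩)
    rw [this]
    calc ∑ x ∈ P, pr (h x.1) (ψ x.2) ≤ ∑ x ∈ P, (1 : ℝ) := by
          refine Finset.sum_le_sum fun x hx => ?_
          have hx' := (mem_filter.1 hx).1
          rw [mem_product, mem_range, mem_range] at hx'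
          exact hNB x.1 hx'.1 (ψ x.2) (hψ x.2 hx'.2)
      _ = (P.card : ℝ) := by simp
  rw [e1]
  have e3 : (P.card : ℝ) ≤ M + n := by exact_mod_cast hcard
  calc (M : ℝ)⁻¹ * ∑ x ∈ range M ×ˢ range n, pr (h x.1) (ψ x.2)
      ≤ (M : ℝ)⁻¹ * (M + n) := mul_le_mul_of_nonneg_left (e2.trans e3) (by positivity)
    _ = 1 + (n : ℝ) / M := by
        field_simp

/-- the number of members of a successive family `G` that meet at least two members of `ψ` is at
most the length of `ψ` -/
theorem card_split (n n' : ℕ) (G ψ : ℕ → ℕ → ℝ) (hG : Succs n G) (hψ : Succs n' ψ)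
    (D : Finset ℕ) (hD : ∀ l ∈ D, l < n ∧ ∃ r r' a a', r < r' ∧ r' < n' ∧
      G l a ≠ 0 ∧ ψ r a ≠ 0 ∧ G l a' ≠ 0 ∧ ψ r' a' ≠ 0) : D.card ≤ n' := by
  classical
  have hex : ∀ l, l ∈ D → ∃ r, r < n' ∧ ∃ a, G l a ≠ 0 ∧ ψ r a ≠ 0 := by
    intro l hl
    obtain ⟨_, r, r', a, a', h1, h2, h3, h4, _, _⟩ := hD l hl
    exact ⟨r, by omega, a, h3, h4⟩
  let f : ℕ → ℕ := fun l => if h : ∃ r, r < n' ∧ ∃ a, G l a ≠ 0 ∧ ψ r a ≠ 0 then Nat.find h else 0
  have hf : ∀ l (hl : l ∈ D), f l = Nat.find (hex l hl) := by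
    intro l hl
    simp only [f]
    rw [dif_pos (hex l hl)]
  have : D.card ≤ (range n').card := by
    refine Finset.card_le_card_of_injOn f ?_ ?_
    · intro l hl
      have hl' : l ∈ D := hl
      rw [hf l hl']
      simp only [coe_range, Set.mem_Iio]
      exact (Nat.find_spec (hex l hl')).1
    · have key : ∀ l l', l ∈ D → l' ∈ D → f l = f l' → ¬ l < l' := by
        intro l l' hl hl' he hlt
        obtain ⟨hln, r, r', a, a', h1, h2, h3, h4, h5, h6⟩ := hD l hl
        obtain ⟨hln', _⟩ := hD l' hl'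
        have hr : f l ≤ r := by
          rw [hf l hl]
          exact Nat.find_min' _ ⟨by omega, a, h3, h4⟩
        have hb : ∃ b, G l' b ≠ 0 ∧ ψ (f l') b ≠ 0 := by
          rw [hf l' hl']
          exact (Nat.find_spec (hex l' hl')).2
        obtain ⟨b, hb1, hb2⟩ := hb
        rw [← he] at hb2
        have e1 : a' < b := hG l l' hlt hln' a' b h5 hb1
        have e2 : b < a' := hψ (f l) r' (by omega) h2 b a' hb2 h6
        omega
      intro l hl l' hl' he
      have k1 := key l l' hl hl' he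
      have k2 := key l' l hl' hl he.symm
      omega
  simpa using this

/-- one step of the tree lemma: an average with a small number of pieces -/
theorem tree_step (j n n' N : ℕ) (G : ℕ → V) (B τ K c : ℝ) (hB : 0 ≤ B) (hτ : 0 ≤ τ) (hK : 0 ≤ K)
    (hc0 : 0 ≤ c) (hc : c ≤ 1 / 2)
    (hG0 : ∀ l, l < n → ∀ a, 0 ≤ G l a) (hs : Succs n (fun l => ⇑(G l)))
    (φ : ℕ → ℕ → ℝ) (hφ : ∀ r, r < n' → KK j (φ r)) (hφs : Succs n' φ) (hn' : n' ≤ N)
    (h2 : ∀ l, l < n → ∑ r ∈ range n', pr (G l) (φ r) ≤ B)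
    (hD : ∀ ξ, KK j ξ → ∀ (a : ℕ → ℝ) (A : ℝ), 0 ≤ A → (∀ l, l < n → 0 ≤ a l ∧ a l ≤ A) →
      ∑ l ∈ range n, a l * pr (G l) ξ ≤ τ * ∑ l ∈ range n, a l + K * A)
    (a : ℕ → ℝ) (A : ℝ) (hA : 0 ≤ A) (ha : ∀ l, l < n → 0 ≤ a l ∧ a l ≤ A) :
    ∑ l ∈ range n, a l * pr (G l) (av c n' φ)
      ≤ τ / 2 * ∑ l ∈ range n, a l + (N : ℝ) * (K + B) * A := by
  classical
  -- the split members
  let D : Finset ℕ := (range n).filter (fun l => ∃ r r' b b', r < r' ∧ r' < n' ∧
      G l b ≠ 0 ∧ φ r b ≠ 0 ∧ G l b' ≠ 0 ∧ φ r' b' ≠ 0)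
  have hDcard : D.card ≤ n' := by
    apply card_split n n' (fun l => ⇑(G l)) φ hs hφs D
    intro l hl
    obtain ⟨h1, h2⟩ := mem_filter.1 hl
    exact ⟨mem_range.1 h1, h2⟩
  have hpr0 : ∀ l, l < n → ∀ r, r < n' → 0 ≤ pr (G l) (φ r) := fun l hl r hr =>
    pr_nonneg (hG0 l hl) (fun a => (hφ r hr).nonneg a)
  have hSa : 0 ≤ ∑ l ∈ range n, a l := Finset.sum_nonneg fun l hl => (ha l (mem_range.1 hl)).1
  -- the weights
  let b : ℕ → ℕ → ℝ := fun r l => if l ∉ D ∧ ∃ x, G l x ≠ 0 ∧ φ r x ≠ 0 then a l else 0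
  have hb : ∀ r, ∀ l, l < n → 0 ≤ b r l ∧ b r l ≤ A := by
    intro r l hl
    simp only [b]
    split_ifs
    · exact ha l hl
    · exact ⟨le_rfl, hA⟩
  have hbsum : ∀ l, l < n → ∑ r ∈ range n', b r l ≤ a l := by
    intro l hl
    by_cases hex : ∃ r, r < n' ∧ b r l ≠ 0
    · obtain ⟨r0, hr0, hb0⟩ := hex
      have hcond : l ∉ D ∧ ∃ x, G l x ≠ 0 ∧ φ r0 x ≠ 0 := by
        by_contra hcon
        exact hb0 (if_neg hcon)
      have huniq : ∀ r, r < n' → r ≠ r0 → b r l = 0 := by
        intro r hr hne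
        by_contra hne'
        have hcond' : l ∉ D ∧ ∃ x, G l x ≠ 0 ∧ φ r x ≠ 0 := by
          by_contra hcon
          exact hne' (if_neg hcon)
        obtain ⟨x, hx1, hx2⟩ := hcond.2
        obtain ⟨y, hy1, hy2⟩ := hcond'.2
        apply hcond.1
        refine mem_filter.2 ⟨mem_range.2 hl, ?_⟩
        rcases lt_or_gt_of_ne hne with h | h
        · exact ⟨r, r0, y, x, h, hr0, hy1, hy2, hx1, hx2⟩
        · exact ⟨r0, r, x, y, h, hr, hx1, hx2, hy1, hy2⟩
      rw [Finset.sum_eq_single_of_mem r0 (mem_range.2 hr0)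
        (fun r hr hne => huniq r (mem_range.1 hr) hne)]
      simp only [b]
      rw [if_pos hcond]
    · push Not at hex
      rw [Finset.sum_eq_zero fun r hr => hex r (mem_range.1 hr)]
      exact (ha l hl).1
  -- pointwise splitting
  have hpt : ∀ l, l < n → a l * ∑ r ∈ range n', pr (G l) (φ r)
      ≤ (if l ∈ D then A * B else 0) + ∑ r ∈ range n', b r l * pr (G l) (φ r) := by
    intro l hl
    have hsum0 : 0 ≤ ∑ r ∈ range n', b r l * pr (G l) (φ r) :=
      Finset.sum_nonneg fun r hr => mul_nonneg (hb r l hl).1 (hpr0 l hl r (mem_range.1 hr))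
    by_cases hlD : l ∈ D
    · rw [if_pos hlD]
      have h3 : a l * ∑ r ∈ range n', pr (G l) (φ r) ≤ A * B :=
        mul_le_mul (ha l hl).2 (h2 l hl)
          (Finset.sum_nonneg fun r hr => hpr0 l hl r (mem_range.1 hr)) hA
      linarith
    · rw [if_neg hlD, zero_add, Finset.mul_sum]
      refine Finset.sum_le_sum fun r hr => ?_
      by_cases hm : ∃ x, G l x ≠ 0 ∧ φ r x ≠ 0
      · simp only [b]
        rw [if_pos ⟨hlD, hm⟩]
      · have : pr (G l) (φ r) = 0 := by
          apply pr_eq_zero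
          intro x hx
          by_contra hx'
          exact hm ⟨x, hx, hx'⟩
        rw [this, mul_zero, mul_zero]
  have hn'N : (n' : ℝ) ≤ N := by exact_mod_cast hn'
  have hn0 : (0 : ℝ) ≤ n' := Nat.cast_nonneg _
  have total : ∑ l ∈ range n, a l * ∑ r ∈ range n', pr (G l) (φ r)
      ≤ τ * ∑ l ∈ range n, a l + (N : ℝ) * (K + B) * A := by
    calc ∑ l ∈ range n, a l * ∑ r ∈ range n', pr (G l) (φ r)
        ≤ ∑ l ∈ range n, ((if l ∈ D then A * B else 0)
            + ∑ r ∈ range n', b r l * pr (G l) (φ r)) :=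
          Finset.sum_le_sum fun l hl => hpt l (mem_range.1 hl)
      _ = (D.card : ℝ) * (A * B) + ∑ r ∈ range n', ∑ l ∈ range n, b r l * pr (G l) (φ r) := by
          rw [Finset.sum_add_distrib, Finset.sum_comm]
          congr 1
          rw [← Finset.sum_filter]
          have : (range n).filter (fun l => l ∈ D) = D := by
            ext l
            simp only [mem_filter, mem_range]
            constructor
            · exact fun h => h.2
            · intro h
              exact ⟨mem_range.1 (mem_filter.1 h).1, h⟩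
          rw [this, Finset.sum_const, nsmul_eq_mul]
      _ ≤ (n' : ℝ) * (A * B) + ∑ r ∈ range n', (τ * ∑ l ∈ range n, b r l + K * A) := by
          refine add_le_add ?_ ?_
          · exact mul_le_mul_of_nonneg_right (by exact_mod_cast hDcard) (mul_nonneg hA hB)
          · refine Finset.sum_le_sum fun r hr => ?_
            exact hD (φ r) (hφ r (mem_range.1 hr)) (b r) A hA (hb r)
      _ = (n' : ℝ) * (A * B) + (τ * ∑ l ∈ range n, ∑ r ∈ range n', b r l + n' * (K * A)) := by
          rw [Finset.sum_add_distrib, ← Finset.mul_sum, Finset.sum_comm (s := range n),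
            Finset.sum_const, card_range, nsmul_eq_mul]
      _ ≤ (n' : ℝ) * (A * B) + (τ * ∑ l ∈ range n, a l + n' * (K * A)) := by
          refine add_le_add le_rfl (add_le_add (mul_le_mul_of_nonneg_left ?_ hτ) le_rfl)
          exact Finset.sum_le_sum fun l hl => hbsum l (mem_range.1 hl)
      _ = τ * ∑ l ∈ range n, a l + (n' : ℝ) * (K + B) * A := by ring
      _ ≤ τ * ∑ l ∈ range n, a l + (N : ℝ) * (K + B) * A := by
          refine add_le_add le_rfl ?_
          exact mul_le_mul_of_nonneg_right (mul_le_mul_of_nonneg_right hn'N (by linarith)) hA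
  have e1 : ∑ l ∈ range n, a l * pr (G l) (av c n' φ)
      = c * ∑ l ∈ range n, a l * ∑ r ∈ range n', pr (G l) (φ r) := by
    rw [Finset.mul_sum]
    refine Finset.sum_congr rfl fun l _ => ?_
    rw [pr_av]
    ring
  rw [e1]
  have hR : 0 ≤ (N : ℝ) * (K + B) * A := by positivity
  calc c * ∑ l ∈ range n, a l * ∑ r ∈ range n', pr (G l) (φ r)
      ≤ c * (τ * ∑ l ∈ range n, a l + (N : ℝ) * (K + B) * A) :=
        mul_le_mul_of_nonneg_left total hc0
    _ ≤ 1 / 2 * (τ * ∑ l ∈ range n, a l + (N : ℝ) * (K + B) * A) :=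
        mul_le_mul_of_nonneg_right hc (add_nonneg (mul_nonneg hτ hSa) hR)
    _ ≤ τ / 2 * ∑ l ∈ range n, a l + (N : ℝ) * (K + B) * A := by linarith

/-- the abstract tree lemma (`q = q1 + 1`) -/
theorem tree (j q1 n : ℕ) (G : ℕ → V) (B κ : ℝ) (hB1 : 1 ≤ B) (hB5 : B ≤ 5)
    (hκ : B / 2 ^ (W (q1 + 1)) ≤ κ)
    (hG0 : ∀ l, l < n → ∀ a, 0 ≤ G l a) (hs : Succs n (fun l => ⇑(G l)))
    (h1 : ∀ l, l < n → NB j (G l) B)
    (h2 : ∀ l, l < n → ∀ i n', i ≤ q1 → n' ≤ m i → ∀ ψ : ℕ → ℕ → ℝ,
      (∀ r, r < n' → KK j (ψ r)) → Succs n' ψ → ∑ r ∈ range n', pr (G l) (ψ r) ≤ B)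
    (h3avg : ∀ i n' (ψ : ℕ → ℕ → ℝ), q1 < i → n' ≤ m i → (∀ r, r < n' → KK j (ψ r)) →
      Succs n' ψ → ∀ (a : ℕ → ℝ) (A : ℝ), 0 ≤ A → (∀ l, l < n → 0 ≤ a l ∧ a l ≤ A) →
      ∑ l ∈ range n, a l * pr (G l) (av (W i : ℝ)⁻¹ n' ψ) ≤ κ * ∑ l ∈ range n, a l + B * A)
    (h3spec : ∀ i n' (S : ℕ → Finset ℕ) (p : ℕ → ℕ) (N : ℕ → ℕ) (ψ : ℕ → ℕ → ℕ → ℝ), q1 < i →
      isQ j i → n' ≤ m i →
      (∀ l, l < n' → i < scl S p l) →
      (∀ l, l < n' → N l ≤ m (scl S p l)) →
      (∀ l, l < n' → ∀ r, r < N l → KK j (ψ l r)) →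
      (∀ l, l < n' → Succs (N l) (ψ l)) →
      (∀ l, l < n' → ∀ r, r < N l → ∀ a, ψ l r a ≠ 0 → a ∈ S l) →
      Succs n' (fun l => av (W (scl S p l) : ℝ)⁻¹ (N l) (ψ l)) →
      ∀ (a : ℕ → ℝ) (A : ℝ), 0 ≤ A → (∀ l, l < n → 0 ≤ a l ∧ a l ≤ A) →
      ∑ l ∈ range n, a l * pr (G l) (av (U i : ℝ)⁻¹ n' (fun l => av (W (scl S p l) : ℝ)⁻¹ (N l) (ψ l)))
        ≤ κ * ∑ l ∈ range n, a l + B * A) :
    ∀ ξ, KK j ξ → ∀ (a : ℕ → ℝ) (A : ℝ), 0 ≤ A → (∀ l, l < n → 0 ≤ a l ∧ a l ≤ A) →
      ∑ l ∈ range n, a l * pr (G l) ξ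
        ≤ κ * ∑ l ∈ range n, a l + (2 * (m q1 : ℝ) + 10) ^ (W (q1 + 1) + 1) * A := by
  have hB0 : 0 ≤ B := by linarith
  have hκ0 : 0 ≤ κ := le_trans (by positivity) hκ
  have hm0 : (0 : ℝ) ≤ m q1 := Nat.cast_nonneg _
  -- the general claim
  have claim : ∀ D : ℕ, ∃ K : ℝ, 0 ≤ K ∧ K + 10 ≤ (2 * (m q1 : ℝ) + 10) ^ (D + 1) ∧
      ∀ ξ, KK j ξ → ∀ (a : ℕ → ℝ) (A : ℝ), 0 ≤ A → (∀ l, l < n → 0 ≤ a l ∧ a l ≤ A) →
      ∑ l ∈ range n, a l * pr (G l) ξ
        ≤ max κ (B / 2 ^ D) * ∑ l ∈ range n, a l + K * A := by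
    intro D
    induction D with
    | zero =>
      refine ⟨0, le_rfl, by simp, ?_⟩
      intro ξ hξ a A hA ha
      have hSa : 0 ≤ ∑ l ∈ range n, a l :=
        Finset.sum_nonneg fun l hl => (ha l (mem_range.1 hl)).1
      calc ∑ l ∈ range n, a l * pr (G l) ξ ≤ ∑ l ∈ range n, a l * B :=
            Finset.sum_le_sum fun l hl => mul_le_mul_of_nonneg_left
              (h1 l (mem_range.1 hl) ξ hξ) (ha l (mem_range.1 hl)).1
        _ = B * ∑ l ∈ range n, a l := by rw [← Finset.sum_mul, mul_comm]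
        _ ≤ max κ (B / 2 ^ 0) * ∑ l ∈ range n, a l := by
            refine mul_le_mul_of_nonneg_right ?_ hSa
            simp
        _ = max κ (B / 2 ^ 0) * ∑ l ∈ range n, a l + 0 * A := by ring
    | succ D ih =>
      obtain ⟨K, hK0, hK1, hD⟩ := ih
      set τ := max κ (B / 2 ^ D) with hτ
      have hτ0 : 0 ≤ τ := le_trans hκ0 (le_max_left _ _)
      set τ' := max κ (B / 2 ^ (D + 1)) with hτ'
      have hκτ' : κ ≤ τ' := le_max_left _ _
      have hτ2 : τ / 2 ≤ τ' := by
        rw [hτ, hτ']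
        rcases le_total κ (B / 2 ^ D) with h | h
        · rw [max_eq_right h]
          refine le_trans (le_of_eq ?_) (le_max_right _ _)
          rw [pow_succ]
          field_simp
        · rw [max_eq_left h]
          exact le_trans (by linarith) (le_max_left _ _)
      set K' := (m q1 : ℝ) * (K + B) + B with hK'
      have hK'0 : 0 ≤ K' := by positivity
      have hBK' : B ≤ K' := by
        have : 0 ≤ (m q1 : ℝ) * (K + B) := by positivity
        linarith
      refine ⟨K', hK'0, ?_, ?_⟩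
      · rw [pow_succ]
        calc K' + 10 ≤ (K + 10) * (2 * (m q1 : ℝ) + 10) := by
              rw [hK']
              nlinarith [mul_nonneg hm0 hK0, mul_nonneg hm0 (sub_nonneg.2 hB5)]
          _ ≤ (2 * (m q1 : ℝ) + 10) ^ (D + 1) * (2 * (m q1 : ℝ) + 10) :=
              mul_le_mul_of_nonneg_right hK1 (by positivity)
      · -- transfer of the weaker bounds
        have up1 : ∀ (a : ℕ → ℝ) (A x : ℝ), 0 ≤ A → (∀ l, l < n → 0 ≤ a l ∧ a l ≤ A) →
            x ≤ κ * ∑ l ∈ range n, a l + B * A → x ≤ τ' * ∑ l ∈ range n, a l + K' * A := by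
          intro a A x hA ha hx
          have hSa : 0 ≤ ∑ l ∈ range n, a l :=
            Finset.sum_nonneg fun l hl => (ha l (mem_range.1 hl)).1
          exact hx.trans (add_le_add (mul_le_mul_of_nonneg_right hκτ' hSa)
            (mul_le_mul_of_nonneg_right hBK' hA))
        have up2 : ∀ (a : ℕ → ℝ) (A x : ℝ), 0 ≤ A → (∀ l, l < n → 0 ≤ a l ∧ a l ≤ A) →
            x ≤ τ / 2 * ∑ l ∈ range n, a l + (m q1 : ℝ) * (K + B) * A →
            x ≤ τ' * ∑ l ∈ range n, a l + K' * A := by
          intro a A x hA ha hx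
          have hSa : 0 ≤ ∑ l ∈ range n, a l :=
            Finset.sum_nonneg fun l hl => (ha l (mem_range.1 hl)).1
          refine hx.trans (add_le_add (mul_le_mul_of_nonneg_right hτ2 hSa)
            (mul_le_mul_of_nonneg_right ?_ hA))
          linarith
        intro ξ hξ
        induction hξ with
        | unit x =>
          intro a A hA ha
          have hKK : KK j (fun a => if a = x then (1 : ℝ) else 0) := KK.unit x
          have hval : ∀ l, l < n → pr (G l) (fun a => if a = x then (1 : ℝ) else 0) = G l x := by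
            intro l _
            unfold pr
            simp only [mul_ite, mul_one, mul_zero]
            rw [Finset.sum_ite_eq' (G l).support x]
            split_ifs with hx
            · rfl
            · exact (Finsupp.notMem_support_iff.1 hx).symm
          by_cases hex : ∃ l, l < n ∧ G l x ≠ 0
          · obtain ⟨l0, hl0, hne⟩ := hex
            have : ∑ l ∈ range n, a l * pr (G l) (fun a => if a = x then (1 : ℝ) else 0)
                = a l0 * pr (G l0) (fun a => if a = x then (1 : ℝ) else 0) := by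
              refine Finset.sum_eq_single_of_mem l0 (mem_range.2 hl0) fun l hl hll => ?_
              rw [hval l (mem_range.1 hl)]
              have : G l x = 0 := by
                by_contra hne'
                rcases lt_or_gt_of_ne hll with h | h
                · exact absurd (hs l l0 h hl0 x x hne' hne) (lt_irrefl _)
                · exact absurd (hs l0 l h (mem_range.1 hl) x x hne hne') (lt_irrefl _)
              rw [this, mul_zero]
            rw [this]
            apply up1 a A _ hA ha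
            have hSa : 0 ≤ ∑ l ∈ range n, a l :=
              Finset.sum_nonneg fun l hl => (ha l (mem_range.1 hl)).1
            have h3 : a l0 * pr (G l0) (fun a => if a = x then (1 : ℝ) else 0) ≤ A * B :=
              mul_le_mul (ha l0 hl0).2 (h1 l0 hl0 _ hKK)
                (pr_nonneg (hG0 l0 hl0) fun a => hKK.nonneg a) hA
            have h4 : 0 ≤ κ * ∑ l ∈ range n, a l := mul_nonneg hκ0 hSa
            linarith
          · push Not at hex
            have : ∑ l ∈ range n, a l * pr (G l) (fun a => if a = x then (1 : ℝ) else 0) = 0 := by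
              refine Finset.sum_eq_zero fun l hl => ?_
              rw [hval l (mem_range.1 hl), hex l (mem_range.1 hl), mul_zero]
            rw [this]
            apply up1 a A _ hA ha
            have hSa : 0 ≤ ∑ l ∈ range n, a l :=
              Finset.sum_nonneg fun l hl => (ha l (mem_range.1 hl)).1
            positivity
        | conv ξ ζ t ht0 ht1 _ _ ihξ ihζ =>
          intro a A hA ha
          have e1 := ihξ a A hA ha
          have e2 := ihζ a A hA ha
          have e3 : ∑ l ∈ range n, a l * pr (G l) (fun a => t * ξ a + (1 - t) * ζ a)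
              = t * ∑ l ∈ range n, a l * pr (G l) ξ
                + (1 - t) * ∑ l ∈ range n, a l * pr (G l) ζ := by
            rw [Finset.mul_sum, Finset.mul_sum, ← Finset.sum_add_distrib]
            refine Finset.sum_congr rfl fun l _ => ?_
            have : pr (G l) (fun a => t * ξ a + (1 - t) * ζ a)
                = t * pr (G l) ξ + (1 - t) * pr (G l) ζ := by
              unfold pr
              rw [Finset.mul_sum, Finset.mul_sum, ← Finset.sum_add_distrib]
              refine Finset.sum_congr rfl fun x _ => ?_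
              ring
            rw [this]
            ring
          rw [e3]
          have e4 := mul_le_mul_of_nonneg_left e1 ht0
          have e5 := mul_le_mul_of_nonneg_left e2 (sub_nonneg.2 ht1)
          linarith
        | solid ξ ζ _ hζ0 hζξ ih =>
          intro a A hA ha
          refine le_trans (Finset.sum_le_sum fun l hl => ?_) (ih a A hA ha)
          exact mul_le_mul_of_nonneg_left (pr_mono (hG0 l (mem_range.1 hl)) hζξ)
            (ha l (mem_range.1 hl)).1
        | avg i n' ψ hn' hψ hsψ _ =>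
          intro a A hA ha
          rcases le_or_gt i q1 with hi | hi
          · apply up2 a A _ hA ha
            have hWi : ((W i : ℕ) : ℝ)⁻¹ ≤ 1 / 2 := by
              have h3 : (2 : ℝ) ≤ W i := by
                have := W_ge i
                exact_mod_cast (show 2 ≤ W i by omega)
              rw [one_div]
              exact inv_anti₀ (by norm_num) h3
            exact tree_step j n n' (m q1) G B τ K _ hB0 hτ0 hK0 (by positivity) hWi hG0 hs ψ hψ hsψ
              (hn'.trans (m_strictMono.monotone hi)) (fun l hl => h2 l hl i n' hi hn' ψ hψ hsψ)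
              hD a A hA ha
          · exact up1 a A _ hA ha (h3avg i n' ψ hi hn' hψ hsψ a A hA ha)
        | spec i n' S p N ψ hQ hn' hsc hN hψ hsψ hsupp hsucc _ =>
          intro a A hA ha
          rcases le_or_gt i q1 with hi | hi
          · apply up2 a A _ hA ha
            have hUi : ((U i : ℕ) : ℝ)⁻¹ ≤ 1 / 2 := by
              have h3 : (2 : ℝ) ≤ U i := by
                have := U_ge i
                exact_mod_cast (show 2 ≤ U i by omega)
              rw [one_div]
              exact inv_anti₀ (by norm_num) h3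
            have hφ : ∀ l, l < n' → KK j (av (W (scl S p l) : ℝ)⁻¹ (N l) (ψ l)) :=
              fun l hl => KK.avg _ _ _ (hN l hl) (hψ l hl) (hsψ l hl)
            exact tree_step j n n' (m q1) G B τ K _ hB0 hτ0 hK0 (by positivity) hUi hG0 hs
              (fun l => av (W (scl S p l) : ℝ)⁻¹ (N l) (ψ l)) hφ hsucc
              (hn'.trans (m_strictMono.monotone hi))
              (fun l hl => h2 l hl i n' hi hn' _ hφ hsucc) hD a A hA ha
          · exact up1 a A _ hA ha
              (h3spec i n' S p N ψ hi hQ hn' hsc hN hψ hsψ hsupp hsucc a A hA ha)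
  obtain ⟨K, hK0, hK1, hD⟩ := claim (W (q1 + 1))
  intro ξ hξ a A hA ha
  have h3 := hD ξ hξ a A hA ha
  rw [max_eq_left hκ] at h3
  refine h3.trans (add_le_add le_rfl (mul_le_mul_of_nonneg_right ?_ hA))
  linarith

end Pool.Agent.Atomic
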