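import Pool.Agent.Lib.MP_968cc4_an.Defs

/-! Module PAR: parameter inequalities, injectivity of the code -/

set_option autoImplicit false

namespace Pool.Agent.Atomic

open Finset

theorem U_succ (i : ℕ) : U (i + 1) = U i ^ 8 := rfl

theorem U_ge (i : ℕ) : 16 ≤ U i := by
  induction i with
  | zero => exact le_refl _
  | succ i ih =>
    rw [U_succ]
    calc 16 ≤ U i := ih
      _ = U i ^ 1 := (pow_one _).symm
      _ ≤ U i ^ 8 := Nat.pow_le_pow_right (by omega) (by norm_num)

private theorem two_mul_U_le (i : ℕ) : 2 * U i ≤ U (i + 1) := by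
  rw [U_succ]
  have h := U_ge i
  calc 2 * U i ≤ U i * U i := Nat.mul_le_mul_right _ (by omega)
    _ = U i ^ 2 := (sq _).symm
    _ ≤ U i ^ 8 := Nat.pow_le_pow_right (by omega) (by norm_num)

theorem U_strictMono : StrictMono U := by
  refine strictMono_nat_of_lt_succ fun i => ?_
  have h := U_ge i
  have h2 := two_mul_U_le i
  omega

/-- `i + 1 ≤ U i` -/
theorem succ_le_U (i : ℕ) : i + 1 ≤ U i := by
  induction i with
  | zero => have := U_ge 0; omega
  | succ i ih => have := two_mul_U_le i; omega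

theorem W_ge (i : ℕ) : 256 ≤ W i := by
  unfold W
  calc 256 = 16 ^ 2 := by norm_num
    _ ≤ U i ^ 2 := Nat.pow_le_pow_left (U_ge i) 2

theorem W_strictMono : StrictMono W := by
  intro a b h
  unfold W
  exact Nat.pow_lt_pow_left (U_strictMono h) (by norm_num)

theorem U_eq_W_pow (i : ℕ) : U (i + 1) = W i ^ 4 := by
  rw [U_succ]
  unfold W
  ring

/-- heavy weights grow at least geometrically -/
theorem W_geom (i d : ℕ) : W i * 2 ^ d ≤ W (i + d) := by
  induction d with
  | zero => simp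
  | succ d ih =>
    have h1 : 2 * W (i + d) ≤ W (i + (d + 1)) := by
      have e : W (i + (d + 1)) = W (i + d) ^ 8 := by
        have : U (i + (d + 1)) = U (i + d) ^ 8 := U_succ (i + d)
        unfold W
        rw [this]
        ring
      rw [e]
      have h := W_ge (i + d)
      calc 2 * W (i + d) ≤ W (i + d) * W (i + d) := Nat.mul_le_mul_right _ (by omega)
        _ = W (i + d) ^ 2 := (sq _).symm
        _ ≤ W (i + d) ^ 8 := Nat.pow_le_pow_right (by omega) (by norm_num)
    calc W i * 2 ^ (d + 1) = 2 * (W i * 2 ^ d) := by ring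
      _ ≤ 2 * W (i + d) := Nat.mul_le_mul_left _ ih
      _ ≤ W (i + (d + 1)) := h1

theorem m_succ (i : ℕ) : m (i + 1) = (2 * m i + 10) ^ (2 * W (i + 1) + 4) := rfl

private theorem m_succ_ge (i : ℕ) : 2 * m i + 10 ≤ m (i + 1) := by
  rw [m_succ]
  calc 2 * m i + 10 = (2 * m i + 10) ^ 1 := (pow_one _).symm
    _ ≤ _ := Nat.pow_le_pow_right (by omega) (by omega)

theorem m_ge (i : ℕ) : 2 ^ 64 ≤ m i := by
  induction i with
  | zero => exact le_refl _
  | succ i ih =>
    have h := m_succ_ge i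
    exact le_trans ih (le_trans (by omega) h)

theorem m_strictMono : StrictMono m := by
  refine strictMono_nat_of_lt_succ fun i => ?_
  have h := m_succ_ge i
  omega

theorem m_even (i : ℕ) : 2 * (m i / 2) = m i := by
  refine Nat.mul_div_cancel' ?_
  cases i with
  | zero => exact dvd_pow_self 2 (by norm_num)
  | succ i =>
    rw [m_succ]
    exact dvd_trans (Dvd.intro (m i + 5) (by ring)) (dvd_pow_self (2 * m i + 10) (by omega))

private theorem pow_four_le (n : ℕ) : n ^ 4 ≤ 4 ^ (2 * n) := by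
  calc n ^ 4 ≤ (2 ^ n) ^ 4 := Nat.pow_le_pow_left (Nat.lt_two_pow_self).le 4
    _ = 4 ^ (2 * n) := by
      rw [← pow_mul, show (4 : ℕ) = 2 ^ 2 from rfl, ← pow_mul]
      congr 1
      ring

/-- `m (i+1)` dominates `m i * W(i+1)^2 * W i` and more -/
theorem m_mul_le (i : ℕ) : m i * W (i + 1) ^ 4 ≤ m (i + 1) := by
  rw [m_succ]
  generalize W (i + 1) = n
  generalize m i = a
  calc a * n ^ 4 ≤ (2 * a + 10) ^ 4 * 4 ^ (2 * n) := by
        refine Nat.mul_le_mul ?_ (pow_four_le n)
        calc a ≤ 2 * a + 10 := by omega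
          _ = (2 * a + 10) ^ 1 := (pow_one _).symm
          _ ≤ _ := Nat.pow_le_pow_right (by omega) (by norm_num)
    _ ≤ (2 * a + 10) ^ 4 * (2 * a + 10) ^ (2 * n) :=
        Nat.mul_le_mul_left _ (Nat.pow_le_pow_left (by omega) _)
    _ = (2 * a + 10) ^ (2 * n + 4) := by rw [← pow_add, Nat.add_comm 4 (2 * n)]

theorem W_le_m (i : ℕ) : W i ^ 3 ≤ m i := by
  cases i with
  | zero =>
    have h1 : W 0 = 2 ^ 8 := rfl
    have h2 : m 0 = 2 ^ 64 := rfl
    rw [h1, h2]
    norm_num
  | succ i =>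
    have h := m_mul_le i
    have h1 := m_ge i
    have h2 := W_ge (i + 1)
    calc W (i + 1) ^ 3 ≤ W (i + 1) ^ 4 := Nat.pow_le_pow_right (by omega) (by norm_num)
      _ = 1 * W (i + 1) ^ 4 := (one_mul _).symm
      _ ≤ m i * W (i + 1) ^ 4 := Nat.mul_le_mul_right _ (le_trans (Nat.one_le_two_pow) h1)
      _ ≤ m (i + 1) := h

theorem w_pos (i : ℕ) : 0 < w i := by
  unfold w
  apply Real.log_pos
  have h := W_ge i
  have : (256 : ℝ) ≤ (W i : ℝ) := by exact_mod_cast h
  linarith

/-- the logarithm of the light weight is half of that of the heavy weight -/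
theorem log_U (i : ℕ) : Real.log (U i) = w i / 2 := by
  unfold w W
  push_cast
  rw [Real.log_pow]
  push_cast
  ring

/-- the number of levels used for the good averages -/
theorem exists_levels (i : ℕ) : ∃ K : ℕ, ((i : ℝ) + 1) * w (i + 1) ≤ K ∧ 1 ≤ K ∧ m i ^ K ≤ m (i + 1) := by
  have hU : (16 : ℝ) ≤ U i := by exact_mod_cast U_ge i
  have hi : (i : ℝ) + 1 ≤ U i := by exact_mod_cast succ_le_U i
  have hw : w (i + 1) = 16 * Real.log (U i) := by
    have : W (i + 1) = U i ^ 16 := by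
      unfold W
      rw [U_succ]
      ring
    unfold w
    rw [this]
    push_cast
    rw [Real.log_pow]
    push_cast
    ring
  have hlog : Real.log (U i) ≤ U i := by
    have := Real.log_le_sub_one_of_pos (by linarith : (0 : ℝ) < U i)
    linarith
  have hlog0 : 0 ≤ Real.log (U i) := Real.log_nonneg (by linarith)
  have hb : ((i : ℝ) + 1) * w (i + 1) ≤ W (i + 1) := by
    have e : ((W (i + 1) : ℕ) : ℝ) = (U i : ℝ) ^ 16 := by
      unfold W
      rw [U_succ]
      push_cast
      ring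
    rw [hw, e]
    have h1 : ((i : ℝ) + 1) * (16 * Real.log (U i)) ≤ U i * (16 * U i) :=
      mul_le_mul hi (by linarith) (by linarith) (by linarith)
    have h2 : (U i : ℝ) * (16 * U i) ≤ (U i : ℝ) ^ 16 := by
      calc (U i : ℝ) * (16 * U i) ≤ (U i : ℝ) * (U i * U i) := by
            apply mul_le_mul_of_nonneg_left _ (by linarith)
            exact mul_le_mul_of_nonneg_right hU (by linarith)
        _ = (U i : ℝ) ^ 3 := by ring
        _ ≤ (U i : ℝ) ^ 16 := pow_le_pow_right₀ (by linarith) (by norm_num)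
    exact le_trans h1 h2
  refine ⟨W (i + 1), hb, by have := W_ge (i + 1); omega, ?_⟩
  rw [m_succ]
  calc m i ^ W (i + 1) ≤ (2 * m i + 10) ^ W (i + 1) := Nat.pow_le_pow_left (by omega) _
    _ ≤ (2 * m i + 10) ^ (2 * W (i + 1) + 4) := Nat.pow_le_pow_right (by omega) (by omega)

/-- `w` is unbounded along every `Q_k` -/
theorem exists_Q (k : ℕ) (B : ℝ) : ∃ q0, isQ k q0 ∧ k ≤ q0 ∧ 1 ≤ q0 ∧ B ≤ w q0 := by
  have hl := Nat.left_le_pair (k + 1) ⌈2 * B⌉₊
  have hr := Nat.right_le_pair (k + 1) ⌈2 * B⌉₊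
  refine ⟨Nat.pair (k + 1) ⌈2 * B⌉₊, ?_, by omega, by omega, ?_⟩
  · unfold isQ
    rw [Nat.unpair_pair]
  · generalize Nat.pair (k + 1) ⌈2 * B⌉₊ = q0 at hr
    have h1 : 2 ^ q0 ≤ W q0 := by
      have h := W_geom 0 q0
      rw [zero_add] at h
      have h0 := W_ge 0
      calc 2 ^ q0 = 1 * 2 ^ q0 := (one_mul _).symm
        _ ≤ W 0 * 2 ^ q0 := Nat.mul_le_mul_right _ (by omega)
        _ ≤ W q0 := h
    have h2 : (2 : ℝ) ^ q0 ≤ (W q0 : ℝ) := by exact_mod_cast h1
    have h3 : (q0 : ℝ) * Real.log 2 ≤ w q0 := by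
      unfold w
      rw [← Real.log_pow]
      exact Real.log_le_log (by positivity) h2
    have h4 : (2 * B) ≤ (q0 : ℝ) := le_trans (Nat.le_ceil _) (by exact_mod_cast hr)
    have h5 := Real.log_two_gt_d9
    have h6 : (0 : ℝ) ≤ q0 := Nat.cast_nonneg _
    nlinarith

theorem eps_pos (k : ℕ) : 0 < eps k := by
  unfold eps
  have h : (0 : ℝ) < m k := by
    have := m_ge k
    have : 0 < m k := lt_of_lt_of_le (by positivity) this
    exact_mod_cast this
  positivity

/-- `ε_k m_k ≤ 2^{-40} 4^{-k} m_k^{-3}` in the crude form used everywhere -/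
theorem eps_m_le (k : ℕ) : eps k * m k ≤ (1 / 2 ^ 100 : ℝ) / 4 ^ k := by
  have hm : (2 : ℝ) ^ 64 ≤ m k := by exact_mod_cast m_ge k
  have h0 : (0 : ℝ) < m k := lt_of_lt_of_le (by positivity) hm
  have e : eps k * m k = (2 ^ 40 * (m k : ℝ) ^ 3)⁻¹ / 4 ^ k := by
    unfold eps
    field_simp
  rw [e]
  apply div_le_div_of_nonneg_right _ (by positivity)
  rw [one_div]
  apply inv_anti₀ (by positivity)
  have h3 : (1 : ℝ) ≤ (m k : ℝ) := le_trans (by norm_num) hm
  calc (2 : ℝ) ^ 100 ≤ 2 ^ 40 * (2 ^ 64) := by norm_num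
    _ ≤ 2 ^ 40 * (m k : ℝ) := by
        apply mul_le_mul_of_nonneg_left hm (by positivity)
    _ = 2 ^ 40 * (m k : ℝ) ^ 1 := by rw [pow_one]
    _ ≤ 2 ^ 40 * (m k : ℝ) ^ 3 := by
        apply mul_le_mul_of_nonneg_left _ (by positivity)
        exact pow_le_pow_right₀ h3 (by norm_num)

/-- `ε_k (4 log(M+2) + 2) ≤ ε_k m_k / 8` for `M ≤ m_k` -/
theorem CM_le (k M : ℕ) (hM : M ≤ m k) : 4 * Real.log ((M : ℝ) + 2) + 2 ≤ (m k : ℝ) / 8 := by
  have hm : (2 : ℝ) ^ 64 ≤ m k := by exact_mod_cast m_ge k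
  have hM' : (M : ℝ) ≤ m k := by exact_mod_cast hM
  generalize (m k : ℝ) = x at hm hM'
  have hM0 : (0 : ℝ) ≤ M := Nat.cast_nonneg _
  have h1 : Real.log ((M : ℝ) + 2) = Real.log (((M : ℝ) + 2) / 1024) + 10 * Real.log 2 := by
    rw [Real.log_div (by positivity) (by norm_num),
      show (1024 : ℝ) = 2 ^ 10 by norm_num, Real.log_pow]
    push_cast
    ring
  have h2 : Real.log (((M : ℝ) + 2) / 1024) ≤ ((M : ℝ) + 2) / 1024 - 1 :=
    Real.log_le_sub_one_of_pos (by positivity)
  have h3 := Real.log_two_lt_d9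
  have h4 : (2 : ℝ) ^ 64 = 18446744073709551616 := by norm_num
  rw [h4] at hm
  rw [h1]
  linarith

private theorem scl_eq {S S' : ℕ → Finset ℕ} {p p' : ℕ → ℕ} {l l' : ℕ}
    (h : scl S p l = scl S' p' l') :
    p 0 = p' 0 ∧ ((List.range l).map fun r => (S r, p (r + 1))) =
      ((List.range l').map fun r => (S' r, p' (r + 1))) := by
  unfold scl code at h
  rw [Nat.pair_eq_pair] at h
  have h2 := Encodable.encode_injective h.2
  rw [Prod.mk.injEq] at h2
  exact h2

private theorem map_range_eq {α : Type*} {f g : ℕ → α} {l l' : ℕ}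
    (h : (List.range l).map f = (List.range l').map g) : l = l' ∧ ∀ r, r < l → f r = g r := by
  have hl : l = l' := by
    have := congrArg List.length h
    simpa using this
  subst hl
  refine ⟨rfl, fun r hr => ?_⟩
  have h1 := congrArg (fun L => L[r]?) h
  simp only [List.getElem?_map] at h1
  rw [List.getElem?_range hr] at h1
  simpa using h1

theorem scl_inj {S S' : ℕ → Finset ℕ} {p p' : ℕ → ℕ} {l l' : ℕ} (h : scl S p l = scl S' p' l') :
    l = l' ∧ ∀ r, r < l → S r = S' r := by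
  obtain ⟨_, h2⟩ := scl_eq h
  obtain ⟨h3, h4⟩ := map_range_eq h2
  exact ⟨h3, fun r hr => (Prod.mk.inj (h4 r hr)).1⟩

theorem scl_not_isQ (S : ℕ → Finset ℕ) (p : ℕ → ℕ) (l j : ℕ) : ¬ isQ j (scl S p l) := by
  unfold isQ scl code
  rw [Nat.unpair_pair]
  simp

/-- only the labels `p 0, …, p l` and the sets `S 0, …, S (l-1)` matter -/
theorem scl_congr {S S' : ℕ → Finset ℕ} {p p' : ℕ → ℕ} {l : ℕ} (hS : ∀ r, r < l → S r = S' r)
    (hp : ∀ r, r ≤ l → p r = p' r) : scl S p l = scl S' p' l := by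
  unfold scl
  rw [hp 0 (Nat.zero_le _)]
  congr 1
  apply List.map_congr_left
  intro r hr
  rw [List.mem_range] at hr
  rw [hS r hr, hp (r + 1) hr]

/-- the next scale can be made as large as we like by the choice of the label `p l` -/
theorem exists_label (S : ℕ → Finset ℕ) (p : ℕ → ℕ) (l B : ℕ) :
    ∃ c, B < scl S (Function.update p l c) l := by
  have hinj : Function.Injective fun c => scl S (Function.update p l c) l := by
    intro c d h
    obtain ⟨h1, h2⟩ := scl_eq h
    cases l with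
    | zero => simpa using h1
    | succ l =>
      obtain ⟨_, h4⟩ := map_range_eq h2
      have h5 := (Prod.mk.inj (h4 l (Nat.lt_succ_self l))).2
      simpa using h5
  have hinf := Set.infinite_range_of_injective hinj
  obtain ⟨x, ⟨c, rfl⟩, hx⟩ := hinf.exists_gt B
  exact ⟨c, hx⟩

end Pool.Agent.Atomic
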