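import Pool.Agent.Lib.MP_968cc4_an.Basic

/-! Module PHI: the functionals `Φ_k` -/

set_option autoImplicit false

namespace Pool.Agent.Atomic

open Finset

/-- the test vector `2^{-(a+1)}` on a finite set -/
theorem sum_half_pow_le (s : Finset ℕ) : ∑ a ∈ s, ((1 : ℝ) / 2) ^ (a + 1) ≤ 1 := by
  have h1 : Summable (fun a : ℕ => ((1 : ℝ) / 2) ^ (a + 1)) := by
    have h := summable_geometric_two
    have h2 := h.mul_left (1 / 2 : ℝ)
    refine h2.congr (fun a => ?_)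
    rw [pow_succ]; ring
  have h2 : ∑' a : ℕ, ((1 : ℝ) / 2) ^ (a + 1) = 1 := by
    have h3 : ∀ a : ℕ, ((1 : ℝ) / 2) ^ (a + 1) = (1 / 2) * (1 / 2) ^ a := by
      intro a; rw [pow_succ]; ring
    simp_rw [h3]
    rw [tsum_mul_left, tsum_geometric_two]
    norm_num
  calc ∑ a ∈ s, ((1 : ℝ) / 2) ^ (a + 1) ≤ ∑' a : ℕ, ((1 : ℝ) / 2) ^ (a + 1) :=
        h1.sum_le_tsum s (fun a _ => by positivity)
    _ = 1 := h2

theorem exists_pos_KK (k : ℕ) (f : V) : ∃ ξ, KK k ξ ∧ (∀ j ∈ f.support, 0 < ξ j) ∧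
    (∀ j ∈ f.support, ξ j = (1 / 2) ^ (j + 1)) := by
  refine ⟨_, KK.of_sum_le_one (k := k) f.support (fun a => ((1 : ℝ) / 2) ^ (a + 1))
    (fun a _ => by positivity) (sum_half_pow_le _), ?_, ?_⟩
  · intro j hj
    simp only [hj, if_true]
    positivity
  · intro j hj
    simp only [hj, if_true]

theorem lg_nonpos {k : ℕ} {f : V} {ξ : ℕ → ℝ} (hf : ∀ a, 0 ≤ f a) (hξ : KK k ξ) :
    lg f ξ ≤ 0 := by
  unfold lg
  refine Finset.sum_nonpos (fun j _ => ?_)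
  exact mul_nonpos_of_nonneg_of_nonpos (hf j) (Real.log_nonpos (hξ.nonneg j) (hξ.le_one j))

theorem phi_bdd {k : ℕ} {f : V} (hf : ∀ a, 0 ≤ f a) :
    BddAbove {x | ∃ ξ, KK k ξ ∧ (∀ j ∈ f.support, 0 < ξ j) ∧ x = lg f ξ} := by
  refine ⟨0, ?_⟩
  rintro x ⟨ξ, hξ, _, rfl⟩
  exact lg_nonpos hf hξ

theorem phi_nonempty (k : ℕ) (f : V) :
    {x | ∃ ξ, KK k ξ ∧ (∀ j ∈ f.support, 0 < ξ j) ∧ x = lg f ξ}.Nonempty := by
  obtain ⟨ξ, hξ, hpos, _⟩ := exists_pos_KK k f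
  exact ⟨lg f ξ, ξ, hξ, hpos, rfl⟩

/-- members of `𝒦_k` give lower bounds of `Φ_k` -/
theorem le_Phi {k : ℕ} {f : V} {ξ : ℕ → ℝ} (hf : ∀ a, 0 ≤ f a) (hξ : KK k ξ)
    (hpos : ∀ a, f a ≠ 0 → 0 < ξ a) : lg f ξ ≤ Phi k f := by
  unfold Phi
  exact le_csSup (phi_bdd hf) ⟨ξ, hξ, fun j hj => hpos j (Finsupp.mem_support_iff.1 hj), rfl⟩

/-- upper bounds of `Φ_k` -/
theorem Phi_le {k : ℕ} {f : V} {B : ℝ}
    (h : ∀ ξ, KK k ξ → (∀ a, f a ≠ 0 → 0 < ξ a) → lg f ξ ≤ B) : Phi k f ≤ B := by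
  unfold Phi
  refine csSup_le (phi_nonempty k f) ?_
  rintro x ⟨ξ, hξ, hpos, rfl⟩
  exact h ξ hξ (fun a ha => hpos a (Finsupp.mem_support_iff.2 ha))

theorem Phi_zero (k : ℕ) : Phi k 0 = 0 := by
  have h0 : ∀ ξ : ℕ → ℝ, lg (0 : V) ξ = 0 := by
    intro ξ; simp [lg]
  apply le_antisymm
  · exact Phi_le (fun ξ _ _ => by rw [h0])
  · have := le_Phi (k := k) (f := 0) (ξ := fun _ => 0) (fun a => by simp) (KK.zero k)
      (fun a ha => absurd Finsupp.zero_apply ha)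
    rwa [h0] at this

/-- near optimal members of `𝒦_k`, supported in the support of `f` -/
theorem exists_near {k : ℕ} (f : V) (hf : ∀ a, 0 ≤ f a) (δ : ℝ) (hδ : 0 < δ) :
    ∃ ξ, KK k ξ ∧ (∀ a, f a ≠ 0 → 0 < ξ a) ∧ (∀ a, ξ a ≠ 0 → f a ≠ 0) ∧ Phi k f - δ ≤ lg f ξ := by
  have hlt : Phi k f - δ < sSup {x | ∃ ξ, KK k ξ ∧ (∀ j ∈ f.support, 0 < ξ j) ∧ x = lg f ξ} := by
    have : Phi k f = sSup {x | ∃ ξ, KK k ξ ∧ (∀ j ∈ f.support, 0 < ξ j) ∧ x = lg f ξ} := rfl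
    rw [← this]; linarith
  obtain ⟨x, ⟨ξ, hξ, hpos, rfl⟩, hx⟩ := exists_lt_of_lt_csSup (phi_nonempty k f) hlt
  refine ⟨_, hξ.restrict f.support, ?_, ?_, ?_⟩
  · intro a ha
    have : a ∈ f.support := Finsupp.mem_support_iff.2 ha
    simp only [this, if_true]
    exact hpos a this
  · intro a ha
    by_contra hfa
    apply ha
    have : a ∉ f.support := by rw [Finsupp.mem_support_iff]; exact fun h => h hfa
    simp only [this, if_false]
  · refine le_of_lt (lt_of_lt_of_eq hx ?_)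
    refine lg_congr (fun a ha => ?_)
    have : a ∈ f.support := Finsupp.mem_support_iff.2 ha
    simp only [this, if_true]

theorem Phi_nonpos {k : ℕ} {f : V} (hf : ∀ a, 0 ≤ f a) : Phi k f ≤ 0 :=
  Phi_le (fun _ hξ _ => lg_nonpos hf hξ)

/-- the lower bound obtained from the probability vector `2^{-(j+1)}` -/
theorem Phi_lower {k : ℕ} {f : V} (hf : ∀ a, 0 ≤ f a) :
    -(Real.log 2 * ∑ j ∈ f.support, ((j : ℝ) + 1) * f j) ≤ Phi k f := by
  obtain ⟨ξ, hξ, hpos, hval⟩ := exists_pos_KK k f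
  have h1 := le_Phi hf hξ (fun a ha => hpos a (Finsupp.mem_support_iff.2 ha))
  refine le_trans (le_of_eq ?_) h1
  unfold lg
  rw [Finset.mul_sum, ← Finset.sum_neg_distrib]
  refine Finset.sum_congr rfl (fun j hj => ?_)
  rw [hval j hj, Real.log_pow]
  have : Real.log (1 / 2 : ℝ) = - Real.log 2 := by
    rw [one_div, Real.log_inv]
  rw [this]
  push_cast
  ring

theorem Phi_smul {k : ℕ} {f : V} (hf : ∀ a, 0 ≤ f a) {c : ℝ} (hc : 0 ≤ c) :
    Phi k (c • f) = c * Phi k f := by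
  rcases hc.eq_or_lt with hc0 | hc0
  · rw [← hc0, zero_smul, Phi_zero, zero_mul]
  · have hcf : ∀ a, 0 ≤ (c • f) a := fun a => by
      rw [Finsupp.smul_apply, smul_eq_mul]; exact mul_nonneg hc (hf a)
    have hne : ∀ a, (c • f) a ≠ 0 ↔ f a ≠ 0 := fun a => by
      rw [Finsupp.smul_apply, smul_eq_mul]
      constructor
      · exact fun h h2 => h (by rw [h2, mul_zero])
      · exact fun h => mul_ne_zero hc0.ne' h
    apply le_antisymm
    · refine Phi_le (fun ξ hξ hpos => ?_)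
      rw [lg_smul]
      exact mul_le_mul_of_nonneg_left (le_Phi hf hξ (fun a ha => hpos a ((hne a).2 ha))) hc
    · have h1 : Phi k f ≤ c⁻¹ * Phi k (c • f) := by
        refine Phi_le (fun ξ hξ hpos => ?_)
        have h2 := le_Phi hcf hξ (fun a ha => hpos a ((hne a).1 ha))
        rw [lg_smul] at h2
        calc lg f ξ = c⁻¹ * (c * lg f ξ) := by field_simp
          _ ≤ c⁻¹ * Phi k (c • f) := mul_le_mul_of_nonneg_left h2 (inv_nonneg.2 hc)
      calc c * Phi k f ≤ c * (c⁻¹ * Phi k (c • f)) := mul_le_mul_of_nonneg_left h1 hc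
        _ = Phi k (c • f) := by field_simp

theorem Phi_add_le {k : ℕ} {f g : V} (hf : ∀ a, 0 ≤ f a) (hg : ∀ a, 0 ≤ g a) :
    Phi k (f + g) ≤ Phi k f + Phi k g := by
  refine Phi_le (fun ξ hξ hpos => ?_)
  rw [lg_add]
  refine add_le_add (le_Phi hf hξ (fun a ha => hpos a ?_)) (le_Phi hg hξ (fun a ha => hpos a ?_))
  · rw [Finsupp.add_apply]
    have h1 : 0 < f a := lt_of_le_of_ne (hf a) (Ne.symm ha)
    have h2 := hg a
    linarith
  · rw [Finsupp.add_apply]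
    have h1 : 0 < g a := lt_of_le_of_ne (hg a) (Ne.symm ha)
    have h2 := hf a
    linarith

theorem Phi_sum_le {k : ℕ} (n : ℕ) (f : ℕ → V) (hf : ∀ s, s < n → ∀ a, 0 ≤ f s a) :
    Phi k (∑ s ∈ range n, f s) ≤ ∑ s ∈ range n, Phi k (f s) := by
  induction n with
  | zero => simp [Phi_zero]
  | succ n ih =>
    rw [Finset.sum_range_succ, Finset.sum_range_succ]
    refine le_trans (Phi_add_le ?_ (hf n (Nat.lt_succ_self n))) ?_
    · intro a
      rw [Finsupp.finsetSum_apply]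
      exact Finset.sum_nonneg (fun s hs => hf s (lt_trans (mem_range.1 hs) (Nat.lt_succ_self n)) a)
    · exact add_le_add (ih (fun s hs => hf s (lt_trans hs (Nat.lt_succ_self n)))) le_rfl

/-- choice of near optimal members for a family -/
theorem exists_near_family {k : ℕ} (n : ℕ) (f : ℕ → V) (hf : ∀ s, s < n → ∀ a, 0 ≤ f s a)
    (δ : ℝ) (hδ : 0 < δ) : ∃ ψ : ℕ → ℕ → ℝ, ∀ s, s < n → KK k (ψ s) ∧
      (∀ a, f s a ≠ 0 → 0 < ψ s a) ∧ (∀ a, ψ s a ≠ 0 → f s a ≠ 0) ∧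
      Phi k (f s) - δ ≤ lg (f s) (ψ s) := by
  have h : ∀ s, ∃ ξ : ℕ → ℝ, s < n → KK k ξ ∧ (∀ a, f s a ≠ 0 → 0 < ξ a) ∧
      (∀ a, ξ a ≠ 0 → f s a ≠ 0) ∧ Phi k (f s) - δ ≤ lg (f s) ξ := by
    intro s
    by_cases hs : s < n
    · obtain ⟨ξ, h1⟩ := exists_near (k := k) (f s) (hf s hs) δ hδ
      exact ⟨ξ, fun _ => h1⟩
    · exact ⟨0, fun h => absurd h hs⟩
  choose ψ hψ using h
  exact ⟨ψ, hψ⟩

theorem sum_ne_zero_exists {n : ℕ} {f : ℕ → V} {a : ℕ} (h : (∑ s ∈ range n, f s) a ≠ 0) :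
    ∃ s, s < n ∧ f s a ≠ 0 := by
  by_contra hcon
  push Not at hcon
  apply h
  rw [Finsupp.finsetSum_apply]
  exact Finset.sum_eq_zero (fun s hs => hcon s (mem_range.1 hs))

/-- the entropy bound -/
theorem Phi_sum_ge {k : ℕ} (n : ℕ) (f : ℕ → V) (hf : ∀ s, s < n → ∀ a, 0 ≤ f s a) :
    ∑ s ∈ range n, Phi k (f s) - Real.log n * ∑ s ∈ range n, n1 (f s)
      ≤ Phi k (∑ s ∈ range n, f s) := by
  rcases Nat.eq_zero_or_pos n with hn | hn
  · subst hn; simp [Phi_zero]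
  have hn' : (0 : ℝ) < n := by exact_mod_cast hn
  refine le_of_forall_pos_le_add (fun δ hδ => ?_)
  obtain ⟨ψ, hψ⟩ := exists_near_family (k := k) n f hf (δ / n) (by positivity)
  have hK : KK k (fun a => ∑ r ∈ range n, (1 / (n : ℝ)) * ψ r a) := by
    refine KK.convex_sum (range n) (fun _ => 1 / (n : ℝ)) ψ (fun r _ => by positivity) ?_
      (fun r hr => (hψ r (mem_range.1 hr)).1)
    rw [Finset.sum_const, card_range, nsmul_eq_mul]
    field_simp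
    exact le_rfl
  have hsn : ∀ a, 0 ≤ (∑ s ∈ range n, f s) a := fun a => by
    rw [Finsupp.finsetSum_apply]
    exact Finset.sum_nonneg (fun s hs => hf s (mem_range.1 hs) a)
  have hbig : ∀ s, s < n → ∀ a, 1 / (n : ℝ) * ψ s a ≤ ∑ r ∈ range n, (1 / (n : ℝ)) * ψ r a := by
    intro s hs a
    refine Finset.single_le_sum (f := fun r => (1 / (n : ℝ)) * ψ r a) (fun r hr => ?_)
      (mem_range.2 hs)
    exact mul_nonneg (by positivity) ((hψ r (mem_range.1 hr)).1.nonneg a)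
  have hpos : ∀ a, (∑ s ∈ range n, f s) a ≠ 0 → 0 < ∑ r ∈ range n, (1 / (n : ℝ)) * ψ r a := by
    intro a ha
    obtain ⟨s, hs, hsa⟩ := sum_ne_zero_exists ha
    have h1 := (hψ s hs).2.1 a hsa
    exact lt_of_lt_of_le (by positivity) (hbig s hs a)
  have h1 := le_Phi (k := k) hsn hK hpos
  have h2 : ∑ s ∈ range n, (Phi k (f s) - δ / n + n1 (f s) * Real.log (1 / (n : ℝ)))
      ≤ lg (∑ s ∈ range n, f s) (fun a => ∑ r ∈ range n, (1 / (n : ℝ)) * ψ r a) := by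
    rw [lg_sum]
    refine Finset.sum_le_sum (fun s hs => ?_)
    have hs' := mem_range.1 hs
    obtain ⟨g1, g2, g3, g4⟩ := hψ s hs'
    have h3 : lg (f s) (fun a => 1 / (n : ℝ) * ψ s a) = lg (f s) (ψ s)
        + n1 (f s) * Real.log (1 / (n : ℝ)) :=
      lg_const_mul (hf s hs') (by positivity) g2
    have h4 : lg (f s) (fun a => 1 / (n : ℝ) * ψ s a)
        ≤ lg (f s) (fun a => ∑ r ∈ range n, (1 / (n : ℝ)) * ψ r a) := by
      refine lg_mono (hf s hs') (fun a ha => ?_) (fun a _ => hbig s hs' a)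
      have := g2 a ha
      positivity
    linarith
  have h5 : ∑ s ∈ range n, (Phi k (f s) - δ / n + n1 (f s) * Real.log (1 / (n : ℝ)))
      = ∑ s ∈ range n, Phi k (f s) - Real.log n * ∑ s ∈ range n, n1 (f s) - δ := by
    rw [Finset.sum_add_distrib, Finset.sum_sub_distrib, Finset.sum_const, card_range, nsmul_eq_mul,
      ← Finset.sum_mul, one_div, Real.log_inv]
    field_simp
    ring
  linarith

/-- successive functions, at most `m i` of them -/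
theorem Phi_sum_succs {k : ℕ} (i n : ℕ) (hn : n ≤ m i) (f : ℕ → V)
    (hf : ∀ s, s < n → ∀ a, 0 ≤ f s a) (hs : Succs n (fun s => ⇑(f s))) :
    ∑ s ∈ range n, Phi k (f s) - w i * ∑ s ∈ range n, n1 (f s)
      ≤ Phi k (∑ s ∈ range n, f s) := by
  rcases Nat.eq_zero_or_pos n with hn0 | hn0
  · subst hn0; simp [Phi_zero]
  have hn' : (0 : ℝ) < n := by exact_mod_cast hn0
  have hW : (0 : ℝ) < (W i : ℝ) := by
    have := W_ge i
    have h : 0 < W i := by omega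
    exact_mod_cast h
  refine le_of_forall_pos_le_add (fun δ hδ => ?_)
  obtain ⟨ψ, hψ⟩ := exists_near_family (k := k) n f hf (δ / n) (by positivity)
  have hsucc : Succs n ψ := Succs.mono hs (fun r hr a ha => (hψ r hr).2.2.1 a ha)
  have hK : KK k (av (W i : ℝ)⁻¹ n ψ) := KK.avg i n ψ hn (fun r hr => (hψ r hr).1) hsucc
  have hsn : ∀ a, 0 ≤ (∑ s ∈ range n, f s) a := fun a => by
    rw [Finsupp.finsetSum_apply]
    exact Finset.sum_nonneg (fun s hs => hf s (mem_range.1 hs) a)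
  have hval : ∀ s, s < n → ∀ a, f s a ≠ 0 → av (W i : ℝ)⁻¹ n ψ a = (W i : ℝ)⁻¹ * ψ s a := by
    intro s hs a ha
    have h1 := ((hψ s hs).2.1 a ha).ne'
    show (W i : ℝ)⁻¹ * ∑ r ∈ range n, ψ r a = _
    rw [hsucc.sum_eq hs h1]
  have hpos : ∀ a, (∑ s ∈ range n, f s) a ≠ 0 → 0 < av (W i : ℝ)⁻¹ n ψ a := by
    intro a ha
    obtain ⟨s, hs, hsa⟩ := sum_ne_zero_exists ha
    rw [hval s hs a hsa]
    have h1 := (hψ s hs).2.1 a hsa
    positivity
  have h1 := le_Phi (k := k) hsn hK hpos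
  have h2 : ∑ s ∈ range n, (Phi k (f s) - δ / n + n1 (f s) * Real.log ((W i : ℝ)⁻¹))
      ≤ lg (∑ s ∈ range n, f s) (av (W i : ℝ)⁻¹ n ψ) := by
    rw [lg_sum]
    refine Finset.sum_le_sum (fun s hs => ?_)
    have hs' := mem_range.1 hs
    obtain ⟨g1, g2, g3, g4⟩ := hψ s hs'
    have h3 : lg (f s) (fun a => (W i : ℝ)⁻¹ * ψ s a) = lg (f s) (ψ s)
        + n1 (f s) * Real.log ((W i : ℝ)⁻¹) :=
      lg_const_mul (hf s hs') (by positivity) g2
    have h4 : lg (f s) (av (W i : ℝ)⁻¹ n ψ) = lg (f s) (fun a => (W i : ℝ)⁻¹ * ψ s a) :=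
      lg_congr (fun a ha => hval s hs' a ha)
    linarith
  have h5 : ∑ s ∈ range n, (Phi k (f s) - δ / n + n1 (f s) * Real.log ((W i : ℝ)⁻¹))
      = ∑ s ∈ range n, Phi k (f s) - w i * ∑ s ∈ range n, n1 (f s) - δ := by
    rw [Finset.sum_add_distrib, Finset.sum_sub_distrib, Finset.sum_const, card_range, nsmul_eq_mul,
      ← Finset.sum_mul, Real.log_inv]
    unfold w
    field_simp
    ring
  linarith

end Pool.Agent.Atomic
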