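import Pool.Agent.Lib.MP_968cc4_an.CMB

/-! Module RST: the reset lemma -/

set_option autoImplicit false

namespace Pool.Agent.Atomic

open Finset

/-- pigeonhole: among infinitely many points of a box there are two that are close,
arbitrarily far out -/
theorem pigeon (d : ℕ) (x : ℕ → ℕ → ℝ) (R : ℝ) (hx : ∀ a k, k < d → |x a k| ≤ R) (δ : ℝ)
    (hδ : 0 < δ) (A : ℕ) : ∃ a a', A ≤ a ∧ a < a' ∧ ∀ k, k < d → |x a k - x a' k| ≤ δ := by
  have hmem : ∀ (n : ℕ) (k : Fin d), ⌊x (A + n) k / δ⌋ ∈ Finset.Icc ⌊-R / δ⌋ ⌊R / δ⌋ := by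
    intro n k
    have h := abs_le.1 (hx (A + n) k k.2)
    rw [Finset.mem_Icc]
    exact ⟨Int.floor_le_floor (div_le_div_of_nonneg_right h.1 hδ.le),
      Int.floor_le_floor (div_le_div_of_nonneg_right h.2 hδ.le)⟩
  let f : ℕ → Fin d → Finset.Icc ⌊-R / δ⌋ ⌊R / δ⌋ := fun n k => ⟨_, hmem n k⟩
  have key : ∀ n n', f n = f n' → ∀ k, k < d → |x (A + n) k - x (A + n') k| ≤ δ := by
    intro n n' h k hk
    have h1 := congrArg Subtype.val (congrFun h ⟨k, hk⟩)
    have h2 : ⌊x (A + n) k / δ⌋ = ⌊x (A + n') k / δ⌋ := h1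
    have h3 := Int.abs_sub_lt_one_of_floor_eq_floor h2
    rw [← sub_div, abs_div, abs_of_pos hδ, div_lt_one hδ] at h3
    exact h3.le
  obtain ⟨n, n', hne, hf⟩ := Finite.exists_ne_map_eq_of_infinite f
  rcases lt_or_gt_of_ne hne with h | h
  · exact ⟨A + n, A + n', by omega, by omega, key n n' hf⟩
  · exact ⟨A + n', A + n, by omega, by omega, key n' n hf.symm⟩

private theorem m_one_le' (k : ℕ) : (1 : ℝ) ≤ m k := by
  have h : 2 ^ 64 ≤ m k := m_ge k
  have h1 : 1 ≤ m k := le_trans (by norm_num) h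
  exact_mod_cast h1

private theorem eps_le' (k : ℕ) : eps k ≤ (1 / 2 ^ 100 : ℝ) / 4 ^ k := by
  refine le_trans ?_ (eps_m_le k)
  have := mul_le_mul_of_nonneg_left (m_one_le' k) (eps_pos k).le
  simpa using this

private theorem eps_anti {i j : ℕ} (h : i ≤ j) : eps j ≤ eps i := by
  unfold eps
  have h1 := m_one_le' i
  have h2 : (m i : ℝ) ≤ m j := by exact_mod_cast m_strictMono.monotone h
  have h3 : (4 : ℝ) ^ i ≤ 4 ^ j := pow_le_pow_right₀ (by norm_num) h
  have h4 : (m i : ℝ) ^ 4 ≤ (m j : ℝ) ^ 4 := pow_le_pow_left₀ (by linarith) h2 4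
  have h5 : (0 : ℝ) < 4 ^ i := by positivity
  have h6 : (0 : ℝ) < (m i : ℝ) ^ 4 := by positivity
  apply inv_anti₀ (by positivity)
  exact mul_le_mul (mul_le_mul_of_nonneg_left h3 (by positivity)) h4 h6.le (by positivity)

private theorem log3 : Real.log 3 ≤ 7 / 5 := by
  have h1 : Real.log 3 ≤ Real.log 4 := Real.log_le_log (by norm_num) (by norm_num)
  have h2 : Real.log 4 = 2 * Real.log 2 := by
    rw [show (4 : ℝ) = 2 ^ 2 by norm_num, Real.log_pow]; norm_num
  have h3 := Real.log_two_lt_d9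
  linarith

private theorem log3_nonneg : 0 ≤ Real.log 3 := Real.log_nonneg (by norm_num)

private theorem log4 : 2 * Real.log (((2 : ℕ) : ℝ) + 2) + 1 ≤ 4 := by
  have h : (((2 : ℕ) : ℝ) + 2) = 2 ^ 2 := by norm_num
  rw [h, Real.log_pow]
  have := Real.log_two_lt_d9
  push_cast
  norm_num at this ⊢
  linarith

/-- tails of vectors close to a model -/
private theorem n1_far (y b : V) (J : ℕ) (θ : ℕ → ℝ)
    (hθ : ∀ k, 0 ≤ θ k ∧ θ k ≤ (1 / 2 ^ 20 : ℝ) / 4 ^ k) (hb : n1 b ≤ 1)
    (hmod : ∀ k, J ≤ k → |y k - b k| ≤ θ k) : n1 (y.filter (fun j => J ≤ j)) ≤ 2 := by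
  have h1 : y.filter (fun j => J ≤ j)
      = b.filter (fun j => J ≤ j) + (y - b).filter (fun j => J ≤ j) := by
    ext j
    rw [Finsupp.add_apply]
    simp only [Finsupp.filter_apply]
    split_ifs with hj
    · rw [Finsupp.sub_apply]
      ring
    · ring
  rw [h1]
  have h2 : n1 ((y - b).filter (fun j => J ≤ j)) ≤ 2 * (1 / 2 ^ 20) := by
    refine n1_le_geom _ _ (by norm_num) fun j => ?_
    rw [Finsupp.filter_apply]
    split_ifs with hj
    · rw [Finsupp.sub_apply]
      exact le_trans (hmod j hj) (hθ j).2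
    · rw [abs_zero]
      positivity
  have h3 : n1 (b.filter (fun j => J ≤ j)) ≤ 1 := le_trans (n1_filter_le _ _) hb
  refine le_trans (n1_add_le _ _) ?_
  norm_num at h2 ⊢
  linarith

theorem reset (J : ℕ) (v b : ℕ → V) (θ : ℕ → ℝ) (R : ℝ) (hR : ∀ a, q (v a) ≤ R)
    (hθ : ∀ k, 0 ≤ θ k ∧ θ k ≤ (1 / 2 ^ 20 : ℝ) / 4 ^ k)
    (hb : ∀ a, n1 (b a) ≤ 1) (hsupp : ∀ a c, b a c ≠ 0 → J ≤ c)
    (hmod : ∀ a k, J ≤ k → |T (v a) k - b a k| ≤ θ k) (A : ℕ) :
    ∃ a a', A ≤ a ∧ a < a' ∧
      (∀ k, k < J → |T ((1 / 2 : ℝ) • (v a - v a')) k| ≤ 6 * eps k) ∧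
      (∀ k, J ≤ k →
        |T ((1 / 2 : ℝ) • (v a - v a')) k - ((1 / 2 : ℝ) • (b a - b a')) k| ≤ θ k + 8 * eps k) := by
  have hb0 : ∀ a c, c < J → b a c = 0 := fun a c hc => by
    by_contra h
    exact absurd (hsupp a c h) (by omega)
  have hR0 : 0 ≤ R := le_trans (q_nonneg _) (hR 0)
  -- the bounded numbers
  obtain ⟨D, hD⟩ : ∃ D : ℕ → ℕ → ℝ, ∀ a k, D a k = F k (tail k (T (v a))) - F k (b a) :=
    ⟨fun a k => F k (tail k (T (v a))) - F k (b a), fun _ _ => rfl⟩
  have hc0 : 0 ≤ R * 4 ^ J + 1 := by positivity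
  have hDb : ∀ a k, k < J → |D a k| ≤ Real.log 3 * (R + 2 + 1) + 2 * (R * 4 ^ J + 1) := by
    intro a k hk
    obtain ⟨r, hr⟩ : ∃ r : V, r = tail k (T (v a)) - b a := ⟨_, rfl⟩
    have h1 := F_add k (b a) r
    have h2 : b a + r = tail k (T (v a)) := by rw [hr]; abel
    rw [h2] at h1
    have h3 : n1 r ≤ R + 1 := by
      rw [hr]
      refine (n1_sub_le _ _).trans (add_le_add ?_ (hb a))
      refine le_trans ?_ (hR a)
      unfold q
      exact n1_filter_le _ _
    have h4 : |F k r| ≤ 2 * (R * 4 ^ J + 1) := by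
      refine F_bound_geom k r _ hc0 fun j => ?_
      rw [hr, Finsupp.sub_apply, tail_apply]
      have p4 : (0 : ℝ) < 4 ^ j := by positivity
      rcases lt_or_ge j J with hj | hj
      · rw [hb0 a j hj, sub_zero]
        have hle : (R : ℝ) ≤ (R * 4 ^ J + 1) / 4 ^ j := by
          rw [le_div_iff₀ p4]
          have : (4 : ℝ) ^ j ≤ 4 ^ J := pow_le_pow_right₀ (by norm_num) hj.le
          nlinarith
        refine le_trans ?_ hle
        split_ifs
        · exact (abs_le_n1 _ _).trans (hR a)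
        · rw [abs_zero]; exact hR0
      · rw [if_pos (by omega)]
        refine (hmod a j hj).trans ((hθ j).2.trans ?_)
        refine div_le_div_of_nonneg_right ?_ p4.le
        have : (0 : ℝ) ≤ R * 4 ^ J := by positivity
        norm_num
        linarith
    have h5 : D a k = (F k (tail k (T (v a))) - F k (b a) - F k r) + F k r := by
      rw [hD]; ring
    rw [h5]
    refine (abs_add_le _ _).trans (add_le_add (h1.trans ?_) h4)
    exact mul_le_mul_of_nonneg_left (by linarith [hb a]) log3_nonneg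
  have hB : R ≤ Real.log 3 * (R + 2 + 1) + 2 * (R * 4 ^ J + 1) := by
    have h1 : 0 ≤ Real.log 3 * (R + 2 + 1) := mul_nonneg log3_nonneg (by linarith)
    have h2 : (1 : ℝ) ≤ 4 ^ J := one_le_pow₀ (by norm_num)
    nlinarith
  obtain ⟨a, a', h1, h2, h3⟩ := pigeon (2 * J)
    (fun a k => if k < J then T (v a) k else D a (k - J))
    (Real.log 3 * (R + 2 + 1) + 2 * (R * 4 ^ J + 1)) (by
      intro a k hk
      split_ifs with h
      · exact ((abs_le_n1 _ _).trans (hR a)).trans hB
      · exact hDb a _ (by omega)) (eps J) (eps_pos J) A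
  have hy : ∀ k, k < J → |T (v a) k - T (v a') k| ≤ eps J := by
    intro k hk
    have := h3 k (by omega)
    simpa [hk] using this
  have hDD : ∀ k, k < J → |D a k - D a' k| ≤ eps J := by
    intro k hk
    have := h3 (J + k) (by omega)
    simpa using this
  -- the vectors
  obtain ⟨x, hx⟩ : ∃ x : V, x = (1 / 2 : ℝ) • (v a - v a') := ⟨_, rfl⟩
  obtain ⟨c, hc⟩ : ∃ c : V, c = (1 / 2 : ℝ) • (b a - b a') := ⟨_, rfl⟩
  have hck : ∀ k, c k = 1 / 2 * b a k - 1 / 2 * b a' k := by
    intro k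
    rw [hc, Finsupp.smul_apply, Finsupp.sub_apply, smul_eq_mul]
    ring
  -- `comb`
  have hsum : ∑ s ∈ range 2, (if s = 0 then (1 / 2 : ℝ) else -(1 / 2)) •
      (if s = 0 then v a else v a') = x := by
    rw [hx]
    simp only [Finset.sum_range_succ, Finset.sum_range_zero, zero_add, if_true, one_ne_zero,
      if_false]
    rw [smul_sub, neg_smul, ← sub_eq_add_neg]
  have hfar : ∀ k, J ≤ k → |T x k - c k| ≤ θ k + 8 * eps k := by
    intro k hk
    have h := comb 2 (fun s => if s = 0 then (1 / 2 : ℝ) else -(1 / 2))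
      (fun s => if s = 0 then v a else v a') J
      (le_trans (by norm_num) (m_ge J)) k hk
    rw [hsum] at h
    simp only [Finset.sum_range_succ, Finset.sum_range_zero, zero_add, if_true, one_ne_zero,
      if_false] at h
    have n1' := n1_far (T (v a)) (b a) J θ hθ (hb a) (hmod a)
    have n2' := n1_far (T (v a')) (b a') J θ hθ (hb a') (hmod a')
    have e1 : |(1 / 2 : ℝ)| = 1 / 2 := abs_of_pos (by norm_num)
    have e2 : |-(1 / 2 : ℝ)| = 1 / 2 := by rw [abs_neg, e1]
    rw [e1, e2] at h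
    have h4 : eps k * (2 * Real.log (((2 : ℕ) : ℝ) + 2) + 1) * (1 / 2 *
        n1 ((T (v a)).filter (fun j => J ≤ j)) + 1 / 2 *
        n1 ((T (v a')).filter (fun j => J ≤ j))) ≤ eps k * 4 * 2 := by
      refine mul_le_mul ?_ (by linarith) ?_ ?_
      · exact mul_le_mul_of_nonneg_left log4 (eps_pos k).le
      · have := n1_nonneg ((T (v a)).filter (fun j => J ≤ j))
        have := n1_nonneg ((T (v a')).filter (fun j => J ≤ j))
        positivity
      · have := eps_pos k
        positivity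
    have h5 := hmod a k hk
    have h6 := hmod a' k hk
    have h7 := h.trans h4
    rw [hck]
    rw [abs_le] at h5 h6 h7 ⊢
    constructor <;> linarith [h5.1, h5.2, h6.1, h6.2, h7.1, h7.2]
  have hnear : ∀ d k, k < J → J ≤ k + d → |T x k| ≤ 6 * eps k := by
    intro d
    induction d with
    | zero => intro k hk1 hk2; omega
    | succ d ih =>
      intro k hk1 hk2
      have hbig : ∀ j, k < j → j < J → |T x j| ≤ 6 * eps j := fun j hj1 hj2 =>
        ih j hj2 (by omega)
      obtain ⟨ρ, hρ⟩ : ∃ ρ : V, ρ = tail k (T x) - c := ⟨_, rfl⟩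
      have hgeo : ∀ j, |ρ j| ≤ (1 / 2 ^ 19 : ℝ) / 4 ^ j := by
        intro j
        have p4 : (0 : ℝ) < 4 ^ j := by positivity
        have g1 := eps_le' j
        have g2 : 8 * ((1 / 2 ^ 100 : ℝ) / 4 ^ j) ≤ (1 / 2 ^ 20) / 4 ^ j := by
          rw [← mul_div_assoc]
          exact div_le_div_of_nonneg_right (by norm_num) p4.le
        have g3 : (1 / 2 ^ 20 : ℝ) / 4 ^ j + (1 / 2 ^ 20) / 4 ^ j = (1 / 2 ^ 19) / 4 ^ j := by
          rw [← add_div]; congr 1; norm_num
        have g4 : (0 : ℝ) < (1 / 2 ^ 20) / 4 ^ j := by positivity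
        rw [hρ, Finsupp.sub_apply, tail_apply]
        rcases lt_or_ge j J with hj | hj
        · have : c j = 0 := by rw [hck, hb0 a j hj, hb0 a' j hj]; ring
          rw [this, sub_zero]
          split_ifs with hkj
          · have := hbig j hkj hj
            have := eps_pos j
            linarith
          · rw [abs_zero]; positivity
        · rw [if_pos (by omega)]
          have := hfar j hj
          have := (hθ j).2
          linarith
      have f1 := F_add k c ρ
      have e1 : c + ρ = tail k (T x) := by rw [hρ]; abel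
      rw [e1] at f1
      have f2 : n1 ρ ≤ 2 * (1 / 2 ^ 19) := n1_le_geom _ _ (by norm_num) hgeo
      have f3 : |F k ρ| ≤ 2 * (1 / 2 ^ 19) := F_bound_geom k _ _ (by norm_num) hgeo
      have ce : c = (1 / 2 : ℝ) • b a + (-(1 / 2) : ℝ) • b a' := by
        rw [hc, smul_sub, neg_smul, ← sub_eq_add_neg]
      have f4 : |F k c - 1 / 2 * F k (b a) + 1 / 2 * F k (b a')| ≤ Real.log 3 := by
        have := F_add k ((1 / 2 : ℝ) • b a) ((-(1 / 2) : ℝ) • b a')
        rw [← ce, F_smul, F_smul, n1_smul, n1_smul] at this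
        have e1 : |(1 / 2 : ℝ)| = 1 / 2 := abs_of_pos (by norm_num)
        have e2 : |-(1 / 2 : ℝ)| = 1 / 2 := by rw [abs_neg, e1]
        rw [e1, e2] at this
        have e3 : F k c - 1 / 2 * F k (b a) + 1 / 2 * F k (b a')
          = F k c - 1 / 2 * F k (b a) - -(1 / 2) * F k (b a') := by ring
        rw [e3]
        refine this.trans ?_
        have : 1 / 2 * n1 (b a) + 1 / 2 * n1 (b a') ≤ 1 := by linarith [hb a, hb a']
        calc Real.log 3 * (1 / 2 * n1 (b a) + 1 / 2 * n1 (b a')) ≤ Real.log 3 * 1 :=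
              mul_le_mul_of_nonneg_left this log3_nonneg
          _ = Real.log 3 := mul_one _
      have f5 : n1 c ≤ 1 := by
        rw [ce]
        refine (n1_add_le _ _).trans ?_
        rw [n1_smul, n1_smul]
        have e1 : |(1 / 2 : ℝ)| = 1 / 2 := abs_of_pos (by norm_num)
        have e2 : |-(1 / 2 : ℝ)| = 1 / 2 := by rw [abs_neg, e1]
        rw [e1, e2]
        linarith [hb a, hb a']
      have f6 : |F k (tail k (T x)) - F k c - F k ρ| ≤ 7 / 5 * (1 + 2 * (1 / 2 ^ 19)) := by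
        refine f1.trans ?_
        exact mul_le_mul log3 (by linarith) (add_nonneg (n1_nonneg _) (n1_nonneg _))
          (by norm_num)
      have f7 := hDD k hk1
      have f8 := hy k hk1
      have hcomb := comb_error 2 (fun s => if s = 0 then (1 / 2 : ℝ) else -(1 / 2))
        (fun s => if s = 0 then v a else v a') k
      rw [hsum] at hcomb
      simp only [Finset.sum_range_succ, Finset.sum_range_zero, zero_add, if_true, one_ne_zero,
        if_false] at hcomb
      obtain ⟨Z, hZ⟩ : ∃ Z, Z = F k (tail k (T x)) - (1 / 2 * F k (tail k (T (v a))) +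
        -(1 / 2) * F k (tail k (T (v a')))) := ⟨_, rfl⟩
      rw [← hZ] at hcomb
      have hZ2 : Z = (F k (tail k (T x)) - F k c - F k ρ) + F k ρ
          + (F k c - 1 / 2 * F k (b a) + 1 / 2 * F k (b a')) - 1 / 2 * (D a k - D a' k) := by
        rw [hZ, hD, hD]; ring
      have hε1 : eps J ≤ eps k := eps_anti hk1.le
      have hε0 := eps_pos J
      have hε2 : eps J ≤ 1 / 100 := by
        refine (eps_le' J).trans ?_
        have : (1 : ℝ) ≤ 4 ^ J := one_le_pow₀ (by norm_num)
        calc (1 / 2 ^ 100 : ℝ) / 4 ^ J ≤ (1 / 2 ^ 100 : ℝ) / 1 :=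
              div_le_div_of_nonneg_left (by positivity) one_pos this
          _ ≤ 1 / 100 := by norm_num
      have hZ3 : |Z| ≤ 3 := by
        rw [hZ2]
        have l3 := log3
        rw [abs_le] at f3 f4 f6 f7 ⊢
        norm_num at f3 f6 ⊢
        constructor <;> linarith [f3.1, f3.2, f4.1, f4.2, f6.1, f6.2, f7.1, f7.2]
      have hεZ : |eps k * Z| ≤ eps k * 3 := by
        rw [abs_mul, abs_of_pos (eps_pos k)]
        exact mul_le_mul_of_nonneg_left hZ3 (eps_pos k).le
      rw [abs_le] at f8 hεZ ⊢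
      constructor <;> linarith [f8.1, f8.2, hεZ.1, hεZ.2]
  refine ⟨a, a', h1, h2, ?_, ?_⟩
  · intro k hk
    rw [← hx]
    exact hnear J k hk (by omega)
  · intro k hk
    rw [← hx, ← hc]
    exact hfar k hk

end Pool.Agent.Atomic
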