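import Pool.Agent.Lib.MP_968cc4_an.FB

/-! Module TT: the bijection `S` and its inverse `T` -/

set_option autoImplicit false

namespace Pool.Agent.Atomic

open Finset

theorem tail_apply (k : ℕ) (y : V) (j : ℕ) : tail k y j = if k < j then y j else 0 := by
  unfold tail
  rw [Finsupp.filter_apply]

private theorem tail_congr {k : ℕ} {y y' : V} (h : ∀ j, k < j → y j = y' j) :
    tail k y = tail k y' := by
  ext j
  rw [tail_apply, tail_apply]
  split_ifs with hj
  · exact h j hj
  · rfl

private theorem eq_zero_of_sup_lt {y : V} {k : ℕ} (h : y.support.sup id < k) : y k = 0 := by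
  by_contra hne
  have h1 : k ∈ y.support := Finsupp.mem_support_iff.2 hne
  have h2 : k ≤ y.support.sup id := Finset.le_sup (f := id) h1
  omega

theorem Smap_apply (y : V) (k : ℕ) : Smap y k = y k + eps k * F k (tail k y) := by
  unfold Smap
  rw [Finsupp.onFinset_apply]
  split_ifs with h
  · rfl
  · have h1 : y k = 0 := eq_zero_of_sup_lt (not_le.1 h)
    have h2 : tail k y = 0 := by
      ext j
      rw [tail_apply]
      split_ifs with hj
      · exact eq_zero_of_sup_lt (lt_trans (not_le.1 h) hj)
      · rfl
    rw [h1, h2, F_zero, mul_zero, add_zero]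

private theorem determined {y y' : V} {k : ℕ} (h : ∀ j, k ≤ j → Smap y j = Smap y' j) :
    ∀ j, k ≤ j → y j = y' j := by
  set N := max (y.support.sup id) (y'.support.sup id) with hN
  have key : ∀ n j, k ≤ j → N < j + n → y j = y' j := by
    intro n
    induction n with
    | zero =>
      intro j _ hj
      rw [Nat.add_zero] at hj
      rw [eq_zero_of_sup_lt (lt_of_le_of_lt (le_max_left _ _) hj),
        eq_zero_of_sup_lt (lt_of_le_of_lt (le_max_right _ _) hj)]
    | succ n ih =>
      intro j hkj hj
      have h1 : tail j y = tail j y' := tail_congr fun i hi => ih i (by omega) (by omega)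
      have h2 := h j hkj
      rw [Smap_apply, Smap_apply, h1] at h2
      exact add_right_cancel h2
  intro j hj
  exact key (N + 1) j hj (by omega)

private theorem surj_aux (x : V) (n : ℕ) :
    ∃ y : V, ∀ k, x.support.sup id < k + n → y k + eps k * F k (tail k y) = x k := by
  induction n with
  | zero =>
    refine ⟨0, fun k hk => ?_⟩
    rw [Nat.add_zero] at hk
    have h2 : tail k (0 : V) = 0 := by
      ext j
      rw [tail_apply]
      simp
    rw [h2, F_zero, eq_zero_of_sup_lt hk]
    simp
  | succ n ih =>
    obtain ⟨y, hy⟩ := ih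
    by_cases hn : x.support.sup id < n
    · exact ⟨y, fun k _ => hy k (by omega)⟩
    · obtain ⟨k0, hk0⟩ : ∃ k0, x.support.sup id = k0 + n :=
        ⟨x.support.sup id - n, by omega⟩
      refine ⟨y.update k0 (x k0 - eps k0 * F k0 (tail k0 y)), fun k hk => ?_⟩
      have ht : ∀ k, k0 ≤ k → tail k (y.update k0 (x k0 - eps k0 * F k0 (tail k0 y)))
          = tail k y := by
        intro k hk'
        refine tail_congr fun j hj => ?_
        rw [Finsupp.coe_update, Function.update_of_ne (by omega)]
      rcases Nat.lt_or_ge k0 k with h | h
      · rw [ht k h.le, Finsupp.coe_update, Function.update_of_ne (by omega)]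
        exact hy k (by omega)
      · have : k = k0 := by omega
        subst this
        rw [ht k le_rfl, Finsupp.coe_update, Function.update_self]
        ring

theorem Smap_bijective : Function.Bijective Smap := by
  constructor
  · intro y y' h
    ext j
    exact determined (k := 0) (fun j _ => by rw [h]) j (Nat.zero_le _)
  · intro x
    obtain ⟨y, hy⟩ := surj_aux x (x.support.sup id + 1)
    refine ⟨y, ?_⟩
    ext k
    rw [Smap_apply]
    exact hy k (by omega)

theorem Smap_T (x : V) : Smap (T x) = x :=
  Function.rightInverse_invFun Smap_bijective.surjective x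

theorem T_Smap (y : V) : T (Smap y) = y :=
  Function.leftInverse_invFun Smap_bijective.injective y

/-- the recursion defining `T` -/
theorem T_apply (x : V) (k : ℕ) : T x k = x k - eps k * F k (tail k (T x)) := by
  have h := Smap_apply (T x) k
  rw [Smap_T] at h
  rw [h]
  ring

theorem T_smul (c : ℝ) (x : V) : T (c • x) = c • T x := by
  have h : Smap (c • T x) = c • x := by
    ext k
    have h1 : tail k (c • T x) = c • tail k (T x) := by
      ext j
      rw [Finsupp.smul_apply, tail_apply, tail_apply, Finsupp.smul_apply]
      split_ifs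
      · rfl
      · simp
    have h2 := Smap_apply (T x) k
    rw [Smap_T] at h2
    rw [Smap_apply, h1, F_smul, Finsupp.smul_apply, Finsupp.smul_apply, h2, smul_eq_mul,
      smul_eq_mul]
    ring
  rw [← h, T_Smap]

theorem T_zero : T 0 = 0 := by
  have h := T_smul 0 0
  rwa [zero_smul, zero_smul] at h

/-- triangularity: `T x` above `k` only depends on `x` above `k` -/
theorem T_tail_congr {x x' : V} {k : ℕ} (h : ∀ j, k < j → x j = x' j) :
    tail k (T x) = tail k (T x') := by
  refine tail_congr fun j hj => ?_
  refine determined (k := k + 1) (fun j hj => ?_) j hj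
  rw [Smap_T, Smap_T]
  exact h j hj

/-- `T x` vanishes beyond the support of `x` -/
theorem T_eq_zero_of_lt {x : V} {N : ℕ} (h : ∀ j, N < j → x j = 0) {j : ℕ} (hj : N < j) :
    T x j = 0 := by
  have h1 := T_tail_congr (x := x) (x' := 0) (k := N) (fun j hj => by rw [h j hj]; rfl)
  have h2 := DFunLike.congr_fun h1 j
  rw [tail_apply, tail_apply, if_pos hj, if_pos hj, T_zero] at h2
  exact h2

end Pool.Agent.Atomic
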