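import Pool.Agent.Lib.MP_968cc4_an.GAV
import Pool.Agent.Lib.MP_968cc4_an.LA

/-! Module TYP: vectors of type `q` -/

set_option autoImplicit false

namespace Pool.Agent.Atomic

open Finset

/-! ### Averaged combinations -/

theorem typ_cmb_wsum {z : ℕ → V} {C : ℝ} (hC : 0 ≤ C) (n : ℕ) (a : ℕ → ℝ) (v : ℕ → V)
    (ha : ∑ s ∈ range n, |a s| ≤ 1) (hv : ∀ s, s < n → Cmb z C (v s)) :
    Cmb z C (∑ s ∈ range n, a s • v s) := by
  classical
  have hv' : ∀ s, ∃ c : V, s < n → n1 c ≤ C ∧ v s = Finsupp.linearCombination ℝ z c := by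
    intro s
    by_cases hs : s < n
    · obtain ⟨c, hc1, hc2⟩ := hv s hs
      exact ⟨c, fun _ => ⟨hc1, by rw [hc2, Finsupp.linearCombination_apply]⟩⟩
    · exact ⟨0, fun h => absurd h hs⟩
  choose c hc using hv'
  refine ⟨∑ s ∈ range n, a s • c s, ?_, ?_⟩
  · refine (n1_sum_le n _).trans ?_
    have h1 : ∑ s ∈ range n, n1 (a s • c s) ≤ ∑ s ∈ range n, |a s| * C := by
      refine Finset.sum_le_sum fun s hs => ?_
      rw [n1_smul]
      exact mul_le_mul_of_nonneg_left (hc s (mem_range.1 hs)).1 (abs_nonneg _)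
    refine h1.trans ?_
    rw [← Finset.sum_mul]
    calc (∑ s ∈ range n, |a s|) * C ≤ 1 * C := mul_le_mul_of_nonneg_right ha hC
      _ = C := one_mul C
  · rw [← Finsupp.linearCombination_apply (R := ℝ) (v := z), map_sum]
    refine Finset.sum_congr rfl fun s hs => ?_
    rw [map_smul, ← (hc s (mem_range.1 hs)).2]

/-! ### The dual side of an average of index `q` -/

/-- the value of a sum of successive functions on one of them -/
theorem typ_sum_apply {n : ℕ} {f : ℕ → V} (hs : Succs n (fun s => ⇑(f s))) {s a : ℕ} (hsn : s < n)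
    (ha : f s a ≠ 0) : (∑ r ∈ range n, f r) a = f s a := by
  rw [Finsupp.finsetSum_apply]
  exact hs.sum_eq hsn ha

/-- the entropy of an average -/
theorem typ_ent_avg (q : ℕ) (f H : ℕ → V) (hf : ∀ s, s < m q → ∀ a, 0 ≤ f s a)
    (hs : Succs (m q) (fun s => ⇑(f s))) (hH0 : ∀ s, s < m q → ∀ a, 0 ≤ H s a)
    (hH : ∀ s, s < m q → ∀ a, H s a ≠ 0 ↔ f s a ≠ 0) :
    ent ((m q : ℝ)⁻¹ • ∑ s ∈ range (m q), f s)
        (((W q : ℝ) / (m q : ℝ)) • ∑ s ∈ range (m q), H s)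
      = (m q : ℝ)⁻¹ * ∑ s ∈ range (m q), (ent (f s) (H s) - w q * n1 (f s)) := by
  classical
  have hmpos : (0 : ℝ) < (m q : ℝ) := by
    have h := m_ge q
    have : 0 < m q := lt_of_lt_of_le (by norm_num) h
    exact_mod_cast this
  have hWpos : (0 : ℝ) < (W q : ℝ) := by
    have h := W_ge q
    have : 0 < W q := lt_of_lt_of_le (by norm_num) h
    exact_mod_cast this
  have hsH : Succs (m q) (fun s => ⇑(H s)) := hs.mono (fun r hr a ha => (hH r hr a).1 ha)
  set x : V := (m q : ℝ)⁻¹ • ∑ s ∈ range (m q), f s with hx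
  set G : V := ((W q : ℝ) / (m q : ℝ)) • ∑ s ∈ range (m q), H s with hG
  have h1 : ent x G = lg x (fun a => x a / G a) := rfl
  have h2 : lg x (fun a => x a / G a) = (m q : ℝ)⁻¹ * ∑ s ∈ range (m q),
      lg (f s) (fun a => x a / G a) := by
    rw [hx, lg_smul, lg_sum]
  rw [h1, h2]
  congr 1
  refine Finset.sum_congr rfl fun s hs' => ?_
  have hsn := mem_range.1 hs'
  have h3 : lg (f s) (fun a => x a / G a)
      = lg (f s) (fun a => (W q : ℝ)⁻¹ * (f s a / H s a)) := by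
    refine lg_congr fun a ha => ?_
    have hHa := (hH s hsn a).2 ha
    have e1 : x a = (m q : ℝ)⁻¹ * f s a := by
      rw [hx, Finsupp.smul_apply, typ_sum_apply hs hsn ha, smul_eq_mul]
    have e2 : G a = ((W q : ℝ) / (m q : ℝ)) * H s a := by
      rw [hG, Finsupp.smul_apply, typ_sum_apply hsH hsn hHa, smul_eq_mul]
    show x a / G a = (W q : ℝ)⁻¹ * (f s a / H s a)
    rw [e1, e2]
    field_simp
  have hpos : ∀ a, f s a ≠ 0 → 0 < f s a / H s a := by
    intro a ha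
    have hHa := (hH s hsn a).2 ha
    exact div_pos (lt_of_le_of_ne (hf s hsn a) (Ne.symm ha))
      (lt_of_le_of_ne (hH0 s hsn a) (Ne.symm hHa))
  rw [h3, lg_const_mul (hf s hsn) (inv_pos.2 hWpos) hpos, Real.log_inv]
  show ent (f s) (H s) + n1 (f s) * -Real.log (W q) = ent (f s) (H s) - w q * n1 (f s)
  unfold w
  ring

/-- the dual side of an average of `m q` successive pieces of mass one half -/
theorem typ_dual (j q : ℕ) (f H : ℕ → V) (hf : ∀ s, s < m q → ∀ a, 0 ≤ f s a)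
    (hs : Succs (m q) (fun s => ⇑(f s))) (hn : ∀ s, s < m q → n1 (f s) = 1 / 2)
    (hR : ∀ s, s < m q → Rep j (f s) (H s) 2)
    (hNB : NB j (((W q : ℝ) / (m q : ℝ)) • ∑ s ∈ range (m q), H s) 4) :
    Rep j ((m q : ℝ)⁻¹ • ∑ s ∈ range (m q), f s)
      (((W q : ℝ) / (m q : ℝ)) • ∑ s ∈ range (m q), H s) 5 ∧
    (∃ ψ : ℕ → ℕ → ℝ, (∀ r, r < m q → KK j (ψ r)) ∧ Succs (m q) ψ ∧
    (∀ r, r < m q → ∀ a, ψ r a ≠ 0 → ((m q : ℝ)⁻¹ • ∑ s ∈ range (m q), f s) a ≠ 0) ∧
    (∀ a, ((m q : ℝ)⁻¹ • ∑ s ∈ range (m q), f s) a ≠ 0 → 0 < av (W q : ℝ)⁻¹ (m q) ψ a) ∧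
    Phi j ((m q : ℝ)⁻¹ • ∑ s ∈ range (m q), f s) - 5
      ≤ lg ((m q : ℝ)⁻¹ • ∑ s ∈ range (m q), f s) (av (W q : ℝ)⁻¹ (m q) ψ)) := by
  classical
  have hmpos : (0 : ℝ) < (m q : ℝ) := by
    have h := m_ge q
    have : 0 < m q := lt_of_lt_of_le (by norm_num) h
    exact_mod_cast this
  have hWpos : (0 : ℝ) < (W q : ℝ) := by
    have h := W_ge q
    have : 0 < W q := lt_of_lt_of_le (by norm_num) h
    exact_mod_cast this
  have hH0 : ∀ s, s < m q → ∀ a, 0 ≤ H s a := fun s hs => (hR s hs).1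
  have hH : ∀ s, s < m q → ∀ a, H s a ≠ 0 ↔ f s a ≠ 0 := fun s hs => (hR s hs).2.1
  have hent := typ_ent_avg q f H hf hs hH0 hH
  have hsH : Succs (m q) (fun s => ⇑(H s)) := hs.mono (fun r hr a ha => (hH r hr a).1 ha)
  set x : V := (m q : ℝ)⁻¹ • ∑ s ∈ range (m q), f s with hx
  set G : V := ((W q : ℝ) / (m q : ℝ)) • ∑ s ∈ range (m q), H s with hG
  have hx0 : ∀ a, 0 ≤ x a := by
    intro a
    rw [hx, Finsupp.smul_apply, Finsupp.finsetSum_apply, smul_eq_mul]
    exact mul_nonneg (inv_nonneg.2 hmpos.le)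
      (Finset.sum_nonneg fun s hs' => hf s (mem_range.1 hs') a)
  have hG0 : ∀ a, 0 ≤ G a := by
    intro a
    rw [hG, Finsupp.smul_apply, Finsupp.finsetSum_apply, smul_eq_mul]
    exact mul_nonneg (div_nonneg hWpos.le hmpos.le)
      (Finset.sum_nonneg fun s hs' => hH0 s (mem_range.1 hs') a)
  have hxne : ∀ a, x a ≠ 0 ↔ ∃ s, s < m q ∧ f s a ≠ 0 := by
    intro a
    constructor
    · intro h
      refine sum_ne_zero_exists ?_
      intro h0
      apply h
      rw [hx, Finsupp.smul_apply, h0, smul_zero]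
    · rintro ⟨s, hsn, ha⟩
      rw [hx, Finsupp.smul_apply, typ_sum_apply hs hsn ha, smul_eq_mul]
      exact mul_ne_zero (inv_pos.2 hmpos).ne' ha
  have hGne : ∀ a, G a ≠ 0 ↔ ∃ s, s < m q ∧ H s a ≠ 0 := by
    intro a
    constructor
    · intro h
      refine sum_ne_zero_exists ?_
      intro h0
      apply h
      rw [hG, Finsupp.smul_apply, h0, smul_zero]
    · rintro ⟨s, hsn, ha⟩
      rw [hG, Finsupp.smul_apply, typ_sum_apply hsH hsn ha, smul_eq_mul]
      exact mul_ne_zero (div_pos hWpos hmpos).ne' ha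
  have hGx : ∀ a, G a ≠ 0 ↔ x a ≠ 0 := by
    intro a
    rw [hGne, hxne]
    constructor
    · rintro ⟨s, hsn, ha⟩; exact ⟨s, hsn, (hH s hsn a).1 ha⟩
    · rintro ⟨s, hsn, ha⟩; exact ⟨s, hsn, (hH s hsn a).2 ha⟩
  have hnx : n1 x = 1 / 2 := by
    rw [hx, n1_smul, n1_sum_of_nonneg _ _ hf, Finset.sum_congr rfl (fun s hs' =>
      hn s (mem_range.1 hs')), Finset.sum_const, card_range, nsmul_eq_mul,
      abs_of_pos (inv_pos.2 hmpos)]
    field_simp
  -- the sum of the values of the pieces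
  have hsumn : ∑ s ∈ range (m q), w q * n1 (f s) = (m q : ℝ) * (w q / 2) := by
    rw [Finset.sum_congr rfl (fun s hs' => by rw [hn s (mem_range.1 hs')]), Finset.sum_const,
      card_range, nsmul_eq_mul]
    ring
  have hent' : ent x G = (m q : ℝ)⁻¹ * ∑ s ∈ range (m q), ent (f s) (H s) - w q / 2 := by
    rw [hent, Finset.sum_sub_distrib, hsumn, mul_sub]
    congr 1
    field_simp
  have hPhi1 : (m q : ℝ)⁻¹ * ∑ s ∈ range (m q), Phi j (f s) - w q / 2 ≤ Phi j x := by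
    have h := Phi_sum_succs (k := j) q (m q) le_rfl f hf hs
    rw [Finset.mul_sum, hsumn] at h
    have h0 : ∀ a, 0 ≤ (∑ s ∈ range (m q), f s) a := by
      intro a
      rw [Finsupp.finsetSum_apply]
      exact Finset.sum_nonneg fun s hs' => hf s (mem_range.1 hs') a
    rw [hx, Phi_smul h0 (inv_nonneg.2 hmpos.le)]
    have h2 := mul_le_mul_of_nonneg_left h (inv_nonneg.2 hmpos.le)
    rw [mul_sub] at h2
    refine le_trans (le_of_eq ?_) h2
    congr 1
    field_simp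
  have hup : ∑ s ∈ range (m q), ent (f s) (H s) ≤ ∑ s ∈ range (m q), Phi j (f s) + m q * 2 := by
    have : ∑ s ∈ range (m q), ent (f s) (H s) ≤ ∑ s ∈ range (m q), (Phi j (f s) + 2) := by
      refine Finset.sum_le_sum fun s hs' => ?_
      have h := abs_le.1 (hR s (mem_range.1 hs')).2.2
      linarith [h.2]
    refine this.trans (le_of_eq ?_)
    rw [Finset.sum_add_distrib, Finset.sum_const, card_range, nsmul_eq_mul]
  have hup' : (m q : ℝ)⁻¹ * ∑ s ∈ range (m q), ent (f s) (H s)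
      ≤ (m q : ℝ)⁻¹ * ∑ s ∈ range (m q), Phi j (f s) + 2 := by
    have h2 := mul_le_mul_of_nonneg_left hup (inv_nonneg.2 hmpos.le)
    refine h2.trans (le_of_eq ?_)
    rw [mul_add]
    congr 1
    field_simp
  have hcert := cert j x G 4 hx0 (by rw [hnx]; norm_num) hG0 hGx (by norm_num) hNB
  rw [hnx] at hcert
  have hlog8 : Real.log (4 / (1 / 2)) ≤ 3 := by
    have h8 : (4 / (1 / 2) : ℝ) = 2 ^ 3 := by norm_num
    rw [h8, Real.log_pow]
    have := Real.log_two_lt_d9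
    push_cast
    linarith
  have hlow : Phi j x ≤ ent x G + 3 / 2 := by linarith
  refine ⟨⟨hG0, hGx, ?_⟩, ?_⟩
  · rw [abs_le]
    constructor
    · linarith
    · linarith
  · obtain ⟨ψ, hψ⟩ := exists_near_family (k := j) (m q) f hf 1 one_pos
    have hψs : Succs (m q) ψ := hs.mono (fun r hr a ha => (hψ r hr).2.2.1 a ha)
    have hψ0 : ∀ r, r < m q → ∀ a, 0 ≤ ψ r a := fun r hr a => (hψ r hr).1.nonneg a
    have hval : ∀ s, s < m q → ∀ a, f s a ≠ 0 →
        av (W q : ℝ)⁻¹ (m q) ψ a = (W q : ℝ)⁻¹ * ψ s a := by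
      intro s hsn a ha
      have hpos := (hψ s hsn).2.1 a ha
      unfold av
      rw [hψs.sum_eq hsn hpos.ne']
    refine ⟨ψ, fun r hr => (hψ r hr).1, hψs, ?_, ?_, ?_⟩
    · intro r hr a ha
      exact (hxne a).2 ⟨r, hr, (hψ r hr).2.2.1 a ha⟩
    · intro a ha
      obtain ⟨s, hsn, hfa⟩ := (hxne a).1 ha
      rw [hval s hsn a hfa]
      exact mul_pos (inv_pos.2 hWpos) ((hψ s hsn).2.1 a hfa)
    · have h2 : lg x (av (W q : ℝ)⁻¹ (m q) ψ) = (m q : ℝ)⁻¹ * ∑ s ∈ range (m q),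
          (lg (f s) (ψ s) - w q * n1 (f s)) := by
        rw [hx, lg_smul, lg_sum]
        congr 1
        refine Finset.sum_congr rfl fun s hs' => ?_
        have hsn := mem_range.1 hs'
        rw [lg_congr (hval s hsn), lg_const_mul (hf s hsn) (inv_pos.2 hWpos) (hψ s hsn).2.1,
          Real.log_inv]
        unfold w
        ring
      have h3 : ∑ s ∈ range (m q), Phi j (f s) - m q * 1 ≤ ∑ s ∈ range (m q), lg (f s) (ψ s) := by
        have : ∑ s ∈ range (m q), (Phi j (f s) - 1) ≤ ∑ s ∈ range (m q), lg (f s) (ψ s) :=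
          Finset.sum_le_sum fun s hs' => (hψ s (mem_range.1 hs')).2.2.2
        refine le_trans (le_of_eq ?_) this
        rw [Finset.sum_sub_distrib, Finset.sum_const, card_range, nsmul_eq_mul]
      have h4 : lg x (av (W q : ℝ)⁻¹ (m q) ψ)
          = (m q : ℝ)⁻¹ * ∑ s ∈ range (m q), lg (f s) (ψ s) - w q / 2 := by
        rw [h2, Finset.sum_sub_distrib, hsumn, mul_sub]
        congr 1
        field_simp
      have h5 : (m q : ℝ)⁻¹ * ∑ s ∈ range (m q), Phi j (f s) - 1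
          ≤ (m q : ℝ)⁻¹ * ∑ s ∈ range (m q), lg (f s) (ψ s) := by
        have h6 := mul_le_mul_of_nonneg_left h3 (inv_nonneg.2 hmpos.le)
        refine le_trans (le_of_eq ?_) h6
        rw [mul_sub]
        congr 1
        field_simp
      linarith


/-! ### The choice of the pieces -/

/-- the data of a piece: scale, vector, model, flat representatives, bound -/
structure TypDat where
  i : ℕ
  v : V
  b : V
  H : ℕ → Bool → V
  B : ℕ

/-- the piece `x` is good beyond `B` -/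
def TypGood (z : ℕ → V) (J0 q B : ℕ) (x : TypDat) : Prop :=
  B ≤ x.i ∧ B ≤ x.B ∧ Cmb z 300 x.v ∧ Bal x.b ∧ (∀ k, |T x.v k - x.b k| ≤ eps k * m k / 2) ∧
  (∀ a, x.b a ≠ 0 → B < a ∧ a ≤ x.B) ∧
  ∀ j, j ≤ J0 → ∀ s : Bool, Flat j (2 * m x.i) (x.H j s) ∧ Rep j (prt s x.b) (x.H j s) 2 ∧
    ((W q : ℝ) * n1 (x.H j s)) ^ 2 ≤ x.B

theorem typ_exists_dat (z : ℕ → V) (hz : Sep z) (J0 q B : ℕ) (hJ : J0 ≤ B) :
    ∃ x : TypDat, TypGood z J0 q B x := by
  classical
  obtain ⟨v, b, ⟨h1, h2, h3, h4⟩, h5⟩ := good_average z hz J0 B B hJ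
  have h4' : ∀ j, ∀ s : Bool, ∃ H : V, j ≤ J0 → Flat j (2 * m B) H ∧ Rep j (prt s b) H 2 := by
    intro j s
    by_cases hj : j ≤ J0
    · obtain ⟨H, hH⟩ := h4 j hj s
      exact ⟨H, fun _ => hH⟩
    · exact ⟨0, fun h => absurd h hj⟩
  choose H hH using h4'
  -- the bound
  have hbd : ∃ R : ℕ, ∀ j, j ≤ J0 → ∀ s : Bool, ((W q : ℝ) * n1 (H j s)) ^ 2 ≤ R := by
    refine ⟨⌈∑ j ∈ range (J0 + 1), ∑ s : Bool, ((W q : ℝ) * n1 (H j s)) ^ 2⌉₊, fun j hj s => ?_⟩
    refine le_trans ?_ (Nat.le_ceil _)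
    have e1 : ((W q : ℝ) * n1 (H j s)) ^ 2 ≤ ∑ s : Bool, ((W q : ℝ) * n1 (H j s)) ^ 2 :=
      Finset.single_le_sum (f := fun s : Bool => ((W q : ℝ) * n1 (H j s)) ^ 2)
        (fun s _ => sq_nonneg _) (Finset.mem_univ s)
    have e2 : ∑ s : Bool, ((W q : ℝ) * n1 (H j s)) ^ 2
        ≤ ∑ j ∈ range (J0 + 1), ∑ s : Bool, ((W q : ℝ) * n1 (H j s)) ^ 2 :=
      Finset.single_le_sum (f := fun j => ∑ s : Bool, ((W q : ℝ) * n1 (H j s)) ^ 2)
        (fun j _ => Finset.sum_nonneg fun s _ => sq_nonneg _)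
        (mem_range.2 (Nat.lt_succ_of_le hj))
    exact e1.trans e2
  obtain ⟨R, hR⟩ := hbd
  refine ⟨⟨B, v, b, H, max (max B R) (b.support.sup id)⟩, le_rfl, ?_, h1, h2, h3, ?_, ?_⟩
  · exact le_trans (le_max_left _ _) (le_max_left _ _)
  · intro a ha
    refine ⟨h5 a ha, ?_⟩
    have h6 : a ≤ b.support.sup id := Finset.le_sup (f := id) (Finsupp.mem_support_iff.2 ha)
    exact le_trans h6 (le_max_right _ _)
  · intro j hj s
    refine ⟨(hH j s hj).1, (hH j s hj).2, (hR j hj s).trans ?_⟩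
    have h7 : R ≤ max (max B R) (b.support.sup id) :=
      le_trans (le_max_right _ _) (le_max_left _ _)
    exact_mod_cast h7

/-- the sequence of pieces -/
theorem typ_exists_seq (z : ℕ → V) (hz : Sep z) (J0 q B : ℕ) (hJ : J0 ≤ B) :
    ∃ x : ℕ → TypDat, ∃ Bs : ℕ → ℕ, B ≤ Bs 0 ∧ (∀ s, TypGood z J0 q (Bs s) (x s)) ∧
      (∀ s s', s < s' → (x s).B ≤ Bs s') ∧ ∀ s, B ≤ Bs s := by
  classical
  have h : ∀ c : ℕ, ∃ x : TypDat, J0 ≤ c → TypGood z J0 q c x := by
    intro c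
    by_cases hc : J0 ≤ c
    · obtain ⟨x, hx⟩ := typ_exists_dat z hz J0 q c hc
      exact ⟨x, fun _ => hx⟩
    · exact ⟨⟨0, 0, 0, fun _ _ => 0, 0⟩, fun h => absurd h hc⟩
  choose g hg using h
  let Bs : ℕ → ℕ := fun s => Nat.rec B (fun _ c => (g c).B) s
  have hB0 : Bs 0 = B := rfl
  have hBs : ∀ s, Bs (s + 1) = (g (Bs s)).B := fun s => rfl
  have hge : ∀ s, B ≤ Bs s := by
    intro s
    induction s with
    | zero => exact le_of_eq hB0.symm
    | succ s ih =>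
      rw [hBs]
      exact le_trans ih (hg (Bs s) (hJ.trans ih)).2.1
  have hmono : Monotone Bs := by
    refine monotone_nat_of_le_succ fun s => ?_
    rw [hBs]
    exact (hg (Bs s) (hJ.trans (hge s))).2.1
  refine ⟨fun s => g (Bs s), Bs, hge 0, fun s => hg (Bs s) (hJ.trans (hge s)), ?_, hge⟩
  intro s s' hss
  show (g (Bs s)).B ≤ Bs s'
  rw [← hBs]
  exact hmono hss

theorem typ_q_le_two {v b : V} (hb : n1 b ≤ 1) (h : ∀ k, |T v k - b k| ≤ eps k * m k / 2) :
    q v ≤ 2 := by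
  have h1 : n1 (T v - b) ≤ 2 * (1 / 2 ^ 100) := by
    refine n1_le_geom _ _ (by positivity) fun a => ?_
    rw [Finsupp.sub_apply]
    refine (h a).trans ?_
    have h2 := eps_m_le a
    have h3 : 0 ≤ eps a * m a := mul_nonneg (eps_pos a).le (Nat.cast_nonneg _)
    linarith
  have h2 : T v = b + (T v - b) := by abel
  unfold q
  rw [h2]
  refine (n1_add_le _ _).trans ?_
  have h3 : (2 : ℝ) * (1 / 2 ^ 100) ≤ 1 := by norm_num
  linarith


/-! ### The two blocks -/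

/-- the index of the `s`-th piece -/
def typIdx (D a a' s : ℕ) : ℕ := if s < D then a * D + s else a' * D + (s - D)

theorem typIdx_lt {D a a' s s' : ℕ} (ha : a < a') (hs : s < s') :
    typIdx D a a' s < typIdx D a a' s' := by
  unfold typIdx
  have h1 : (a + 1) * D ≤ a' * D := Nat.mul_le_mul_right _ ha
  have h2 : (a + 1) * D = a * D + D := by ring
  split_ifs with h3 h4 h4
  · omega
  · omega
  · omega
  · omega

theorem typ_split (D : ℕ) (hD : 0 < D) (a a' : ℕ) (y : ℕ → V) :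
    (1 / 2 : ℝ) • (∑ s ∈ range D, (D : ℝ)⁻¹ • y (a * D + s)
        - ∑ s ∈ range D, (D : ℝ)⁻¹ • y (a' * D + s))
      = ∑ s ∈ range (2 * D), ((if s < D then (1 : ℝ) else -1) * ((2 * D : ℕ) : ℝ)⁻¹) •
          y (typIdx D a a' s) := by
  have hDr : (0 : ℝ) < D := by exact_mod_cast hD
  rw [two_mul, Finset.sum_range_add, smul_sub, Finset.smul_sum, Finset.smul_sum, sub_eq_add_neg,
    ← Finset.sum_neg_distrib]
  congr 1
  · refine Finset.sum_congr rfl fun s hs => ?_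
    have hs' := mem_range.1 hs
    have e : typIdx D a a' s = a * D + s := if_pos hs'
    rw [e, if_pos hs', smul_smul]
    congr 1
    push_cast
    field_simp
    norm_num
  · refine Finset.sum_congr rfl fun s hs => ?_
    have hs' : ¬ (D + s < D) := by omega
    have e : typIdx D a a' (D + s) = a' * D + s := by
      unfold typIdx
      rw [if_neg hs', Nat.add_sub_cancel_left]
    rw [e, if_neg hs', smul_smul, ← neg_smul]
    congr 1
    push_cast
    field_simp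
    norm_num

theorem type_vector (z : ℕ → V) (hz : Sep z) (J0 q N : ℕ) (hq : ∀ j, ¬ isQ j q) (h0 : J0 < q) :
    ∃ v b : V, TypeVec z J0 q v b ∧ ∀ a, b a ≠ 0 → N < a := by
  classical
  obtain ⟨q1, rfl⟩ : ∃ q1, q = q1 + 1 := ⟨q - 1, by omega⟩
  obtain ⟨x, Bs, _, hgood, hmono, hge⟩ := typ_exists_seq z hz J0 (q1 + 1) (max N (q1 + 1 + 1))
    (le_trans (by omega) (le_max_right _ _))
  obtain ⟨D, hDdef⟩ : ∃ D, D = m (q1 + 1) / 2 := ⟨_, rfl⟩
  have hD2 : 2 * D = m (q1 + 1) := by rw [hDdef]; exact m_even (q1 + 1)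
  have hm64 : 2 ^ 64 ≤ m (q1 + 1) := m_ge (q1 + 1)
  have hmpos : 0 < m (q1 + 1) := lt_of_lt_of_le (by norm_num) hm64
  have hDpos : 0 < D := by omega
  have hDr : (0 : ℝ) < D := by exact_mod_cast hDpos
  have hmr : (0 : ℝ) < (m (q1 + 1) : ℝ) := by exact_mod_cast hmpos
  have hsupp : ∀ s c, (x s).b c ≠ 0 → N < c ∧ q1 + 1 + 1 ≤ c := by
    intro s c hc
    have h1 := ((hgood s).2.2.2.2.2.1 c hc).1
    have h2 := hge s
    have h3 : max N (q1 + 1 + 1) < c := lt_of_le_of_lt h2 h1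
    exact ⟨lt_of_le_of_lt (le_max_left _ _) h3, (lt_of_le_of_lt (le_max_right _ _) h3).le⟩
  have hbn : ∀ s, n1 (x s).b ≤ 1 := by
    intro s
    have h1 := (hgood s).2.2.2.1
    rw [← n1_prt_add, h1.1, h1.2]
    norm_num
  -- smallness of the errors
  have heps0 : ∀ k, 0 ≤ eps k * m k := fun k => mul_nonneg (eps_pos k).le (Nat.cast_nonneg _)
  have hθ : ∀ (c : ℝ), 0 ≤ c → c ≤ 1 → ∀ k, 0 ≤ c * (eps k * m k) ∧
      c * (eps k * m k) ≤ (1 / 2 ^ 20 : ℝ) / 4 ^ k := by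
    intro c hc0 hc1 k
    refine ⟨mul_nonneg hc0 (heps0 k), ?_⟩
    have h1 := eps_m_le k
    have h2 : (1 / 2 ^ 100 : ℝ) / 4 ^ k ≤ (1 / 2 ^ 20 : ℝ) / 4 ^ k := by
      apply div_le_div_of_nonneg_right _ (by positivity)
      norm_num
    have h3 : c * (eps k * m k) ≤ 1 * (eps k * m k) := mul_le_mul_of_nonneg_right hc1 (heps0 k)
    linarith
  -- the blocks
  let Vc : ℕ → V := fun c => ∑ s ∈ range D, (D : ℝ)⁻¹ • (x (c * D + s)).v
  let bc : ℕ → V := fun c => ∑ s ∈ range D, (D : ℝ)⁻¹ • (x (c * D + s)).b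
  have hasum : ∑ s ∈ range D, |(D : ℝ)⁻¹| ≤ 1 := by
    rw [Finset.sum_const, card_range, nsmul_eq_mul, abs_of_pos (inv_pos.2 hDr),
      mul_inv_cancel₀ hDr.ne']
  have hmodel : ∀ c k, q1 + 1 + 1 ≤ k → |T (Vc c) k - bc c k| ≤ 5 / 8 * (eps k * m k) := by
    intro c k hk
    have h1 := comb_model D (fun _ => (D : ℝ)⁻¹) (fun s => (x (c * D + s)).v)
      (fun s => (x (c * D + s)).b) (q1 + 1 + 1) (fun k => 1 / 2 * (eps k * m k))
      (le_trans (by omega) (m_strictMono (Nat.lt_succ_self (q1 + 1))).le) hasum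
      (fun s _ => hbn _) (hθ (1 / 2) (by norm_num) (by norm_num))
      (fun s _ k _ => by
        have h2 := (hgood (c * D + s)).2.2.2.2.1 k
        refine h2.trans (le_of_eq ?_)
        ring) k hk
    refine h1.trans (le_of_eq ?_)
    ring
  have hqV : ∀ c, q (Vc c) ≤ 2 ^ D * 2 := by
    intro c
    refine (q_sum_crude D (fun _ => (D : ℝ)⁻¹) (fun s => (x (c * D + s)).v)).trans ?_
    refine mul_le_mul_of_nonneg_left ?_ (by positivity)
    have h1 : ∑ s ∈ range D, |(D : ℝ)⁻¹| * q (x (c * D + s)).v ≤ ∑ s ∈ range D, |(D : ℝ)⁻¹| * 2 := by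
      refine Finset.sum_le_sum fun s _ => mul_le_mul_of_nonneg_left ?_ (abs_nonneg _)
      exact typ_q_le_two (hbn _) (hgood (c * D + s)).2.2.2.2.1
    refine h1.trans ?_
    rw [← Finset.sum_mul]
    linarith
  have hbcn : ∀ c, n1 (bc c) ≤ 1 := by
    intro c
    refine (n1_sum_le D _).trans ?_
    have h1 : ∑ s ∈ range D, n1 ((D : ℝ)⁻¹ • (x (c * D + s)).b) ≤ ∑ s ∈ range D, |(D : ℝ)⁻¹| := by
      refine Finset.sum_le_sum fun s _ => ?_
      rw [n1_smul]
      have := hbn (c * D + s)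
      have h2 := abs_nonneg ((D : ℝ)⁻¹)
      nlinarith
    exact h1.trans hasum
  have hbcs : ∀ a c, bc a c ≠ 0 → q1 + 1 + 1 ≤ c := by
    intro a c hc
    obtain ⟨s, _, h2⟩ := sum_ne_zero_exists hc
    rw [Finsupp.smul_apply] at h2
    exact (hsupp _ c (right_ne_zero_of_smul h2)).2
  obtain ⟨a, a', _, haa, hlow, hhigh⟩ := reset (q1 + 1 + 1) Vc bc (fun k => 5 / 8 * (eps k * m k))
    (2 ^ D * 2) hqV (hθ (5 / 8) (by norm_num) (by norm_num)) hbcn hbcs hmodel 0
  -- the pieces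
  let I : ℕ → ℕ := typIdx D a a'
  let bb : ℕ → V := fun s => if s < D then (x (I s)).b else -(x (I s)).b
  have hI : ∀ s s', s < s' → I s < I s' := fun s s' h => typIdx_lt haa h
  have hbbne : ∀ s c, bb s c ≠ 0 → (x (I s)).b c ≠ 0 := by
    intro s c hc
    by_cases hs : s < D
    · have e : bb s = (x (I s)).b := if_pos hs
      rwa [e] at hc
    · have e : bb s = -(x (I s)).b := if_neg hs
      rw [e, Finsupp.neg_apply] at hc
      exact neg_ne_zero.1 hc
  have hbbS : Succs (m (q1 + 1)) (fun s => ⇑(bb s)) := by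
    intro r s hrs _ c d hc hd
    have h1 := ((hgood (I r)).2.2.2.2.2.1 c (hbbne r c hc)).2
    have h2 := ((hgood (I s)).2.2.2.2.2.1 d (hbbne s d hd)).1
    have h3 := hmono (I r) (I s) (hI r s hrs)
    omega
  have hb_eq : (1 / 2 : ℝ) • (bc a - bc a') = (m (q1 + 1) : ℝ)⁻¹ • ∑ s ∈ range (m (q1 + 1)), bb s := by
    have h1 := typ_split D hDpos a a' (fun s => (x s).b)
    refine h1.trans ?_
    rw [hD2, Finset.smul_sum]
    refine Finset.sum_congr rfl fun s _ => ?_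
    by_cases hs : s < D
    · have e : bb s = (x (I s)).b := if_pos hs
      rw [e, if_pos hs, one_mul]
    · have e : bb s = -(x (I s)).b := if_neg hs
      rw [e, if_neg hs, smul_neg, ← neg_smul]
      congr 1
      ring
  have hv_eq : (1 / 2 : ℝ) • (Vc a - Vc a') = ∑ s ∈ range (m (q1 + 1)),
      ((if s < D then (1 : ℝ) else -1) * (m (q1 + 1) : ℝ)⁻¹) • (x (I s)).v := by
    have h1 := typ_split D hDpos a a' (fun s => (x s).v)
    rw [hD2] at h1
    exact h1
  have hprt : ∀ (σ : Bool) (s : ℕ), prt σ (bb s) = prt (if s < D then σ else !σ) (x (I s)).b := by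
    intro σ s
    by_cases hs : s < D
    · have e : bb s = (x (I s)).b := if_pos hs
      rw [e, if_pos hs]
    · have e : bb s = -(x (I s)).b := if_neg hs
      rw [e, if_neg hs, prt_neg]
  have hpn : ∀ (σ : Bool) (s : ℕ), n1 (prt σ (bb s)) = 1 / 2 := by
    intro σ s
    rw [hprt]
    have h1 := (hgood (I s)).2.2.2.1
    cases (if s < D then σ else !σ)
    · exact h1.2
    · exact h1.1
  have hprtS : ∀ σ : Bool, Succs (m (q1 + 1)) (fun s => ⇑(prt σ (bb s))) := fun σ =>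
    hbbS.mono (fun r _ c hc => prt_ne_zero hc)
  set b : V := (1 / 2 : ℝ) • (bc a - bc a') with hb
  set v : V := (1 / 2 : ℝ) • (Vc a - Vc a') with hv
  have hprtb : ∀ σ : Bool, prt σ b = (m (q1 + 1) : ℝ)⁻¹ • ∑ s ∈ range (m (q1 + 1)), prt σ (bb s) := by
    intro σ
    rw [hb_eq, prt_smul σ _ (inv_nonneg.2 hmr.le), prt_sum_of_succs σ _ _ hbbS]
  have hdual : ∀ j, j ≤ J0 → ∀ σ : Bool, ∃ G : V, TypeG j (q1 + 1) G ∧ Rep j (prt σ b) G 5 ∧
      ∃ ψ : ℕ → ℕ → ℝ, (∀ r, r < m (q1 + 1) → KK j (ψ r)) ∧ Succs (m (q1 + 1)) ψ ∧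
      (∀ r, r < m (q1 + 1) → ∀ a, ψ r a ≠ 0 → prt σ b a ≠ 0) ∧
      (∀ a, prt σ b a ≠ 0 → 0 < av (W (q1 + 1) : ℝ)⁻¹ (m (q1 + 1)) ψ a) ∧
      Phi j (prt σ b) - 5 ≤ lg (prt σ b) (av (W (q1 + 1) : ℝ)⁻¹ (m (q1 + 1)) ψ) := by
    intro j hj σ
    let H : ℕ → V := fun s => (x (I s)).H j (if s < D then σ else !σ)
    have hRep : ∀ s, s < m (q1 + 1) → Rep j (prt σ (bb s)) (H s) 2 := by
      intro s _
      rw [hprt]
      exact ((hgood (I s)).2.2.2.2.2.2 j hj _).2.1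
    have hRIS : RIS j (q1 + 1) (m (q1 + 1)) H (fun s => 2 * m (x (I s)).i) := by
      refine ⟨?_, ?_, ?_, ?_⟩
      · exact (hprtS σ).mono (fun r hr c hc => ((hRep r hr).2.1 c).1 hc)
      · intro s _
        exact ((hgood (I s)).2.2.2.2.2.2 j hj _).1
      · intro s _
        have h1 : q1 + 1 ≤ (x (I s)).i := by
          have h2 := (hgood (I s)).1
          have h3 := hge (I s)
          have h4 : q1 + 1 + 1 ≤ max N (q1 + 1 + 1) := le_max_right _ _
          omega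
        have h5 : m (q1 + 1) ≤ m (x (I s)).i := m_strictMono.monotone h1
        show m (q1 + 1) ≤ 2 * m (x (I s)).i
        omega
      · intro s s' hss _ i hi
        have h1 := ((hgood (I s)).2.2.2.2.2.2 j hj (if s < D then σ else !σ)).2.2
        have h2 : (U i : ℝ) ≤ ((x (I s)).B : ℝ) := le_trans hi h1
        have h3 : U i ≤ (x (I s)).B := by exact_mod_cast h2
        have h4 := succ_le_U i
        have h5 := hmono (I s) (I s') (hI s s' hss)
        have h6 := (hgood (I s')).1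
        have h7 : i ≤ (x (I s')).i := by omega
        have h8 : m i ≤ m (x (I s')).i := m_strictMono.monotone h7
        show m i ≤ 2 * m (x (I s')).i
        omega
    have hTG := typeG_of_RIS j q1 (hq j) H (fun s => 2 * m (x (I s)).i) hRIS
    obtain ⟨hR, hψ⟩ := typ_dual j (q1 + 1) (fun s => prt σ (bb s)) H
      (fun s _ => prt_nonneg σ _) (hprtS σ) (fun s _ => hpn σ s) hRep hTG.1
    rw [hprtb]
    exact ⟨_, hTG, hR, hψ⟩
  refine ⟨v, b, ⟨?_, ?_, ?_, ?_, ?_⟩, ?_⟩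
  · rw [hv_eq]
    refine typ_cmb_wsum (by norm_num) _ _ _ ?_ (fun s _ => (hgood (I s)).2.2.1)
    have h1 : ∀ s ∈ range (m (q1 + 1)), |(if s < D then (1 : ℝ) else -1) * (m (q1 + 1) : ℝ)⁻¹|
        = (m (q1 + 1) : ℝ)⁻¹ := by
      intro s _
      rw [abs_mul, abs_of_pos (inv_pos.2 hmr)]
      split_ifs <;> simp
    rw [Finset.sum_congr rfl h1, Finset.sum_const, card_range, nsmul_eq_mul,
      mul_inv_cancel₀ hmr.ne']
  · have h1 : ∀ σ : Bool, n1 (prt σ b) = 1 / 2 := by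
      intro σ
      rw [hprtb, n1_smul, n1_sum_of_nonneg _ _ (fun s _ => prt_nonneg σ _),
        Finset.sum_congr rfl (fun s _ => hpn σ s), Finset.sum_const, card_range, nsmul_eq_mul,
        abs_of_pos (inv_pos.2 hmr)]
      field_simp
    exact ⟨h1 true, h1 false⟩
  · intro k
    have hmk : (2 : ℝ) ^ 64 ≤ (m k : ℝ) := by exact_mod_cast m_ge k
    have hek := eps_pos k
    have h64 : (16 * 8 : ℝ) ≤ 2 ^ 64 := by norm_num
    have h8 : 8 * eps k ≤ 3 / 8 * (eps k * m k) := by nlinarith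
    by_cases hk : k < q1 + 1 + 1
    · have hbk : b k = 0 := by
        by_contra hne
        rw [hb, Finsupp.smul_apply, Finsupp.sub_apply, smul_eq_mul] at hne
        have h2 : bc a k ≠ 0 ∨ bc a' k ≠ 0 := by
          by_contra hcon
          push Not at hcon
          apply hne
          rw [hcon.1, hcon.2]
          ring
        rcases h2 with h2 | h2
        · have := hbcs a k h2
          omega
        · have := hbcs a' k h2
          omega
      rw [hbk, sub_zero]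
      refine (hlow k hk).trans ?_
      nlinarith
    · have h2 := hhigh k (not_lt.1 hk)
      refine h2.trans ?_
      have h3 : (fun k => 5 / 8 * (eps k * (m k : ℝ))) k = 5 / 8 * (eps k * m k) := rfl
      linarith
  · intro j hj σ
    obtain ⟨G, h1, h2, _⟩ := hdual j hj σ
    exact ⟨G, h1, h2⟩
  · intro j hj
    obtain ⟨G, _, _, ψ, h3, h4, h5, h6, h7⟩ := hdual j hj true
    exact ⟨m (q1 + 1), ψ, le_rfl, h3, h4,
      fun r hr c hc => Finsupp.mem_support_iff.2 (h5 r hr c hc),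
      fun c hc => h6 c (Finsupp.mem_support_iff.1 hc), h7⟩
  · intro c hc
    rw [hb_eq, Finsupp.smul_apply] at hc
    obtain ⟨s, _, h2⟩ := sum_ne_zero_exists (right_ne_zero_of_smul hc)
    exact (hsupp _ c (hbbne s c h2)).1

end Pool.Agent.Atomic
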